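import Pool.Agent.Lib_helper16.RA.Basics

/-!
MP_20f8ce_gt, block F1 : the hyperbolic volume of a cone is `7` times the Lebesgue measure of the
truncated cone.
-/

open MeasureTheory Filter Topology

namespace Pool.Agent.RA

section F

/-- hyperbolic 6-space, hyperboloid model -/
def Hyp : Set (M 6) := {x | B x x = -1 ∧ 0 < x.2}

/-- Hyperbolic volume: the volume element is `dx₁⋯dx₆/√(1+|x|²)` in the coordinates given by the
vertical projection of the hyperboloid to `ℝ⁶`. -/
noncomputable def hvol (A : Set (M 6)) : ENNReal :=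
  ∫⁻ u in Prod.fst '' (A ∩ Hyp), ENNReal.ofReal (1 / Real.sqrt (1 + ∑ i, u i ^ 2))

lemma fst_image_inter_Hyp (A : Set (M 6)) :
    Prod.fst '' (A ∩ Hyp) = {u | ((u, Real.sqrt (1 + ∑ i, u i ^ 2)) : M 6) ∈ A} := by
  ext u
  constructor
  · rintro ⟨⟨u', t⟩, ⟨hA, h1, h2⟩, rfl⟩
    simp only [B_self] at h1 h2
    have h3 : Real.sqrt (1 + ∑ i, u' i ^ 2) = t := by
      rw [show 1 + ∑ i, u' i ^ 2 = t ^ 2 by linarith]
      exact Real.sqrt_sq h2.le
    show ((u', Real.sqrt (1 + ∑ i, u' i ^ 2)) : M 6) ∈ A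
    rw [h3]
    exact hA
  · intro h
    have hp : 0 < 1 + ∑ i, u i ^ 2 := by positivity
    refine ⟨(u, Real.sqrt (1 + ∑ i, u i ^ 2)), ⟨h, ?_, ?_⟩, rfl⟩
    · rw [B_self]
      simp only
      rw [Real.sq_sqrt hp.le]
      ring
    · exact Real.sqrt_pos.2 hp

/-- one-dimensional substitution -/
lemma volume_fiber (c : ℝ) (hc : 0 ≤ c) (S : Set ℝ) (hS : MeasurableSet S)
    (hS1 : ∀ t ∈ S, 0 ≤ t ∧ c ≤ t ^ 2 ∧ t ^ 2 ≤ c + 1) :
    volume S = ∫⁻ r in Set.Ioc (0:ℝ) 1, S.indicator 1 (Real.sqrt (r ^ 2 + c)) *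
      ENNReal.ofReal (r / Real.sqrt (r ^ 2 + c)) := by
  set R : Set ℝ := Set.Ioc (0:ℝ) 1 ∩ (fun r => Real.sqrt (r ^ 2 + c)) ⁻¹' S with hR
  have hcont : Continuous (fun r : ℝ => Real.sqrt (r ^ 2 + c)) := by fun_prop
  have hRm : MeasurableSet R := measurableSet_Ioc.inter (hcont.measurable hS)
  have himg : (fun r : ℝ => Real.sqrt (r ^ 2 + c)) '' R = S \ {Real.sqrt c} := by
    ext t
    constructor
    · rintro ⟨r, ⟨hr, hrS⟩, rfl⟩
      refine ⟨hrS, ?_⟩
      simp only [Set.mem_singleton_iff]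
      intro h
      have := (Real.sqrt_inj (by positivity) hc).1 h
      have : r ^ 2 = 0 := by linarith
      have : 0 < r ^ 2 := by have := hr.1; positivity
      linarith
    · rintro ⟨ht, ht'⟩
      obtain ⟨h0, h1, h2⟩ := hS1 t ht
      have hne : c ≠ t ^ 2 := by
        rintro rfl
        exact ht' (by simp [Real.sqrt_sq h0])
      have hlt : 0 < t ^ 2 - c := by
        rcases lt_or_eq_of_le h1 with h | h
        · linarith
        · exact absurd h hne
      have hval : Real.sqrt ((Real.sqrt (t ^ 2 - c)) ^ 2 + c) = t := by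
        rw [Real.sq_sqrt hlt.le]
        rw [show t ^ 2 - c + c = t ^ 2 by ring]
        exact Real.sqrt_sq h0
      refine ⟨Real.sqrt (t ^ 2 - c), ⟨⟨Real.sqrt_pos.2 hlt, ?_⟩, ?_⟩, hval⟩
      · exact Real.sqrt_le_one.2 (by linarith)
      · show Real.sqrt ((Real.sqrt (t ^ 2 - c)) ^ 2 + c) ∈ S; rw [hval]; exact ht
  have hinj : Set.InjOn (fun r : ℝ => Real.sqrt (r ^ 2 + c)) R := by
    intro a ha b hb hab
    have ha0 := ha.1.1
    have hb0 := hb.1.1
    have := (Real.sqrt_inj (by positivity) (by positivity)).1 hab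
    have h2 : a ^ 2 = b ^ 2 := by linarith
    exact (pow_left_inj₀ ha0.le hb0.le (by norm_num)).1 h2
  have hder : ∀ r ∈ R, HasDerivWithinAt (fun r : ℝ => Real.sqrt (r ^ 2 + c))
      (r / Real.sqrt (r ^ 2 + c)) R r := by
    intro r hr
    have hr0 := hr.1.1
    have hp : r ^ 2 + c ≠ 0 := by positivity
    have h1 : HasDerivAt (fun r : ℝ => r ^ 2 + c) (2 * r) r := by
      simpa using (hasDerivAt_pow 2 r).add_const c
    have h2 := h1.sqrt hp
    refine (h2.congr_deriv ?_).hasDerivWithinAt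
    have : Real.sqrt (r ^ 2 + c) ≠ 0 := (Real.sqrt_pos.2 (by positivity)).ne'
    field_simp
  have hvol : volume S = volume (S \ {Real.sqrt c}) := by
    rw [measure_sdiff_null (measure_singleton _)]
  rw [hvol, ← himg]
  have key := lintegral_image_eq_lintegral_abs_deriv_mul hRm hder hinj (fun _ => 1)
  simp only [setLIntegral_one, mul_one] at key
  rw [key, hR, Set.inter_comm, ← setLIntegral_indicator (hcont.measurable hS)]
  refine setLIntegral_congr_fun measurableSet_Ioc fun r hr => ?_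
  have hr0 : 0 < r := hr.1
  by_cases h : Real.sqrt (r ^ 2 + c) ∈ S
  · rw [Set.indicator_of_mem (s := (fun r => Real.sqrt (r ^ 2 + c)) ⁻¹' S) h,
      Set.indicator_of_mem h, abs_of_nonneg (by positivity)]
    simp
  · rw [Set.indicator_of_notMem (s := (fun r => Real.sqrt (r ^ 2 + c)) ⁻¹' S) h,
      Set.indicator_of_notMem h]
    simp

/-- substitution `y = r u` -/
lemma lintegral_scale (f : (Fin 6 → ℝ) → ENNReal) (r : ℝ) (hr : 0 < r) :
    ∫⁻ y, f y = ENNReal.ofReal (r ^ 6) * ∫⁻ u, f (r • u) := by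
  have h1 : ∫⁻ u, f (r • u) = ∫⁻ y, f y ∂(Measure.map (r • ·) volume) := by
    have := (Homeomorph.smul (isUnit_iff_ne_zero.2 hr.ne').unit :
      (Fin 6 → ℝ) ≃ₜ (Fin 6 → ℝ)).measurableEmbedding.lintegral_map
      (μ := (volume : Measure (Fin 6 → ℝ))) f
    exact this.symm
  rw [h1, Measure.map_addHaar_smul _ hr.ne', lintegral_smul_measure]
  simp only [Module.finrank_fintype_fun_eq_card, Fintype.card_fin, smul_eq_mul]
  rw [← mul_assoc, ← ENNReal.ofReal_mul (by positivity), abs_of_pos (by positivity),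
    mul_inv_cancel₀ (by positivity)]
  simp

/-- volume of the polytope = 7 × Lebesgue measure of the truncated cone -/
theorem hvol_cone (C : Set (M 6)) (hC : IsClosed C)
    (hcone : ∀ x ∈ C, ∀ t : ℝ, 0 < t → t • x ∈ C) (hneg : ∀ x ∈ C, B x x ≤ 0 ∧ 0 ≤ x.2) :
    hvol C = 7 * volume (C ∩ {x | -1 ≤ B x x}) := by
  set U : Set (Fin 6 → ℝ) := {u | ((u, Real.sqrt (1 + ∑ i, u i ^ 2)) : M 6) ∈ C} with hU
  have hDm : MeasurableSet (C ∩ {x : M 6 | -1 ≤ B x x}) :=
    hC.measurableSet.inter (isClosed_le continuous_const continuous_Q).measurableSet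
  have hlift : Continuous (fun u : Fin 6 → ℝ => ((u, Real.sqrt (1 + ∑ i, u i ^ 2)) : M 6)) := by
    fun_prop
  have hUm : MeasurableSet U := (hC.preimage hlift).measurableSet
  have hlift2 : Continuous (fun q : (Fin 6 → ℝ) × ℝ =>
      ((q.1, Real.sqrt (q.2 ^ 2 + ∑ i, q.1 i ^ 2)) : M 6)) := by
    fun_prop
  set W : Set ((Fin 6 → ℝ) × ℝ) := {q | ((q.1, Real.sqrt (q.2 ^ 2 + ∑ i, q.1 i ^ 2)) : M 6) ∈ C}
    with hW
  have hWm : MeasurableSet W := (hC.preimage hlift2).measurableSet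
  set F : (Fin 6 → ℝ) → ℝ → ENNReal := fun y r => W.indicator 1 (y, r) *
    ENNReal.ofReal (r / Real.sqrt (r ^ 2 + ∑ i, y i ^ 2)) with hF
  have hFm : Measurable (Function.uncurry F) := by
    refine Measurable.mul ?_ ?_
    · exact (measurable_const.indicator hWm)
    · fun_prop
  have step1 : volume (C ∩ {x : M 6 | -1 ≤ B x x}) =
      ∫⁻ y : Fin 6 → ℝ, ∫⁻ r in Set.Ioc (0:ℝ) 1, F y r := by
    rw [Measure.volume_eq_prod, Measure.prod_apply hDm]
    refine lintegral_congr fun y => ?_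
    rw [volume_fiber (∑ i, y i ^ 2) (by positivity) _ (measurable_prodMk_left hDm)]
    · refine setLIntegral_congr_fun measurableSet_Ioc fun r hr => ?_
      simp only [hF]
      congr 1
      have hiff : (Real.sqrt (r ^ 2 + ∑ i, y i ^ 2) ∈
          Prod.mk y ⁻¹' (C ∩ {x : M 6 | -1 ≤ B x x})) ↔ (y, r) ∈ W := by
        constructor
        · rintro ⟨h, -⟩
          exact h
        · intro h
          refine ⟨h, ?_⟩
          show -1 ≤ B _ _
          rw [B_self]
          simp only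
          rw [Real.sq_sqrt (by positivity)]
          have := hr.1; have := hr.2
          nlinarith
      by_cases h : (y, r) ∈ W
      · rw [Set.indicator_of_mem h, Set.indicator_of_mem (hiff.2 h)]
        rfl
      · rw [Set.indicator_of_notMem h, Set.indicator_of_notMem (fun h' => h (hiff.1 h'))]
    · rintro t ⟨h1, h2⟩
      have h3 := hneg _ h1
      have h4 : (-1 : ℝ) ≤ B ((y, t) : M 6) (y, t) := h2
      rw [B_self] at h3 h4
      simp only at h3 h4
      exact ⟨h3.2, by linarith [h3.1], by linarith⟩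
  have step2 : ∫⁻ y : Fin 6 → ℝ, ∫⁻ r in Set.Ioc (0:ℝ) 1, F y r =
      ∫⁻ r in Set.Ioc (0:ℝ) 1, ∫⁻ y : Fin 6 → ℝ, F y r :=
    lintegral_lintegral_swap hFm.aemeasurable
  have step3 : ∀ r ∈ Set.Ioc (0:ℝ) 1, ∫⁻ y : Fin 6 → ℝ, F y r =
      ENNReal.ofReal (r ^ 6) * hvol C := by
    intro r hr
    have hr0 : 0 < r := hr.1
    rw [lintegral_scale _ r hr0]
    congr 1
    rw [hvol, fst_image_inter_Hyp, ← lintegral_indicator hUm]
    refine lintegral_congr fun u => ?_
    have hsq : Real.sqrt (r ^ 2 + ∑ i, (r • u) i ^ 2) = r * Real.sqrt (1 + ∑ i, u i ^ 2) := by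
      rw [show r ^ 2 + ∑ i, (r • u) i ^ 2 = r ^ 2 * (1 + ∑ i, u i ^ 2) by
        simp only [Pi.smul_apply, smul_eq_mul, mul_pow, ← Finset.mul_sum]; ring]
      rw [Real.sqrt_mul (by positivity), Real.sqrt_sq hr0.le]
    have hsp : 0 < Real.sqrt (1 + ∑ i, u i ^ 2) := Real.sqrt_pos.2 (by positivity)
    have hiff : (r • u, r) ∈ W ↔ u ∈ U := by
      have heq : ((r • u, Real.sqrt (r ^ 2 + ∑ i, (r • u) i ^ 2)) : M 6) =
          r • ((u, Real.sqrt (1 + ∑ i, u i ^ 2)) : M 6) := by
        rw [hsq]; rfl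
      constructor
      · intro h
        have h' : ((r • u, Real.sqrt (r ^ 2 + ∑ i, (r • u) i ^ 2)) : M 6) ∈ C := h
        rw [heq] at h'
        have := hcone _ h' r⁻¹ (by positivity)
        rwa [smul_smul, inv_mul_cancel₀ hr0.ne', one_smul] at this
      · intro h
        show ((r • u, Real.sqrt (r ^ 2 + ∑ i, (r • u) i ^ 2)) : M 6) ∈ C
        rw [heq]
        exact hcone _ h r hr0
    simp only [hF]
    rw [hsq]
    by_cases h : u ∈ U
    · rw [Set.indicator_of_mem (hiff.2 h), Set.indicator_of_mem h]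
      simp only [Pi.one_apply, one_mul]
      congr 1
      field_simp
    · rw [Set.indicator_of_notMem (fun h' => h (hiff.1 h')), Set.indicator_of_notMem h]
      simp
  rw [step1, step2, setLIntegral_congr_fun measurableSet_Ioc step3,
    lintegral_mul_const _ (by fun_prop)]
  have step4 : ∫⁻ r in Set.Ioc (0:ℝ) 1, ENNReal.ofReal (r ^ 6) = ENNReal.ofReal (1 / 7) := by
    rw [← ofReal_integral_eq_lintegral_ofReal]
    · rw [← intervalIntegral.integral_of_le (by norm_num)]
      congr 1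
      rw [integral_pow]
      norm_num
    · exact ((continuous_pow 6).integrableOn_Icc).mono_set Set.Ioc_subset_Icc_self
    · filter_upwards [ae_restrict_mem measurableSet_Ioc] with r hr
      have := hr.1
      positivity
  rw [step4, ← mul_assoc]
  have : (7 : ENNReal) * ENNReal.ofReal (1 / 7) = 1 := by
    rw [show (7 : ENNReal) = ENNReal.ofReal 7 by simp, ← ENNReal.ofReal_mul (by norm_num)]
    norm_num
  rw [this, one_mul]

end F

end Pool.Agent.RA
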