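import Pool.Agent.Lib_helper6.RAHyp

/-!
MP_20f8ce_gt, block F2 : the normals of a right-angled polytope of finite volume.
-/

open MeasureTheory Filter Topology

namespace Pool.Agent.RA

section F

/-- a point of hyperbolic space and a future causal vector -/
lemma B_neg_of_causal {x w : M 6} (hx : x ∈ Hyp) (hw0 : w ≠ 0) (hw : B w w ≤ 0) (hw2 : 0 ≤ w.2) :
    B x w < 0 := by
  obtain ⟨hx1, hx2⟩ := hx
  rw [B_self] at hx1 hw
  have hs : 0 < w.2 := by
    rcases lt_or_eq_of_le hw2 with h | h
    · exact h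
    · exfalso
      apply hw0
      apply E2_eq_zero
      rw [← h] at hw
      have h1 : 0 ≤ ∑ i, w.1 i ^ 2 := by positivity
      rw [E2, ← h]
      nlinarith
  have cs : (∑ i, x.1 i * w.1 i) ^ 2 ≤ (∑ i, x.1 i ^ 2) * ∑ i, w.1 i ^ 2 :=
    Finset.sum_mul_sq_le_sq_mul_sq _ _ _
  have h1 : 0 ≤ ∑ i, x.1 i ^ 2 := by positivity
  have h2 : (∑ i, x.1 i * w.1 i) ^ 2 < (x.2 * w.2) ^ 2 := by
    calc (∑ i, x.1 i * w.1 i) ^ 2 ≤ (∑ i, x.1 i ^ 2) * ∑ i, w.1 i ^ 2 := cs
      _ ≤ (∑ i, x.1 i ^ 2) * w.2 ^ 2 := by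
          apply mul_le_mul_of_nonneg_left _ h1
          linarith
      _ < (x.2 * w.2) ^ 2 := by
          rw [mul_pow]
          have : 0 < w.2 ^ 2 := by positivity
          nlinarith
  have h3 := abs_lt_of_sq_lt_sq h2 (by positivity)
  have h4 := (abs_lt.1 h3).2
  rw [B]
  linarith

/-- A cone containing a neighbourhood of a lightlike vector has infinite hyperbolic volume. -/
lemma hvol_eq_top {A V : Set (M 6)} (hV : IsOpen V)
    (hcone : ∀ x ∈ V, ∀ t : ℝ, 0 < t → t • x ∈ V) (hVA : V ⊆ A) {q : M 6} (hqV : q ∈ V)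
    (hq : B q q = 0) (hq2 : 0 < q.2) : hvol A = ⊤ := by
  set ω : Fin 6 → ℝ := fun i => q.1 i / q.2 with hω
  have hω1 : ∑ i, ω i ^ 2 = 1 := by
    rw [B_self] at hq
    simp only [hω, div_pow, ← Finset.sum_div]
    rw [div_eq_one_iff_eq (by positivity)]
    linarith
  have hωV : ((ω, 1) : M 6) ∈ V := by
    have h := hcone q hqV (q.2)⁻¹ (by positivity)
    have : (q.2)⁻¹ • q = ((ω, 1) : M 6) := by
      ext i
      · simp [hω, div_eq_inv_mul]
      · simp [hq2.ne']
    rwa [this] at h
  have hΦ : Continuous (fun q : (Fin 6 → ℝ) × ℝ =>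
      ((q.1, Real.sqrt (q.2 ^ 2 + ∑ i, q.1 i ^ 2)) : M 6)) := by
    fun_prop
  have hopen := hV.preimage hΦ
  have hmem : ((ω, (0:ℝ)) : (Fin 6 → ℝ) × ℝ) ∈ (fun q : (Fin 6 → ℝ) × ℝ =>
      ((q.1, Real.sqrt (q.2 ^ 2 + ∑ i, q.1 i ^ 2)) : M 6)) ⁻¹' V := by
    show ((ω, Real.sqrt ((0:ℝ) ^ 2 + ∑ i, ω i ^ 2)) : M 6) ∈ V
    rw [hω1]
    simpa using hωV
  obtain ⟨ε, hε, hball⟩ := Metric.isOpen_iff.1 hopen _ hmem
  set c : ℝ := ∑ i, (|ω i| + ε) ^ 2 with hc
  have hc0 : 0 ≤ c := by positivity
  have hcb : ∀ v ∈ Metric.ball ω ε, ∑ i, v i ^ 2 ≤ c := by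
    intro v hv
    refine Finset.sum_le_sum fun i _ => ?_
    have h1 : |v i - ω i| < ε := by
      have h2 := dist_le_pi_dist v ω i
      rw [Real.dist_eq] at h2
      exact lt_of_le_of_lt h2 hv
    have h3 : |v i| ≤ |ω i| + ε := by
      have := abs_add_le (v i - ω i) (ω i)
      rw [sub_add_cancel] at this
      linarith
    calc v i ^ 2 = |v i| ^ 2 := (sq_abs _).symm
      _ ≤ (|ω i| + ε) ^ 2 := by gcongr
  set U : Set (Fin 6 → ℝ) := {u | ((u, Real.sqrt (1 + ∑ i, u i ^ 2)) : M 6) ∈ V} with hU
  have hlift : Continuous (fun u : Fin 6 → ℝ => ((u, Real.sqrt (1 + ∑ i, u i ^ 2)) : M 6)) := by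
    fun_prop
  have hUm : MeasurableSet U := (hV.preimage hlift).measurableSet
  have hsub : ∀ s : ℝ, 1 / ε < s → ∀ v ∈ Metric.ball ω ε, s • v ∈ U := by
    intro s hs v hv
    have hs0 : 0 < s := lt_trans (by positivity) hs
    have h1 : ((v, 1 / s) : (Fin 6 → ℝ) × ℝ) ∈ Metric.ball ((ω, (0:ℝ)) : (Fin 6 → ℝ) × ℝ) ε := by
      rw [← ball_prod_same]
      refine ⟨hv, ?_⟩
      rw [Metric.mem_ball, Real.dist_eq, sub_zero, abs_of_pos (by positivity)]
      rw [div_lt_iff₀ hs0]
      rw [div_lt_iff₀ hε] at hs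
      linarith
    have h2 : ((v, Real.sqrt ((1 / s) ^ 2 + ∑ i, v i ^ 2)) : M 6) ∈ V := hball h1
    have h3 := hcone _ h2 s hs0
    have h4 : s • ((v, Real.sqrt ((1 / s) ^ 2 + ∑ i, v i ^ 2)) : M 6) =
        ((s • v, Real.sqrt (1 + ∑ i, (s • v) i ^ 2)) : M 6) := by
      have : Real.sqrt (1 + ∑ i, (s • v) i ^ 2) = s * Real.sqrt ((1 / s) ^ 2 + ∑ i, v i ^ 2) := by
        rw [show 1 + ∑ i, (s • v) i ^ 2 = s ^ 2 * ((1 / s) ^ 2 + ∑ i, v i ^ 2) by
          simp only [Pi.smul_apply, smul_eq_mul, mul_pow, ← Finset.mul_sum]; field_simp]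
        rw [Real.sqrt_mul (by positivity), Real.sqrt_sq hs0.le]
      rw [this]
      rfl
    rw [h4] at h3
    exact h3
  have hlow : ∀ s : ℝ, 1 / ε < s → 1 ≤ s →
      ENNReal.ofReal (s / Real.sqrt (1 + c)) * volume (Metric.ball ω ε) ≤ hvol A := by
    intro s hs hs1
    have hs0 : 0 < s := by linarith
    have hsc : 0 < Real.sqrt (1 + c) := Real.sqrt_pos.2 (by positivity)
    have h0 : ∫⁻ u in U, ENNReal.ofReal (1 / Real.sqrt (1 + ∑ i, u i ^ 2)) ≤ hvol A := by
      rw [hvol, fst_image_inter_Hyp]
      exact lintegral_mono_set fun u hu => hVA hu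
    refine le_trans ?_ h0
    rw [← lintegral_indicator hUm, lintegral_scale _ s hs0]
    have h1 : ENNReal.ofReal (1 / (s * Real.sqrt (1 + c))) * volume (Metric.ball ω ε) ≤
        ∫⁻ v, U.indicator (fun u => ENNReal.ofReal (1 / Real.sqrt (1 + ∑ i, u i ^ 2))) (s • v) := by
      rw [← setLIntegral_const, ← lintegral_indicator measurableSet_ball]
      refine lintegral_mono fun v => ?_
      by_cases hv : v ∈ Metric.ball ω ε
      · rw [Set.indicator_of_mem hv, Set.indicator_of_mem (hsub s hs v hv)]
        apply ENNReal.ofReal_le_ofReal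
        apply one_div_le_one_div_of_le (Real.sqrt_pos.2 (by positivity))
        rw [show s * Real.sqrt (1 + c) = Real.sqrt (s ^ 2 * (1 + c)) by
          rw [Real.sqrt_mul (by positivity), Real.sqrt_sq hs0.le]]
        apply Real.sqrt_le_sqrt
        have h2 := hcb v hv
        have h3 : ∑ i, (s • v) i ^ 2 = s ^ 2 * ∑ i, v i ^ 2 := by
          simp only [Pi.smul_apply, smul_eq_mul, mul_pow, ← Finset.mul_sum]
        rw [h3]
        have h4 : s ^ 2 * ∑ i, v i ^ 2 ≤ s ^ 2 * c := by gcongr
        nlinarith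
      · rw [Set.indicator_of_notMem hv]
        exact bot_le
    calc ENNReal.ofReal (s / Real.sqrt (1 + c)) * volume (Metric.ball ω ε)
        ≤ ENNReal.ofReal (s ^ 6) * (ENNReal.ofReal (1 / (s * Real.sqrt (1 + c))) *
          volume (Metric.ball ω ε)) := by
          rw [← mul_assoc, ← ENNReal.ofReal_mul (by positivity)]
          gcongr
          rw [mul_one_div, div_le_div_iff₀ hsc (by positivity)]
          have : s * s ≤ s ^ 6 := by
            calc s * s = s ^ 2 := by ring
              _ ≤ s ^ 6 := pow_le_pow_right₀ hs1 (by norm_num)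
          nlinarith
      _ ≤ _ := by gcongr
  by_contra hne
  have hb0 : 0 < volume (Metric.ball ω ε) := Metric.measure_ball_pos _ _ hε
  have hb1 : volume (Metric.ball ω ε) ≠ ⊤ := measure_ball_lt_top.ne
  set β : ℝ := (volume (Metric.ball ω ε)).toReal with hβ
  have hβ0 : 0 < β := ENNReal.toReal_pos hb0.ne' hb1
  set H : ℝ := (hvol A).toReal with hH
  have hH0 : 0 ≤ H := ENNReal.toReal_nonneg
  have hsc : 0 < Real.sqrt (1 + c) := Real.sqrt_pos.2 (by positivity)
  set s : ℝ := 1 / ε + 1 + H * Real.sqrt (1 + c) / β with hs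
  have hs1 : 1 / ε < s := by
    have : 0 ≤ H * Real.sqrt (1 + c) / β := by positivity
    linarith
  have hs2 : 1 ≤ s := by
    have : 0 ≤ H * Real.sqrt (1 + c) / β := by positivity
    have : 0 < 1 / ε := by positivity
    linarith
  have h := hlow s hs1 hs2
  rw [← ENNReal.ofReal_toReal hb1, ← ENNReal.ofReal_toReal hne,
    ← ENNReal.ofReal_mul (by positivity), ENNReal.ofReal_le_ofReal_iff hH0] at h
  have h5 : H * Real.sqrt (1 + c) / β < s := by
    have : 0 < 1 / ε := by positivity
    linarith
  rw [div_lt_iff₀ hβ0] at h5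
  have h6 : s / Real.sqrt (1 + c) * β = (s * β) / Real.sqrt (1 + c) := by ring
  rw [h6, div_le_iff₀ hsc] at h
  linarith

/-- normals of a right-angled polytope of finite volume -/
theorem rasys_of_polytope {k : ℕ} (e : Fin k → M 6)
    (hunit : ∀ i, B (e i) (e i) = 1)
    (hint : ∃ x ∈ Hyp, ∀ i, B x (e i) < 0)
    (hirr : ∀ i, ∃ x ∈ Hyp, 0 < B x (e i) ∧ ∀ j, j ≠ i → B x (e j) ≤ 0)
    (hra : ∀ i j, i ≠ j → (∃ x ∈ Hyp, B x (e i) = 0 ∧ B x (e j) = 0) → B (e i) (e j) = 0)
    (hvolfin : hvol {x | ∀ i, B x (e i) ≤ 0} < ⊤) :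
    ∃ R : RASys 6 (Fin k), R.e = e ∧ 0 < R.p.2 := by
  obtain ⟨p, hp, hpe⟩ := hint
  have hp1 : B p p = -1 := hp.1
  -- Gram matrix
  have hgram : ∀ i j, i ≠ j → B (e i) (e j) = 0 ∨ B (e i) (e j) ≤ -1 := by
    intro i j hij
    by_contra hcon
    push Not at hcon
    obtain ⟨hc0, hc1⟩ := hcon
    rcases lt_or_ge (B (e i) (e j)) 1 with hlt | hge
    · -- the hyperplanes intersect
      apply hc0
      apply hra i j hij
      set c := B (e i) (e j) with hc
      set α := B p (e i) with hα
      set β := B p (e j) with hβ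
      have hD : 0 < 1 - c ^ 2 := by nlinarith
      set a := (α - c * β) / (1 - c ^ 2) with ha
      set b := (β - c * α) / (1 - c ^ 2) with hb
      set p' : M 6 := p - a • e i - b • e j with hp'
      have hji : B (e j) (e i) = c := by rw [B_comm]
      have h1 : B p' (e i) = 0 := by
        rw [hp', B_sub_left, B_sub_left, B_smul_left, B_smul_left, hunit, hji, ← hα, ha, hb]
        field_simp
        ring
      have h2 : B p' (e j) = 0 := by
        rw [hp', B_sub_left, B_sub_left, B_smul_left, B_smul_left, hunit, ← hc, ← hβ, ha, hb]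
        field_simp
        ring
      have h3 : B p' p' ≤ -1 := by
        have h4 : B p' p' = B p' p := by
          conv_lhs => rw [hp']
          rw [show p - a • e i - b • e j = p' from rfl]
          conv_lhs => rw [hp']
          rw [B_sub_left, B_sub_left, B_smul_left, B_smul_left, B_comm (e i) p', B_comm (e j) p',
            h1, h2, B_comm p p']
          ring
        have h5 : B p' p = -1 - (α ^ 2 - 2 * c * α * β + β ^ 2) / (1 - c ^ 2) := by
          rw [hp', B_sub_left, B_sub_left, B_smul_left, B_smul_left, hp1, B_comm (e i) p,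
            B_comm (e j) p, ← hα, ← hβ, ha, hb]
          field_simp
          ring
        rw [h4, h5]
        have h6 : 0 ≤ (α ^ 2 - 2 * c * α * β + β ^ 2) / (1 - c ^ 2) := by
          apply div_nonneg _ hD.le
          nlinarith [sq_nonneg (α - c * β), sq_nonneg β]
        linarith
      -- normalisation
      have hneg : 0 < - B p' p' := by linarith
      set N := Real.sqrt (- B p' p') with hN
      have hN0 : 0 < N := Real.sqrt_pos.2 hneg
      have hN2 : N ^ 2 = - B p' p' := Real.sq_sqrt hneg.le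
      have ht : p'.2 ≠ 0 := by
        intro h0
        rw [B_self, h0] at h3
        have : 0 ≤ ∑ i, p'.1 i ^ 2 := by positivity
        nlinarith
      rcases lt_or_gt_of_ne ht with h | h
      · refine ⟨(-N⁻¹) • p', ⟨?_, ?_⟩, ?_, ?_⟩
        · rw [B_smul_left, B_smul_right]
          have : B p' p' = - N ^ 2 := by linarith
          rw [this]
          field_simp
        · show 0 < (-N⁻¹) * p'.2
          have : 0 < N⁻¹ := by positivity
          nlinarith
        · rw [B_smul_left, h1, mul_zero]
        · rw [B_smul_left, h2, mul_zero]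
      · refine ⟨(N⁻¹) • p', ⟨?_, ?_⟩, ?_, ?_⟩
        · rw [B_smul_left, B_smul_right]
          have : B p' p' = - N ^ 2 := by linarith
          rw [this]
          field_simp
        · show 0 < (N⁻¹) * p'.2
          positivity
        · rw [B_smul_left, h1, mul_zero]
        · rw [B_smul_left, h2, mul_zero]
    · -- nested half-spaces
      obtain ⟨x, hx, hxi, hxj⟩ := hirr i
      obtain ⟨y, hy, hyj, hyi⟩ := hirr j
      have hxj := hxj j hij.symm
      have hyi := hyi i hij
      set w := e i - e j with hw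
      have hww : B w w ≤ 0 := by
        rw [hw, B_sub_left, B_sub_right, B_sub_right, hunit, hunit, B_comm (e j) (e i)]
        linarith
      have hxw : 0 < B x w := by rw [hw, B_sub_right]; linarith
      have hyw : B y w < 0 := by rw [hw, B_sub_right]; linarith
      have hw0 : w ≠ 0 := by
        rintro h
        rw [h] at hxw
        simp at hxw
      rcases le_or_gt 0 w.2 with h | h
      · have := B_neg_of_causal hx hw0 hww h
        linarith
      · have h1 : B y (-w) < 0 := by
          apply B_neg_of_causal hy (neg_ne_zero.2 hw0)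
          · rw [B_neg_left, B_neg_right, neg_neg]; exact hww
          · show 0 ≤ - w.2
            linarith
        rw [B_neg_right] at h1
        linarith
  -- the cone is contained in the light cone
  have hcone : ∀ x, (∀ i, B x (e i) ≤ 0) → B x x ≤ 0 := by
    intro x hx
    by_contra hcon
    push Not at hcon
    set a := B x x with ha
    set b := B p x with hb
    set r := Real.sqrt (b ^ 2 + a) with hr
    have hr2 : r ^ 2 = b ^ 2 + a := Real.sq_sqrt (by positivity)
    have hr0 : 0 < r := Real.sqrt_pos.2 (by positivity)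
    have hrb : |b| < r := by
      apply Real.lt_sqrt_of_sq_lt
      rw [sq_abs]
      linarith
    have hrb' := abs_lt.1 hrb
    set s := (r - b) / a with hs
    have hs0 : 0 < s := div_pos (by linarith) hcon
    have hsa : s * a = r - b := by rw [hs]; field_simp
    set q : M 6 := p + s • x with hq
    have hpq : B p q = - s * r := by
      rw [hq, B_add_right, B_smul_right, hp1, ← hb]
      have : s * (s * a) = s * r - s * b := by rw [hsa]; ring
      have h2 : a * (-1 + s * b + s * r) = 0 := by
        have : a * s = r - b := by linarith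
        calc a * (-1 + s * b + s * r) = - a + (a * s) * (b + r) := by ring
          _ = - a + (r - b) * (b + r) := by rw [this]
          _ = 0 := by nlinarith
      have h3 : -1 + s * b + s * r = 0 := by
        rcases mul_eq_zero.1 h2 with h | h
        · exact absurd h hcon.ne'
        · exact h
      linarith
    have hqq : B q q = 0 := by
      have h1 : B q q = B p q + s * B x q := by
        conv_lhs => rw [hq]
        rw [show p + s • x = q from rfl, B_add_left, B_smul_left]
      have h2 : B x q = b + s * a := by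
        rw [hq, B_add_right, B_smul_right, B_comm x p]
      rw [h1, hpq, h2, hsa]
      ring
    have hpq' : B p q < 0 := by
      rw [hpq]
      have := mul_pos hs0 hr0
      linarith
    have hq0 : q ≠ 0 := by
      rintro h
      rw [h] at hpq'
      simp at hpq'
    have hq2 : 0 < q.2 := by
      by_contra h
      push Not at h
      have h1 : B p (-q) < 0 := by
        apply B_neg_of_causal hp (neg_ne_zero.2 hq0)
        · rw [B_neg_left, B_neg_right, neg_neg, hqq]
        · show 0 ≤ - q.2
          linarith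
      rw [B_neg_right] at h1
      linarith
    have hqe : ∀ i, B q (e i) < 0 := by
      intro i
      rw [hq, B_add_left, B_smul_left]
      have h1 := hpe i
      have h2 := mul_nonneg hs0.le (neg_nonneg.2 (hx i))
      linarith
    have hV : IsOpen {y : M 6 | ∀ i, B y (e i) < 0} := by
      rw [show {y : M 6 | ∀ i, B y (e i) < 0} = ⋂ i, {y : M 6 | B y (e i) < 0} by ext y; simp]
      exact isOpen_iInter_of_finite fun i => isOpen_lt (continuous_B_left _) continuous_const
    have := hvol_eq_top (A := {x | ∀ i, B x (e i) ≤ 0}) hV ?_ ?_ hqe hqq hq2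
    · rw [this] at hvolfin
      exact lt_irrefl _ hvolfin
    · intro y hy t ht i
      rw [B_smul_left]
      have := hy i
      nlinarith
    · intro y hy i
      exact (hy i).le
  exact ⟨⟨e, hunit, hgram, p, by rw [hp1]; norm_num, hpe, hcone⟩, rfl, hp.2⟩

end F

end Pool.Agent.RA
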