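import Mathlib

/-!
# An abstract block lemma

Sums over a block of consecutive indices, split into aligned runs of length `q`.
-/

open Finset MeasureTheory

namespace Pool.Agent.Lib_helper6.Block

/-- Hypotheses on the family `κ j` on the interval `[s₀,s₁]`. -/
structure Fam (q : ℕ) (s₀ s₁ c₁ c₂ c₃ : ℝ) (κ κ' : ℕ → ℝ → ℝ) : Prop where
  hq : 0 < q
  hs : s₀ ≤ s₁
  h1 : 0 ≤ c₁
  h2 : 0 ≤ c₂
  h3 : 0 ≤ c₃
  upper : ∀ j, ∀ t ∈ Set.Icc s₀ s₁, κ j t ≤ c₁
  run : ∀ g, ∀ t ∈ Set.Icc s₀ s₁, ∑ i ∈ range q, κ (g * q + i) t ≤ c₂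
  deriv : ∀ j, ∀ t ∈ Set.Icc s₀ s₁, HasDerivAt (κ j) (κ' j t) t
  cont : ∀ j, ContinuousOn (κ' j) (Set.Icc s₀ s₁)
  runderiv : ∀ g, ∀ t ∈ Set.Icc s₀ s₁, ∑ i ∈ range q, |κ' (g * q + i) t| ≤ c₃

variable {q : ℕ} {s₀ s₁ c₁ c₂ c₃ : ℝ} {κ κ' : ℕ → ℝ → ℝ}

/-- Displacement within one run. -/
theorem Fam.run_disp (h : Fam q s₀ s₁ c₁ c₂ c₃ κ κ') (g : ℕ) (s s' : ℝ) (hs : s₀ ≤ s)
    (hs' : s' ≤ s₁) (ρ : ℕ → ℝ) (hρ : ∀ i < q, s ≤ ρ (g * q + i) ∧ ρ (g * q + i) ≤ s') :
    ∑ i ∈ range q, κ (g * q + i) (ρ (g * q + i)) ≤ c₂ + c₃ * (s' - s) := by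
  have hss : s ≤ s' := (hρ 0 h.hq).1.trans (hρ 0 h.hq).2
  have hsub : Set.Icc s s' ⊆ Set.Icc s₀ s₁ := Set.Icc_subset_Icc hs hs'
  have hint : ∀ j, IntervalIntegrable (fun t => |κ' j t|) volume s s' := by
    intro j
    apply ContinuousOn.intervalIntegrable
    rw [Set.uIcc_of_le hss]
    exact ((h.cont j).mono hsub).abs
  have hone : ∀ i ∈ range q, κ (g * q + i) (ρ (g * q + i)) ≤ κ (g * q + i) s
      + ∫ t in s..s', |κ' (g * q + i) t| := by
    intro i hi
    rw [mem_range] at hi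
    obtain ⟨ha, hb⟩ := hρ i hi
    set j := g * q + i with hj
    have hftc : ∫ t in s..(ρ j), κ' j t = κ j (ρ j) - κ j s := by
      apply intervalIntegral.integral_eq_sub_of_hasDerivAt
      · intro t ht
        rw [Set.uIcc_of_le ha] at ht
        exact h.deriv j t (hsub ⟨ht.1, ht.2.trans hb⟩)
      · apply ContinuousOn.intervalIntegrable
        rw [Set.uIcc_of_le ha]
        exact (h.cont j).mono (fun t ht => hsub ⟨ht.1, ht.2.trans hb⟩)
    have h4 : ∫ t in s..(ρ j), κ' j t ≤ ∫ t in s..s', |κ' j t| := by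
      calc ∫ t in s..(ρ j), κ' j t ≤ |∫ t in s..(ρ j), κ' j t| := le_abs_self _
        _ ≤ ∫ t in s..(ρ j), |κ' j t| := intervalIntegral.abs_integral_le_integral_abs ha
        _ ≤ ∫ t in s..s', |κ' j t| := by
            apply intervalIntegral.integral_mono_interval le_rfl ha hb
            · filter_upwards with t using abs_nonneg _
            · exact hint j
    linarith
  calc ∑ i ∈ range q, κ (g * q + i) (ρ (g * q + i))
      ≤ ∑ i ∈ range q, (κ (g * q + i) s + ∫ t in s..s', |κ' (g * q + i) t|) := sum_le_sum hone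
    _ = ∑ i ∈ range q, κ (g * q + i) s + ∫ t in s..s', ∑ i ∈ range q, |κ' (g * q + i) t| := by
        rw [sum_add_distrib, intervalIntegral.integral_finsetSum]
        intro i _
        exact hint _
    _ ≤ c₂ + c₃ * (s' - s) := by
        refine add_le_add (h.run g s ⟨hs, hss.trans hs'⟩) ?_
        calc ∫ t in s..s', ∑ i ∈ range q, |κ' (g * q + i) t| ≤ ∫ _ in s..s', c₃ := by
              apply intervalIntegral.integral_mono_on hss
              · have := IntervalIntegrable.sum (range q) (f := fun i t => |κ' (g * q + i) t|)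
                  (fun i _ => hint (g * q + i))
                refine this.congr ?_
                intro t _
                simp
              · exact intervalIntegrable_const
              · intro t ht
                exact h.runderiv g t (hsub ht)
          _ = c₃ * (s' - s) := by
              rw [intervalIntegral.integral_const, smul_eq_mul, mul_comm]

/-- Several consecutive runs. -/
theorem Fam.runs (h : Fam q s₀ s₁ c₁ c₂ c₃ κ κ') (ρ : ℕ → ℝ) (hρ : Monotone ρ) (g₀ : ℕ) :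
    ∀ N : ℕ, (∀ j, g₀ * q ≤ j → j < (g₀ + N) * q → ρ j ∈ Set.Icc s₀ s₁) →
    ∑ j ∈ Ico (g₀ * q) ((g₀ + N) * q), κ j (ρ j)
      ≤ N * c₂ + c₃ * (min (ρ ((g₀ + N) * q)) s₁ - min (ρ (g₀ * q)) s₁) := by
  intro N
  induction N with
  | zero => intro _; simp
  | succ N ih =>
    intro hmem
    have hq := h.hq
    have ih' := ih (fun j hj1 hj2 => hmem j hj1 (lt_of_lt_of_le hj2 (by
      apply Nat.mul_le_mul_right; omega)))
    have hle1 : g₀ * q ≤ (g₀ + N) * q := Nat.mul_le_mul_right _ (by omega)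
    have hle2 : (g₀ + N) * q ≤ (g₀ + (N + 1)) * q := Nat.mul_le_mul_right _ (by omega)
    rw [← sum_Ico_consecutive _ hle1 hle2]
    have hrun : ∑ j ∈ Ico ((g₀ + N) * q) ((g₀ + (N + 1)) * q), κ j (ρ j)
        = ∑ i ∈ range q, κ ((g₀ + N) * q + i) (ρ ((g₀ + N) * q + i)) := by
      rw [sum_Ico_eq_sum_range]
      congr 2
      have : (g₀ + (N + 1)) * q = (g₀ + N) * q + q := by ring
      omega
    have hm0 := hmem ((g₀ + N) * q) hle1 (by
      have : (g₀ + (N + 1)) * q = (g₀ + N) * q + q := by ring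
      omega)
    have hd := h.run_disp (g₀ + N) (min (ρ ((g₀ + N) * q)) s₁) (min (ρ ((g₀ + (N + 1)) * q)) s₁)
      (le_min hm0.1 h.hs) (min_le_right _ _) ρ (by
        intro i hi
        have hji := hmem ((g₀ + N) * q + i) (by omega) (by
          have : (g₀ + (N + 1)) * q = (g₀ + N) * q + q := by ring
          omega)
        refine ⟨(min_le_left _ _).trans (hρ (by omega)), le_min (hρ ?_) hji.2⟩
        have : (g₀ + (N + 1)) * q = (g₀ + N) * q + q := by ring
        omega)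
    rw [hrun]
    push_cast
    nlinarith [h.h3]

/-- The block lemma. -/
theorem Fam.block (h : Fam q s₀ s₁ c₁ c₂ c₃ κ κ') (ρ : ℕ → ℝ) (hρ : Monotone ρ) (A B : ℕ)
    (hAB : A ≤ B) (hmem : ∀ j, A ≤ j → j < B → ρ j ∈ Set.Icc s₀ s₁) :
    ∑ j ∈ Ico A B, κ j (ρ j)
      ≤ 2 * q * c₁ + ((B : ℝ) - A) / q * c₂ + c₃ * (s₁ - s₀) := by
  have hq := h.hq
  have hq' : (0 : ℝ) < q := by exact_mod_cast hq
  have hup : ∀ a b : ℕ, A ≤ a → b ≤ B → a ≤ b → ∑ j ∈ Ico a b, κ j (ρ j) ≤ ((b : ℝ) - a) * c₁ := by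
    intro a b ha hb hab
    calc ∑ j ∈ Ico a b, κ j (ρ j) ≤ ∑ _j ∈ Ico a b, c₁ := by
          apply sum_le_sum
          intro j hj
          rw [mem_Ico] at hj
          exact h.upper j _ (hmem j (by omega) (by omega))
      _ = ((b : ℝ) - a) * c₁ := by
          rw [sum_const, Nat.card_Ico, nsmul_eq_mul, Nat.cast_sub hab]
  set g₀ := (A + q - 1) / q with hg0
  set g₁ := B / q with hg1
  have hAg0 : A ≤ g₀ * q := by
    have := Nat.lt_div_mul_add (a := A + q - 1) hq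
    rw [← hg0] at this
    omega
  have hg0A : g₀ * q < A + q := by
    have := Nat.div_mul_le_self (A + q - 1) q
    rw [← hg0] at this
    omega
  have hg1B : g₁ * q ≤ B := Nat.div_mul_le_self B q
  have hBg1 : B < g₁ * q + q := Nat.lt_div_mul_add hq
  have hBA : (0 : ℝ) ≤ (B : ℝ) - A := by
    rw [sub_nonneg]; exact_mod_cast hAB
  have hnn2 : 0 ≤ ((B : ℝ) - A) / q * c₂ := mul_nonneg (div_nonneg hBA hq'.le) h.h2
  have hnn3 : 0 ≤ c₃ * (s₁ - s₀) := mul_nonneg h.h3 (sub_nonneg.mpr h.hs)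
  rcases lt_or_ge g₁ g₀ with hlt | hge
  · -- no run
    have hBA2 : B < A + q := by
      have h1 : (g₁ + 1) * q ≤ g₀ * q := Nat.mul_le_mul_right _ hlt
      have h2 : (g₁ + 1) * q = g₁ * q + q := by ring
      omega
    have h4 := hup A B le_rfl le_rfl hAB
    have h5 : ((B : ℝ) - A) * c₁ ≤ 2 * q * c₁ := by
      apply mul_le_mul_of_nonneg_right _ h.h1
      have : (B : ℝ) < A + q := by exact_mod_cast hBA2
      linarith
    linarith
  · obtain ⟨N, hN⟩ : ∃ N, g₁ = g₀ + N := ⟨g₁ - g₀, by omega⟩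
    have hle1 : A ≤ g₀ * q := hAg0
    have hle2 : g₀ * q ≤ g₁ * q := Nat.mul_le_mul_right _ hge
    rw [← sum_Ico_consecutive _ hle1 (hle2.trans hg1B), ← sum_Ico_consecutive _ hle2 hg1B]
    have h1 := hup A (g₀ * q) le_rfl (hle2.trans hg1B) hle1
    have h3 := hup (g₁ * q) B (hle1.trans hle2) le_rfl hg1B
    have h2 := h.runs ρ hρ g₀ N (by
      intro j hj1 hj2
      rw [← hN] at hj2
      exact hmem j (by omega) (by omega))
    rw [← hN] at h2
    have h4 : (((g₀ * q : ℕ) : ℝ) - A) * c₁ ≤ q * c₁ := by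
      apply mul_le_mul_of_nonneg_right _ h.h1
      have : ((g₀ * q : ℕ) : ℝ) < A + q := by exact_mod_cast hg0A
      linarith
    have h5 : ((B : ℝ) - ((g₁ * q : ℕ) : ℝ)) * c₁ ≤ q * c₁ := by
      apply mul_le_mul_of_nonneg_right _ h.h1
      have : (B : ℝ) < ((g₁ * q : ℕ) : ℝ) + q := by exact_mod_cast hBg1
      linarith
    have h6 : (N : ℝ) * c₂ ≤ ((B : ℝ) - A) / q * c₂ := by
      apply mul_le_mul_of_nonneg_right _ h.h2
      rw [le_div_iff₀ hq']
      have h7 : N * q + A ≤ B := by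
        have : g₁ * q = g₀ * q + N * q := by rw [hN]; ring
        omega
      have h8 : (N : ℝ) * q + A ≤ B := by exact_mod_cast h7
      linarith
    have h9 : min (ρ (g₁ * q)) s₁ - min (ρ (g₀ * q)) s₁ ≤ s₁ - s₀ := by
      rcases Nat.eq_zero_or_pos N with rfl | hNp
      · have : g₁ = g₀ := by omega
        rw [this, sub_self]
        exact sub_nonneg.mpr h.hs
      · have hm : s₀ ≤ min (ρ (g₀ * q)) s₁ := by
          refine le_min (hmem _ hle1 ?_).1 h.hs
          have : g₁ * q = g₀ * q + N * q := by rw [hN]; ring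
          have : 0 < N * q := Nat.mul_pos hNp hq
          omega
        have := min_le_right (ρ (g₁ * q)) s₁
        linarith
    have h10 : c₃ * (min (ρ (g₁ * q)) s₁ - min (ρ (g₀ * q)) s₁) ≤ c₃ * (s₁ - s₀) :=
      mul_le_mul_of_nonneg_left h9 h.h3
    linarith

end Pool.Agent.Lib_helper6.Block
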