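import Mathlib

/-!
# A van der Corput sequence on the unit circle and run identities
-/

open Finset

namespace Pool.Agent.Lib_helper6.Vdc

/-- A square root of a complex number. -/
noncomputable def sq (w : ℂ) : ℂ := Complex.exp (Complex.log w / 2)

theorem sq_sq {w : ℂ} (hw : w ≠ 0) : sq w ^ 2 = w := by
  unfold sq
  rw [← Complex.exp_nat_mul]
  have : ((2 : ℕ) : ℂ) * (Complex.log w / 2) = Complex.log w := by push_cast; ring
  rw [this, Complex.exp_log hw]

theorem norm_sq_eq {w : ℂ} (hw : ‖w‖ = 1) : ‖sq w‖ = 1 := by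
  have hw0 : w ≠ 0 := by
    rintro rfl
    simp at hw
  have h := congrArg norm (sq_sq hw0)
  rw [norm_pow, hw] at h
  have h0 : 0 ≤ ‖sq w‖ := norm_nonneg _
  nlinarith

/-- The van der Corput sequence (in base two) on the unit circle. -/
noncomputable def v : ℕ → ℂ
  | 0 => 1
  | (n + 1) => if (n + 1) % 2 = 0 then sq (v ((n + 1) / 2)) else - sq (v ((n + 1) / 2))
decreasing_by all_goals omega

theorem v_zero : v 0 = 1 := by
  rw [v]

theorem norm_v (n : ℕ) : ‖v n‖ = 1 := by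
  induction n using Nat.strong_induction_on with
  | _ n ih =>
    cases n with
    | zero => rw [v_zero]; simp
    | succ n =>
      rw [v]
      have h := norm_sq_eq (ih ((n + 1) / 2) (by omega))
      split_ifs
      · exact h
      · rw [norm_neg]; exact h

theorem v_ne_zero (n : ℕ) : v n ≠ 0 := by
  intro h
  have := norm_v n
  rw [h, norm_zero] at this
  exact zero_ne_one this

theorem v_even_pos (n : ℕ) (hn : 0 < n) : v (2 * n) = sq (v n) := by
  obtain ⟨k, hk⟩ : ∃ k, 2 * n = k + 1 := ⟨2 * n - 1, by omega⟩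
  rw [hk, v, if_pos (by omega), ← hk]
  congr 2
  omega

theorem v_odd' (n : ℕ) : v (2 * n + 1) = - sq (v n) := by
  rw [v, if_neg (by omega)]
  congr 3
  omega

theorem sq_one : sq 1 = 1 := by
  unfold sq
  simp

theorem v_even_sq (n : ℕ) : v (2 * n) ^ 2 = v n := by
  rcases Nat.eq_zero_or_pos n with rfl | hn
  · simp [v_zero]
  · rw [v_even_pos n hn, sq_sq (v_ne_zero n)]

theorem v_odd (n : ℕ) : v (2 * n + 1) = - v (2 * n) := by
  rcases Nat.eq_zero_or_pos n with rfl | hn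
  · rw [v_odd', mul_zero, v_zero, sq_one]
  · rw [v_odd', v_even_pos n hn]

/-- Product over an aligned run. -/
theorem prod_run (m : ℕ) : ∀ (g : ℕ) (x : ℂ),
    ∏ i ∈ range (2 ^ m), (1 - x * v (g * 2 ^ m + i)) = 1 - x ^ (2 ^ m) * v g := by
  induction m with
  | zero => intro g x; simp
  | succ m ih =>
    intro g x
    have h2 : 2 ^ (m + 1) = 2 ^ m + 2 ^ m := by ring
    rw [h2, prod_range_add]
    have e1 : ∀ i, g * (2 ^ m + 2 ^ m) + i = (2 * g) * 2 ^ m + i := by intro i; ring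
    have e2 : ∀ i, g * (2 ^ m + 2 ^ m) + (2 ^ m + i) = (2 * g + 1) * 2 ^ m + i := by intro i; ring
    simp only [e1]
    have e3 : ∀ i, (2 * g) * 2 ^ m + (2 ^ m + i) = (2 * g + 1) * 2 ^ m + i := by intro i; ring
    simp only [e3]
    rw [ih (2 * g) x, ih (2 * g + 1) x, v_odd, pow_add, ← v_even_sq g]
    ring

/-- `ℓ²` sum over an aligned run. -/
theorem sum_run (m : ℕ) : ∀ (g : ℕ) (x : ℂ), ‖x‖ < 1 →
    ∑ i ∈ range (2 ^ m), (‖1 - x * v (g * 2 ^ m + i)‖ ^ 2)⁻¹
      = 2 ^ m * (1 - ‖x‖ ^ (2 * 2 ^ m)) / ((1 - ‖x‖ ^ 2) * ‖1 - x ^ (2 ^ m) * v g‖ ^ 2) := by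
  induction m with
  | zero =>
    intro g x hx
    have h1 : (1 - ‖x‖ ^ 2) ≠ 0 := by
      have := norm_nonneg x
      nlinarith
    simp only [pow_zero, range_one, sum_singleton, mul_one, add_zero, pow_one, one_mul]
    rw [mul_comm (1 - ‖x‖ ^ 2), div_mul_eq_div_div_swap, div_self h1, one_div]
  | succ m ih =>
    intro g x hx
    have h2 : 2 ^ (m + 1) = 2 ^ m + 2 ^ m := by ring
    rw [h2, sum_range_add]
    have e1 : ∀ i, g * (2 ^ m + 2 ^ m) + i = (2 * g) * 2 ^ m + i := by intro i; ring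
    simp only [e1]
    have e3 : ∀ i, (2 * g) * 2 ^ m + (2 ^ m + i) = (2 * g + 1) * 2 ^ m + i := by intro i; ring
    simp only [e3]
    rw [ih (2 * g) x hx, ih (2 * g + 1) x hx, v_odd, ← v_even_sq g]
    set Y : ℂ := x ^ 2 ^ m * v (2 * g) with hY
    have hYn : ‖Y‖ = ‖x‖ ^ 2 ^ m := by rw [hY, norm_mul, norm_v, mul_one, norm_pow]
    have hYlt : ‖Y‖ < 1 := by
      rw [hYn]
      exact pow_lt_one₀ (norm_nonneg _) hx (by positivity)
    have hneg : x ^ 2 ^ m * -v (2 * g) = - Y := by rw [hY]; ring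
    have hprod : x ^ (2 ^ m + 2 ^ m) * v (2 * g) ^ 2 = Y ^ 2 := by rw [hY]; ring
    rw [hneg, hprod]
    have hxx : (1 - ‖x‖ ^ 2) ≠ 0 := by
      have := norm_nonneg x
      nlinarith
    have hm1 : ‖1 - Y‖ ≠ 0 := by
      rw [norm_ne_zero_iff]
      intro h
      rw [sub_eq_zero] at h
      rw [← h, norm_one] at hYlt
      exact lt_irrefl _ hYlt
    have hm2 : ‖1 + Y‖ ≠ 0 := by
      rw [norm_ne_zero_iff]
      intro h
      have : Y = -1 := by linear_combination h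
      rw [this, norm_neg, norm_one] at hYlt
      exact lt_irrefl _ hYlt
    have hfac : ‖1 - Y ^ 2‖ = ‖1 - Y‖ * ‖1 + Y‖ := by
      rw [← norm_mul]; congr 1; ring
    have hpar : ‖1 - Y‖ ^ 2 + ‖1 + Y‖ ^ 2 = 2 * (1 + ‖Y‖ ^ 2) := by
      have := parallelogram_law_with_norm ℝ (1 : ℂ) Y
      rw [norm_one] at this
      nlinarith
    have hpw : ‖x‖ ^ (2 * (2 ^ m + 2 ^ m)) = (‖Y‖ ^ 2) ^ 2 := by
      rw [hYn]; ring
    have hpw2 : ‖x‖ ^ (2 * 2 ^ m) = ‖Y‖ ^ 2 := by
      rw [hYn]; ring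
    rw [hpw, hpw2, hfac, sub_neg_eq_add]
    rw [pow_succ (2 : ℝ) m]
    field_simp
    linear_combination (1 - ‖Y‖ ^ 2) * hpar

end Pool.Agent.Lib_helper6.Vdc
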