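import Mathlib
import Pool.Agent.Lib_helper6.Vdc
import Pool.Agent.Lib_helper6.Block

/-!
# Estimates for the factors
-/

open Finset

namespace Pool.Agent.Lib_helper6.Factor

open Vdc Block

/-- Derivative of the logarithm of the norm. -/
theorem hasDerivAt_log_norm {γ : ℝ → ℂ} {γ' : ℂ} {t : ℝ} (h : HasDerivAt γ γ' t) (h0 : γ t ≠ 0) :
    HasDerivAt (fun t => Real.log ‖γ t‖) (γ' / γ t).re t := by
  have h1 : HasDerivAt (fun t => ‖γ t‖ ^ 2) (2 * inner ℝ (γ t) γ') t := h.norm_sq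
  have hpos : 0 < ‖γ t‖ ^ 2 := by
    have := norm_pos_iff.mpr h0
    positivity
  have h2 := (h1.log hpos.ne').div_const 2
  have h3 : (fun t => Real.log (‖γ t‖ ^ 2) / 2) = fun t => Real.log ‖γ t‖ := by
    funext s
    rw [Real.log_pow]
    push_cast
    ring
  rw [h3] at h2
  have hinner : inner ℝ (γ t) γ' = (γ' * (starRingEnd ℂ) (γ t)).re := by
    rw [Complex.inner]
  have hval : (γ' / γ t).re = 2 * inner ℝ (γ t) γ' / ‖γ t‖ ^ 2 / 2 := by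
    rw [hinner, Complex.div_re, Complex.mul_re, Complex.conj_re, Complex.conj_im,
      ← Complex.normSq_eq_norm_sq]
    have : Complex.normSq (γ t) ≠ 0 := by
      rwa [Ne, Complex.normSq_eq_zero]
    field_simp
    ring
  rw [hval]
  exact h2

/-- norm squared of `1 - b w`. -/
theorem normsq_one_sub (b : ℝ) (w : ℂ) :
    ‖1 - (b : ℂ) * w‖ ^ 2 = 1 - 2 * b * w.re + b ^ 2 * ‖w‖ ^ 2 := by
  rw [← Complex.normSq_eq_norm_sq, ← Complex.normSq_eq_norm_sq, Complex.normSq_apply,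
    Complex.normSq_apply]
  simp
  ring

theorem one_sub_ne {x : ℂ} (hx : ‖x‖ < 1) : 1 - x ≠ 0 := by
  intro h
  rw [sub_eq_zero] at h
  rw [← h, norm_one] at hx
  exact lt_irrefl _ hx

/-- Pointwise upper bound for one factor. -/
theorem log_factor_le {a b : ℝ} (ha : 0 ≤ a) (hab : a ≤ b) {w : ℂ} (hw : b * ‖w‖ < 1) :
    Real.log ‖1 - (b : ℂ) * w‖ - Real.log ‖1 - (a : ℂ) * w‖ ≤ (b - a) * ‖w‖ := by
  set r := ‖w‖ with hr
  have hr0 : 0 ≤ r := norm_nonneg _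
  have hb0 : 0 ≤ b := ha.trans hab
  have har : a * r < 1 := lt_of_le_of_lt (mul_le_mul_of_nonneg_right hab hr0) hw
  have hnb : ‖(b : ℂ) * w‖ < 1 := by
    rw [norm_mul, Complex.norm_real, Real.norm_of_nonneg hb0]; exact hw
  have hna : ‖(a : ℂ) * w‖ < 1 := by
    rw [norm_mul, Complex.norm_real, Real.norm_of_nonneg ha]; exact har
  have hpb : 0 < ‖1 - (b : ℂ) * w‖ := norm_pos_iff.mpr (one_sub_ne hnb)
  have hpa : 0 < ‖1 - (a : ℂ) * w‖ := norm_pos_iff.mpr (one_sub_ne hna)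
  have hX : -r ≤ w.re := by
    have := Complex.abs_re_le_norm w
    rw [abs_le] at this
    exact this.1
  have hsq : (‖1 - (b : ℂ) * w‖ * (1 + a * r)) ^ 2 ≤ (‖1 - (a : ℂ) * w‖ * (1 + b * r)) ^ 2 := by
    rw [mul_pow, mul_pow, normsq_one_sub, normsq_one_sub, ← hr]
    have hab1 : a * r * (b * r) ≤ 1 := by
      have h0 : 0 ≤ a * r := mul_nonneg ha hr0
      nlinarith
    have hkey : (1 - 2 * a * w.re + a ^ 2 * r ^ 2) * (1 + b * r) ^ 2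
        - (1 - 2 * b * w.re + b ^ 2 * r ^ 2) * (1 + a * r) ^ 2
        = 2 * (r + w.re) * (b - a) * (1 - a * r * (b * r)) := by ring
    have h1 : 0 ≤ 2 * (r + w.re) * (b - a) * (1 - a * r * (b * r)) := by
      apply mul_nonneg (mul_nonneg _ (sub_nonneg.mpr hab)) (sub_nonneg.mpr hab1)
      linarith
    linarith
  have har0 : 0 < 1 + a * r := by positivity
  have hbr0 : 0 < 1 + b * r := by positivity
  have hle : ‖1 - (b : ℂ) * w‖ * (1 + a * r) ≤ ‖1 - (a : ℂ) * w‖ * (1 + b * r) :=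
    le_of_sq_le_sq hsq (by positivity)
  have hlog : Real.log ‖1 - (b : ℂ) * w‖ + Real.log (1 + a * r)
      ≤ Real.log ‖1 - (a : ℂ) * w‖ + Real.log (1 + b * r) := by
    rw [← Real.log_mul hpb.ne' har0.ne', ← Real.log_mul hpa.ne' hbr0.ne']
    exact Real.log_le_log (by positivity) hle
  have hfin : Real.log (1 + b * r) - Real.log (1 + a * r) ≤ (b - a) * r := by
    rw [← Real.log_div hbr0.ne' har0.ne']
    have h1 := Real.log_le_sub_one_of_pos (div_pos hbr0 har0)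
    have h2 : (1 + b * r) / (1 + a * r) - 1 ≤ (b - a) * r := by
      rw [sub_le_iff_le_add, div_le_iff₀ har0]
      have h3 : 0 ≤ (b - a) * r * (a * r) :=
        mul_nonneg (mul_nonneg (sub_nonneg.mpr hab) hr0) (mul_nonneg ha hr0)
      nlinarith
    linarith
  linarith

/-- Equal radii run. -/
theorem run_log_le {a b : ℝ} (ha : 0 ≤ a) (hab : a ≤ b) (m g : ℕ) {z : ℂ} (hz : b * ‖z‖ < 1)
    (hhalf : (b * ‖z‖) ^ (2 ^ m) ≤ 1 / 2) :
    ∑ i ∈ range (2 ^ m), (Real.log ‖1 - (b : ℂ) * (z * v (g * 2 ^ m + i))‖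
        - Real.log ‖1 - (a : ℂ) * (z * v (g * 2 ^ m + i))‖)
      ≤ 2 * 2 ^ m * ((b - a) * ‖z‖) * (b * ‖z‖) ^ (2 ^ m - 1) := by
  set r := ‖z‖ with hr
  have hr0 : 0 ≤ r := norm_nonneg _
  have hb0 : 0 ≤ b := ha.trans hab
  have har : a * r ≤ b * r := mul_le_mul_of_nonneg_right hab hr0
  have har0 : 0 ≤ a * r := mul_nonneg ha hr0
  have hq : 2 ^ m ≠ 0 := by positivity
  have hne : ∀ (c : ℝ), 0 ≤ c → c * r < 1 → ∀ j, ‖1 - (c : ℂ) * (z * v j)‖ ≠ 0 := by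
    intro c hc hcr j
    rw [norm_ne_zero_iff]
    apply one_sub_ne
    rw [norm_mul, norm_mul, norm_v, mul_one, Complex.norm_real, Real.norm_of_nonneg hc]
    exact hcr
  have hprod : ∀ (c : ℝ), 0 ≤ c → c * r < 1 →
      ∑ i ∈ range (2 ^ m), Real.log ‖1 - (c : ℂ) * (z * v (g * 2 ^ m + i))‖
        = Real.log ‖1 - ((c : ℂ) * z) ^ (2 ^ m) * v g‖ := by
    intro c hc hcr
    rw [← Real.log_prod (fun i _ => hne c hc hcr _), ← norm_prod, ← prod_run m g ((c : ℂ) * z)]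
    congr 3
    ext i
    rw [mul_assoc]
  rw [sum_sub_distrib, hprod b hb0 hz, hprod a ha (lt_of_le_of_lt har hz)]
  set A : ℂ := ((b : ℂ) * z) ^ (2 ^ m) * v g with hA
  set B : ℂ := ((a : ℂ) * z) ^ (2 ^ m) * v g with hB
  have hnA : ‖A‖ = (b * r) ^ (2 ^ m) := by
    rw [hA, norm_mul, norm_v, mul_one, norm_pow, norm_mul, Complex.norm_real, Real.norm_of_nonneg hb0]
  have hnB : ‖B‖ = (a * r) ^ (2 ^ m) := by
    rw [hB, norm_mul, norm_v, mul_one, norm_pow, norm_mul, Complex.norm_real, Real.norm_of_nonneg ha]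
  have hB2 : ‖B‖ ≤ 1 / 2 := by
    rw [hnB]
    exact (pow_le_pow_left₀ har0 har _).trans hhalf
  have hA2 : ‖A‖ ≤ 1 / 2 := by rw [hnA]; exact hhalf
  have h1B : 1 / 2 ≤ ‖1 - B‖ := by
    have := norm_sub_norm_le (1 : ℂ) B
    rw [norm_one] at this
    linarith
  have h1A : 0 < ‖1 - A‖ := by
    have := norm_sub_norm_le (1 : ℂ) A
    rw [norm_one] at this
    linarith
  have h1B0 : 0 < ‖1 - B‖ := by linarith
  -- `‖A - B‖`
  have hAB : ‖A - B‖ ≤ 2 ^ m * ((b - a) * r) * (b * r) ^ (2 ^ m - 1) := by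
    have h1 : A - B = (((b ^ (2 ^ m) - a ^ (2 ^ m) : ℝ)) : ℂ) * z ^ (2 ^ m) * v g := by
      rw [hA, hB]; push_cast; ring
    have hpow : a ^ (2 ^ m) ≤ b ^ (2 ^ m) := pow_le_pow_left₀ ha hab _
    rw [h1, norm_mul, norm_mul, norm_v, mul_one, norm_pow, Complex.norm_real,
      Real.norm_of_nonneg (sub_nonneg.mpr hpow), ← hr]
    have h2 : b ^ (2 ^ m) - a ^ (2 ^ m) ≤ 2 ^ m * (b - a) * b ^ (2 ^ m - 1) := by
      have h3 := sub_dvd_pow_sub_pow b a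
      -- use the geometric sum
      have h4 : b ^ (2 ^ m) - a ^ (2 ^ m) = (∑ i ∈ range (2 ^ m), b ^ i * a ^ (2 ^ m - 1 - i)) * (b - a) :=
        (Commute.geom_sum₂_mul (Commute.all b a) (2 ^ m)).symm
      rw [h4]
      have h5 : ∑ i ∈ range (2 ^ m), b ^ i * a ^ (2 ^ m - 1 - i) ≤ 2 ^ m * b ^ (2 ^ m - 1) := by
        calc ∑ i ∈ range (2 ^ m), b ^ i * a ^ (2 ^ m - 1 - i)
            ≤ ∑ _i ∈ range (2 ^ m), b ^ (2 ^ m - 1) := by
              apply sum_le_sum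
              intro i hi
              rw [mem_range] at hi
              calc b ^ i * a ^ (2 ^ m - 1 - i) ≤ b ^ i * b ^ (2 ^ m - 1 - i) := by
                    gcongr
                _ = b ^ (2 ^ m - 1) := by
                    rw [← pow_add]; congr 1; omega
          _ = 2 ^ m * b ^ (2 ^ m - 1) := by
              rw [sum_const, card_range, nsmul_eq_mul]; push_cast; ring
      calc (∑ i ∈ range (2 ^ m), b ^ i * a ^ (2 ^ m - 1 - i)) * (b - a)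
          ≤ (2 ^ m * b ^ (2 ^ m - 1)) * (b - a) :=
            mul_le_mul_of_nonneg_right h5 (sub_nonneg.mpr hab)
        _ = 2 ^ m * (b - a) * b ^ (2 ^ m - 1) := by ring
    calc (b ^ (2 ^ m) - a ^ (2 ^ m)) * r ^ (2 ^ m)
        ≤ (2 ^ m * (b - a) * b ^ (2 ^ m - 1)) * r ^ (2 ^ m) := by gcongr
      _ = 2 ^ m * ((b - a) * r) * (b * r) ^ (2 ^ m - 1) := by
          have : r ^ (2 ^ m) = r ^ (2 ^ m - 1) * r := by
            rw [← pow_succ]; congr 1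
            have : 0 < 2 ^ m := by positivity
            omega
          rw [this, mul_pow]; ring
  have hlog : Real.log ‖1 - A‖ - Real.log ‖1 - B‖ ≤ ‖A - B‖ / ‖1 - B‖ := by
    rw [← Real.log_div h1A.ne' h1B0.ne']
    have h2 := Real.log_le_sub_one_of_pos (div_pos h1A h1B0)
    have h3 : ‖1 - A‖ / ‖1 - B‖ - 1 ≤ ‖A - B‖ / ‖1 - B‖ := by
      rw [sub_le_iff_le_add, div_add_one h1B0.ne']
      apply div_le_div_of_nonneg_right _ h1B0.le
      have h4 : (1 : ℂ) - A = -(A - B) + (1 - B) := by ring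
      calc ‖1 - A‖ = ‖-(A - B) + (1 - B)‖ := by rw [← h4]
        _ ≤ ‖-(A - B)‖ + ‖1 - B‖ := norm_add_le _ _
        _ = ‖A - B‖ + ‖1 - B‖ := by rw [norm_neg]
    linarith
  have hdiv : ‖A - B‖ / ‖1 - B‖ ≤ 2 * ‖A - B‖ := by
    rw [div_le_iff₀ h1B0]
    nlinarith [norm_nonneg (A - B)]
  calc Real.log ‖1 - A‖ - Real.log ‖1 - B‖ ≤ 2 * ‖A - B‖ := hlog.trans hdiv
    _ ≤ 2 * (2 ^ m * ((b - a) * r) * (b * r) ^ (2 ^ m - 1)) := by gcongr
    _ = 2 * 2 ^ m * ((b - a) * r) * (b * r) ^ (2 ^ m - 1) := by ring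

/-- Bound for the `ℓ²` sum. -/
theorem sum_run_le (m g : ℕ) {x : ℂ} (hx : ‖x‖ < 1) (hhalf : ‖x‖ ^ (2 ^ m) ≤ 1 / 2) :
    ∑ i ∈ range (2 ^ m), (‖1 - x * v (g * 2 ^ m + i)‖ ^ 2)⁻¹ ≤ 4 * 2 ^ m / (1 - ‖x‖ ^ 2) := by
  rw [sum_run m g x hx]
  have hx0 := norm_nonneg x
  have h1 : 0 < 1 - ‖x‖ ^ 2 := by nlinarith
  have h2 : 1 / 2 ≤ ‖1 - x ^ (2 ^ m) * v g‖ := by
    have h3 := norm_sub_norm_le (1 : ℂ) (x ^ (2 ^ m) * v g)
    rw [norm_one, norm_mul, norm_v, mul_one, norm_pow] at h3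
    linarith
  have h4 : 1 / 4 ≤ ‖1 - x ^ (2 ^ m) * v g‖ ^ 2 := by nlinarith
  rw [div_le_div_iff₀ (by positivity) h1]
  have h5 : 1 - ‖x‖ ^ (2 * 2 ^ m) ≤ 1 := by
    have : 0 ≤ ‖x‖ ^ (2 * 2 ^ m) := by positivity
    linarith
  have hq : (0 : ℝ) < 2 ^ m := by positivity
  calc 2 ^ m * (1 - ‖x‖ ^ (2 * 2 ^ m)) * (1 - ‖x‖ ^ 2) ≤ 2 ^ m * 1 * (1 - ‖x‖ ^ 2) := by gcongr
    _ ≤ 4 * 2 ^ m * ((1 - ‖x‖ ^ 2) * ‖1 - x ^ (2 ^ m) * v g‖ ^ 2) := by
      nlinarith [mul_pos hq h1]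

/-- Real part of `Y/(1-Y)`. -/
theorem abs_re_div_le {Y : ℂ} (hY : ‖Y‖ < 1) :
    |(Y / (1 - Y)).re| ≤ ((1 - ‖Y‖ ^ 2) * (‖1 - Y‖ ^ 2)⁻¹ + 1) / 2 := by
  have hne := one_sub_ne hY
  have hpos : 0 < ‖1 - Y‖ ^ 2 := by
    have := norm_pos_iff.mpr hne
    positivity
  have h1 : (Y / (1 - Y)).re = ((1 - ‖Y‖ ^ 2) * (‖1 - Y‖ ^ 2)⁻¹ - 1) / 2 := by
    rw [Complex.div_re, Complex.normSq_eq_norm_sq]
    have e1 : ‖1 - Y‖ ^ 2 = 1 - 2 * Y.re + ‖Y‖ ^ 2 := by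
      have := normsq_one_sub 1 Y
      simpa using this
    have e2 : ‖Y‖ ^ 2 = Y.re ^ 2 + Y.im ^ 2 := by
      rw [← Complex.normSq_eq_norm_sq, Complex.normSq_apply]; ring
    have e3 : ‖1 - Y‖ ^ 2 * (‖1 - Y‖ ^ 2)⁻¹ = 1 := mul_inv_cancel₀ hpos.ne'
    simp only [Complex.sub_re, Complex.one_re, Complex.sub_im, Complex.one_im, zero_sub]
    rw [div_eq_mul_inv, div_eq_mul_inv]
    set I := (‖1 - Y‖ ^ 2)⁻¹ with hI
    rw [e1, e2] at e3
    rw [e2]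
    linear_combination (-1 / 2 : ℝ) * e3
  rw [h1]
  have hx0 := norm_nonneg Y
  have h2 : 0 ≤ (1 - ‖Y‖ ^ 2) * (‖1 - Y‖ ^ 2)⁻¹ := by
    apply mul_nonneg _ (inv_nonneg.mpr hpos.le)
    nlinarith
  rw [abs_le]
  constructor <;> linarith

end Pool.Agent.Lib_helper6.Factor
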