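import Mathlib
import Pool.Agent.Lib_helper6.Factor

/-!
# The two families of factors
-/

open Finset

namespace Pool.Agent.Lib_helper6.Fams

open Vdc Block Factor

/-- The radii `1 - 2^{-k}`. -/
noncomputable def rr (k : ℕ) : ℝ := 1 - (1 / 2 : ℝ) ^ k

theorem half_pos (k : ℕ) : (0 : ℝ) < (1 / 2 : ℝ) ^ k := by positivity

theorem half_le_one (k : ℕ) : (1 / 2 : ℝ) ^ k ≤ 1 := pow_le_one₀ (by norm_num) (by norm_num)

theorem half_succ (k : ℕ) : (1 / 2 : ℝ) ^ (k + 1) = (1 / 2 : ℝ) ^ k / 2 := by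
  rw [pow_succ]; ring

theorem half_anti {k l : ℕ} (h : k ≤ l) : (1 / 2 : ℝ) ^ l ≤ (1 / 2 : ℝ) ^ k :=
  pow_le_pow_of_le_one (by norm_num) (by norm_num) h

theorem rr_lt_one (k : ℕ) : rr k < 1 := by
  unfold rr
  have := half_pos k
  linarith

theorem rr_nonneg (k : ℕ) : 0 ≤ rr k := by
  unfold rr
  have := half_le_one k
  linarith

theorem rr_mono : Monotone rr := by
  intro a b hab
  unfold rr
  have := half_anti hab
  linarith

theorem rr_succ_pos (k : ℕ) : 0 < rr (k + 1) := by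
  unfold rr
  have := half_le_one k
  rw [half_succ]
  linarith

/-- `(1 - x)^n ≤ exp (-n x)`. -/
theorem one_sub_pow_le (x : ℝ) (hx : x ≤ 1) (n : ℕ) : (1 - x) ^ n ≤ Real.exp (-(n * x)) := by
  have h1 : 1 - x ≤ Real.exp (-x) := Real.one_sub_le_exp_neg x
  calc (1 - x) ^ n ≤ (Real.exp (-x)) ^ n := pow_le_pow_left₀ (by linarith) h1 n
    _ = Real.exp (-(n * x)) := by
      rw [← Real.exp_nat_mul]; congr 1; ring

theorem two_pow_mul_half (a b : ℕ) (h : b ≤ a) : (2 : ℝ) ^ a * (1 / 2 : ℝ) ^ b = 2 ^ (a - b) := by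
  obtain ⟨c, rfl⟩ := Nat.exists_eq_add_of_le h
  rw [Nat.add_sub_cancel_left, pow_add, one_div, inv_pow]
  field_simp

/-! ### Past family -/

/-- past factor -/
noncomputable def κP (c : ℝ) (z : ℂ) (j : ℕ) (t : ℝ) : ℝ :=
  Real.log ‖1 - ((c * t : ℝ) : ℂ) * (z * v j)‖ - Real.log ‖1 - (t : ℂ) * (z * v j)‖

/-- its derivative -/
noncomputable def κP' (c : ℝ) (z : ℂ) (j : ℕ) (t : ℝ) : ℝ :=
  (((-(c : ℂ)) * (z * v j)) / (1 - ((c * t : ℝ) : ℂ) * (z * v j))).re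
    - ((-(z * v j)) / (1 - (t : ℂ) * (z * v j))).re

theorem norm_zv (z : ℂ) (j : ℕ) : ‖z * v j‖ = ‖z‖ := by rw [norm_mul, norm_v, mul_one]

theorem hasDerivAt_lin (c : ℝ) (w : ℂ) (t : ℝ) :
    HasDerivAt (fun t : ℝ => 1 - ((c * t : ℝ) : ℂ) * w) ((-(c : ℂ)) * w) t := by
  have h1 : HasDerivAt (fun t : ℝ => ((c * t : ℝ) : ℂ)) (c : ℂ) t := by
    have h0 : HasDerivAt (fun t : ℝ => c * t) c t := by
      simpa using (hasDerivAt_id t).const_mul c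
    exact h0.ofReal_comp
  have h2 := (h1.mul_const w).const_sub 1
  simpa using h2

theorem κP_hasDerivAt {c : ℝ} {z : ℂ} {j : ℕ} {t : ℝ} (h1 : 1 - ((c * t : ℝ) : ℂ) * (z * v j) ≠ 0)
    (h2 : 1 - (t : ℂ) * (z * v j) ≠ 0) : HasDerivAt (κP c z j) (κP' c z j t) t := by
  unfold κP κP'
  refine HasDerivAt.sub ?_ ?_
  · exact hasDerivAt_log_norm (γ := fun t : ℝ => 1 - ((c * t : ℝ) : ℂ) * (z * v j))
      (hasDerivAt_lin c (z * v j) t) h1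
  · have h3 := hasDerivAt_lin 1 (z * v j) t
    have h4 : (fun t : ℝ => 1 - ((1 * t : ℝ) : ℂ) * (z * v j)) = fun t : ℝ => 1 - (t : ℂ) * (z * v j) := by
      funext t; rw [one_mul]
    have h5 : (-((1 : ℝ) : ℂ)) * (z * v j) = -(z * v j) := by push_cast; ring
    rw [h4, h5] at h3
    exact hasDerivAt_log_norm (γ := fun t : ℝ => 1 - (t : ℂ) * (z * v j)) h3 h2

theorem norm_scal {b : ℝ} (hb : 0 ≤ b) (z : ℂ) (j : ℕ) : ‖(b : ℂ) * (z * v j)‖ = b * ‖z‖ := by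
  rw [norm_mul, norm_zv, Complex.norm_real, Real.norm_of_nonneg hb]

/-- Bound for the derivative of the past factor. -/
theorem abs_κP'_le {c : ℝ} (hc : 1 ≤ c) {z : ℂ} (j : ℕ) {t : ℝ} (ht : 0 ≤ t)
    (h : c * t * ‖z‖ < 1) :
    |κP' c z j t| ≤ (c - 1) * ‖z‖ * (((‖1 - (((c * t : ℝ) : ℂ) * z) * v j‖ ^ 2)⁻¹
      + (‖1 - ((t : ℂ) * z) * v j‖ ^ 2)⁻¹) / 2) := by
  have hct : 0 ≤ c * t := by positivity
  have htc : t ≤ c * t := by nlinarith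
  have hz0 := norm_nonneg z
  have h2 : t * ‖z‖ < 1 := lt_of_le_of_lt (mul_le_mul_of_nonneg_right htc hz0) h
  set w := z * v j with hw
  have hwn : ‖w‖ = ‖z‖ := norm_zv z j
  have e1 : (((c * t : ℝ) : ℂ) * z) * v j = ((c * t : ℝ) : ℂ) * w := by rw [hw]; ring
  have e2 : ((t : ℂ) * z) * v j = (t : ℂ) * w := by rw [hw]; ring
  rw [e1, e2]
  have hne1 : 1 - ((c * t : ℝ) : ℂ) * w ≠ 0 := by
    apply one_sub_ne
    rw [norm_mul, hwn, Complex.norm_real, Real.norm_of_nonneg hct]; exact h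
  have hne2 : 1 - (t : ℂ) * w ≠ 0 := by
    apply one_sub_ne
    rw [norm_mul, hwn, Complex.norm_real, Real.norm_of_nonneg ht]; exact h2
  have hp1 := norm_pos_iff.mpr hne1
  have hp2 := norm_pos_iff.mpr hne2
  unfold κP'
  rw [← hw, ← Complex.sub_re]
  clear_value w
  have hid : (-(c : ℂ)) * w / (1 - ((c * t : ℝ) : ℂ) * w) - -w / (1 - (t : ℂ) * w)
      = ((1 - c : ℝ) : ℂ) * w / ((1 - ((c * t : ℝ) : ℂ) * w) * (1 - (t : ℂ) * w)) := by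
    rw [div_sub_div _ _ hne1 hne2]
    congr 1
    push_cast
    ring
  rw [hid]
  refine (Complex.abs_re_le_norm _).trans ?_
  rw [norm_div, norm_mul, norm_mul, Complex.norm_real, hwn, Real.norm_eq_abs,
    abs_of_nonpos (by linarith), neg_sub, div_eq_mul_inv]
  apply mul_le_mul_of_nonneg_left _ (mul_nonneg (by linarith) hz0)
  rw [mul_inv]
  set p := ‖1 - ((c * t : ℝ) : ℂ) * w‖⁻¹ with hp
  set p' := ‖1 - (t : ℂ) * w‖⁻¹ with hp'
  have e3 : (‖1 - ((c * t : ℝ) : ℂ) * w‖ ^ 2)⁻¹ = p ^ 2 := by rw [hp, inv_pow]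
  have e4 : (‖1 - (t : ℂ) * w‖ ^ 2)⁻¹ = p' ^ 2 := by rw [hp', inv_pow]
  rw [e3, e4]
  nlinarith [sq_nonneg (p - p')]

theorem κP'_cont {c : ℝ} {z : ℂ} (j : ℕ) {s : Set ℝ}
    (h1 : ∀ t ∈ s, 1 - ((c * t : ℝ) : ℂ) * (z * v j) ≠ 0)
    (h2 : ∀ t ∈ s, 1 - (t : ℂ) * (z * v j) ≠ 0) : ContinuousOn (κP' c z j) s := by
  unfold κP'
  apply ContinuousOn.sub
  · apply Complex.continuous_re.comp_continuousOn
    apply ContinuousOn.div continuousOn_const _ h1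
    exact (continuous_const.sub ((Complex.continuous_ofReal.comp
      (continuous_const.mul continuous_id)).mul continuous_const)).continuousOn
  · apply Complex.continuous_re.comp_continuousOn
    apply ContinuousOn.div continuousOn_const _ h2
    exact (continuous_const.sub (Complex.continuous_ofReal.mul continuous_const)).continuousOn

/-- The past family satisfies the hypotheses of the block lemma. -/
theorem famP (k l : ℕ) (hk : 1 ≤ k) {z : ℂ} (hz : ‖z‖ ≤ rr k) :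
    Fam (2 ^ (l + 5)) (rr l) (rr (l + 1)) (2 * (1 / 2) ^ k)
      (4 * 2 ^ (l + 5) * (1 / 2) ^ k * Real.exp (-7)) (32 * 2 ^ (l + 5) * 2 ^ l * (1 / 2) ^ k)
      (κP (1 / rr (k + 1) ^ 2) z) (κP' (1 / rr (k + 1) ^ 2) z) := by
  set R := rr (k + 1) with hR
  have hRpos : 0 < R := rr_succ_pos k
  set y : ℝ := (1 / 2 : ℝ) ^ (k + 1) with hy
  have hy0 : 0 < y := half_pos _
  have hy4 : y ≤ 1 / 4 := by
    have := half_anti (k := 2) (l := k + 1) (by omega)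
    norm_num at this ⊢
    linarith
  have hRy : R = 1 - y := rfl
  have hky : (1 / 2 : ℝ) ^ k = 2 * y := by rw [hy, half_succ]; ring
  set c := 1 / R ^ 2 with hc
  have hc1 : 1 ≤ c := by
    rw [hc, le_div_iff₀ (by positivity), hRy]
    nlinarith
  have hcm : c - 1 ≤ 2 * (1 / 2 : ℝ) ^ k := by
    rw [hky, hc, sub_le_iff_le_add, div_le_iff₀ (by positivity), hRy]
    nlinarith [mul_nonneg hy0.le hy0.le]
  have hz0 := norm_nonneg z
  have hz1 : ‖z‖ ≤ 1 := hz.trans (rr_lt_one k).le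
  set x : ℝ := (1 / 2 : ℝ) ^ (l + 1) with hx
  have hx0 : 0 < x := half_pos _
  have hx1 : x ≤ 1 := half_le_one _
  have hxl2 : (1 / 2 : ℝ) ^ (l + 2) = x / 2 := by rw [hx, half_succ (l + 1)]
  -- the main inequality
  have hτ : ∀ t ∈ Set.Icc (rr l) (rr (l + 1)), c * t * ‖z‖ ≤ 1 - (1 / 2) ^ (l + 2) := by
    intro t ht
    have ht0 : 0 ≤ t := (rr_nonneg l).trans ht.1
    have ht1 : t ≤ 1 - x := ht.2
    have hzk : ‖z‖ ≤ 1 - 2 * y := by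
      have := hz
      unfold rr at this
      rwa [hky] at this
    rw [hxl2, hc]
    have h1 : t * ‖z‖ ≤ (1 - x) * (1 - 2 * y) := mul_le_mul ht1 hzk hz0 (by linarith)
    have h2 : (1 - x) * (1 - 2 * y) ≤ (1 - x / 2) * R ^ 2 := by
      rw [hRy]
      nlinarith [mul_nonneg hx0.le (by linarith : (0 : ℝ) ≤ 1 - 2 * y), mul_nonneg hy0.le hy0.le]
    rw [mul_assoc, one_div, inv_mul_le_iff₀ (by positivity)]
    linarith
  have hlt : ∀ t ∈ Set.Icc (rr l) (rr (l + 1)), c * t * ‖z‖ < 1 := by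
    intro t ht
    have := hτ t ht
    have := half_pos (l + 2)
    linarith
  have ht0 : ∀ t ∈ Set.Icc (rr l) (rr (l + 1)), 0 ≤ t := fun t ht => (rr_nonneg l).trans ht.1
  have ht1 : ∀ t ∈ Set.Icc (rr l) (rr (l + 1)), t ≤ 1 := fun t ht => ht.2.trans (rr_lt_one _).le
  have htct : ∀ t ∈ Set.Icc (rr l) (rr (l + 1)), t ≤ c * t := by
    intro t ht
    have := ht0 t ht
    nlinarith
  have hne1 : ∀ j, ∀ t ∈ Set.Icc (rr l) (rr (l + 1)), 1 - ((c * t : ℝ) : ℂ) * (z * v j) ≠ 0 := by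
    intro j t ht
    apply one_sub_ne
    rw [norm_scal (mul_nonneg (by linarith) (ht0 t ht))]
    exact hlt t ht
  have hne2 : ∀ j, ∀ t ∈ Set.Icc (rr l) (rr (l + 1)), 1 - (t : ℂ) * (z * v j) ≠ 0 := by
    intro j t ht
    apply one_sub_ne
    rw [norm_scal (ht0 t ht)]
    exact lt_of_le_of_lt (mul_le_mul_of_nonneg_right (htct t ht) hz0) (hlt t ht)
  -- powers
  have hpow8 : ∀ s : ℝ, 0 ≤ s → s ≤ 1 - (1 / 2) ^ (l + 2) → s ^ (2 ^ (l + 5)) ≤ 1 / 2 := by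
    intro s hs0 hs
    have h1 : s ^ (2 ^ (l + 5)) ≤ (1 - (1 / 2 : ℝ) ^ (l + 2)) ^ (2 ^ (l + 5)) := pow_le_pow_left₀ hs0 hs _
    have h2 := one_sub_pow_le ((1 / 2 : ℝ) ^ (l + 2)) (half_le_one _) (2 ^ (l + 5))
    have h3 : (((2 ^ (l + 5) : ℕ) : ℝ)) * (1 / 2 : ℝ) ^ (l + 2) = 8 := by
      push_cast
      rw [two_pow_mul_half _ _ (by omega)]
      have : l + 5 - (l + 2) = 3 := by omega
      rw [this]; norm_num
    rw [h3] at h2
    have h4 : Real.exp (-8) ≤ 1 / 2 := by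
      have h5 : Real.exp (-8) ≤ Real.exp (-1) := Real.exp_le_exp.mpr (by norm_num)
      have h6 : Real.exp (-1) < 1 / 2 := by
        rw [Real.exp_neg]
        rw [inv_lt_comm₀ (Real.exp_pos _) (by norm_num)]
        have := Real.exp_one_gt_d9
        norm_num at this ⊢
        linarith
      linarith
    linarith
  have hpow7 : ∀ s : ℝ, 0 ≤ s → s ≤ 1 - (1 / 2) ^ (l + 2) → s ^ (2 ^ (l + 5) - 1) ≤ Real.exp (-7) := by
    intro s hs0 hs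
    have h1 : s ^ (2 ^ (l + 5) - 1) ≤ (1 - (1 / 2 : ℝ) ^ (l + 2)) ^ (2 ^ (l + 5) - 1) :=
      pow_le_pow_left₀ hs0 hs _
    have h2 := one_sub_pow_le ((1 / 2 : ℝ) ^ (l + 2)) (half_le_one _) (2 ^ (l + 5) - 1)
    have h3 : (((2 ^ (l + 5) - 1 : ℕ) : ℝ)) * (1 / 2 : ℝ) ^ (l + 2) ≥ 7 := by
      have h4 : 1 ≤ 2 ^ (l + 5) := Nat.one_le_two_pow
      rw [Nat.cast_sub h4]
      push_cast
      rw [sub_mul, two_pow_mul_half _ _ (by omega)]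
      have : l + 5 - (l + 2) = 3 := by omega
      rw [this]
      have := half_le_one (l + 2)
      norm_num
      linarith
    calc s ^ (2 ^ (l + 5) - 1) ≤ _ := h1
      _ ≤ _ := h2
      _ ≤ Real.exp (-7) := Real.exp_le_exp.mpr (by linarith)
  have hk0 := half_pos k
  refine ⟨by positivity, rr_mono (Nat.le_succ l), by positivity, by positivity, by positivity,
    ?_, ?_, ?_, ?_, ?_⟩
  · -- upper
    intro j t ht
    unfold κP
    have h1 := log_factor_le (ht0 t ht) (htct t ht) (w := z * v j) (by rw [norm_zv]; exact hlt t ht)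
    rw [norm_zv] at h1
    refine h1.trans ?_
    have h2 : (c * t - t) * ‖z‖ = (c - 1) * (t * ‖z‖) := by ring
    rw [h2]
    have h3 : t * ‖z‖ ≤ 1 := by
      calc t * ‖z‖ ≤ 1 * 1 := mul_le_mul (ht1 t ht) hz1 hz0 zero_le_one
        _ = 1 := one_mul 1
    have h4 : 0 ≤ t * ‖z‖ := mul_nonneg (ht0 t ht) hz0
    nlinarith
  · -- run
    intro g t ht
    unfold κP
    have h1 := run_log_le (ht0 t ht) (htct t ht) (l + 5) g (hlt t ht)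
      (hpow8 _ (mul_nonneg (mul_nonneg (by linarith) (ht0 t ht)) hz0) (hτ t ht))
    refine h1.trans ?_
    have h2 : (c * t - t) * ‖z‖ ≤ 2 * (1 / 2) ^ k := by
      have h2 : (c * t - t) * ‖z‖ = (c - 1) * (t * ‖z‖) := by ring
      rw [h2]
      have h3 : t * ‖z‖ ≤ 1 := by
        calc t * ‖z‖ ≤ 1 * 1 := mul_le_mul (ht1 t ht) hz1 hz0 zero_le_one
          _ = 1 := one_mul 1
      have h4 : 0 ≤ t * ‖z‖ := mul_nonneg (ht0 t ht) hz0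
      nlinarith
    have h5 := hpow7 _ (mul_nonneg (mul_nonneg (by linarith) (ht0 t ht)) hz0) (hτ t ht)
    have h6 : 0 ≤ (c * t * ‖z‖) ^ (2 ^ (l + 5) - 1) :=
      pow_nonneg (mul_nonneg (mul_nonneg (by linarith) (ht0 t ht)) hz0) _
    calc 2 * 2 ^ (l + 5) * ((c * t - t) * ‖z‖) * (c * t * ‖z‖) ^ (2 ^ (l + 5) - 1)
        ≤ 2 * 2 ^ (l + 5) * (2 * (1 / 2) ^ k) * Real.exp (-7) := by gcongr
      _ = 4 * 2 ^ (l + 5) * (1 / 2) ^ k * Real.exp (-7) := by ring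
  · -- deriv
    intro j t ht
    exact κP_hasDerivAt (hne1 j t ht) (hne2 j t ht)
  · -- cont
    intro j
    exact κP'_cont j (hne1 j) (hne2 j)
  · -- runderiv
    intro g t ht
    have hct0 : 0 ≤ c * t := mul_nonneg (by linarith) (ht0 t ht)
    have hn1 : ‖((c * t : ℝ) : ℂ) * z‖ = c * t * ‖z‖ := by
      rw [norm_mul, Complex.norm_real, Real.norm_of_nonneg hct0]
    have hn2 : ‖(t : ℂ) * z‖ = t * ‖z‖ := by
      rw [norm_mul, Complex.norm_real, Real.norm_of_nonneg (ht0 t ht)]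
    have htz : t * ‖z‖ ≤ c * t * ‖z‖ := mul_le_mul_of_nonneg_right (htct t ht) hz0
    have htz0 : 0 ≤ t * ‖z‖ := mul_nonneg (ht0 t ht) hz0
    have hS : ∀ s : ℝ, 0 ≤ s → s ≤ 1 - (1 / 2) ^ (l + 2) →
        4 * 2 ^ (l + 5) / (1 - s ^ 2) ≤ 16 * 2 ^ (l + 5) * 2 ^ l := by
      intro s hs0 hs
      have hl := half_pos (l + 2)
      have h1 : (1 / 2 : ℝ) ^ (l + 2) ≤ 1 - s ^ 2 := by nlinarith
      rw [div_le_iff₀ (by linarith)]
      have h2 : (2 : ℝ) ^ l * (1 / 2 : ℝ) ^ (l + 2) = 1 / 4 := by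
        rw [pow_add, ← mul_assoc, ← mul_pow]; norm_num
      calc (4 : ℝ) * 2 ^ (l + 5) = 16 * 2 ^ (l + 5) * (2 ^ l * (1 / 2 : ℝ) ^ (l + 2)) := by
            rw [h2]; ring
        _ = 16 * 2 ^ (l + 5) * 2 ^ l * (1 / 2 : ℝ) ^ (l + 2) := by ring
        _ ≤ 16 * 2 ^ (l + 5) * 2 ^ l * (1 - s ^ 2) := by gcongr
    have hs1 := sum_run_le (l + 5) g (x := ((c * t : ℝ) : ℂ) * z) (by rw [hn1]; exact hlt t ht)
      (by rw [hn1]; exact hpow8 _ (by positivity) (hτ t ht))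
    have hs2 := sum_run_le (l + 5) g (x := (t : ℂ) * z)
      (by rw [hn2]; exact lt_of_le_of_lt htz (hlt t ht))
      (by rw [hn2]; exact hpow8 _ htz0 (htz.trans (hτ t ht)))
    rw [hn1] at hs1
    rw [hn2] at hs2
    have hs1' := hs1.trans (hS _ (by positivity) (hτ t ht))
    have hs2' := hs2.trans (hS _ htz0 (htz.trans (hτ t ht)))
    calc ∑ i ∈ range (2 ^ (l + 5)), |κP' c z (g * 2 ^ (l + 5) + i) t|
        ≤ ∑ i ∈ range (2 ^ (l + 5)), (c - 1) * ‖z‖ *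
          (((‖1 - (((c * t : ℝ) : ℂ) * z) * v (g * 2 ^ (l + 5) + i)‖ ^ 2)⁻¹
          + (‖1 - ((t : ℂ) * z) * v (g * 2 ^ (l + 5) + i)‖ ^ 2)⁻¹) / 2) :=
          sum_le_sum fun i _ => abs_κP'_le hc1 _ (ht0 t ht) (hlt t ht)
      _ = (c - 1) * ‖z‖ * ((∑ i ∈ range (2 ^ (l + 5)), (‖1 - (((c * t : ℝ) : ℂ) * z) * v (g * 2 ^ (l + 5) + i)‖ ^ 2)⁻¹
          + ∑ i ∈ range (2 ^ (l + 5)), (‖1 - ((t : ℂ) * z) * v (g * 2 ^ (l + 5) + i)‖ ^ 2)⁻¹) / 2) := by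
          rw [← mul_sum, ← sum_div, sum_add_distrib]
      _ ≤ (2 * (1 / 2) ^ k * 1) * ((16 * 2 ^ (l + 5) * 2 ^ l + 16 * 2 ^ (l + 5) * 2 ^ l) / 2) := by
          gcongr
      _ = 32 * 2 ^ (l + 5) * 2 ^ l * (1 / 2) ^ k := by ring

/-! ### Future family -/

/-- future factor -/
noncomputable def κF (z : ℂ) (j : ℕ) (t : ℝ) : ℝ :=
  Real.log ‖1 - ((t⁻¹ : ℝ) : ℂ) * (z * v j)‖ - Real.log ‖1 - (t : ℂ) * (z * v j)‖

/-- its derivative -/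
noncomputable def κF' (z : ℂ) (j : ℕ) (t : ℝ) : ℝ :=
  (((((t ^ 2)⁻¹ : ℝ) : ℂ) * (z * v j)) / (1 - ((t⁻¹ : ℝ) : ℂ) * (z * v j))).re
    - ((-(z * v j)) / (1 - (t : ℂ) * (z * v j))).re

theorem κF_hasDerivAt {z : ℂ} {j : ℕ} {t : ℝ} (ht : t ≠ 0)
    (h1 : 1 - ((t⁻¹ : ℝ) : ℂ) * (z * v j) ≠ 0)
    (h2 : 1 - (t : ℂ) * (z * v j) ≠ 0) : HasDerivAt (κF z j) (κF' z j t) t := by
  unfold κF κF'
  refine HasDerivAt.sub ?_ ?_
  · have h3 : HasDerivAt (fun t : ℝ => 1 - ((t⁻¹ : ℝ) : ℂ) * (z * v j))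
        ((((t ^ 2)⁻¹ : ℝ) : ℂ) * (z * v j)) t := by
      have h0 : HasDerivAt (fun t : ℝ => ((t⁻¹ : ℝ) : ℂ)) ((-(t ^ 2)⁻¹ : ℝ) : ℂ) t :=
        (hasDerivAt_inv ht).ofReal_comp
      have h4 := (h0.mul_const (z * v j)).const_sub 1
      have h5 : -(((-(t ^ 2)⁻¹ : ℝ) : ℂ) * (z * v j)) = (((t ^ 2)⁻¹ : ℝ) : ℂ) * (z * v j) := by
        push_cast; ring
      rw [h5] at h4
      exact h4
    exact hasDerivAt_log_norm (γ := fun t : ℝ => 1 - ((t⁻¹ : ℝ) : ℂ) * (z * v j)) h3 h1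
  · have h3 := hasDerivAt_lin 1 (z * v j) t
    have h4 : (fun t : ℝ => 1 - ((1 * t : ℝ) : ℂ) * (z * v j)) = fun t : ℝ => 1 - (t : ℂ) * (z * v j) := by
      funext t; rw [one_mul]
    have h5 : (-((1 : ℝ) : ℂ)) * (z * v j) = -(z * v j) := by push_cast; ring
    rw [h4, h5] at h3
    exact hasDerivAt_log_norm (γ := fun t : ℝ => 1 - (t : ℂ) * (z * v j)) h3 h2

theorem abs_κF'_le {z : ℂ} (j : ℕ) {t : ℝ} (ht : 0 < t)
    (h1 : t⁻¹ * ‖z‖ < 1) (h2 : t * ‖z‖ < 1) :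
    |κF' z j t| ≤ t⁻¹ * (((1 - ‖((t⁻¹ : ℝ) : ℂ) * z‖ ^ 2) * (‖1 - (((t⁻¹ : ℝ) : ℂ) * z) * v j‖ ^ 2)⁻¹ + 1) / 2)
      + t⁻¹ * (((1 - ‖(t : ℂ) * z‖ ^ 2) * (‖1 - ((t : ℂ) * z) * v j‖ ^ 2)⁻¹ + 1) / 2) := by
  set w := z * v j with hw
  have hwn : ‖w‖ = ‖z‖ := norm_zv z j
  have e1 : (((t⁻¹ : ℝ) : ℂ) * z) * v j = ((t⁻¹ : ℝ) : ℂ) * w := by rw [hw]; ring
  have e2 : ((t : ℂ) * z) * v j = (t : ℂ) * w := by rw [hw]; ring
  have n1 : ‖((t⁻¹ : ℝ) : ℂ) * z‖ = ‖((t⁻¹ : ℝ) : ℂ) * w‖ := by rw [norm_mul, norm_mul, hwn]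
  have n2 : ‖(t : ℂ) * z‖ = ‖(t : ℂ) * w‖ := by rw [norm_mul, norm_mul, hwn]
  rw [e1, e2, n1, n2]
  have ha : ‖((t⁻¹ : ℝ) : ℂ) * w‖ < 1 := by
    rw [norm_mul, hwn, Complex.norm_real, Real.norm_of_nonneg (inv_nonneg.mpr ht.le)]; exact h1
  have hb : ‖(t : ℂ) * w‖ < 1 := by
    rw [norm_mul, hwn, Complex.norm_real, Real.norm_of_nonneg ht.le]; exact h2
  have hA := abs_re_div_le ha
  have hB := abs_re_div_le hb
  have hne1 := one_sub_ne ha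
  have hne2 := one_sub_ne hb
  have htc : (t : ℂ) ≠ 0 := by exact_mod_cast ht.ne'
  have hti : 0 < t⁻¹ := inv_pos.mpr ht
  have hid : κF' z j t = t⁻¹ * ((((t⁻¹ : ℝ) : ℂ) * w) / (1 - ((t⁻¹ : ℝ) : ℂ) * w)).re
      + t⁻¹ * (((t : ℂ) * w) / (1 - (t : ℂ) * w)).re := by
    unfold κF'
    rw [← hw, ← Complex.re_ofReal_mul, ← Complex.re_ofReal_mul, ← Complex.sub_re, ← Complex.add_re]
    congr 1
    have g1 : (((t ^ 2)⁻¹ : ℝ) : ℂ) * w / (1 - ((t⁻¹ : ℝ) : ℂ) * w)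
        = ((t⁻¹ : ℝ) : ℂ) * ((((t⁻¹ : ℝ) : ℂ) * w) / (1 - ((t⁻¹ : ℝ) : ℂ) * w)) := by
      rw [← mul_div_assoc]
      congr 1
      push_cast
      ring
    have g2 : -w / (1 - (t : ℂ) * w) = -(((t⁻¹ : ℝ) : ℂ) * (((t : ℂ) * w) / (1 - (t : ℂ) * w))) := by
      rw [← mul_div_assoc, ← neg_div]
      congr 1
      push_cast
      field_simp
    rw [g1, g2, sub_neg_eq_add]
  rw [hid]
  calc |t⁻¹ * ((((t⁻¹ : ℝ) : ℂ) * w) / (1 - ((t⁻¹ : ℝ) : ℂ) * w)).re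
      + t⁻¹ * (((t : ℂ) * w) / (1 - (t : ℂ) * w)).re|
      ≤ |t⁻¹ * ((((t⁻¹ : ℝ) : ℂ) * w) / (1 - ((t⁻¹ : ℝ) : ℂ) * w)).re|
      + |t⁻¹ * (((t : ℂ) * w) / (1 - (t : ℂ) * w)).re| := abs_add_le _ _
    _ = t⁻¹ * |((((t⁻¹ : ℝ) : ℂ) * w) / (1 - ((t⁻¹ : ℝ) : ℂ) * w)).re|
      + t⁻¹ * |(((t : ℂ) * w) / (1 - (t : ℂ) * w)).re| := by
        rw [abs_mul, abs_mul, abs_of_pos hti]
    _ ≤ _ := by gcongr

theorem κF'_cont {z : ℂ} (j : ℕ) {s : Set ℝ} (h0 : ∀ t ∈ s, t ≠ 0)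
    (h1 : ∀ t ∈ s, 1 - ((t⁻¹ : ℝ) : ℂ) * (z * v j) ≠ 0)
    (h2 : ∀ t ∈ s, 1 - (t : ℂ) * (z * v j) ≠ 0) : ContinuousOn (κF' z j) s := by
  unfold κF'
  apply ContinuousOn.sub
  · apply Complex.continuous_re.comp_continuousOn
    apply ContinuousOn.div _ _ h1
    · apply ContinuousOn.mul _ continuousOn_const
      apply Complex.continuous_ofReal.comp_continuousOn
      exact ContinuousOn.inv₀ (continuous_pow 2).continuousOn (fun t ht => pow_ne_zero 2 (h0 t ht))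
    · apply ContinuousOn.sub continuousOn_const
      apply ContinuousOn.mul _ continuousOn_const
      apply Complex.continuous_ofReal.comp_continuousOn
      exact ContinuousOn.inv₀ continuousOn_id h0
  · apply Complex.continuous_re.comp_continuousOn
    apply ContinuousOn.div continuousOn_const _ h2
    exact (continuous_const.sub (Complex.continuous_ofReal.mul continuous_const)).continuousOn

/-- The future family satisfies the hypotheses of the block lemma. -/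
theorem famF (k l m : ℕ) (hk : 1 ≤ k) (hl : k + 1 ≤ l) (hm : k + 5 ≤ m) {z : ℂ} (hz : ‖z‖ ≤ rr k) :
    Fam (2 ^ m) (rr l) (rr (l + 1)) (2 * (1 / 2) ^ l)
      (4 * 2 ^ m * (1 / 2) ^ l * Real.exp (1 - 2 ^ (m - (k + 1)))) (7 * 2 ^ m)
      (κF z) (κF' z) := by
  set y : ℝ := (1 / 2 : ℝ) ^ (k + 1) with hy
  have hy0 : 0 < y := half_pos _
  have hy4 : y ≤ 1 / 4 := by
    have := half_anti (k := 2) (l := k + 1) (by omega)
    norm_num at this ⊢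
    linarith
  have hky : (1 / 2 : ℝ) ^ k = 2 * y := by rw [hy, half_succ]; ring
  have hzk : ‖z‖ ≤ 1 - 2 * y := by
    have := hz
    unfold rr at this
    rwa [hky] at this
  have hz0 := norm_nonneg z
  have hz1 : ‖z‖ ≤ 1 := hz.trans (rr_lt_one k).le
  have hlk : rr (k + 1) ≤ rr l := rr_mono hl
  have ht34 : ∀ t ∈ Set.Icc (rr l) (rr (l + 1)), 1 - y ≤ t := fun t ht => hlk.trans ht.1
  have htpos : ∀ t ∈ Set.Icc (rr l) (rr (l + 1)), 0 < t := fun t ht => by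
    have := ht34 t ht; linarith
  have ht1 : ∀ t ∈ Set.Icc (rr l) (rr (l + 1)), t ≤ 1 := fun t ht => ht.2.trans (rr_lt_one _).le
  have htinv : ∀ t ∈ Set.Icc (rr l) (rr (l + 1)), t ≤ t⁻¹ := by
    intro t ht
    rw [le_inv_comm₀ (htpos t ht) (htpos t ht)]
    · have := (one_le_inv₀ (htpos t ht)).mpr (ht1 t ht)
      linarith [ht1 t ht]
  have hτ : ∀ t ∈ Set.Icc (rr l) (rr (l + 1)), t⁻¹ * ‖z‖ ≤ 1 - (1 / 2) ^ (k + 1) := by
    intro t ht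
    rw [inv_mul_le_iff₀ (htpos t ht), ← hy]
    have h1 := ht34 t ht
    nlinarith
  have hlt : ∀ t ∈ Set.Icc (rr l) (rr (l + 1)), t⁻¹ * ‖z‖ < 1 := by
    intro t ht
    have := hτ t ht
    linarith
  have htz : ∀ t ∈ Set.Icc (rr l) (rr (l + 1)), t * ‖z‖ ≤ t⁻¹ * ‖z‖ :=
    fun t ht => mul_le_mul_of_nonneg_right (htinv t ht) hz0
  have hlt2 : ∀ t ∈ Set.Icc (rr l) (rr (l + 1)), t * ‖z‖ < 1 :=
    fun t ht => lt_of_le_of_lt (htz t ht) (hlt t ht)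
  have hne1 : ∀ j, ∀ t ∈ Set.Icc (rr l) (rr (l + 1)), 1 - ((t⁻¹ : ℝ) : ℂ) * (z * v j) ≠ 0 := by
    intro j t ht
    apply one_sub_ne
    rw [norm_scal (inv_nonneg.mpr (htpos t ht).le)]
    exact hlt t ht
  have hne2 : ∀ j, ∀ t ∈ Set.Icc (rr l) (rr (l + 1)), 1 - (t : ℂ) * (z * v j) ≠ 0 := by
    intro j t ht
    apply one_sub_ne
    rw [norm_scal (htpos t ht).le]
    exact hlt2 t ht
  have hmk : (2 : ℝ) ^ m * (1 / 2 : ℝ) ^ (k + 1) = 2 ^ (m - (k + 1)) := two_pow_mul_half _ _ (by omega)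
  have h16 : (16 : ℝ) ≤ 2 ^ (m - (k + 1)) := by
    have : (2 : ℝ) ^ 4 ≤ 2 ^ (m - (k + 1)) := pow_le_pow_right₀ (by norm_num) (by omega)
    norm_num at this ⊢
    linarith
  have hpow8 : ∀ s : ℝ, 0 ≤ s → s ≤ 1 - (1 / 2) ^ (k + 1) → s ^ (2 ^ m) ≤ 1 / 2 := by
    intro s hs0 hs
    have h1 : s ^ (2 ^ m) ≤ (1 - (1 / 2 : ℝ) ^ (k + 1)) ^ (2 ^ m) := pow_le_pow_left₀ hs0 hs _
    have h2 := one_sub_pow_le ((1 / 2 : ℝ) ^ (k + 1)) (half_le_one _) (2 ^ m)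
    push_cast at h2
    rw [hmk] at h2
    have h4 : Real.exp (-(2 ^ (m - (k + 1)))) ≤ 1 / 2 := by
      have h5 : Real.exp (-(2 ^ (m - (k + 1)))) ≤ Real.exp (-1) := Real.exp_le_exp.mpr (by linarith)
      have h6 : Real.exp (-1) < 1 / 2 := by
        rw [Real.exp_neg]
        rw [inv_lt_comm₀ (Real.exp_pos _) (by norm_num)]
        have := Real.exp_one_gt_d9
        norm_num at this ⊢
        linarith
      linarith
    linarith
  have hpow7 : ∀ s : ℝ, 0 ≤ s → s ≤ 1 - (1 / 2) ^ (k + 1) →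
      s ^ (2 ^ m - 1) ≤ Real.exp (1 - 2 ^ (m - (k + 1))) := by
    intro s hs0 hs
    have h1 : s ^ (2 ^ m - 1) ≤ (1 - (1 / 2 : ℝ) ^ (k + 1)) ^ (2 ^ m - 1) :=
      pow_le_pow_left₀ hs0 hs _
    have h2 := one_sub_pow_le ((1 / 2 : ℝ) ^ (k + 1)) (half_le_one _) (2 ^ m - 1)
    have h3 : (((2 ^ m - 1 : ℕ) : ℝ)) * (1 / 2 : ℝ) ^ (k + 1) ≥ 2 ^ (m - (k + 1)) - 1 := by
      have h4 : 1 ≤ 2 ^ m := Nat.one_le_two_pow
      rw [Nat.cast_sub h4]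
      push_cast
      rw [sub_mul, hmk]
      have := half_le_one (k + 1)
      linarith
    calc s ^ (2 ^ m - 1) ≤ _ := h1
      _ ≤ _ := h2
      _ ≤ Real.exp (1 - 2 ^ (m - (k + 1))) := Real.exp_le_exp.mpr (by linarith)
  have hl0 := half_pos l
  -- the difference `t⁻¹ - t`
  have hdiff : ∀ t ∈ Set.Icc (rr l) (rr (l + 1)), (t⁻¹ - t) * ‖z‖ ≤ 2 * (1 / 2) ^ l := by
    intro t ht
    have ht0 := htpos t ht
    have h1 : (t⁻¹ - t) * ‖z‖ = (1 - t ^ 2) * (t⁻¹ * ‖z‖) := by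
      field_simp
    rw [h1]
    have h2 : 0 ≤ 1 - t ^ 2 := by
      have := ht1 t ht
      nlinarith
    have h3 : 1 - t ^ 2 ≤ 2 * (1 / 2) ^ l := by
      have h4 := ht.1
      unfold rr at h4
      have := ht1 t ht
      nlinarith
    have h5 := (hlt t ht).le
    have h6 : 0 ≤ t⁻¹ * ‖z‖ := mul_nonneg (inv_nonneg.mpr ht0.le) hz0
    nlinarith
  refine ⟨by positivity, rr_mono (Nat.le_succ l), by positivity, by positivity, by positivity,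
    ?_, ?_, ?_, ?_, ?_⟩
  · -- upper
    intro j t ht
    unfold κF
    have h1 := log_factor_le (htpos t ht).le (htinv t ht) (w := z * v j) (by rw [norm_zv]; exact hlt t ht)
    rw [norm_zv] at h1
    exact h1.trans (hdiff t ht)
  · -- run
    intro g t ht
    unfold κF
    have hnn : 0 ≤ t⁻¹ * ‖z‖ := mul_nonneg (inv_nonneg.mpr (htpos t ht).le) hz0
    have h1 := run_log_le (htpos t ht).le (htinv t ht) m g (hlt t ht)
      (hpow8 _ hnn (hτ t ht))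
    refine h1.trans ?_
    have h5 := hpow7 _ hnn (hτ t ht)
    have h2 := hdiff t ht
    calc 2 * 2 ^ m * ((t⁻¹ - t) * ‖z‖) * (t⁻¹ * ‖z‖) ^ (2 ^ m - 1)
        ≤ 2 * 2 ^ m * (2 * (1 / 2) ^ l) * Real.exp (1 - 2 ^ (m - (k + 1))) := by gcongr
      _ = 4 * 2 ^ m * (1 / 2) ^ l * Real.exp (1 - 2 ^ (m - (k + 1))) := by ring
  · intro j t ht
    exact κF_hasDerivAt (htpos t ht).ne' (hne1 j t ht) (hne2 j t ht)
  · intro j
    exact κF'_cont j (fun t ht => (htpos t ht).ne') (hne1 j) (hne2 j)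
  · -- runderiv
    intro g t ht
    have ht0 := htpos t ht
    have hti0 : 0 ≤ t⁻¹ := inv_nonneg.mpr ht0.le
    have hn1 : ‖((t⁻¹ : ℝ) : ℂ) * z‖ = t⁻¹ * ‖z‖ := by
      rw [norm_mul, Complex.norm_real, Real.norm_of_nonneg hti0]
    have hn2 : ‖(t : ℂ) * z‖ = t * ‖z‖ := by
      rw [norm_mul, Complex.norm_real, Real.norm_of_nonneg ht0.le]
    have hnn1 : 0 ≤ t⁻¹ * ‖z‖ := mul_nonneg hti0 hz0
    have hnn2 : 0 ≤ t * ‖z‖ := mul_nonneg ht0.le hz0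
    have hs1 := sum_run_le m g (x := ((t⁻¹ : ℝ) : ℂ) * z) (by rw [hn1]; exact hlt t ht)
      (by rw [hn1]; exact hpow8 _ hnn1 (hτ t ht))
    have hs2 := sum_run_le m g (x := (t : ℂ) * z) (by rw [hn2]; exact hlt2 t ht)
      (by rw [hn2]; exact hpow8 _ hnn2 ((htz t ht).trans (hτ t ht)))
    have hone : ∀ x : ℂ, ‖x‖ < 1 →
        ∑ i ∈ range (2 ^ m), (‖1 - x * v (g * 2 ^ m + i)‖ ^ 2)⁻¹ ≤ 4 * 2 ^ m / (1 - ‖x‖ ^ 2) →
        ∑ i ∈ range (2 ^ m), ((1 - ‖x‖ ^ 2) * (‖1 - x * v (g * 2 ^ m + i)‖ ^ 2)⁻¹ + 1) / 2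
          ≤ 5 / 2 * 2 ^ m := by
      intro x hx hs
      have h1 : 0 < 1 - ‖x‖ ^ 2 := by
        have := norm_nonneg x
        nlinarith
      rw [← sum_div, sum_add_distrib, ← mul_sum, sum_const, card_range, nsmul_eq_mul]
      have h2 : (1 - ‖x‖ ^ 2) * ∑ i ∈ range (2 ^ m), (‖1 - x * v (g * 2 ^ m + i)‖ ^ 2)⁻¹
          ≤ 4 * 2 ^ m := by
        calc (1 - ‖x‖ ^ 2) * ∑ i ∈ range (2 ^ m), (‖1 - x * v (g * 2 ^ m + i)‖ ^ 2)⁻¹
            ≤ (1 - ‖x‖ ^ 2) * (4 * 2 ^ m / (1 - ‖x‖ ^ 2)) := by gcongr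
          _ = 4 * 2 ^ m := by field_simp
      push_cast
      linarith
    have hx1 : ‖((t⁻¹ : ℝ) : ℂ) * z‖ < 1 := by rw [hn1]; exact hlt t ht
    have hx2 : ‖(t : ℂ) * z‖ < 1 := by rw [hn2]; exact hlt2 t ht
    have hA := hone _ hx1 hs1
    have hB := hone _ hx2 hs2
    have htinv43 : t⁻¹ ≤ 7 / 5 := by
      rw [inv_le_comm₀ ht0 (by norm_num)]
      have := ht34 t ht
      norm_num
      linarith
    calc ∑ i ∈ range (2 ^ m), |κF' z (g * 2 ^ m + i) t|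
        ≤ ∑ i ∈ range (2 ^ m), (t⁻¹ * (((1 - ‖((t⁻¹ : ℝ) : ℂ) * z‖ ^ 2)
            * (‖1 - (((t⁻¹ : ℝ) : ℂ) * z) * v (g * 2 ^ m + i)‖ ^ 2)⁻¹ + 1) / 2)
          + t⁻¹ * (((1 - ‖(t : ℂ) * z‖ ^ 2)
            * (‖1 - ((t : ℂ) * z) * v (g * 2 ^ m + i)‖ ^ 2)⁻¹ + 1) / 2)) :=
          sum_le_sum fun i _ => abs_κF'_le _ ht0 (hlt t ht) (hlt2 t ht)
      _ = t⁻¹ * (∑ i ∈ range (2 ^ m), ((1 - ‖((t⁻¹ : ℝ) : ℂ) * z‖ ^ 2)
            * (‖1 - (((t⁻¹ : ℝ) : ℂ) * z) * v (g * 2 ^ m + i)‖ ^ 2)⁻¹ + 1) / 2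
          + ∑ i ∈ range (2 ^ m), ((1 - ‖(t : ℂ) * z‖ ^ 2)
            * (‖1 - ((t : ℂ) * z) * v (g * 2 ^ m + i)‖ ^ 2)⁻¹ + 1) / 2) := by
          rw [sum_add_distrib, ← mul_sum, ← mul_sum, mul_add]
      _ ≤ (7 / 5) * (5 / 2 * 2 ^ m + 5 / 2 * 2 ^ m) := by
          apply mul_le_mul htinv43 (add_le_add hA hB) _ (by norm_num)
          apply add_nonneg <;> apply sum_nonneg <;> intro i _ <;>
            apply div_nonneg _ (by norm_num)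
          · have h1 : 0 ≤ 1 - ‖((t⁻¹ : ℝ) : ℂ) * z‖ ^ 2 := by
              have := norm_nonneg (((t⁻¹ : ℝ) : ℂ) * z)
              nlinarith
            positivity
          · have h1 : 0 ≤ 1 - ‖(t : ℂ) * z‖ ^ 2 := by
              have := norm_nonneg ((t : ℂ) * z)
              nlinarith
            positivity
      _ = 7 * 2 ^ m := by ring

end Pool.Agent.Lib_helper6.Fams
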