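import Mathlib
import Pool.Agent.Lib_helper6.Fams

/-!
# The uniform bound for the partial products
-/

open Finset

namespace Pool.Agent.Lib_helper6.Sum

open Vdc Block Factor Fams

/-- The data: increasing radii with counting function. -/
structure Sq (ρ : ℕ → ℝ) (A : ℕ → ℕ) : Prop where
  mono : Monotone ρ
  pos : ∀ j, 0 < ρ j
  lt_one : ∀ j, ρ j < 1
  count : ∀ l j, j < A l ↔ ρ j ≤ rr l

variable {ρ : ℕ → ℝ} {A : ℕ → ℕ}

theorem Sq.A_mono (h : Sq ρ A) : Monotone A := by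
  intro a b hab
  by_contra hlt
  push Not at hlt
  have h1 := (h.count a (A b)).mp hlt
  have h2 := (h.count b (A b)).not.mp (lt_irrefl _)
  exact h2 (h1.trans (rr_mono hab))

theorem Sq.A_zero (h : Sq ρ A) : A 0 = 0 := by
  by_contra h0
  have h1 := (h.count 0 0).mp (Nat.pos_of_ne_zero h0)
  have h2 := h.pos 0
  have h3 : rr 0 = 0 := by unfold rr; simp
  rw [h3] at h1
  linarith

theorem Sq.A_unbounded (h : Sq ρ A) (n : ℕ) : ∃ l, n ≤ A l := by
  rcases Nat.eq_zero_or_pos n with rfl | hn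
  · exact ⟨0, Nat.zero_le _⟩
  · obtain ⟨l, hl⟩ := exists_pow_lt_of_lt_one (sub_pos.mpr (h.lt_one (n - 1))) (by norm_num : (1 / 2 : ℝ) < 1)
    refine ⟨l, ?_⟩
    have : n - 1 < A l := by
      rw [h.count]
      unfold rr
      linarith
    omega

/-- The values of `N` at the radii `rr l`. -/
noncomputable def Nn (ρ : ℕ → ℝ) (A : ℕ → ℕ) (l : ℕ) : ℝ := ∑ j ∈ range (A l), Real.posLog (rr l / ρ j)

theorem posLog_mono_of_nonneg {x y : ℝ} (hx : 0 ≤ x) (hxy : x ≤ y) : Real.posLog x ≤ Real.posLog y :=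
  Real.monotoneOn_posLog hx (hx.trans hxy) hxy

theorem Sq.Nn_mono (h : Sq ρ A) : Monotone (Nn ρ A) := by
  intro a b hab
  unfold Nn
  calc ∑ j ∈ range (A a), Real.posLog (rr a / ρ j) ≤ ∑ j ∈ range (A a), Real.posLog (rr b / ρ j) := by
        apply sum_le_sum
        intro j _
        have hp := h.pos j
        apply posLog_mono_of_nonneg (div_nonneg (rr_nonneg a) hp.le)
        exact div_le_div_of_nonneg_right (rr_mono hab) hp.le
    _ ≤ ∑ j ∈ range (A b), Real.posLog (rr b / ρ j) := by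
        apply sum_le_sum_of_subset_of_nonneg (range_mono (h.A_mono hab))
        intro j _ _
        exact Real.posLog_nonneg

theorem Sq.sum_posLog_le (h : Sq ρ A) (k n : ℕ) :
    ∑ j ∈ range n, Real.posLog (rr k / ρ j) ≤ Nn ρ A k := by
  unfold Nn
  rcases le_total n (A k) with hle | hle
  · apply sum_le_sum_of_subset_of_nonneg (range_mono hle)
    intro j _ _
    exact Real.posLog_nonneg
  · rw [← sum_range_add_sum_Ico _ hle]
    have : ∑ j ∈ Ico (A k) n, Real.posLog (rr k / ρ j) = 0 := by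
      apply sum_eq_zero
      intro j hj
      rw [mem_Ico] at hj
      have h1 : ¬ ρ j ≤ rr k := (h.count k j).not.mp (by omega)
      push Not at h1
      rw [Real.posLog_eq_zero_iff]
      rw [abs_of_nonneg (div_nonneg (rr_nonneg k) (h.pos j).le), div_le_one (h.pos j)]
      exact h1.le
    rw [this, add_zero]

theorem Sq.Nn_growth (h : Sq ρ A) (l : ℕ) :
    (A (l + 1) : ℝ) * (1 / 2) ^ (l + 2) ≤ Nn ρ A (l + 2) - Nn ρ A (l + 1) := by
  have hr1 : 0 < rr (l + 1) := rr_succ_pos l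
  have hr2 : 0 < rr (l + 2) := rr_succ_pos (l + 1)
  have hkey : ∀ j ∈ range (A (l + 1)), (1 / 2 : ℝ) ^ (l + 2)
      ≤ Real.posLog (rr (l + 2) / ρ j) - Real.posLog (rr (l + 1) / ρ j) := by
    intro j hj
    rw [mem_range, h.count] at hj
    have hp := h.pos j
    have h1 : 1 ≤ rr (l + 1) / ρ j := by rw [one_le_div hp]; exact hj
    have h2 : 1 ≤ rr (l + 2) / ρ j := by
      rw [one_le_div hp]; exact hj.trans (rr_mono (by omega))
    rw [Real.posLog_eq_log (by rwa [abs_of_nonneg (by linarith)]),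
      Real.posLog_eq_log (by rwa [abs_of_nonneg (by linarith)]), ← Real.log_div (by linarith) (by linarith)]
    have h3 : rr (l + 2) / ρ j / (rr (l + 1) / ρ j) = rr (l + 2) / rr (l + 1) := by
      field_simp
    rw [h3]
    have h4 : 1 - (rr (l + 2) / rr (l + 1))⁻¹ ≤ Real.log (rr (l + 2) / rr (l + 1)) :=
      Real.one_sub_inv_le_log_of_pos (div_pos hr2 hr1)
    refine le_trans ?_ h4
    rw [inv_div, le_sub_iff_add_le, ← le_sub_iff_add_le', div_le_iff₀ hr2]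
    have h5 := half_pos (l + 2)
    have h6 : rr (l + 1) = 1 - 2 * (1 / 2 : ℝ) ^ (l + 2) := by
      unfold rr
      rw [half_succ (l + 1)]; ring
    have h7 : rr (l + 2) = 1 - (1 / 2 : ℝ) ^ (l + 2) := rfl
    rw [h6, h7]
    nlinarith
  calc (A (l + 1) : ℝ) * (1 / 2) ^ (l + 2) = ∑ _j ∈ range (A (l + 1)), (1 / 2 : ℝ) ^ (l + 2) := by
        rw [sum_const, card_range, nsmul_eq_mul]
    _ ≤ ∑ j ∈ range (A (l + 1)), (Real.posLog (rr (l + 2) / ρ j) - Real.posLog (rr (l + 1) / ρ j)) :=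
        sum_le_sum hkey
    _ = ∑ j ∈ range (A (l + 1)), Real.posLog (rr (l + 2) / ρ j) - Nn ρ A (l + 1) := by
        rw [sum_sub_distrib]; rfl
    _ ≤ Nn ρ A (l + 2) - Nn ρ A (l + 1) := by
        have := h.sum_posLog_le (l + 2) (A (l + 1))
        linarith

/-! ### factor bounds -/

/-- The factor. -/
noncomputable def fac (ρ : ℝ) (w : ℂ) : ℂ := (1 - ((ρ⁻¹ : ℝ) : ℂ) * w) / (1 - (ρ : ℂ) * w)

theorem fac_past {R t : ℝ} (ht : 0 < t) (htR : t ≤ R) (hR : R < 1) {z : ℂ} (hz : ‖z‖ < R) (j : ℕ) :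
    ‖fac t (z * v j)‖ ≤ Real.exp (Real.posLog (R / t) + κP (1 / R ^ 2) z j t) := by
  have hR0 : 0 < R := lt_of_lt_of_le ht htR
  set w := z * v j with hw
  have hwn : ‖w‖ = ‖z‖ := norm_zv z j
  have hz0 := norm_nonneg z
  have hc0 : 0 ≤ 1 / R ^ 2 * t := by positivity
  have hlt1 : 1 / R ^ 2 * t * ‖w‖ < 1 := by
    rw [hwn, mul_assoc, one_div, inv_mul_lt_iff₀ (by positivity), mul_one, pow_two]
    calc t * ‖z‖ ≤ R * ‖z‖ := by gcongr
      _ < R * R := by gcongr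
  have hlt2 : t * ‖w‖ < 1 := by
    rw [hwn]
    calc t * ‖z‖ ≤ R * R := by gcongr
      _ < 1 := by nlinarith
  have hne1 : 1 - ((1 / R ^ 2 * t : ℝ) : ℂ) * w ≠ 0 := by
    apply one_sub_ne
    rw [norm_mul, Complex.norm_real, Real.norm_of_nonneg hc0]; exact hlt1
  have hne2 : 1 - (t : ℂ) * w ≠ 0 := by
    apply one_sub_ne
    rw [norm_mul, Complex.norm_real, Real.norm_of_nonneg ht.le]; exact hlt2
  have hp1 := norm_pos_iff.mpr hne1
  have hp2 := norm_pos_iff.mpr hne2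
  have h1R : 1 ≤ R / t := by rw [one_le_div ht]; exact htR
  have hexp : Real.exp (Real.posLog (R / t) + κP (1 / R ^ 2) z j t)
      = (R / t) * (‖1 - ((1 / R ^ 2 * t : ℝ) : ℂ) * w‖ / ‖1 - (t : ℂ) * w‖) := by
    rw [Real.posLog_eq_log (by rwa [abs_of_nonneg (by linarith)]), Real.exp_add,
      Real.exp_log (by linarith)]
    unfold κP
    rw [← hw, Real.exp_sub, Real.exp_log hp1, Real.exp_log hp2]
  rw [hexp]
  unfold fac
  rw [norm_div, ← mul_div_assoc]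
  apply div_le_div_of_nonneg_right _ hp2.le
  -- squares
  apply le_of_sq_le_sq _ (by positivity)
  rw [mul_pow, normsq_one_sub, normsq_one_sub, hwn]
  have hkey : (R / t) ^ 2 * (1 - 2 * (1 / R ^ 2 * t) * w.re + (1 / R ^ 2 * t) ^ 2 * ‖z‖ ^ 2)
      - (1 - 2 * t⁻¹ * w.re + t⁻¹ ^ 2 * ‖z‖ ^ 2)
      = (R ^ 2 - t ^ 2) * (R ^ 2 - ‖z‖ ^ 2) / (R ^ 2 * t ^ 2) := by
    field_simp
    ring
  have h3 : 0 ≤ (R ^ 2 - t ^ 2) * (R ^ 2 - ‖z‖ ^ 2) / (R ^ 2 * t ^ 2) := by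
    apply div_nonneg (mul_nonneg _ _) (by positivity)
    · nlinarith
    · nlinarith
  linarith

theorem fac_future {R t : ℝ} (hR : 0 < R) (htR : R < t) (ht : t < 1) {z : ℂ} (hz : ‖z‖ < R) (j : ℕ) :
    ‖fac t (z * v j)‖ ≤ Real.exp (Real.posLog (R / t) + κF z j t) := by
  have ht0 : 0 < t := hR.trans htR
  set w := z * v j with hw
  have hwn : ‖w‖ = ‖z‖ := norm_zv z j
  have hz0 := norm_nonneg z
  have hti : 0 ≤ t⁻¹ := inv_nonneg.mpr ht0.le
  have hlt1 : t⁻¹ * ‖w‖ < 1 := by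
    rw [hwn, inv_mul_lt_iff₀ ht0, mul_one]
    linarith
  have hlt2 : t * ‖w‖ < 1 := by
    rw [hwn]
    nlinarith
  have hne1 : 1 - ((t⁻¹ : ℝ) : ℂ) * w ≠ 0 := by
    apply one_sub_ne
    rw [norm_mul, Complex.norm_real, Real.norm_of_nonneg hti]; exact hlt1
  have hne2 : 1 - (t : ℂ) * w ≠ 0 := by
    apply one_sub_ne
    rw [norm_mul, Complex.norm_real, Real.norm_of_nonneg ht0.le]; exact hlt2
  have hp1 := norm_pos_iff.mpr hne1
  have hp2 := norm_pos_iff.mpr hne2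
  have hexp : Real.exp (κF z j t) = ‖1 - ((t⁻¹ : ℝ) : ℂ) * w‖ / ‖1 - (t : ℂ) * w‖ := by
    unfold κF
    rw [← hw, Real.exp_sub, Real.exp_log hp1, Real.exp_log hp2]
  have hpl : 0 ≤ Real.posLog (R / t) := Real.posLog_nonneg
  calc ‖fac t w‖ = Real.exp (κF z j t) := by
        rw [hexp]; unfold fac; rw [norm_div]
    _ ≤ Real.exp (Real.posLog (R / t) + κF z j t) := Real.exp_le_exp.mpr (by linarith)

/-- partial products -/
noncomputable def pp (ρ : ℕ → ℝ) (n : ℕ) (z : ℂ) : ℂ := ∏ j ∈ range n, fac (ρ j) (z * v j)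

/-- combined error term -/
noncomputable def KK (ρ : ℕ → ℝ) (k : ℕ) (z : ℂ) (j : ℕ) : ℝ :=
  if ρ j ≤ rr (k + 1) then κP (1 / rr (k + 1) ^ 2) z j (ρ j) else κF z j (ρ j)

theorem rr_lt_succ (k : ℕ) : rr k < rr (k + 1) := by
  unfold rr
  rw [half_succ]
  have := half_pos k
  linarith

theorem Sq.norm_pp_le (h : Sq ρ A) (k n : ℕ) {z : ℂ} (hz : ‖z‖ ≤ rr k) :
    ‖pp ρ n z‖ ≤ Real.exp (Nn ρ A (k + 1) + ∑ j ∈ range n, KK ρ k z j) := by
  have hzR : ‖z‖ < rr (k + 1) := lt_of_le_of_lt hz (rr_lt_succ k)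
  have h1 : ‖pp ρ n z‖ ≤ ∏ j ∈ range n, Real.exp (Real.posLog (rr (k + 1) / ρ j) + KK ρ k z j) := by
    unfold pp
    rw [norm_prod]
    apply prod_le_prod (fun _ _ => norm_nonneg _)
    intro j _
    unfold KK
    split_ifs with hj
    · exact fac_past (h.pos j) hj (rr_lt_one _) hzR j
    · push Not at hj
      exact fac_future (rr_succ_pos k) hj (h.lt_one j) hzR j
  rw [← Real.exp_sum] at h1
  refine h1.trans (Real.exp_le_exp.mpr ?_)
  rw [sum_add_distrib]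
  have := h.sum_posLog_le (k + 1) n
  linarith

/-- The weights. -/
noncomputable def γ (i : ℕ) : ℝ := 16 * Real.exp (-(7 * 2 ^ (i / 2)))

theorem γ_pos (i : ℕ) : 0 < γ i := by unfold γ; positivity

theorem sum_blocks {F : ℕ → ℝ} {A' : ℕ → ℕ} (hA : Monotone A') (h0 : A' 0 = 0) (Λ : ℕ) :
    ∑ j ∈ range (A' Λ), F j = ∑ l ∈ range Λ, ∑ j ∈ Ico (A' l) (A' (l + 1)), F j := by
  induction Λ with
  | zero => rw [h0]; simp
  | succ Λ ih =>
    rw [sum_range_succ, ← ih, sum_range_add_sum_Ico _ (hA (Nat.le_succ Λ))]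

theorem two_pow_half_le (i : ℕ) : (2 : ℝ) ^ (i / 2) ≤ (3 / 2) ^ i := by
  have h1 : (2 : ℝ) ^ (i / 2) ≤ (9 / 4) ^ (i / 2) := pow_le_pow_left₀ (by norm_num) (by norm_num) _
  have h2 : ((9 / 4 : ℝ)) ^ (i / 2) = (3 / 2) ^ (2 * (i / 2)) := by
    rw [pow_mul]; norm_num
  have h3 : ((3 / 2 : ℝ)) ^ (2 * (i / 2)) ≤ (3 / 2) ^ i := pow_le_pow_right₀ (by norm_num) (by omega)
  linarith

/-- Block error in the past. -/
theorem Sq.block_past (h : Sq ρ A) {k l n : ℕ} (hk : 1 ≤ k) (hl : l ≤ k) {z : ℂ} (hz : ‖z‖ ≤ rr k) :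
    ∑ j ∈ Ico (min (A l) n) (min (A (l + 1)) n), KK ρ k z j
      ≤ 640 * (2 ^ l * (1 / 2) ^ k)
        + 4 * Real.exp (-7) * (1 / 2) ^ k * ((min (A (l + 1)) n : ℕ) - (min (A l) n : ℕ)) := by
  have hF := famP k l hk hz
  have hAB : min (A l) n ≤ min (A (l + 1)) n := min_le_min_right _ (h.A_mono (Nat.le_succ l))
  have hmem : ∀ j, min (A l) n ≤ j → j < min (A (l + 1)) n → ρ j ∈ Set.Icc (rr l) (rr (l + 1)) := by
    intro j hj1 hj2
    have h1 : j < A (l + 1) := lt_of_lt_of_le hj2 (min_le_left _ _)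
    have h2 : j < n := lt_of_lt_of_le hj2 (min_le_right _ _)
    have h3 : ¬ j < A l := by
      intro h3
      have : j < min (A l) n := lt_min h3 h2
      omega
    rw [h.count] at h1 h3
    push Not at h3
    exact ⟨h3.le, h1⟩
  have hb := hF.block ρ h.mono _ _ hAB hmem
  have heq : ∑ j ∈ Ico (min (A l) n) (min (A (l + 1)) n), KK ρ k z j
      = ∑ j ∈ Ico (min (A l) n) (min (A (l + 1)) n), κP (1 / rr (k + 1) ^ 2) z j (ρ j) := by
    apply sum_congr rfl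
    intro j hj
    rw [mem_Ico] at hj
    unfold KK
    rw [if_pos ((hmem j hj.1 hj.2).2.trans (rr_mono (by omega)))]
  rw [heq]
  refine hb.trans (le_of_eq ?_)
  have hrr : rr (l + 1) - rr l = (1 / 2) ^ l / 2 := by
    unfold rr
    rw [half_succ]; ring
  have h21 : (2 : ℝ) ^ l * (1 / 2) ^ l = 1 := by rw [← mul_pow]; norm_num
  rw [hrr]
  have h2l : (2 : ℝ) ^ (l + 5) = 32 * 2 ^ l := by rw [pow_add]; ring
  have hne : (2 : ℝ) ^ l ≠ 0 := by positivity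
  set B : ℝ := ((min (A (l + 1)) n : ℕ) : ℝ) - ((min (A l) n : ℕ) : ℝ) with hB
  have t2 : B / ((2 ^ (l + 5) : ℕ) : ℝ) * (4 * 2 ^ (l + 5) * (1 / 2) ^ k * Real.exp (-7))
      = 4 * Real.exp (-7) * (1 / 2) ^ k * B := by
    have h0 : ((2 ^ (l + 5) : ℕ) : ℝ) = 32 * 2 ^ l := by push_cast; exact h2l
    rw [h0, h2l]
    field_simp
  have t1 : 2 * ((2 ^ (l + 5) : ℕ) : ℝ) * (2 * (1 / 2) ^ k) = 128 * (2 ^ l * (1 / 2) ^ k) := by
    push_cast
    rw [h2l]; ring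
  have t3 : 32 * (2 : ℝ) ^ (l + 5) * 2 ^ l * (1 / 2) ^ k * ((1 / 2) ^ l / 2)
      = 512 * (2 ^ l * (1 / 2) ^ k) := by
    rw [h2l]
    calc 32 * (32 * (2 : ℝ) ^ l) * 2 ^ l * (1 / 2) ^ k * ((1 / 2) ^ l / 2)
        = 512 * (2 ^ l * (1 / 2) ^ k) * (2 ^ l * (1 / 2) ^ l) := by ring
      _ = 512 * (2 ^ l * (1 / 2) ^ k) := by rw [h21, mul_one]
  rw [t1, t2, t3]
  ring

/-- Block error in the future. -/
theorem Sq.block_future (h : Sq ρ A) {k l n : ℕ} (hk : 1 ≤ k) (hl : k + 1 ≤ l) {z : ℂ} (hz : ‖z‖ ≤ rr k) :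
    ∑ j ∈ Ico (min (A l) n) (min (A (l + 1)) n), KK ρ k z j
      ≤ 256 * (3 / 4) ^ (l - k)
        + 4 * (1 / 2) ^ l * Real.exp (-(7 * 2 ^ ((l - k) / 2)))
          * ((min (A (l + 1)) n : ℕ) - (min (A l) n : ℕ)) := by
  obtain ⟨i, rfl⟩ : ∃ i, l = k + i := ⟨l - k, by omega⟩
  have hi : 1 ≤ i := by omega
  have hF := famF k (k + i) (k + 5 + i / 2) hk hl (by omega) hz
  have hAB : min (A (k + i)) n ≤ min (A (k + i + 1)) n := min_le_min_right _ (h.A_mono (Nat.le_succ _))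
  have hmem : ∀ j, min (A (k + i)) n ≤ j → j < min (A (k + i + 1)) n →
      ρ j ∈ Set.Icc (rr (k + i)) (rr (k + i + 1)) := by
    intro j hj1 hj2
    have h1 : j < A (k + i + 1) := lt_of_lt_of_le hj2 (min_le_left _ _)
    have h2 : j < n := lt_of_lt_of_le hj2 (min_le_right _ _)
    have h3 : ¬ j < A (k + i) := by
      intro h3
      have : j < min (A (k + i)) n := lt_min h3 h2
      omega
    rw [h.count] at h1 h3
    push Not at h3
    exact ⟨h3.le, h1⟩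
  have hb := hF.block ρ h.mono _ _ hAB hmem
  have heq : ∑ j ∈ Ico (min (A (k + i)) n) (min (A (k + i + 1)) n), KK ρ k z j
      = ∑ j ∈ Ico (min (A (k + i)) n) (min (A (k + i + 1)) n), κF z j (ρ j) := by
    apply sum_congr rfl
    intro j hj
    rw [mem_Ico] at hj
    unfold KK
    have h1 : ¬ ρ j ≤ rr (k + 1) := by
      have h2 : ¬ j < A (k + i) := by
        intro h3
        have h4 : j < n := lt_of_lt_of_le hj.2 (min_le_right _ _)
        have : j < min (A (k + i)) n := lt_min h3 h4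
        omega
      rw [h.count] at h2
      push Not at h2 ⊢
      exact lt_of_le_of_lt (rr_mono hl) h2
    rw [if_neg h1]
  rw [heq]
  refine hb.trans ?_
  have hki : k + i - k = i := by omega
  rw [hki]
  have hrr : rr (k + i + 1) - rr (k + i) = (1 / 2) ^ (k + i) / 2 := by
    unfold rr
    rw [half_succ]; ring
  rw [hrr]
  have hm1 : k + 5 + i / 2 - (k + 1) = 4 + i / 2 := by omega
  rw [hm1]
  have h2m : (2 : ℝ) ^ (k + 5 + i / 2) = 32 * 2 ^ k * 2 ^ (i / 2) := by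
    rw [pow_add, pow_add]; ring
  have h21 : (2 : ℝ) ^ k * (1 / 2) ^ k = 1 := by rw [← mul_pow]; norm_num
  have hki2 : ((1 / 2 : ℝ)) ^ (k + i) = (1 / 2) ^ k * (1 / 2) ^ i := pow_add _ _ _
  -- `2^(i/2) / 2^i ≤ (3/4)^i`
  have h34 : (2 : ℝ) ^ (i / 2) * (1 / 2) ^ i ≤ (3 / 4) ^ i := by
    calc (2 : ℝ) ^ (i / 2) * (1 / 2) ^ i ≤ (3 / 2) ^ i * (1 / 2) ^ i := by
          gcongr
          exact two_pow_half_le i
      _ = (3 / 4) ^ i := by rw [← mul_pow]; norm_num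
  have h34' : 0 ≤ (2 : ℝ) ^ (i / 2) * (1 / 2) ^ i := by positivity
  have hexp : Real.exp (1 - 2 ^ (4 + i / 2)) ≤ Real.exp (-(7 * 2 ^ (i / 2))) := by
    apply Real.exp_le_exp.mpr
    rw [pow_add]
    have : (1 : ℝ) ≤ 2 ^ (i / 2) := one_le_pow₀ (by norm_num)
    nlinarith
  set B : ℝ := ((min (A (k + i + 1)) n : ℕ) : ℝ) - ((min (A (k + i)) n : ℕ) : ℝ) with hB
  have hB0 : 0 ≤ B := by
    rw [hB, sub_nonneg]; exact_mod_cast hAB
  have hmid : B / (2 ^ (k + 5 + i / 2) : ℕ) * (4 * 2 ^ (k + 5 + i / 2) * (1 / 2) ^ (k + i)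
      * Real.exp (1 - 2 ^ (4 + i / 2)))
      ≤ 4 * (1 / 2) ^ (k + i) * Real.exp (-(7 * 2 ^ (i / 2))) * B := by
    have hne : (2 : ℝ) ^ (k + 5 + i / 2) ≠ 0 := by positivity
    have e1 : B / (2 ^ (k + 5 + i / 2) : ℕ) * (4 * 2 ^ (k + 5 + i / 2) * (1 / 2) ^ (k + i)
      * Real.exp (1 - 2 ^ (4 + i / 2))) = 4 * (1 / 2) ^ (k + i) * Real.exp (1 - 2 ^ (4 + i / 2)) * B := by
      push_cast
      field_simp
    rw [e1]
    gcongr
  have hrest : 2 * ((2 ^ (k + 5 + i / 2) : ℕ) : ℝ) * (2 * (1 / 2) ^ (k + i))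
      + 7 * 2 ^ (k + 5 + i / 2) * ((1 / 2) ^ (k + i) / 2) ≤ 256 * (3 / 4) ^ i := by
    push_cast
    rw [h2m, hki2]
    have e1 : 2 * (32 * (2 : ℝ) ^ k * 2 ^ (i / 2)) * (2 * ((1 / 2) ^ k * (1 / 2) ^ i))
      + 7 * (32 * 2 ^ k * 2 ^ (i / 2)) * ((1 / 2) ^ k * (1 / 2) ^ i / 2)
      = 240 * ((2 : ℝ) ^ k * (1 / 2) ^ k) * (2 ^ (i / 2) * (1 / 2) ^ i) := by ring
    rw [e1, h21]
    nlinarith
  push_cast at hmid hrest ⊢
  linarith

/-- The total error. -/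
theorem Sq.sum_KK_le (h : Sq ρ A) {k : ℕ} (hk : 1 ≤ k) (n : ℕ) {z : ℂ} (hz : ‖z‖ ≤ rr k) :
    ∃ I : ℕ, ∑ j ∈ range n, KK ρ k z j
      ≤ 2048 + ∑ i ∈ range I, γ i * (Nn ρ A (k + i + 2) - Nn ρ A (k + 1)) := by
  obtain ⟨Λ₀, hΛ₀⟩ := h.A_unbounded n
  set I := Λ₀ + 1 with hI
  set Λ := k + I with hΛ
  have hnΛ : n ≤ A Λ := hΛ₀.trans (h.A_mono (by omega))
  have hA' : Monotone (fun l => min (A l) n) := fun a b hab => min_le_min_right _ (h.A_mono hab)
  have hsum := sum_blocks (F := KK ρ k z) hA' (by simp [h.A_zero]) Λ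
  have hn : min (A Λ) n = n := min_eq_right hnΛ
  simp only [hn] at hsum
  refine ⟨I, ?_⟩
  rw [hsum, hΛ, ← sum_range_add_sum_Ico _ (show k + 1 ≤ k + I by omega)]
  have hNm := h.Nn_mono
  -- past
  have hpast : ∑ l ∈ range (k + 1), ∑ j ∈ Ico (min (A l) n) (min (A (l + 1)) n), KK ρ k z j
      ≤ 1280 + γ 0 * (Nn ρ A (k + 0 + 2) - Nn ρ A (k + 1)) := by
    calc ∑ l ∈ range (k + 1), ∑ j ∈ Ico (min (A l) n) (min (A (l + 1)) n), KK ρ k z j
        ≤ ∑ l ∈ range (k + 1), (640 * (2 ^ l * (1 / 2) ^ k)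
          + 4 * Real.exp (-7) * (1 / 2) ^ k * ((min (A (l + 1)) n : ℕ) - (min (A l) n : ℕ))) := by
          apply sum_le_sum
          intro l hl
          rw [mem_range] at hl
          exact h.block_past hk (by omega) hz
      _ = 640 * ((∑ l ∈ range (k + 1), (2 : ℝ) ^ l) * (1 / 2) ^ k)
          + 4 * Real.exp (-7) * (1 / 2) ^ k * ∑ l ∈ range (k + 1), (((min (A (l + 1)) n : ℕ) : ℝ) - (min (A l) n : ℕ)) := by
          rw [sum_add_distrib, ← mul_sum, ← mul_sum, sum_mul]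
      _ ≤ 640 * 2 + 4 * Real.exp (-7) * (1 / 2) ^ k * (A (k + 1)) := by
          apply add_le_add
          · apply mul_le_mul_of_nonneg_left _ (by norm_num)
            have h1 : ∑ l ∈ range (k + 1), (2 : ℝ) ^ l = 2 ^ (k + 1) - 1 := by
              rw [geom_sum_eq (by norm_num)]; norm_num
            rw [h1]
            have h21 : (2 : ℝ) ^ k * (1 / 2) ^ k = 1 := by rw [← mul_pow]; norm_num
            have h0 := half_pos k
            rw [pow_succ]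
            nlinarith
          · apply mul_le_mul_of_nonneg_left _ (by positivity)
            rw [sum_range_sub (fun l => ((min (A l) n : ℕ) : ℝ))]
            have h1 : ((min (A (k + 1)) n : ℕ) : ℝ) ≤ A (k + 1) := by exact_mod_cast min_le_left _ _
            have h2 : (0 : ℝ) ≤ ((min (A 0) n : ℕ) : ℝ) := by positivity
            linarith
      _ ≤ 1280 + γ 0 * (Nn ρ A (k + 0 + 2) - Nn ρ A (k + 1)) := by
          have hg := h.Nn_growth k
          have e0 : ((1 / 2 : ℝ)) ^ (k + 2) = (1 / 2) ^ k / 4 := by rw [pow_add]; norm_num; ring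
          rw [e0] at hg
          unfold γ
          have e1 : Real.exp (-(7 * 2 ^ (0 / 2))) = Real.exp (-7) := by norm_num
          rw [e1]
          simp only [add_zero]
          have h7 := Real.exp_pos (-7)
          nlinarith
  -- future
  have hfut : ∀ i ∈ Ico (k + 1) (k + I), ∑ j ∈ Ico (min (A i) n) (min (A (i + 1)) n), KK ρ k z j
      ≤ 256 * (3 / 4) ^ (i - k) + γ (i - k) * (Nn ρ A (k + (i - k) + 2) - Nn ρ A (k + 1)) := by
    intro l hl
    rw [mem_Ico] at hl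
    refine (h.block_future hk hl.1 hz).trans ?_
    have hkl : k + (l - k) = l := by omega
    rw [hkl]
    have hg := h.Nn_growth l
    have e0 : ((1 / 2 : ℝ)) ^ (l + 2) = (1 / 2) ^ l / 4 := by rw [pow_add]; norm_num; ring
    rw [e0] at hg
    have h1 : ((min (A (l + 1)) n : ℕ) : ℝ) - (min (A l) n : ℕ) ≤ A (l + 1) := by
      have h1 : ((min (A (l + 1)) n : ℕ) : ℝ) ≤ A (l + 1) := by exact_mod_cast min_le_left _ _
      have h2 : (0 : ℝ) ≤ ((min (A l) n : ℕ) : ℝ) := by positivity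
      linarith
    have h2 : Nn ρ A (k + 1) ≤ Nn ρ A (l + 1) := hNm (by omega)
    have hE := Real.exp_pos (-(7 * 2 ^ ((l - k) / 2)))
    have hl0 := half_pos l
    unfold γ
    have h3 : 4 * (1 / 2) ^ l * Real.exp (-(7 * 2 ^ ((l - k) / 2)))
          * (((min (A (l + 1)) n : ℕ) : ℝ) - (min (A l) n : ℕ))
        ≤ 4 * (1 / 2) ^ l * Real.exp (-(7 * 2 ^ ((l - k) / 2))) * A (l + 1) := by gcongr
    have h4 : 4 * (1 / 2) ^ l * Real.exp (-(7 * 2 ^ ((l - k) / 2))) * A (l + 1)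
        = 16 * Real.exp (-(7 * 2 ^ ((l - k) / 2))) * (A (l + 1) * ((1 / 2) ^ l / 4)) := by ring
    have h5 : 16 * Real.exp (-(7 * 2 ^ ((l - k) / 2))) * (A (l + 1) * ((1 / 2) ^ l / 4))
        ≤ 16 * Real.exp (-(7 * 2 ^ ((l - k) / 2))) * (Nn ρ A (l + 2) - Nn ρ A (k + 1)) := by
      gcongr
      linarith
    linarith
  have hfut2 : ∑ l ∈ Ico (k + 1) (k + I), ∑ j ∈ Ico (min (A l) n) (min (A (l + 1)) n), KK ρ k z j
      ≤ 768 + ∑ i ∈ Ico 1 I, γ i * (Nn ρ A (k + i + 2) - Nn ρ A (k + 1)) := by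
    refine (sum_le_sum hfut).trans ?_
    have hshift : ∀ F : ℕ → ℝ, ∑ l ∈ Ico (k + 1) (k + I), F (l - k) = ∑ i ∈ Ico 1 I, F i := by
      intro F
      rw [sum_Ico_eq_sum_range, sum_Ico_eq_sum_range]
      have e : k + I - (k + 1) = I - 1 := by omega
      rw [e]
      apply sum_congr rfl
      intro i _
      congr 1
      omega
    rw [hshift (fun i => 256 * (3 / 4) ^ i + γ i * (Nn ρ A (k + i + 2) - Nn ρ A (k + 1))),
      sum_add_distrib, ← mul_sum]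
    have hgeo : ∑ i ∈ Ico 1 I, (3 / 4 : ℝ) ^ i ≤ 3 := by
      have h1 : ∑ i ∈ range I, (3 / 4 : ℝ) ^ i = 1 + ∑ i ∈ Ico 1 I, (3 / 4 : ℝ) ^ i := by
        rw [range_eq_Ico, sum_eq_sum_Ico_succ_bot (by omega)]
        simp
      have h2 : ∑ i ∈ range I, (3 / 4 : ℝ) ^ i ≤ 4 := by
        rw [geom_sum_eq (by norm_num)]
        have : (0 : ℝ) ≤ (3 / 4) ^ I := by positivity
        rw [div_le_iff_of_neg (by norm_num)]
        linarith
      linarith
    linarith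
  have hsplit : ∑ i ∈ range I, γ i * (Nn ρ A (k + i + 2) - Nn ρ A (k + 1))
      = γ 0 * (Nn ρ A (k + 0 + 2) - Nn ρ A (k + 1))
        + ∑ i ∈ Ico 1 I, γ i * (Nn ρ A (k + i + 2) - Nn ρ A (k + 1)) := by
    rw [range_eq_Ico, sum_eq_sum_Ico_succ_bot (by omega)]
  rw [hsplit]
  linarith

end Pool.Agent.Lib_helper6.Sum
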