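import Mathlib
import Pool.Agent.Lib_helper6.Sum

/-!
# Absorbing the error
-/

open Finset
open scoped ENNReal

namespace Pool.Agent.Lib_helper6.Absorb

open Vdc Block Factor Fams Sum

variable {ρ : ℕ → ℝ} {A : ℕ → ℕ}

theorem exp_neg_one_lt : Real.exp (-1) < 1 / 2 := by
  rw [Real.exp_neg, inv_lt_comm₀ (Real.exp_pos _) (by norm_num)]
  have := Real.exp_one_gt_d9
  norm_num at this ⊢
  linarith

theorem γ_le (i : ℕ) : γ i ≤ (1 / 2) ^ (i + 1) := by
  unfold γ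
  have h1 : Real.exp (-(7 * 2 ^ (i / 2))) = (Real.exp (-1)) ^ (7 * 2 ^ (i / 2)) := by
    rw [← Real.exp_nat_mul]
    congr 1
    push_cast
    ring
  have h2 : (Real.exp (-1)) ^ (7 * 2 ^ (i / 2)) ≤ (1 / 2 : ℝ) ^ (7 * 2 ^ (i / 2)) :=
    pow_le_pow_left₀ (Real.exp_pos _).le exp_neg_one_lt.le _
  have h3 : i + 5 ≤ 7 * 2 ^ (i / 2) := by
    have : i / 2 < 2 ^ (i / 2) := Nat.lt_two_pow_self
    omega
  have h4 : (1 / 2 : ℝ) ^ (7 * 2 ^ (i / 2)) ≤ (1 / 2) ^ (i + 5) := half_anti h3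
  rw [h1]
  have h5 : (1 / 2 : ℝ) ^ (i + 5) = (1 / 2) ^ (i + 1) / 16 := by
    rw [show i + 5 = (i + 1) + 4 by ring, pow_add]; norm_num; ring
  linarith

theorem sum_γ_le (I : ℕ) : ∑ i ∈ range I, γ i ≤ 1 := by
  have h1 : ∑ i ∈ range I, γ i ≤ ∑ i ∈ range I, (1 / 2 : ℝ) ^ (i + 1) := sum_le_sum fun i _ => γ_le i
  have h2 : ∑ i ∈ range I, (1 / 2 : ℝ) ^ (i + 1) = 1 - (1 / 2) ^ I := by
    induction I with
    | zero => simp
    | succ I ih =>
      rw [sum_range_succ, ih (sum_le_sum fun i _ => γ_le i), half_succ]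
      ring
  have := half_pos I
  linarith

/-- Super-exponential decay of the weights. -/
theorem summable_γ (K : ℝ) (hK : 0 ≤ K) : Summable (fun i => γ i * K ^ i) := by
  obtain ⟨M, hM⟩ : ∃ M : ℕ, 2 * K < 2 ^ M := pow_unbounded_of_one_lt _ (by norm_num)
  have hM2 : K / 2 ^ M ≤ 1 / 2 := by
    rw [div_le_iff₀ (by positivity)]
    linarith
  have hgeo : Summable (fun i : ℕ => (16 * ((2 * M).factorial : ℝ) * 2 ^ M) * (1 / 2 : ℝ) ^ i) :=
    (summable_geometric_of_lt_one (by norm_num) (by norm_num)).mul_left _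
  refine Summable.of_nonneg_of_le (fun i => mul_nonneg (γ_pos i).le (pow_nonneg hK i)) ?_ hgeo
  intro i
  have hx : (0 : ℝ) ≤ 2 ^ (i / 2) := by positivity
  have h1 : ((2 : ℝ) ^ (i / 2)) ^ (2 * M) / ((2 * M).factorial : ℝ) ≤ Real.exp (2 ^ (i / 2)) :=
    Real.pow_div_factorial_le_exp _ hx _
  have h2 : (2 : ℝ) ^ (M * i) ≤ ((2 : ℝ) ^ (i / 2)) ^ (2 * M) * 2 ^ M := by
    rw [← pow_mul, ← pow_add]
    apply pow_le_pow_right₀ (by norm_num)
    have : i ≤ 2 * (i / 2) + 1 := by omega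
    calc M * i ≤ M * (2 * (i / 2) + 1) := Nat.mul_le_mul_left _ this
      _ = i / 2 * (2 * M) + M := by ring
  have hf : (0 : ℝ) < ((2 * M).factorial : ℝ) := by exact_mod_cast Nat.factorial_pos _
  have h3 : Real.exp (-(7 * 2 ^ (i / 2))) ≤ Real.exp (-(2 ^ (i / 2))) := by
    apply Real.exp_le_exp.mpr
    linarith
  have h4 : Real.exp (-(2 ^ (i / 2))) ≤ ((2 * M).factorial : ℝ) * 2 ^ M / 2 ^ (M * i) := by
    rw [Real.exp_neg, inv_le_comm₀ (Real.exp_pos _) (by positivity), inv_div]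
    refine le_trans ?_ h1
    rw [div_le_div_iff₀ (by positivity) hf]
    calc (2 : ℝ) ^ (M * i) * ((2 * M).factorial : ℝ)
        ≤ (((2 : ℝ) ^ (i / 2)) ^ (2 * M) * 2 ^ M) * ((2 * M).factorial : ℝ) := by gcongr
      _ = ((2 : ℝ) ^ (i / 2)) ^ (2 * M) * (((2 * M).factorial : ℝ) * 2 ^ M) := by ring
  calc γ i * K ^ i ≤ 16 * (((2 * M).factorial : ℝ) * 2 ^ M / 2 ^ (M * i)) * K ^ i := by
        unfold γ
        gcongr
        exact h3.trans h4
    _ = (16 * ((2 * M).factorial : ℝ) * 2 ^ M) * (K / 2 ^ M) ^ i := by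
        rw [div_pow, ← pow_mul]
        ring
    _ ≤ (16 * ((2 * M).factorial : ℝ) * 2 ^ M) * (1 / 2 : ℝ) ^ i := by
        gcongr

/-- Convexity. -/
theorem exp_sum_le (I : ℕ) (X : ℕ → ℝ) :
    Real.exp (∑ i ∈ range I, γ i * X i) ≤ 1 + ∑ i ∈ range I, γ i * Real.exp (X i) := by
  have hsum := sum_γ_le I
  set w : ℕ → ℝ := fun i => if i < I then γ i else 1 - ∑ i ∈ range I, γ i with hw
  set Y : ℕ → ℝ := fun i => if i < I then X i else 0 with hY
  have h := convexOn_exp.map_sum_le (t := range (I + 1)) (w := w) (p := Y) (by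
      intro i _
      simp only [hw]
      split_ifs
      · exact (γ_pos i).le
      · linarith) (by
      rw [sum_range_succ]
      have : ∑ i ∈ range I, w i = ∑ i ∈ range I, γ i := by
        apply sum_congr rfl
        intro i hi
        simp only [hw, if_pos (mem_range.mp hi)]
      rw [this]
      simp only [hw, if_neg (lt_irrefl I)]
      ring) (by intro i _; exact Set.mem_univ _)
  rw [sum_range_succ, sum_range_succ] at h
  have e1 : ∑ i ∈ range I, w i • Y i = ∑ i ∈ range I, γ i * X i := by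
    apply sum_congr rfl
    intro i hi
    simp only [hw, hY, if_pos (mem_range.mp hi), smul_eq_mul]
  have e2 : ∑ i ∈ range I, w i • Real.exp (Y i) = ∑ i ∈ range I, γ i * Real.exp (X i) := by
    apply sum_congr rfl
    intro i hi
    simp only [hw, hY, if_pos (mem_range.mp hi), smul_eq_mul]
  rw [e1, e2] at h
  simp only [hw, hY, if_neg (lt_irrefl I), smul_eq_mul, mul_zero, add_zero, Real.exp_zero, mul_one] at h
  have h0 : 0 ≤ ∑ i ∈ range I, γ i := sum_nonneg fun i _ => (γ_pos i).le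
  linarith

/-- The bound for the `p`-th power. -/
theorem norm_pp_rpow_le (h : Sq ρ A) {p : ℝ} (hp : 0 < p) {k : ℕ} (hk : 1 ≤ k) (n : ℕ) {z : ℂ}
    (hz : ‖z‖ ≤ rr k) :
    ∃ I : ℕ, ‖pp ρ n z‖ ^ p ≤ Real.exp (2048 * p) * (Real.exp (p * Nn ρ A (k + 1))
      + ∑ i ∈ range I, γ i * Real.exp (p * Nn ρ A (k + i + 2))) := by
  obtain ⟨I, hI⟩ := h.sum_KK_le hk n hz
  refine ⟨I, ?_⟩
  have h1 := h.norm_pp_le k n hz
  have h2 : ‖pp ρ n z‖ ^ p ≤ (Real.exp (Nn ρ A (k + 1) + ∑ j ∈ range n, KK ρ k z j)) ^ p :=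
    Real.rpow_le_rpow (norm_nonneg _) h1 hp.le
  rw [← Real.exp_mul] at h2
  refine h2.trans ?_
  have h3 : (Nn ρ A (k + 1) + ∑ j ∈ range n, KK ρ k z j) * p
      ≤ 2048 * p + p * Nn ρ A (k + 1)
        + ∑ i ∈ range I, γ i * (p * (Nn ρ A (k + i + 2) - Nn ρ A (k + 1))) := by
    have e1 : ∑ i ∈ range I, γ i * (p * (Nn ρ A (k + i + 2) - Nn ρ A (k + 1)))
        = p * ∑ i ∈ range I, γ i * (Nn ρ A (k + i + 2) - Nn ρ A (k + 1)) := by
      rw [mul_sum]
      apply sum_congr rfl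
      intro i _
      ring
    rw [e1]
    nlinarith
  refine (Real.exp_le_exp.mpr h3).trans ?_
  rw [Real.exp_add, Real.exp_add, mul_assoc]
  apply mul_le_mul_of_nonneg_left _ (Real.exp_pos _).le
  have h4 := exp_sum_le I (fun i => p * (Nn ρ A (k + i + 2) - Nn ρ A (k + 1)))
  calc Real.exp (p * Nn ρ A (k + 1)) * Real.exp (∑ i ∈ range I, γ i * (p * (Nn ρ A (k + i + 2) - Nn ρ A (k + 1))))
      ≤ Real.exp (p * Nn ρ A (k + 1))
        * (1 + ∑ i ∈ range I, γ i * Real.exp (p * (Nn ρ A (k + i + 2) - Nn ρ A (k + 1)))) := by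
        gcongr
    _ = Real.exp (p * Nn ρ A (k + 1)) + ∑ i ∈ range I, γ i * Real.exp (p * Nn ρ A (k + i + 2)) := by
        rw [mul_add, mul_one, mul_sum]
        congr 1
        apply sum_congr rfl
        intro i _
        rw [mul_left_comm, ← Real.exp_add]
        congr 2
        ring

/-- The majorant. -/
noncomputable def BB (ρ : ℕ → ℝ) (A : ℕ → ℕ) (p : ℝ) (k : ℕ) : ℝ≥0∞ :=
  ENNReal.ofReal (Real.exp (2048 * p)) * (ENNReal.ofReal (Real.exp (p * Nn ρ A (k + 1)))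
      + ∑' i : ℕ, ENNReal.ofReal (γ i) * ENNReal.ofReal (Real.exp (p * Nn ρ A (k + i + 2))))

theorem norm_pp_le_BB (h : Sq ρ A) {p : ℝ} (hp : 0 < p) {k : ℕ} (hk : 1 ≤ k) (n : ℕ) {z : ℂ}
    (hz : ‖z‖ ≤ rr k) : ENNReal.ofReal (‖pp ρ n z‖ ^ p) ≤ BB ρ A p k := by
  obtain ⟨I, hI⟩ := norm_pp_rpow_le h hp hk n hz
  refine (ENNReal.ofReal_le_ofReal hI).trans ?_
  unfold BB
  rw [ENNReal.ofReal_mul (Real.exp_pos _).le]
  gcongr
  rw [ENNReal.ofReal_add (Real.exp_pos _).le (sum_nonneg fun i _ => mul_nonneg (γ_pos i).le (Real.exp_pos _).le)]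
  gcongr
  rw [ENNReal.ofReal_sum_of_nonneg (fun i _ => mul_nonneg (γ_pos i).le (Real.exp_pos _).le)]
  calc ∑ i ∈ range I, ENNReal.ofReal (γ i * Real.exp (p * Nn ρ A (k + i + 2)))
      = ∑ i ∈ range I, ENNReal.ofReal (γ i) * ENNReal.ofReal (Real.exp (p * Nn ρ A (k + i + 2))) := by
        apply sum_congr rfl
        intro i _
        rw [ENNReal.ofReal_mul (γ_pos i).le]
    _ ≤ _ := ENNReal.sum_le_tsum _

/-- Summability of the majorant. `x` plays the role of `2^{-(α+1)}`. -/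
theorem tsum_BB_lt_top {p x : ℝ} (hx : 0 < x)
    (hsum : ∑' k : ℕ, ENNReal.ofReal (x ^ k * Real.exp (p * Nn ρ A k)) ≠ ∞) :
    ∑' k : ℕ, ENNReal.ofReal (x ^ k) * BB ρ A p k ≠ ∞ := by
  set a : ℕ → ℝ≥0∞ := fun k => ENNReal.ofReal (x ^ k * Real.exp (p * Nn ρ A k)) with ha
  set S := ∑' k, a k with hS
  have hshift : ∀ m : ℕ, ∑' k : ℕ, a (k + m) ≤ S := by
    intro m
    exact ENNReal.tsum_comp_le_tsum_of_injective (add_left_injective m) a
  have hterm : ∀ k m : ℕ, ENNReal.ofReal (x ^ k) * ENNReal.ofReal (Real.exp (p * Nn ρ A (k + m)))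
      = ENNReal.ofReal ((x⁻¹) ^ m) * a (k + m) := by
    intro k m
    simp only [ha]
    rw [← ENNReal.ofReal_mul (by positivity), ← ENNReal.ofReal_mul (by positivity)]
    congr 1
    rw [pow_add, inv_pow]
    field_simp
  have h1 : ∀ k, ENNReal.ofReal (x ^ k) * BB ρ A p k
      = ENNReal.ofReal (Real.exp (2048 * p)) * (ENNReal.ofReal ((x⁻¹) ^ 1) * a (k + 1)
        + ∑' i : ℕ, ENNReal.ofReal (γ i) * (ENNReal.ofReal ((x⁻¹) ^ (i + 2)) * a (k + (i + 2)))) := by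
    intro k
    unfold BB
    rw [mul_left_comm, mul_add, hterm, ← ENNReal.tsum_mul_left]
    congr 3
    funext i
    rw [mul_left_comm, add_assoc, hterm]
  simp_rw [h1]
  rw [ENNReal.tsum_mul_left, ENNReal.tsum_add]
  apply ENNReal.mul_ne_top ENNReal.ofReal_ne_top
  apply ENNReal.add_ne_top.mpr
  constructor
  · rw [ENNReal.tsum_mul_left]
    exact ENNReal.mul_ne_top ENNReal.ofReal_ne_top (ne_top_of_le_ne_top hsum (hshift 1))
  · rw [ENNReal.tsum_comm]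
    have h2 : ∀ i : ℕ, ∑' k : ℕ, ENNReal.ofReal (γ i) * (ENNReal.ofReal ((x⁻¹) ^ (i + 2)) * a (k + (i + 2)))
        ≤ ENNReal.ofReal (γ i * (x⁻¹) ^ (i + 2)) * S := by
      intro i
      rw [ENNReal.tsum_mul_left, ENNReal.tsum_mul_left, ENNReal.ofReal_mul (γ_pos i).le, mul_assoc]
      gcongr
      exact hshift (i + 2)
    refine ne_top_of_le_ne_top ?_ (ENNReal.tsum_le_tsum h2)
    rw [ENNReal.tsum_mul_right]
    apply ENNReal.mul_ne_top _ hsum
    have h3 : Summable (fun i => γ i * (x⁻¹) ^ (i + 2)) := by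
      have h4 := (summable_γ x⁻¹ (by positivity)).mul_right ((x⁻¹) ^ 2)
      refine h4.congr fun i => ?_
      rw [pow_add]; ring
    rw [← ENNReal.ofReal_tsum_of_nonneg (fun i => mul_nonneg (γ_pos i).le (by positivity)) h3]
    exact ENNReal.ofReal_ne_top

end Pool.Agent.Lib_helper6.Absorb
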