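import Mathlib

/-!
# Limits of locally bounded sequences of analytic functions along an ultrafilter
-/

open Filter Topology Metric

namespace Pool.Agent.Lib_helper6.Limit

theorem lipschitz_bound {g : ℂ → ℂ} (hd : DifferentiableOn ℂ g (ball 0 1)) {r M : ℝ} (hr : r < 1)
    (hM : ∀ z : ℂ, ‖z‖ ≤ (r + 1) / 2 → ‖g z‖ ≤ M) {z w : ℂ} (hz : ‖z‖ ≤ r) (hw : ‖w‖ ≤ r) :
    ‖g z - g w‖ ≤ M / ((1 - r) / 2) * ‖z - w‖ := by
  have hconv : Convex ℝ (closedBall (0 : ℂ) r) := convex_closedBall _ _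
  apply hconv.norm_image_sub_le_of_norm_deriv_le (𝕜 := ℂ) (f := g)
  · intro x hx
    rw [mem_closedBall, dist_zero_right] at hx
    apply (hd x _).differentiableAt (isOpen_ball.mem_nhds _) <;>
    · rw [mem_ball, dist_zero_right]; linarith
  · intro x hx
    rw [mem_closedBall, dist_zero_right] at hx
    apply Complex.norm_deriv_le_of_forall_mem_sphere_norm_le (by linarith)
    · apply DifferentiableOn.diffContOnCl
      apply hd.mono
      rw [closure_ball _ (by linarith)]
      intro y hy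
      rw [mem_closedBall, dist_eq_norm] at hy
      rw [mem_ball, dist_zero_right]
      have : ‖y‖ ≤ ‖y - x‖ + ‖x‖ := by
        calc ‖y‖ = ‖(y - x) + x‖ := by ring_nf
          _ ≤ _ := norm_add_le _ _
      linarith
    · intro y hy
      rw [mem_sphere, dist_eq_norm] at hy
      apply hM
      have : ‖y‖ ≤ ‖y - x‖ + ‖x‖ := by
        calc ‖y‖ = ‖(y - x) + x‖ := by ring_nf
          _ ≤ _ := norm_add_le _ _
      linarith
  · rw [mem_closedBall, dist_zero_right]; exact hw
  · rw [mem_closedBall, dist_zero_right]; exact hz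

theorem exists_limit (F : ℕ → ℂ → ℂ) (hd : ∀ n, DifferentiableOn ℂ (F n) (ball 0 1))
    (hb : ∀ r < 1, ∃ M : ℝ, ∀ n, ∀ z : ℂ, ‖z‖ ≤ r → ‖F n z‖ ≤ M) :
    ∃ f : ℂ → ℂ, DifferentiableOn ℂ f (ball 0 1) ∧
      ∀ z ∈ ball (0 : ℂ) 1, Tendsto (fun n => F n z) (hyperfilter ℕ : Filter ℕ) (𝓝 (f z)) := by
  have hex : ∀ z : ℂ, ∃ y : ℂ, z ∈ ball (0 : ℂ) 1 →
      Tendsto (fun n => F n z) (hyperfilter ℕ : Filter ℕ) (𝓝 y) := by
    intro z
    by_cases hz : z ∈ ball (0 : ℂ) 1
    · rw [mem_ball, dist_zero_right] at hz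
      obtain ⟨M, hM⟩ := hb ‖z‖ hz
      obtain ⟨y, -, hy⟩ := (isCompact_closedBall (0 : ℂ) M).ultrafilter_le_nhds
        ((hyperfilter ℕ).map (fun n => F n z)) (by
          rw [le_principal_iff]
          show (fun n => F n z) ⁻¹' closedBall (0 : ℂ) M ∈ (hyperfilter ℕ : Filter ℕ)
          apply Filter.univ_mem'
          intro n
          show F n z ∈ closedBall (0 : ℂ) M
          rw [mem_closedBall, dist_zero_right]
          exact hM n z le_rfl)
      exact ⟨y, fun _ => hy⟩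
    · exact ⟨0, fun h => absurd h hz⟩
  choose f hf using hex
  refine ⟨f, ?_, hf⟩
  have hloc : TendstoLocallyUniformlyOn F f (hyperfilter ℕ : Filter ℕ) (ball (0 : ℂ) 1) := by
    rw [Metric.tendstoLocallyUniformlyOn_iff]
    intro ε hε x hx
    have hx' := hx
    rw [mem_ball, dist_zero_right] at hx'
    set r : ℝ := (‖x‖ + 1) / 2 with hr
    have hx0 := norm_nonneg x
    have hr1 : r < 1 := by linarith
    have hxr : ‖x‖ < r := by linarith
    obtain ⟨M, hM⟩ := hb ((r + 1) / 2) (by linarith)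
    have hM0 : 0 ≤ M := (norm_nonneg _).trans (hM 0 0 (by rw [norm_zero]; linarith))
    set C : ℝ := M / ((1 - r) / 2) + 1 with hC
    have hC0 : 0 < C := by
      have : 0 ≤ M / ((1 - r) / 2) := div_nonneg hM0 (by linarith)
      linarith
    have hlip : ∀ n, ∀ z w : ℂ, ‖z‖ ≤ r → ‖w‖ ≤ r → ‖F n z - F n w‖ ≤ C * ‖z - w‖ := by
      intro n z w hz hw
      refine (lipschitz_bound (hd n) hr1 (hM n) hz hw).trans ?_
      apply mul_le_mul_of_nonneg_right _ (norm_nonneg _)
      linarith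
    have hlipf : ∀ z w : ℂ, ‖z‖ ≤ r → ‖w‖ ≤ r → ‖f z - f w‖ ≤ C * ‖z - w‖ := by
      intro z w hz hw
      have h1 := hf z (by rw [mem_ball, dist_zero_right]; linarith)
      have h2 := hf w (by rw [mem_ball, dist_zero_right]; linarith)
      exact le_of_tendsto (h1.sub h2).norm (Eventually.of_forall fun n => hlip n z w hz hw)
    set η : ℝ := min (r - ‖x‖) (ε / (3 * C)) with hη
    have hη0 : 0 < η := lt_min (by linarith) (by positivity)
    refine ⟨ball x η, mem_nhdsWithin_of_mem_nhds (ball_mem_nhds x hη0), ?_⟩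
    have hev : ∀ᶠ n in (hyperfilter ℕ : Filter ℕ), dist (F n x) (f x) < ε / 3 :=
      (Metric.tendsto_nhds.mp (hf x hx)) (ε / 3) (by positivity)
    filter_upwards [hev] with n hn y hy
    rw [mem_ball, dist_eq_norm] at hy
    have hyr : ‖y‖ ≤ r := by
      have : ‖y‖ ≤ ‖y - x‖ + ‖x‖ := by
        calc ‖y‖ = ‖(y - x) + x‖ := by ring_nf
          _ ≤ _ := norm_add_le _ _
      have := min_le_left (r - ‖x‖) (ε / (3 * C))
      linarith
    have hCy : C * ‖y - x‖ ≤ ε / 3 := by
      have h1 := min_le_right (r - ‖x‖) (ε / (3 * C))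
      calc C * ‖y - x‖ ≤ C * (ε / (3 * C)) := by gcongr; linarith
        _ = ε / 3 := by field_simp
    have h1 := hlipf y x hyr hxr.le
    have h2 := hlip n y x hyr hxr.le
    rw [dist_eq_norm] at hn ⊢
    have h3 : f y - F n y = (f y - f x) - (F n y - F n x) - (F n x - f x) := by ring
    rw [h3]
    have h4 := norm_sub_le ((f y - f x) - (F n y - F n x)) (F n x - f x)
    have h5 := norm_sub_le (f y - f x) (F n y - F n x)
    linarith
  exact hloc.differentiableOn (Eventually.of_forall hd) isOpen_ball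

end Pool.Agent.Lib_helper6.Limit
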