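import Mathlib
import Pool.Agent.Lib_helper6.Sum

/-!
# The integrated counting function
-/

open Finset MeasureTheory
open scoped ENNReal

namespace Pool.Agent.Lib_helper6.NFun

open Vdc Block Factor Fams Sum

theorem exists_count {ρ : ℕ → ℝ} (hmono : Monotone ρ) (hpos : ∀ j, 0 < ρ j) (hlt : ∀ j, ρ j < 1)
    (hfin : ∀ t : ℝ, t < 1 → {j : ℕ | ρ j ≤ t}.Finite) : ∃ A : ℕ → ℕ, Sq ρ A := by
  have hex : ∀ l : ℕ, ∃ a : ℕ, ∀ j, j < a ↔ ρ j ≤ rr l := by
    intro l
    have h1 : ∃ j, ¬ ρ j ≤ rr l := by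
      by_contra hcon
      push Not at hcon
      have h2 : {j : ℕ | ρ j ≤ rr l} = Set.univ := Set.eq_univ_of_forall hcon
      have h3 := hfin (rr l) (rr_lt_one l)
      rw [h2] at h3
      exact Set.infinite_univ h3
    obtain ⟨a, ha1, ha2⟩ : ∃ a, ¬ ρ a ≤ rr l ∧ ∀ b < a, ρ b ≤ rr l := by
      obtain ⟨a, ha1, ha2⟩ := WellFounded.has_min (wellFounded_lt (α := ℕ)) {j | ¬ ρ j ≤ rr l} h1
      refine ⟨a, ha1, fun b hb => ?_⟩
      by_contra hcon
      exact ha2 b hcon hb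
    refine ⟨a, fun j => ⟨ha2 j, fun hj => ?_⟩⟩
    by_contra hcon
    push Not at hcon
    exact ha1 ((hmono hcon).trans hj)
  choose A hA using hex
  exact ⟨A, hmono, hpos, hlt, hA⟩

/-- One zero. -/
theorem integral_one {ρ : ℝ} (hρ : 0 < ρ) (r : ℝ) (hr : 0 ≤ r) :
    IntervalIntegrable (fun t : ℝ => if ρ ≤ t then 1 / t else 0) volume 0 r ∧
    ∫ t in (0 : ℝ)..r, (if ρ ≤ t then 1 / t else 0) = Real.posLog (r / ρ) := by
  have hind : (fun t : ℝ => if ρ ≤ t then 1 / t else 0) = (Set.Ici ρ).indicator (fun t => 1 / t) := by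
    funext t
    by_cases h : ρ ≤ t
    · rw [Set.indicator_of_mem (Set.mem_Ici.mpr h), if_pos h]
    · rw [Set.indicator_of_notMem (by rwa [Set.mem_Ici]), if_neg h]
  rw [hind]
  rcases lt_or_ge r ρ with hlt | hge
  · have hempty : Set.Ioc 0 r ∩ Set.Ici ρ = ∅ := by
      ext t
      simp only [Set.mem_inter_iff, Set.mem_Ioc, Set.mem_Ici, Set.mem_empty_iff_false, iff_false]
      intro h
      linarith [h.1.2, h.2]
    constructor
    · rw [intervalIntegrable_iff_integrableOn_Ioc_of_le hr, integrableOn_indicator_iff measurableSet_Ici,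
        Set.inter_comm, hempty]
      exact integrableOn_empty
    · rw [intervalIntegral.integral_of_le hr, setIntegral_indicator measurableSet_Ici, hempty,
        setIntegral_empty]
      symm
      rw [Real.posLog_eq_zero_iff, abs_of_nonneg (div_nonneg hr hρ.le), div_le_one hρ]
      exact hlt.le
  · have hset : Set.Ioc 0 r ∩ Set.Ici ρ = Set.Icc ρ r := by
      ext t
      simp only [Set.mem_inter_iff, Set.mem_Ioc, Set.mem_Ici, Set.mem_Icc]
      constructor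
      · intro h; exact ⟨h.2, h.1.2⟩
      · intro h; exact ⟨⟨by linarith [h.1], h.2⟩, h.1⟩
    constructor
    · rw [intervalIntegrable_iff_integrableOn_Ioc_of_le hr, integrableOn_indicator_iff measurableSet_Ici,
        Set.inter_comm, hset]
      apply ContinuousOn.integrableOn_Icc
      apply ContinuousOn.div continuousOn_const continuousOn_id
      intro t ht
      have h1 : 0 < t := lt_of_lt_of_le hρ ht.1
      exact h1.ne'
    · rw [intervalIntegral.integral_of_le hr, setIntegral_indicator measurableSet_Ici, hset,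
        integral_Icc_eq_integral_Ioc, ← intervalIntegral.integral_of_le hge,
        integral_one_div_of_pos hρ (by linarith), Real.posLog_eq_log]
      rw [abs_of_nonneg (div_nonneg hr hρ.le), one_le_div hρ]
      exact hge

theorem natCard_eq {ρ : ℕ → ℝ} {A : ℕ → ℕ} (h : Sq ρ A) (l : ℕ) {t : ℝ} (ht : t ≤ rr l) :
    (Nat.card {j : ℕ // ρ j ≤ t} : ℝ) / t = ∑ j ∈ range (A l), (if ρ j ≤ t then 1 / t else 0) := by
  classical
  have h1 : Nat.card {j : ℕ // ρ j ≤ t} = ((range (A l)).filter (fun j => ρ j ≤ t)).card := by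
    apply Nat.subtype_card
    intro j
    rw [mem_filter, mem_range, h.count]
    constructor
    · intro hj; exact hj.2
    · intro hj; exact ⟨hj.trans ht, hj⟩
  rw [h1, ← sum_filter, sum_const, nsmul_eq_mul]
  ring

theorem integral_eq {ρ : ℕ → ℝ} {A : ℕ → ℕ} (h : Sq ρ A) (l : ℕ) {r : ℝ} (hr0 : 0 ≤ r) (hr : r ≤ rr l) :
    ∫ t in (0 : ℝ)..r, (Nat.card {j : ℕ // ρ j ≤ t} : ℝ) / t
      = ∑ j ∈ range (A l), Real.posLog (r / ρ j) := by
  have h1 : ∫ t in (0 : ℝ)..r, (Nat.card {j : ℕ // ρ j ≤ t} : ℝ) / t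
      = ∫ t in (0 : ℝ)..r, ∑ j ∈ range (A l), (if ρ j ≤ t then 1 / t else 0) := by
    apply intervalIntegral.integral_congr
    intro t ht
    rw [Set.uIcc_of_le hr0] at ht
    exact natCard_eq h l (ht.2.trans hr)
  rw [h1, intervalIntegral.integral_finsetSum]
  · apply sum_congr rfl
    intro j _
    exact (integral_one (h.pos j) r hr0).2
  · intro j _
    exact (integral_one (h.pos j) r hr0).1

theorem Nn_le_integral {ρ : ℕ → ℝ} {A : ℕ → ℕ} (h : Sq ρ A) (k : ℕ) {r : ℝ} (hr0 : rr k ≤ r)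
    (hr : r ≤ rr (k + 1)) :
    Nn ρ A k ≤ ∫ t in (0 : ℝ)..r, (Nat.card {j : ℕ // ρ j ≤ t} : ℝ) / t := by
  rw [integral_eq h (k + 1) ((rr_nonneg k).trans hr0) hr]
  unfold Nn
  calc ∑ j ∈ range (A k), Real.posLog (rr k / ρ j) ≤ ∑ j ∈ range (A k), Real.posLog (r / ρ j) := by
        apply sum_le_sum
        intro j _
        apply posLog_mono_of_nonneg (div_nonneg (rr_nonneg k) (h.pos j).le)
        exact div_le_div_of_nonneg_right hr0 (h.pos j).le
    _ ≤ _ := by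
        apply sum_le_sum_of_subset_of_nonneg (range_mono (h.A_mono (Nat.le_succ k)))
        intro j _ _
        exact Real.posLog_nonneg

/-- `u ∈ [(1/2)^{k+1}, (1/2)^k]` gives control of `u^α`. -/
theorem rpow_ge {α : ℝ} {k : ℕ} {u : ℝ} (h1 : (1 / 2 : ℝ) ^ (k + 1) ≤ u) (h2 : u ≤ (1 / 2) ^ k) :
    (1 / 2 : ℝ) ^ |α| * ((1 / 2 : ℝ) ^ k) ^ α ≤ u ^ α := by
  have h0 : (0 : ℝ) < (1 / 2) ^ (k + 1) := half_pos _
  have hu : 0 < u := lt_of_lt_of_le h0 h1
  rcases le_total 0 α with hα | hα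
  · rw [abs_of_nonneg hα]
    calc (1 / 2 : ℝ) ^ α * ((1 / 2 : ℝ) ^ k) ^ α = ((1 / 2 : ℝ) ^ (k + 1)) ^ α := by
          rw [← Real.mul_rpow (by norm_num) (by positivity)]
          congr 1
          rw [pow_succ]; ring
      _ ≤ u ^ α := Real.rpow_le_rpow h0.le h1 hα
  · calc (1 / 2 : ℝ) ^ |α| * ((1 / 2 : ℝ) ^ k) ^ α ≤ 1 * ((1 / 2 : ℝ) ^ k) ^ α := by
          apply mul_le_mul_of_nonneg_right _ (by positivity)
          exact Real.rpow_le_one (by norm_num) (by norm_num) (abs_nonneg _)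
      _ = ((1 / 2 : ℝ) ^ k) ^ α := one_mul _
      _ ≤ u ^ α := Real.rpow_le_rpow_of_nonpos hu h2 hα

theorem half_pow_rpow (α : ℝ) (k : ℕ) :
    ((1 / 2 : ℝ) ^ k) ^ α * (1 / 2) ^ k = ((1 / 2 : ℝ) ^ (α + 1)) ^ k := by
  rw [← Real.rpow_natCast, ← Real.rpow_natCast, ← Real.rpow_mul (by norm_num), ← Real.rpow_mul (by norm_num),
    ← Real.rpow_add (by norm_num)]
  congr 1
  ring

/-- The discrete version of the integrability condition. -/
theorem discrete {ρ : ℕ → ℝ} {A : ℕ → ℕ} (h : Sq ρ A) {p α : ℝ} (hp : 0 < p)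
    (hint : IntegrableOn
      (fun r : ℝ => (1 - r) ^ α *
        Real.exp (p * ∫ t in (0 : ℝ)..r, (Nat.card {j : ℕ // ρ j ≤ t} : ℝ) / t))
      (Set.Ioo 0 1)) :
    ∑' k : ℕ, ENNReal.ofReal (((1 / 2 : ℝ) ^ (α + 1)) ^ k * Real.exp (p * Nn ρ A k)) ≠ ∞ := by
  set G : ℝ → ℝ := fun r : ℝ => (1 - r) ^ α *
        Real.exp (p * ∫ t in (0 : ℝ)..r, (Nat.card {j : ℕ // ρ j ≤ t} : ℝ) / t) with hG
  have hfin : ∫⁻ r in Set.Ioo 0 1, ENNReal.ofReal (G r) ≠ ∞ := by
    have h1 := hint.hasFiniteIntegral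
    refine ne_top_of_le_ne_top h1.ne ?_
    apply lintegral_mono
    intro r
    exact Real.ofReal_le_enorm _
  have hdisj : Pairwise (Function.onFun Disjoint (fun k : ℕ => Set.Ioo (rr k) (rr (k + 1)))) := by
    have key : ∀ a b : ℕ, a < b → Disjoint (Set.Ioo (rr a) (rr (a + 1))) (Set.Ioo (rr b) (rr (b + 1))) := by
      intro a b hab
      rw [Set.disjoint_left]
      intro t h1 h2
      have h3 : rr (a + 1) ≤ rr b := rr_mono hab
      linarith [h1.2, h2.1]
    intro a b hab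
    rcases lt_or_gt_of_ne hab with hlt | hgt
    · exact key a b hlt
    · exact (key b a hgt).symm
  have hsub : (⋃ k : ℕ, Set.Ioo (rr k) (rr (k + 1))) ⊆ Set.Ioo 0 1 := by
    intro t ht
    rw [Set.mem_iUnion] at ht
    obtain ⟨k, hk⟩ := ht
    exact ⟨lt_of_le_of_lt (rr_nonneg k) hk.1, hk.2.trans (rr_lt_one _)⟩
  set c : ℝ := (1 / 2 : ℝ) ^ |α| / 2 with hc
  have hc0 : 0 < c := by positivity
  have hpiece : ∀ k : ℕ, ENNReal.ofReal c * ENNReal.ofReal (((1 / 2 : ℝ) ^ (α + 1)) ^ k * Real.exp (p * Nn ρ A k))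
      ≤ ∫⁻ r in Set.Ioo (rr k) (rr (k + 1)), ENNReal.ofReal (G r) := by
    intro k
    set m : ℝ := (1 / 2 : ℝ) ^ |α| * ((1 / 2 : ℝ) ^ k) ^ α * Real.exp (p * Nn ρ A k) with hm
    have hm0 : 0 ≤ m := by positivity
    have h1 : ∫⁻ _r in Set.Ioo (rr k) (rr (k + 1)), ENNReal.ofReal m
        ≤ ∫⁻ r in Set.Ioo (rr k) (rr (k + 1)), ENNReal.ofReal (G r) := by
      apply setLIntegral_mono' measurableSet_Ioo
      intro r hr
      apply ENNReal.ofReal_le_ofReal
      rw [hm, hG]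
      have e1 : (1 / 2 : ℝ) ^ |α| * ((1 / 2 : ℝ) ^ k) ^ α ≤ (1 - r) ^ α := by
        apply rpow_ge
        · have := hr.2
          unfold rr at this
          linarith
        · have := hr.1
          unfold rr at this
          linarith
      have e2 : Real.exp (p * Nn ρ A k) ≤
          Real.exp (p * ∫ t in (0 : ℝ)..r, (Nat.card {j : ℕ // ρ j ≤ t} : ℝ) / t) := by
        apply Real.exp_le_exp.mpr
        apply mul_le_mul_of_nonneg_left _ hp.le
        exact Nn_le_integral h k hr.1.le hr.2.le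
      have e3 : 0 ≤ (1 - r) ^ α := le_trans (by positivity) e1
      exact mul_le_mul e1 e2 (Real.exp_pos _).le e3
    refine le_trans (le_of_eq ?_) h1
    rw [setLIntegral_const, Real.volume_Ioo, ← ENNReal.ofReal_mul hc0.le, ← ENNReal.ofReal_mul hm0]
    congr 1
    have hrr : rr (k + 1) - rr k = (1 / 2) ^ k / 2 := by
      unfold rr
      rw [half_succ]; ring
    rw [hrr, hm, hc, ← half_pow_rpow]
    ring
  have htot : ENNReal.ofReal c * ∑' k : ℕ, ENNReal.ofReal (((1 / 2 : ℝ) ^ (α + 1)) ^ k * Real.exp (p * Nn ρ A k))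
      ≤ ∫⁻ r in Set.Ioo 0 1, ENNReal.ofReal (G r) := by
    rw [← ENNReal.tsum_mul_left]
    calc ∑' k : ℕ, ENNReal.ofReal c * ENNReal.ofReal (((1 / 2 : ℝ) ^ (α + 1)) ^ k * Real.exp (p * Nn ρ A k))
        ≤ ∑' k : ℕ, ∫⁻ r in Set.Ioo (rr k) (rr (k + 1)), ENNReal.ofReal (G r) := ENNReal.tsum_le_tsum hpiece
      _ = ∫⁻ r in (⋃ k : ℕ, Set.Ioo (rr k) (rr (k + 1))), ENNReal.ofReal (G r) :=
          (lintegral_iUnion (fun _ => measurableSet_Ioo) hdisj _).symm
      _ ≤ _ := lintegral_mono_set hsub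
  intro htop
  rw [htop, ENNReal.mul_top (by rw [Ne, ENNReal.ofReal_eq_zero]; linarith)] at htot
  exact hfin (top_le_iff.mp htot)

end Pool.Agent.Lib_helper6.NFun
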