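import Mathlib
import Pool.Agent.Lib_helper6.Absorb
import Pool.Agent.Lib_helper6.Limit
import Pool.Agent.Lib_helper6.NFun

/-!
# The function in the weighted Bergman space
-/

open Finset MeasureTheory Filter Topology Metric
open scoped ENNReal

namespace Pool.Agent.Lib_helper6.Final

open Vdc Block Factor Fams Sum Absorb Limit NFun

variable {ρ : ℕ → ℝ} {A : ℕ → ℕ}

theorem BB_ne_top {p x : ℝ} (hx : 0 < x)
    (hsum : ∑' k : ℕ, ENNReal.ofReal (x ^ k * Real.exp (p * Nn ρ A k)) ≠ ∞) (k : ℕ) :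
    BB ρ A p k ≠ ∞ := by
  have h1 := ENNReal.ne_top_of_tsum_ne_top (tsum_BB_lt_top hx hsum) k
  intro h2
  rw [h2, ENNReal.mul_top (by rw [Ne, ENNReal.ofReal_eq_zero]; push Not; positivity)] at h1
  exact h1 rfl

theorem differentiableOn_pp (h : Sq ρ A) (n : ℕ) : DifferentiableOn ℂ (pp ρ n) (ball 0 1) := by
  unfold pp
  apply DifferentiableOn.fun_finsetProd
  intro j _
  unfold fac
  apply DifferentiableOn.div
  · fun_prop
  · fun_prop
  · intro z hz
    rw [mem_ball, dist_zero_right] at hz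
    apply one_sub_ne
    rw [norm_mul, norm_zv, Complex.norm_real, Real.norm_of_nonneg (h.pos j).le]
    have h1 := h.lt_one j
    have h2 := h.pos j
    have h3 := norm_nonneg z
    nlinarith

theorem pp_zero (n : ℕ) : pp ρ n 0 = 1 := by
  unfold pp fac
  apply prod_eq_one
  intro j _
  simp

theorem pp_vanish (h : Sq ρ A) {n j : ℕ} (hj : j < n) : pp ρ n ((ρ j : ℂ) / v j) = 0 := by
  unfold pp
  apply prod_eq_zero (mem_range.mpr hj)
  unfold fac
  have h1 : (ρ j : ℂ) ≠ 0 := by exact_mod_cast (h.pos j).ne'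
  rw [div_mul_cancel₀ _ (v_ne_zero j)]
  push_cast
  rw [inv_mul_cancel₀ h1]
  simp

/-- The function. -/
theorem exists_fn (h : Sq ρ A) {p x : ℝ} (hp : 0 < p) (hx : 0 < x)
    (hsum : ∑' k : ℕ, ENNReal.ofReal (x ^ k * Real.exp (p * Nn ρ A k)) ≠ ∞) :
    ∃ f : ℂ → ℂ, DifferentiableOn ℂ f (ball 0 1) ∧ f 0 = 1 ∧ (∀ j, f ((ρ j : ℂ) / v j) = 0) ∧
      ∀ k : ℕ, 1 ≤ k → ∀ z : ℂ, ‖z‖ ≤ rr k → ENNReal.ofReal (‖f z‖ ^ p) ≤ BB ρ A p k := by
  obtain ⟨f, hf1, hf2⟩ := exists_limit (pp ρ) (differentiableOn_pp h) (by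
    intro r hr
    obtain ⟨k, hk⟩ := exists_pow_lt_of_lt_one (sub_pos.mpr hr) (by norm_num : (1 / 2 : ℝ) < 1)
    have hrk : r ≤ rr (k + 1) := by
      have h1 := rr_mono (Nat.le_succ k)
      have h2 : r ≤ rr k := by unfold rr; linarith
      exact h2.trans h1
    refine ⟨((BB ρ A p (k + 1)).toReal) ^ (p⁻¹), fun n z hz => ?_⟩
    have h1 := norm_pp_le_BB h hp (Nat.succ_le_succ (Nat.zero_le k)) n (hz.trans hrk)
    rw [ENNReal.ofReal_le_iff_le_toReal (BB_ne_top hx hsum _)] at h1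
    calc ‖pp ρ n z‖ = (‖pp ρ n z‖ ^ p) ^ (p⁻¹) := by
          rw [← Real.rpow_mul (norm_nonneg _), mul_inv_cancel₀ hp.ne', Real.rpow_one]
      _ ≤ _ := Real.rpow_le_rpow (by positivity) h1 (by positivity))
  have hlim : ∀ z : ℂ, ‖z‖ < 1 → Tendsto (fun n => pp ρ n z) (hyperfilter ℕ : Filter ℕ) (𝓝 (f z)) := by
    intro z hz
    exact hf2 z (by rwa [mem_ball, dist_zero_right])
  refine ⟨f, hf1, ?_, ?_, ?_⟩
  · have h1 := hlim 0 (by simp)
    have h2 : Tendsto (fun n => pp ρ n 0) (hyperfilter ℕ : Filter ℕ) (𝓝 1) := by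
      have : (fun n => pp ρ n 0) = fun _ => (1 : ℂ) := by
        funext n; exact pp_zero n
      rw [this]
      exact tendsto_const_nhds
    exact tendsto_nhds_unique h1 h2
  · intro j
    have hn : ‖(ρ j : ℂ) / v j‖ < 1 := by
      rw [norm_div, norm_v, div_one, Complex.norm_real, Real.norm_of_nonneg (h.pos j).le]
      exact h.lt_one j
    have h1 := hlim _ hn
    have hev : ∀ᶠ n in (hyperfilter ℕ : Filter ℕ), pp ρ n ((ρ j : ℂ) / v j) = 0 := by
      have h3 : ∀ᶠ n in atTop, j < n := eventually_gt_atTop j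
      have h4 : (hyperfilter ℕ : Filter ℕ) ≤ atTop := by
        rw [← Nat.cofinite_eq_atTop]
        exact hyperfilter_le_cofinite
      filter_upwards [h4 h3] with n hn
      exact pp_vanish h hn
    have h2 : Tendsto (fun n => pp ρ n ((ρ j : ℂ) / v j)) (hyperfilter ℕ : Filter ℕ) (𝓝 0) :=
      tendsto_const_nhds.congr' (hev.mono fun n hn => hn.symm)
    exact tendsto_nhds_unique h1 h2
  · intro k hk z hz
    have h1 := hlim z (lt_of_le_of_lt hz (rr_lt_one k))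
    rw [ENNReal.ofReal_le_iff_le_toReal (BB_ne_top hx hsum _)]
    have h2 : Tendsto (fun n => ‖pp ρ n z‖ ^ p) (hyperfilter ℕ : Filter ℕ) (𝓝 (‖f z‖ ^ p)) :=
      h1.norm.rpow_const (Or.inr hp.le)
    refine le_of_tendsto h2 (Eventually.of_forall fun n => ?_)
    have h3 := norm_pp_le_BB h hp hk n hz
    rwa [ENNReal.ofReal_le_iff_le_toReal (BB_ne_top hx hsum _)] at h3

/-- upper bound for the weight. -/
theorem weight_le {α : ℝ} {k : ℕ} {s : ℝ} (h0 : 0 ≤ s) (h1 : rr k ≤ s) (h2 : s ≤ rr (k + 1)) :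
    (1 - s ^ 2) ^ α ≤ (2 : ℝ) ^ |α| * ((1 / 2 : ℝ) ^ k) ^ α := by
  have hk := half_pos (k + 1)
  have hk' := half_pos k
  have hs1 : (1 / 2 : ℝ) ^ (k + 1) ≤ 1 - s := by unfold rr at h2; linarith
  have hs2 : 1 - s ≤ (1 / 2) ^ k := by unfold rr at h1; linarith
  have e1 : (1 / 2 : ℝ) ^ (k + 1) ≤ 1 - s ^ 2 := by nlinarith
  have e2 : 1 - s ^ 2 ≤ 2 * (1 / 2) ^ k := by nlinarith
  have hu : 0 < 1 - s ^ 2 := lt_of_lt_of_le hk e1
  rcases le_total 0 α with hα | hα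
  · rw [abs_of_nonneg hα, ← Real.mul_rpow (by norm_num) hk'.le]
    exact Real.rpow_le_rpow hu.le e2 hα
  · rw [abs_of_nonpos hα]
    calc (1 - s ^ 2) ^ α ≤ ((1 / 2 : ℝ) ^ (k + 1)) ^ α := Real.rpow_le_rpow_of_nonpos hk e1 hα
      _ = (2 : ℝ) ^ (-α) * ((1 / 2 : ℝ) ^ k) ^ α := by
        rw [pow_succ, Real.mul_rpow hk'.le (by norm_num), mul_comm]
        congr 1
        rw [one_div, Real.inv_rpow (by norm_num), Real.rpow_neg (by norm_num)]

theorem volume_annulus_le (k : ℕ) :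
    volume {z : ℂ | rr k ≤ ‖z‖ ∧ ‖z‖ < rr (k + 1)} ≤ ENNReal.ofReal (2 * Real.pi * (1 / 2) ^ k) := by
  have hset : {z : ℂ | rr k ≤ ‖z‖ ∧ ‖z‖ < rr (k + 1)} = ball (0 : ℂ) (rr (k + 1)) \ ball 0 (rr k) := by
    ext z
    simp only [Set.mem_ofPred_eq, Set.mem_sdiff, mem_ball, dist_zero_right, not_lt]
    tauto
  have hsub : ball (0 : ℂ) (rr k) ⊆ ball 0 (rr (k + 1)) := ball_subset_ball (rr_mono (Nat.le_succ k))
  rw [hset, measure_sdiff hsub measurableSet_ball.nullMeasurableSet (by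
    rw [Complex.volume_ball]
    exact ENNReal.mul_ne_top (ENNReal.pow_ne_top ENNReal.ofReal_ne_top) ENNReal.coe_ne_top)]
  rw [Complex.volume_ball, Complex.volume_ball]
  have hpi : (NNReal.pi : ℝ≥0∞) = ENNReal.ofReal Real.pi := by
    rw [← NNReal.coe_real_pi, ENNReal.ofReal_coe_nnreal]
  rw [hpi, ← ENNReal.ofReal_pow (rr_nonneg _), ← ENNReal.ofReal_pow (rr_nonneg _),
    ← ENNReal.ofReal_mul (by positivity), ← ENNReal.ofReal_mul (by positivity),
    ← ENNReal.ofReal_sub _ (by positivity)]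
  apply ENNReal.ofReal_le_ofReal
  have h1 : rr (k + 1) - rr k = (1 / 2) ^ k / 2 := by
    unfold rr
    rw [half_succ]; ring
  have h2 := rr_lt_one k
  have h3 := rr_lt_one (k + 1)
  have h4 := half_pos k
  have h5 := rr_nonneg k
  have h6 := rr_nonneg (k + 1)
  have h7 : rr (k + 1) ^ 2 * Real.pi - rr k ^ 2 * Real.pi
      = Real.pi * (((1 / 2) ^ k / 2) * (rr (k + 1) + rr k)) := by
    rw [← h1]; ring
  rw [h7]
  have hpi0 := Real.pi_pos
  have h8 : ((1 / 2 : ℝ) ^ k / 2) * (rr (k + 1) + rr k) ≤ 2 * (1 / 2) ^ k := by nlinarith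
  calc Real.pi * (((1 / 2) ^ k / 2) * (rr (k + 1) + rr k)) ≤ Real.pi * (2 * (1 / 2) ^ k) := by gcongr
    _ = _ := by ring

/-- Integrability. -/
theorem integrable_fn {p α : ℝ} (hp : 0 < p)
    (hsum : ∑' k : ℕ, ENNReal.ofReal (((1 / 2 : ℝ) ^ (α + 1)) ^ k * Real.exp (p * Nn ρ A k)) ≠ ∞)
    {f : ℂ → ℂ} (hf : DifferentiableOn ℂ f (ball 0 1))
    (hbd : ∀ k : ℕ, 1 ≤ k → ∀ z : ℂ, ‖z‖ ≤ rr k → ENNReal.ofReal (‖f z‖ ^ p) ≤ BB ρ A p k) :
    IntegrableOn (fun z : ℂ => (1 - ‖z‖ ^ 2) ^ α * ‖f z‖ ^ p) (ball 0 1) := by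
  have hx : (0 : ℝ) < (1 / 2 : ℝ) ^ (α + 1) := by positivity
  have hcont : ContinuousOn (fun z : ℂ => (1 - ‖z‖ ^ 2) ^ α * ‖f z‖ ^ p) (ball 0 1) := by
    apply ContinuousOn.mul
    · apply ContinuousOn.rpow_const
      · fun_prop
      · intro z hz
        rw [mem_ball, dist_zero_right] at hz
        left
        have := norm_nonneg z
        nlinarith
    · apply ContinuousOn.rpow_const
      · exact hf.continuousOn.norm
      · intro z _
        right
        exact hp.le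
  refine ⟨hcont.aestronglyMeasurable measurableSet_ball, ?_⟩
  rw [hasFiniteIntegral_iff_enorm]
  set G : ℂ → ℝ≥0∞ := fun z => ‖(1 - ‖z‖ ^ 2) ^ α * ‖f z‖ ^ p‖ₑ with hG
  set S : ℕ → Set ℂ := fun k => {z : ℂ | rr k ≤ ‖z‖ ∧ ‖z‖ < rr (k + 1)} with hS
  have hSm : ∀ k, MeasurableSet (S k) := by
    intro k
    apply MeasurableSet.inter
    · exact measurableSet_le measurable_const measurable_norm
    · exact measurableSet_lt measurable_norm measurable_const
  have hcover : ball (0 : ℂ) 1 ⊆ ⋃ k, S k := by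
    intro z hz
    rw [mem_ball, dist_zero_right] at hz
    obtain ⟨k, hk⟩ := exists_pow_lt_of_lt_one (sub_pos.mpr hz) (by norm_num : (1 / 2 : ℝ) < 1)
    have hex : ∃ k : ℕ, ‖z‖ < rr (k + 1) := by
      refine ⟨k, ?_⟩
      have h1 := rr_lt_succ k
      have h2 : ‖z‖ ≤ rr k := by unfold rr; linarith
      linarith
    obtain ⟨a, ha1, ha2⟩ := WellFounded.has_min (wellFounded_lt (α := ℕ)) {k | ‖z‖ < rr (k + 1)} hex
    rw [Set.mem_iUnion]
    refine ⟨a, ?_, ha1⟩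
    rcases Nat.eq_zero_or_pos a with rfl | hpos
    · have : rr 0 = 0 := by unfold rr; simp
      rw [this]
      exact norm_nonneg z
    · obtain ⟨b, rfl⟩ : ∃ b, a = b + 1 := ⟨a - 1, by omega⟩
      by_contra hcon
      push Not at hcon
      exact ha2 b hcon (Nat.lt_succ_self b)
  set c : ℝ := (2 : ℝ) ^ |α| * (2 * Real.pi) with hc
  have hc0 : 0 ≤ c := by positivity
  have hpiece : ∀ k, ∫⁻ z in S k, G z
      ≤ ENNReal.ofReal c * (ENNReal.ofReal (((1 / 2 : ℝ) ^ (α + 1)) ^ k) * BB ρ A p (k + 1)) := by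
    intro k
    have h1 : ∫⁻ z in S k, G z ≤ ∫⁻ _z in S k, ENNReal.ofReal ((2 : ℝ) ^ |α| * ((1 / 2 : ℝ) ^ k) ^ α) * BB ρ A p (k + 1) := by
      apply setLIntegral_mono' (hSm k)
      intro z hz
      have hz1 : rr k ≤ ‖z‖ := hz.1
      have hz2 : ‖z‖ ≤ rr (k + 1) := hz.2.le
      have hnn : 0 ≤ (1 - ‖z‖ ^ 2) ^ α := by
        apply Real.rpow_nonneg
        have := rr_lt_one (k + 1)
        have := norm_nonneg z
        nlinarith
      rw [hG]
      simp only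
      rw [enorm_mul, Real.enorm_of_nonneg hnn, Real.enorm_of_nonneg (by positivity)]
      apply mul_le_mul'
      · exact ENNReal.ofReal_le_ofReal (weight_le (norm_nonneg z) hz1 hz2)
      · exact hbd (k + 1) (by omega) z hz2
    refine h1.trans ?_
    rw [setLIntegral_const]
    calc ENNReal.ofReal ((2 : ℝ) ^ |α| * ((1 / 2 : ℝ) ^ k) ^ α) * BB ρ A p (k + 1) * volume (S k)
        ≤ ENNReal.ofReal ((2 : ℝ) ^ |α| * ((1 / 2 : ℝ) ^ k) ^ α) * BB ρ A p (k + 1)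
          * ENNReal.ofReal (2 * Real.pi * (1 / 2) ^ k) := by
          gcongr
          exact volume_annulus_le k
      _ = ENNReal.ofReal ((2 : ℝ) ^ |α| * ((1 / 2 : ℝ) ^ k) ^ α) * ENNReal.ofReal (2 * Real.pi * (1 / 2) ^ k)
          * BB ρ A p (k + 1) := by ring
      _ = ENNReal.ofReal c * ENNReal.ofReal (((1 / 2 : ℝ) ^ (α + 1)) ^ k) * BB ρ A p (k + 1) := by
          rw [← ENNReal.ofReal_mul (by positivity), ← ENNReal.ofReal_mul hc0]
          congr 2
          rw [← half_pow_rpow, hc]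
          ring
      _ = _ := by rw [mul_assoc]
  have hfin := tsum_BB_lt_top hx hsum
  have hshift : ∑' k : ℕ, ENNReal.ofReal (((1 / 2 : ℝ) ^ (α + 1)) ^ k) * BB ρ A p (k + 1) ≠ ∞ := by
    set x : ℝ := (1 / 2 : ℝ) ^ (α + 1) with hxdef
    have h1 : ∀ k : ℕ, ENNReal.ofReal (x ^ k) * BB ρ A p (k + 1)
        = ENNReal.ofReal (x⁻¹) * (ENNReal.ofReal (x ^ (k + 1)) * BB ρ A p (k + 1)) := by
      intro k
      rw [← mul_assoc, ← ENNReal.ofReal_mul (by positivity)]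
      congr 2
      rw [pow_succ]
      field_simp
    simp_rw [h1]
    rw [ENNReal.tsum_mul_left]
    apply ENNReal.mul_ne_top ENNReal.ofReal_ne_top
    refine ne_top_of_le_ne_top hfin ?_
    exact ENNReal.tsum_comp_le_tsum_of_injective (add_left_injective 1)
      (fun k => ENNReal.ofReal (x ^ k) * BB ρ A p k)
  calc ∫⁻ z in ball (0 : ℂ) 1, G z ≤ ∫⁻ z in ⋃ k, S k, G z := lintegral_mono_set hcover
    _ ≤ ∑' k, ∫⁻ z in S k, G z := lintegral_iUnion_le _ _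
    _ ≤ ∑' k, ENNReal.ofReal c * (ENNReal.ofReal (((1 / 2 : ℝ) ^ (α + 1)) ^ k) * BB ρ A p (k + 1)) :=
        ENNReal.tsum_le_tsum hpiece
    _ = ENNReal.ofReal c * ∑' k, (ENNReal.ofReal (((1 / 2 : ℝ) ^ (α + 1)) ^ k) * BB ρ A p (k + 1)) :=
        ENNReal.tsum_mul_left
    _ < ∞ := (ENNReal.mul_ne_top ENNReal.ofReal_ne_top hshift).lt_top

/-- The rotation. -/
theorem exists_angle {d : ℂ} (u : ℂ) (hu : ‖u‖ = 1) :
    ∃ θ : ℝ, θ ∈ Set.Ico 0 (2 * Real.pi) ∧ d * Complex.exp ((θ : ℂ) * Complex.I) = (‖d‖ : ℂ) / u := by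
  have hpi : 0 < 2 * Real.pi := by positivity
  set φ : ℝ := -Complex.arg u - Complex.arg d with hφ
  refine ⟨toIcoMod hpi 0 φ, ?_, ?_⟩
  · have := toIcoMod_mem_Ico hpi 0 φ
    rwa [zero_add] at this
  · have h1 : Complex.exp (((toIcoMod hpi 0 φ : ℝ) : ℂ) * Complex.I) = Complex.exp ((φ : ℂ) * Complex.I) := by
      have h2 : ((toIcoMod hpi 0 φ : ℝ) : ℂ) = (φ : ℂ) - (toIcoDiv hpi 0 φ : ℂ) * (2 * Real.pi) := by
        have h3 : toIcoMod hpi 0 φ = φ - toIcoDiv hpi 0 φ • (2 * Real.pi) := rfl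
        rw [h3]
        push_cast
        simp
      rw [h2]
      have h4 : ((φ : ℂ) - (toIcoDiv hpi 0 φ : ℂ) * (2 * Real.pi)) * Complex.I
          = (φ : ℂ) * Complex.I - (toIcoDiv hpi 0 φ : ℂ) * (2 * Real.pi * Complex.I) := by ring
      rw [h4, Complex.exp_sub, Complex.exp_int_mul_two_pi_mul_I, div_one]
    rw [h1, hφ]
    have hd1 := Complex.norm_mul_exp_arg_mul_I d
    have hu1 := Complex.norm_mul_exp_arg_mul_I u
    rw [hu, Complex.ofReal_one, one_mul] at hu1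
    have hE : Complex.exp (((-Complex.arg u - Complex.arg d : ℝ) : ℂ) * Complex.I)
        = (Complex.exp ((Complex.arg u : ℂ) * Complex.I))⁻¹ * (Complex.exp ((Complex.arg d : ℂ) * Complex.I))⁻¹ := by
      rw [← Complex.exp_neg, ← Complex.exp_neg, ← Complex.exp_add]
      congr 1
      push_cast
      ring
    rw [hE, hu1]
    have hne := Complex.exp_ne_zero ((Complex.arg d : ℂ) * Complex.I)
    have hu0 : u ≠ 0 := by
      intro h0
      rw [h0, norm_zero] at hu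
      norm_num at hu
    nth_rewrite 1 [← hd1]
    field_simp

end Pool.Agent.Lib_helper6.Final
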