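import Pool.Agent.Lib_helper6.TA14

set_option autoImplicit false
open Encodable

namespace Pool.Agent.Lib_helper6.TA

/-! ### total functions recursive in an oracle -/

def TC (O : Set (ℕ →. ℕ)) (f : ℕ → ℕ) : Prop := Nat.RecursiveIn O (PFun.lift f)

section
variable {O : Set (ℕ →. ℕ)} {f g h k : ℕ → ℕ}

theorem TC.comp (hf : TC O f) (hg : TC O g) : TC O (fun n => f (g n)) :=
  (Nat.RecursiveIn.comp hf hg).of_eq (fun _ => Part.bind_some _ _)

theorem TC.pair (hf : TC O f) (hg : TC O g) : TC O (fun n => Nat.pair (f n) (g n)) :=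
  (Nat.RecursiveIn.pair hf hg).of_eq (fun n => by simp [Seq.seq, PFun.lift])

theorem TC.of_comp (hf : Computable f) : TC O f :=
  Nat.Partrec.recursiveIn (Partrec.nat_iff.1 hf.partrec)

theorem TC.const (c : ℕ) : TC O (fun _ => c) := TC.of_comp (Computable.const c)

theorem TC.id : TC O (fun n => n) := TC.of_comp Computable.id

theorem TC.fst (hf : TC O f) : TC O (fun n => (f n).unpair.1) :=
  (TC.of_comp (O := O) (f := fun n => n.unpair.1)
    (Computable.fst.comp Computable.unpair)).comp hf

theorem TC.snd (hf : TC O f) : TC O (fun n => (f n).unpair.2) :=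
  (TC.of_comp (O := O) (f := fun n => n.unpair.2)
    (Computable.snd.comp Computable.unpair)).comp hf

theorem TC.ite_eq (hf : TC O f) (hg : TC O g) (hh : TC O h) (hk : TC O k) :
    TC O (fun n => if f n = g n then h n else k n) := by
  have h1 : Computable (fun n : ℕ => if n.unpair.1.unpair.1 = n.unpair.1.unpair.2 then
      n.unpair.2.unpair.1 else n.unpair.2.unpair.2) := by
    have u1 : Primrec (fun n : ℕ => n.unpair.1) := Primrec.fst.comp Primrec.unpair
    have u2 : Primrec (fun n : ℕ => n.unpair.2) := Primrec.snd.comp Primrec.unpair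
    refine (Primrec.ite (Primrec.eq.comp (u1.comp u1) (u2.comp u1)) (u1.comp u2)
      (u2.comp u2)).to_comp
  have h2 := (TC.of_comp (O := O) h1).comp ((hf.pair hg).pair (hh.pair hk))
  simpa only [Nat.unpair_pair] using h2

end

theorem lemA {x y : Part ℕ} {a b : ℕ} (hx : x = Part.some a) (hy : y = Part.some b) :
    (Nat.pair <$> x <*> y) = Part.some (Nat.pair a b) := by
  subst hx; subst hy
  simp [Seq.seq]

theorem lemB {x : Part ℕ} {a : ℕ} (hx : x = Part.some a) (G : ℕ →. ℕ) :
    (x >>= G) = G a := by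
  subst hx
  exact Part.bind_some _ _

theorem path_turing : PathTuring := by
  intro D P Q hD z o μ w₁ w₂ u ε a x m hu0 ha hx hm hu h0 h1
  set O : Set (ℕ →. ℕ) := {PFun.lift D} with hO
  have hDO : TC O D := .oracle _ (by simp [hO])
  have cP : ∀ {f g : ℕ → ℕ}, TC O f → TC O g → TC O (fun n => P (f n) (g n)) := by
    intro f g hf hg
    have h2 := (hDO.comp (hf.pair hg)).fst
    simpa only [hD, Nat.unpair_pair] using h2
  have cQ : ∀ {f g : ℕ → ℕ}, TC O f → TC O g → TC O (fun n => Q (f n) (g n)) := by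
    intro f g hf hg
    have h2 := (hDO.comp (hf.pair hg)).snd
    simpa only [hD, Nat.unpair_pair] using h2
  -- the index and the modulus as functions of `s = pair t u`
  set X : ℕ → ℕ := fun s =>
    P (Q (P s.unpair.2 (if P (P s.unpair.1.unpair.1 s.unpair.1.unpair.2) o = μ then
        s.unpair.1.unpair.1 else z))
      (P s.unpair.2 (if P (P s.unpair.1.unpair.1 s.unpair.1.unpair.2) o = μ then
        s.unpair.1.unpair.1 else z))) s.unpair.2 with hX
  set Y : ℕ → ℕ := fun s => P (Q (P (X s) o) w₂) o with hY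
  have cX : TC O X := by
    have ca : TC O (fun s => if P (P s.unpair.1.unpair.1 s.unpair.1.unpair.2) o = μ then
        s.unpair.1.unpair.1 else z) :=
      TC.ite_eq (cP (cP TC.id.fst.fst TC.id.fst.snd) (TC.const o)) (TC.const μ)
        TC.id.fst.fst (TC.const z)
    exact cP (cQ (cP TC.id.snd ca) (cP TC.id.snd ca)) TC.id.snd
  have cY : TC O Y := cP (cQ (cP cX (TC.const o)) (TC.const w₂)) (TC.const o)
  have eX : ∀ t, X (Nat.pair t (u t)) = x t := by
    intro t
    simp only [hX, Nat.unpair_pair, hx, ha]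
  have eY : ∀ t, Y (Nat.pair t (u t)) = m t := by
    intro t
    simp only [hY, eX, hm]
  -- the test
  set T : ℕ → ℕ := fun p => if p.unpair.2 % 2 = 0 then
      (if w₁ = Q (p.unpair.2 / 2) (Y p.unpair.1) then 0 else 1)
    else (if w₁ = P (Q (p.unpair.2 / 2) (Y p.unpair.1)) o then 0 else 1) with hT
  have c2 : TC O (fun p => p.unpair.2 % 2) :=
    (TC.of_comp (O := O) (f := fun n => n % 2)
      (Primrec.nat_mod.comp Primrec.id (Primrec.const 2)).to_comp).comp TC.id.snd
  have c3 : TC O (fun p => p.unpair.2 / 2) :=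
    (TC.of_comp (O := O) (f := fun n => n / 2)
      (Primrec.nat_div.comp Primrec.id (Primrec.const 2)).to_comp).comp TC.id.snd
  have cY1 : TC O (fun p => Y p.unpair.1) := cY.comp TC.id.fst
  have cT : TC O T :=
    TC.ite_eq c2 (TC.const 0)
      (TC.ite_eq (TC.const w₁) (cQ c3 cY1) (TC.const 0) (TC.const 1))
      (TC.ite_eq (TC.const w₁) (cP (cQ c3 cY1) (TC.const o)) (TC.const 0) (TC.const 1))
  -- the search
  set F : ℕ →. ℕ := fun s =>
    Nat.rfind fun n => (fun m => decide (m = 0)) <$> PFun.lift T (Nat.pair s n) with hF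
  have cF : Nat.RecursiveIn O F := Nat.RecursiveIn.rfind cT
  have tT : ∀ t n, T (Nat.pair (Nat.pair t (u t)) n) = 0 → n % 2 = if ε t = true then 1 else 0 := by
    intro t n hn
    simp only [hT, Nat.unpair_pair, eY] at hn
    by_cases h2 : n % 2 = 0
    · rw [if_pos h2] at hn
      have h3 : w₁ = Q (n / 2) (m t) := by
        by_contra hc
        rw [if_neg hc] at hn
        exact absurd hn (by norm_num)
      have h4 := (h0 t).1 ⟨_, h3⟩
      rw [h4, h2]; rfl
    · rw [if_neg h2] at hn
      have h3 : w₁ = P (Q (n / 2) (m t)) o := by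
        by_contra hc
        rw [if_neg hc] at hn
        exact absurd hn (by norm_num)
      have h4 := (h1 t).1 ⟨_, h3⟩
      rw [h4]
      simp only [if_true]
      omega
  have exT : ∀ t, ∃ n, T (Nat.pair (Nat.pair t (u t)) n) = 0 := by
    intro t
    cases hε : ε t with
    | false =>
      obtain ⟨h, hh⟩ := (h0 t).2 hε
      refine ⟨2 * h, ?_⟩
      simp only [hT, Nat.unpair_pair, eY]
      rw [if_pos (by omega), if_pos]
      rw [Nat.mul_div_cancel_left _ (by norm_num)]
      exact hh
    | true =>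
      obtain ⟨h, hh⟩ := (h1 t).2 hε
      refine ⟨2 * h + 1, ?_⟩
      simp only [hT, Nat.unpair_pair, eY]
      rw [if_neg (by omega), if_pos]
      rw [show (2 * h + 1) / 2 = h by omega]
      exact hh
  have eF : ∀ t, ∃ n, F (Nat.pair t (u t)) = Part.some n ∧ n % 2 = if ε t = true then 1 else 0 := by
    intro t
    classical
    have hex := exT t
    refine ⟨Nat.find hex, ?_, tT t _ (Nat.find_spec hex)⟩
    rw [Part.eq_some_iff]
    simp only [hF]
    refine (Nat.mem_rfind
      (p := fun n => (fun m => decide (m = 0)) <$> PFun.lift T (Nat.pair (Nat.pair t (u t)) n))).2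
      ⟨?_, ?_⟩
    · simp [PFun.lift, Nat.find_spec hex]
    · intro k hk
      have := Nat.find_min hex hk
      simp [PFun.lift, this]
  -- the step
  set NX : ℕ → ℕ := fun p => if p.unpair.2 % 2 = 1 then
      P (P (P (X p.unpair.1) (X p.unpair.1)) o) o else P (P (X p.unpair.1) (X p.unpair.1)) o with hNX
  have cX1 : TC O (fun p => X p.unpair.1) := cX.comp TC.id.fst
  have cNX : TC O NX :=
    TC.ite_eq c2 (TC.const 1) (cP (cP (cP cX1 cX1) (TC.const o)) (TC.const o))
      (cP (cP cX1 cX1) (TC.const o))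
  -- the run
  set H : ℕ →. ℕ := fun p => (Nat.pair <$> (PFun.lift (fun p : ℕ => p.unpair.2) p) <*>
    ((PFun.lift (fun p : ℕ => p.unpair.2) p) >>= F)) >>= PFun.lift NX with hH
  have cH : Nat.RecursiveIn O H := by
    have s1 : Nat.RecursiveIn O (PFun.lift (fun p : ℕ => p.unpair.2)) := TC.id.snd
    exact Nat.RecursiveIn.comp cNX (Nat.RecursiveIn.pair s1 (Nat.RecursiveIn.comp cF s1))
  have eH : ∀ b t, H (Nat.pair b (Nat.pair t (u t))) = Part.some (u (t + 1)) := by
    intro b t
    obtain ⟨n, hn, hn2⟩ := eF t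
    have l1 : PFun.lift (fun p : ℕ => p.unpair.2) (Nat.pair b (Nat.pair t (u t))) =
        Part.some (Nat.pair t (u t)) := by simp [PFun.lift]
    have l2 : (PFun.lift (fun p : ℕ => p.unpair.2) (Nat.pair b (Nat.pair t (u t))) >>= F) =
        Part.some n := (lemB l1 F).trans hn
    refine (lemB (lemA l1 l2) (PFun.lift NX)).trans ?_
    show Part.some (NX (Nat.pair (Nat.pair t (u t)) n)) = Part.some (u (t + 1))
    simp only [hNX, Nat.unpair_pair, eX, hu, hn2]
    cases ε t <;> simp
  have cR := Nat.RecursiveIn.prec (TC.const (O := O) z) cH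
  set R : ℕ →. ℕ := fun p => Nat.rec (PFun.lift (fun _ => z) p.unpair.1)
    (fun y IH => do let i ← IH; H (Nat.pair p.unpair.1 (Nat.pair y i))) p.unpair.2 with hR
  have eR : ∀ b t, R (Nat.pair b t) = Part.some (u t) := by
    intro b t
    simp only [hR, Nat.unpair_pair]
    induction t with
    | zero =>
      show Part.some z = Part.some (u 0)
      rw [hu0]
    | succ t ih =>
      exact (lemB ih (fun i => H (Nat.pair b (Nat.pair t i)))).trans (eH b t)
  have cR' : Nat.RecursiveIn O R := cR
  -- the output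
  have c4 : Nat.RecursiveIn O (fun t => PFun.lift (fun t => Nat.pair 0 t) t >>= R) :=
    Nat.RecursiveIn.comp cR' ((TC.const 0).pair TC.id)
  have c5 := Nat.RecursiveIn.comp cF (Nat.RecursiveIn.pair (TC.id (O := O)) c4)
  have c6 : TC O (fun n => n % 2) := TC.of_comp (O := O) (f := fun n => n % 2)
      (Primrec.nat_mod.comp Primrec.id (Primrec.const 2)).to_comp
  have c7 := Nat.RecursiveIn.comp c6 c5
  refine RecursiveIn.iff_nat.2 (c7.of_eq (fun t => ?_))
  obtain ⟨n, hn, hn2⟩ := eF t
  have e0 : PFun.lift (fun t => Nat.pair 0 t) t = Part.some (Nat.pair 0 t) := rfl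
  have e1 : (PFun.lift (fun t => Nat.pair 0 t) t >>= R) = Part.some (u t) :=
    (lemB e0 R).trans (eR 0 t)
  have e2 := lemA (show PFun.lift (fun n : ℕ => n) t = Part.some t from rfl) e1
  have e3 := (lemB e2 F).trans hn
  refine (lemB e3 (PFun.lift fun n => n % 2)).trans ?_
  show Part.some (n % 2) = Part.some (if ε t = true then 1 else 0)
  rw [hn2]

end Pool.Agent.Lib_helper6.TA
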