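import Mathlib

set_option autoImplicit false
open FirstOrder FirstOrder.Language

namespace Pool.Agent.Lib_helper6.TA

/-- the relational language with two ternary relation symbols -/
abbrev LR : Language := Language.mk (fun _ => Empty) (fun a => Fin (if a = 3 then 2 else 0))

/-- `M` carries the graph structure of `p` and `q` -/
def IsGr {M : Type} (A : LR.Structure M) (p q : M → M → M) : Prop :=
  ∀ (n : ℕ) (r : LR.Relations n) (xs : Fin n → M),
    A.RelMap r xs ↔
      ∃ i j k : Fin n, i.val = 0 ∧ j.val = 1 ∧ k.val = 2 ∧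
        ((Fin.val r = 0 ∧ p (xs i) (xs j) = xs k) ∨ (Fin.val r = 1 ∧ q (xs i) (xs j) = xs k))

def rAdd : LR.Relations 3 := (⟨0, by simp⟩ : Fin (if 3 = 3 then 2 else 0))
def rMul : LR.Relations 3 := (⟨1, by simp⟩ : Fin (if 3 = 3 then 2 else 0))

theorem relMap_add {M : Type} {A : LR.Structure M} {p q : M → M → M} (h : IsGr A p q)
    (xs : Fin 3 → M) : A.RelMap rAdd xs ↔ p (xs 0) (xs 1) = xs 2 := by
  rw [h 3 rAdd xs]
  constructor
  · rintro ⟨i, j, k, hi, hj, hk, h1 | h1⟩
    · obtain ⟨_, h2⟩ := h1
      have : i = 0 := Fin.ext hi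
      have : j = 1 := Fin.ext hj
      have : k = 2 := Fin.ext hk
      subst_vars
      exact h2
    · exact absurd h1.1 (by simp [rAdd])
  · intro h2
    exact ⟨0, 1, 2, rfl, rfl, rfl, Or.inl ⟨rfl, h2⟩⟩

theorem relMap_mul {M : Type} {A : LR.Structure M} {p q : M → M → M} (h : IsGr A p q)
    (xs : Fin 3 → M) : A.RelMap rMul xs ↔ q (xs 0) (xs 1) = xs 2 := by
  rw [h 3 rMul xs]
  constructor
  · rintro ⟨i, j, k, hi, hj, hk, h1 | h1⟩
    · exact absurd h1.1 (by simp [rMul])
    · obtain ⟨_, h2⟩ := h1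
      have : i = 0 := Fin.ext hi
      have : j = 1 := Fin.ext hj
      have : k = 2 := Fin.ext hk
      subst_vars
      exact h2
  · intro h2
    exact ⟨0, 1, 2, rfl, rfl, rfl, Or.inr ⟨rfl, h2⟩⟩

/-- atomic formulas -/
def fAdd (i j k : ℕ) : LR.Formula ℕ := rAdd.formula ![Term.var i, Term.var j, Term.var k]
def fMul (i j k : ℕ) : LR.Formula ℕ := rMul.formula ![Term.var i, Term.var j, Term.var k]
def fEq (i j : ℕ) : LR.Formula ℕ := (Term.var i).equal (Term.var j)

theorem realize_fAdd {M : Type} [A : LR.Structure M] {p q : M → M → M} (h : IsGr A p q)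
    (i j k : ℕ) (v : ℕ → M) : (fAdd i j k).Realize v ↔ p (v i) (v j) = v k := by
  unfold fAdd
  rw [Formula.realize_rel]
  have := relMap_add h (fun x => ((![Term.var i, Term.var j, Term.var k] : Fin 3 → LR.Term ℕ) x).realize v)
  simpa using this

theorem realize_fMul {M : Type} [A : LR.Structure M] {p q : M → M → M} (h : IsGr A p q)
    (i j k : ℕ) (v : ℕ → M) : (fMul i j k).Realize v ↔ q (v i) (v j) = v k := by
  unfold fMul
  rw [Formula.realize_rel]
  have := relMap_mul h (fun x => ((![Term.var i, Term.var j, Term.var k] : Fin 3 → LR.Term ℕ) x).realize v)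
  simpa using this

theorem realize_fEq {M : Type} [A : LR.Structure M] (i j : ℕ) (v : ℕ → M) :
    (fEq i j).Realize v ↔ v i = v j := by
  unfold fEq
  simp

/-- existential quantification of the named variable `i` -/
noncomputable def fEx (i : ℕ) (φ : LR.Formula ℕ) : LR.Formula ℕ :=
  Formula.iExs (Fin 1) (φ.relabel (fun j => if j = i then Sum.inr 0 else Sum.inl j))

theorem realize_fEx {M : Type} [A : LR.Structure M] (i : ℕ) (φ : LR.Formula ℕ) (v : ℕ → M) :
    (fEx i φ).Realize v ↔ ∃ x : M, φ.Realize (Function.update v i x) := by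
  unfold fEx
  rw [Formula.realize_iExs]
  constructor
  · rintro ⟨w, hw⟩
    refine ⟨w 0, ?_⟩
    rw [Formula.realize_relabel] at hw
    convert hw using 1
    funext j
    by_cases hj : j = i
    · subst hj; simp
    · simp [hj]
  · rintro ⟨x, hx⟩
    refine ⟨fun _ => x, ?_⟩
    rw [Formula.realize_relabel]
    convert hx using 1
    funext j
    by_cases hj : j = i
    · subst hj; simp
    · simp [hj]

theorem exists_realize_iff {M : Type} [A : LR.Structure M] [Nonempty M] (φ : LR.Formula ℕ) :
    (∃ v : ℕ → M, φ.Realize v) ↔ φ.exClosure.Realize M := by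
  rw [← Formula.exists_realize_equivSentence_iff_realize_exClosure]
  refine exists_congr fun v => ?_
  have := Formula.realize_equivSentence_symm M (Formula.equivSentence φ) v
  rw [Equiv.symm_apply_apply] at this
  exact this

theorem transfer {M N : Type} [A : LR.Structure M] [B : LR.Structure N] [Nonempty M] [Nonempty N]
    (h : LR.ElementarilyEquivalent M N) (φ : LR.Formula ℕ) :
    (∀ v : ℕ → N, φ.Realize v) → ∀ v : ℕ → M, φ.Realize v := by
  intro hN
  by_contra hc
  push Not at hc
  have h1 : ∃ v : ℕ → M, (φ.not).Realize v := by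
    obtain ⟨v, hv⟩ := hc
    exact ⟨v, by simpa using hv⟩
  rw [exists_realize_iff] at h1
  have h2 := ((elementarilyEquivalent_iff.1 h) _).1 h1
  have h3 := (exists_realize_iff (M := N) φ.not).2 h2
  obtain ⟨v, hv⟩ := h3
  exact (by simpa using hv : ¬ φ.Realize v) (hN v)

end Pool.Agent.Lib_helper6.TA
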