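import Pool.Agent.Lib_helper6.TA9

set_option autoImplicit false
open FirstOrder FirstOrder.Language Encodable

namespace Pool.Agent.Lib_helper6.TA

attribute [local instance] stdS

/-! ### names of definable sets -/

def U (ν μ : ℕ) : Prop := ∀ x, ∃ a, a < μ ∧ ∀ k, k < ν → (tb a k = true ↔ tb x k = true)

def AgS (S : Set ℕ) (ν a : ℕ) : Prop := ∀ k, k < ν → (tb a k = true ↔ k ∈ S)

open Classical in
theorem exists_U (ν : ℕ) : ∃ μ, 0 < μ ∧ U ν μ := by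
  have h : ∀ g : Fin ν → Bool, ∃ a, ∀ k : Fin ν, tb a k = g k := by
    intro g
    obtain ⟨w, hw⟩ := exists_tb (fun i => if h : i < ν then g ⟨i, h⟩ else false) ν
    refine ⟨w, fun k => ?_⟩
    rw [hw k k.2.le]
    simp
  choose f hf using h
  refine ⟨(Finset.univ.sup f) + 1, Nat.succ_pos _, fun x => ?_⟩
  refine ⟨f (fun k => tb x k), Nat.lt_succ_of_le (Finset.le_sup (Finset.mem_univ _)), ?_⟩
  intro k hk
  have := hf (fun k => tb x k) ⟨k, hk⟩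
  simp only at this
  rw [this]

open Classical in
theorem exists_AgS (S : Set ℕ) {ν μ : ℕ} (h : U ν μ) : ∃ a, a < μ ∧ AgS S ν a := by
  obtain ⟨w, hw⟩ := exists_tb (fun i => if i ∈ S then true else false) ν
  obtain ⟨a, ha, hk⟩ := h w
  refine ⟨a, ha, fun k hkν => ?_⟩
  rw [hk k hkν, hw k hkν.le]
  simp

theorem ar_U : Ar (fun v => U (v 0) (v 1)) := by
  have h : ArP (fun p : ℕ × ℕ => U p.1 p.2) := by
    refine ArP.all (P := fun (p : ℕ × ℕ) (x : ℕ) => ∃ a, a < p.2 ∧ ∀ k, k < p.1 →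
      (tb a k = true ↔ tb x k = true)) ?_
    refine ArP.ex (P := fun (p : (ℕ × ℕ) × ℕ) (a : ℕ) => a < p.1.2 ∧ ∀ k, k < p.1.1 →
      (tb a k = true ↔ tb p.2 k = true)) ?_
    refine ArP.and (ArP.lt_comp Primrec.snd.to_comp
      (Primrec.snd.comp (Primrec.fst.comp Primrec.fst)).to_comp) ?_
    refine ArP.all (P := fun (p : ((ℕ × ℕ) × ℕ) × ℕ) (k : ℕ) => k < p.1.1.1 →
      (tb p.2 k = true ↔ tb p.1.2 k = true)) ?_
    refine ArP.imp (ArP.lt_comp Primrec.snd.to_comp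
      (Primrec.fst.comp (Primrec.fst.comp (Primrec.fst.comp Primrec.fst))).to_comp) ?_
    refine ArP.iff ?_ ?_
    · exact ArP.of_computable (f := fun p : (((ℕ × ℕ) × ℕ) × ℕ) × ℕ => tb p.1.2 p.2)
        (prim_tb.comp (Primrec.pair (Primrec.snd.comp Primrec.fst) Primrec.snd)).to_comp
    · exact ArP.of_computable (f := fun p : (((ℕ × ℕ) × ℕ) × ℕ) × ℕ => tb p.1.1.2 p.2)
        (prim_tb.comp (Primrec.pair (Primrec.snd.comp (Primrec.fst.comp Primrec.fst))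
          Primrec.snd)).to_comp
  exact h.to2

theorem ar_AgS {S : Set ℕ} (hS : Ar (fun v => v 0 ∈ S)) : Ar (fun v => AgS S (v 0) (v 1)) := by
  have h0 : Ar (fun v => v 0 < v 1 → (tb (v 2) (v 0) = true ↔ v 0 ∈ S)) :=
    (Ar.lt 0 1).imp ((Ar.sub2 (R := fun a k => tb a k = true) ar_tb 2 0).iff hS)
  exact TrE.alls (M := ℕ) (P := fun k v => k < v 0 → (tb (v 1) k = true ↔ k ∈ S))
    (P' := fun k v => k < v 0 → (tb (v 1) k = true ↔ k ∈ S)) h0

theorem ar_of_definable {S : Set ℕ} (h : (∅ : Set ℕ).Definable LR {v : Fin 1 → ℕ | v 0 ∈ S}) :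
    Ar (fun v => v 0 ∈ S) := by
  rw [Set.empty_definable_iff] at h
  obtain ⟨φ, hφ⟩ := h
  have h1 : ∀ w : Fin 1 → ℕ, φ.Realize w ↔ w 0 ∈ S := by
    intro w
    have : w ∈ {v : Fin 1 → ℕ | v 0 ∈ S} ↔ φ.Realize w := by rw [hφ]; rfl
    exact this.symm
  refine ⟨φ.relabel (fun _ => 0), fun v => ?_, fun v => ?_⟩
  · rw [Formula.realize_relabel, h1]; rfl
  · rw [Formula.realize_relabel, h1]; rfl

/-! ### entries, on the standard side -/

theorem cd_Fr {ν μ u : ℕ} {c : List Bool} (h : R1 ν μ u) (hc : RC c u) :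
    ∃ l : Hist, cd l = u ∧ l.map Prod.snd = c ∧ Fr ν l := by
  obtain ⟨l, h1, _, h3⟩ := h
  obtain ⟨l2, h4, h5⟩ := hc
  have : l = l2 := cd_inj (h1.trans h4.symm)
  subst this
  exact ⟨l, h1, h5, h3⟩

/-- the choices `c` are contradictory at level `m` -/
def Bad (c : List Bool) (m : ℕ) : Prop :=
  ∃ (k : ℕ) (g : ℕ → Bool) (ε : Bool) (s : List Bool),
    (∀ n, n < m → ∃ s : List Bool, (g n :: s) <:+ c ∧ s.length = 2 * n + 1) ∧
    (ε :: s) <:+ c ∧ s.length = 2 * k ∧ bn ε ∈ val k ((List.range m).map g) ∧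
    ∀ m', m' < m → ∀ y, y ∉ val k ((List.range m').map g)

theorem s5 {c : List Bool} {m : ℕ} (hb : Bad c m) (ν μ u : ℕ) :
    ¬ (R1 ν μ u ∧ RC c u ∧ m ≤ ν) := by
  rintro ⟨h1, h2, h3⟩
  obtain ⟨l, _, rfl, hF⟩ := cd_Fr h1 h2
  obtain ⟨k, g, ε, s, ha, hb, hc, hd, he⟩ := hb
  exact no_bad hF h3 g ha hb hc hd he

theorem s6 {c s s' : List Bool} {k : ℕ} {b : Bool} (hs : (b :: s') <:+ c)
    (hl : s'.length = 2 * pos s k + 1) (ν μ u a : ℕ) :
    R1 ν μ u ∧ RC c u ∧ Ent s u a ∧ pos s k + 1 ≤ ν → tb a k = b := by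
  rintro ⟨h1, h2, ⟨l2, l', ε, h5, h6, h7⟩, h4⟩
  obtain ⟨l, h8, rfl, hF⟩ := cd_Fr h1 h2
  have : l = l2 := cd_inj (h8.trans h5.symm)
  subst this
  subst h7
  exact col_eq hF h6 h4 hs hl

theorem s6t {c s s' : List Bool} {k : ℕ} (hs : (true :: s') <:+ c)
    (hl : s'.length = 2 * pos s k + 1) (ν μ u a : ℕ) :
    R1 ν μ u ∧ RC c u ∧ Ent s u a ∧ pos s k + 1 ≤ ν → tb a k = true := s6 hs hl ν μ u a

theorem s6f {c s s' : List Bool} {k : ℕ} (hs : (false :: s') <:+ c)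
    (hl : s'.length = 2 * pos s k + 1) (ν μ u a : ℕ) :
    R1 ν μ u ∧ RC c u ∧ Ent s u a ∧ pos s k + 1 ≤ ν → ¬ tb a k = true := by
  intro h
  rw [s6 hs hl ν μ u a h]
  simp

end Pool.Agent.Lib_helper6.TA
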