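import Pool.Agent.Lib_helper6.TA10

set_option autoImplicit false
open FirstOrder FirstOrder.Language Encodable

namespace Pool.Agent.Lib_helper6.TA

attribute [local instance] stdS

section
variable {M : Type} [A : LR.Structure M] {p q : M → M → M}

/-- the index of `(u, a)` in `M` -/
def ix (p q : M → M → M) (u a : M) : M := p (q (p u a) (p u a)) u

/-- the modulus belonging to `x` -/
def md (p q : M → M → M) (o w x : M) : M := p (q (p x o) w) o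

/-- the next code -/
def nx (p q : M → M → M) (o u a : M) (ε : Bool) : M :=
  if ε = true then p (p (p (ix p q u a) (ix p q u a)) o) o else p (p (ix p q u a) (ix p q u a)) o

theorem Tm.ix (hA : IsGr A p q) {s t : (ℕ → ℕ) → ℕ} {s' t' : (ℕ → M) → M} (hs : Tm s s')
    (ht : Tm t t') : Tm (fun v => idx (s v) (t v)) (fun v => ix p q (s' v) (t' v)) :=
  Tm.add hA (Tm.mul hA (Tm.add hA hs ht) (Tm.add hA hs ht)) hs

theorem tr_lt (hA : IsGr A p q) {oM : M}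
    (t1 : ∀ i, TrE (fun v => v i = 1) (fun v : ℕ → M => v i = oM)) :
    TrE (fun v => v 0 < v 1) (fun v : ℕ → M => ∃ y, p (p (v 0) y) oM = v 1) := by
  have h : TrE (fun v => v 1 + v 0 + 1 = v 2) (fun v : ℕ → M => p (p (v 1) (v 0)) oM = v 2) :=
    TrE.eqt (((Tm.var 1).add hA (Tm.var 0)).add hA (Tm.const t1)) (Tm.var 2)
  refine (TrE.exs (P := fun y v => v 0 + y + 1 = v 1)
    (P' := fun y v => p (p (v 0) y) oM = v 1) h).congr (fun v => ?_) (fun v => Iff.rfl)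
  constructor
  · rintro ⟨x, hx⟩; omega
  · intro h; exact ⟨v 1 - v 0 - 1, by omega⟩

theorem tr_Z0 (hA : IsGr A p q) {oM : M}
    (t1 : ∀ i, TrE (fun v => v i = 1) (fun v : ℕ → M => v i = oM)) :
    TrE (fun v => Z0 (v 0) (v 1) (v 2))
      (fun v : ℕ → M => ∃ h, v 0 = q h (md p q oM (v 1) (v 2))) := by
  have h : TrE (fun v => v 1 = v 0 * ((v 3 + 1) * v 2 + 1))
      (fun v : ℕ → M => v 1 = q (v 0) (p (q (p (v 3) oM) (v 2)) oM)) :=
    TrE.eqt (Tm.var 1) ((Tm.var 0).mul hA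
      (((((Tm.var 3).add hA (Tm.const t1)).mul hA (Tm.var 2))).add hA (Tm.const t1)))
  exact TrE.exs (P := fun y v => v 0 = y * ((v 2 + 1) * v 1 + 1))
    (P' := fun y v => v 0 = q y (p (q (p (v 2) oM) (v 1)) oM)) h

theorem tr_Z1 (hA : IsGr A p q) {oM : M}
    (t1 : ∀ i, TrE (fun v => v i = 1) (fun v : ℕ → M => v i = oM)) :
    TrE (fun v => Z1 (v 0) (v 1) (v 2))
      (fun v : ℕ → M => ∃ h, v 0 = p (q h (md p q oM (v 1) (v 2))) oM) := by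
  have h : TrE (fun v => v 1 = v 0 * ((v 3 + 1) * v 2 + 1) + 1)
      (fun v : ℕ → M => v 1 = p (q (v 0) (p (q (p (v 3) oM) (v 2)) oM)) oM) :=
    TrE.eqt (Tm.var 1) (((Tm.var 0).mul hA
      (((((Tm.var 3).add hA (Tm.const t1)).mul hA (Tm.var 2))).add hA (Tm.const t1))).add hA
        (Tm.const t1))
  exact TrE.exs (P := fun y v => v 0 = y * ((v 2 + 1) * v 1 + 1) + 1)
    (P' := fun y v => v 0 = p (q y (p (q (p (v 2) oM) (v 1)) oM)) oM) h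

/-- the table in `M` -/
theorem M_tab (hA : IsGr A p q) (hM : LR.ElementarilyEquivalent M ℕ) [Nonempty M] {oM : M}
    (t1 : ∀ i, TrE (fun v => v i = 1) (fun v : ℕ → M => v i = oM))
    {R' : M → M → M → Prop}
    (hR : TrE (fun v => R1 (v 0) (v 1) (v 2)) (fun v => R' (v 0) (v 1) (v 2)))
    {L' : M → M → Prop} (hL : TrE (fun v => Lt (v 0) (v 1)) (fun v => L' (v 0) (v 1)))
    (ν μ : M) :
    ∃ w₁ w₂ : M, ∀ u a : M, R' ν μ u → L' u ν → (∃ y, p (p a y) oM = μ) →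
      ((∃ h, w₁ = q h (md p q oM w₂ (ix p q u a))) ∧
        ¬ (∃ h, w₁ = p (q h (md p q oM w₂ (ix p q u a))) oM) ∧
        R' ν μ (nx p q oM u a false)) ∨
      (¬ (∃ h, w₁ = q h (md p q oM w₂ (ix p q u a))) ∧
        (∃ h, w₁ = p (q h (md p q oM w₂ (ix p q u a))) oM) ∧
        R' ν μ (nx p q oM u a true)) := by
  -- environment: 0 = a, 1 = u, 2 = w₂, 3 = w₁, 4 = μ, 5 = ν
  have hix : Tm (fun v => idx (v 1) (v 0)) (fun v : ℕ → M => ix p q (v 1) (v 0)) :=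
    Tm.ix hA (Tm.var 1) (Tm.var 0)
  have hn0 : Tm (fun v => idx (v 1) (v 0) + idx (v 1) (v 0) + 1)
      (fun v : ℕ → M => nx p q oM (v 1) (v 0) false) :=
    (hix.add hA hix).add hA (Tm.const t1)
  have hn1 : Tm (fun v => idx (v 1) (v 0) + idx (v 1) (v 0) + 1 + 1)
      (fun v : ℕ → M => nx p q oM (v 1) (v 0) true) :=
    ((hix.add hA hix).add hA (Tm.const t1)).add hA (Tm.const t1)
  have z0 := TrE.rel3 (R := Z0) (R' := fun w₁ w₂ x => ∃ h, w₁ = q h (md p q oM w₂ x))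
    (tr_Z0 hA t1) (Tm.var 3) (Tm.var 2) hix
  have z1 := TrE.rel3 (R := Z1) (R' := fun w₁ w₂ x => ∃ h, w₁ = p (q h (md p q oM w₂ x)) oM)
    (tr_Z1 hA t1) (Tm.var 3) (Tm.var 2) hix
  have r0 := TrE.rel3 (R := R1) (R' := R') hR (Tm.var 5) (Tm.var 4) hn0
  have r1 := TrE.rel3 (R := R1) (R' := R') hR (Tm.var 5) (Tm.var 4) hn1
  have r := TrE.rel3 (R := R1) (R' := R') hR (Tm.var 5) (Tm.var 4) (Tm.var 1)
  have l := TrE.rel2 (R := Lt) (R' := L') hL (Tm.var 1) (Tm.var 5)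
  have lt := TrE.rel2 (R := fun x y => x < y) (R' := fun x y => ∃ z, p (p x z) oM = y)
    (tr_lt hA t1) (Tm.var 0) (Tm.var 4)
  have body := r.imp (l.imp (lt.imp ((z0.and (z1.not.and r0)).or (z0.not.and (z1.and r1)))))
  have b1 := TrE.alls (P := fun a v => R1 (v 4) (v 3) (v 0) → Lt (v 0) (v 4) → a < v 3 →
      (Z0 (v 2) (v 1) (idx (v 0) a) ∧ ¬ Z1 (v 2) (v 1) (idx (v 0) a) ∧
        R1 (v 4) (v 3) (idx (v 0) a + idx (v 0) a + 1)) ∨
      (¬ Z0 (v 2) (v 1) (idx (v 0) a) ∧ Z1 (v 2) (v 1) (idx (v 0) a) ∧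
        R1 (v 4) (v 3) (idx (v 0) a + idx (v 0) a + 1 + 1)))
    (P' := fun a v => R' (v 4) (v 3) (v 0) → L' (v 0) (v 4) → (∃ y, p (p a y) oM = v 3) →
      ((∃ h, v 2 = q h (md p q oM (v 1) (ix p q (v 0) a))) ∧
        ¬ (∃ h, v 2 = p (q h (md p q oM (v 1) (ix p q (v 0) a))) oM) ∧
        R' (v 4) (v 3) (nx p q oM (v 0) a false)) ∨
      (¬ (∃ h, v 2 = q h (md p q oM (v 1) (ix p q (v 0) a))) ∧
        (∃ h, v 2 = p (q h (md p q oM (v 1) (ix p q (v 0) a))) oM) ∧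
        R' (v 4) (v 3) (nx p q oM (v 0) a true))) body
  have b2 := TrE.alls (P := fun u v => ∀ a, R1 (v 3) (v 2) u → Lt u (v 3) → a < v 2 →
      (Z0 (v 1) (v 0) (idx u a) ∧ ¬ Z1 (v 1) (v 0) (idx u a) ∧
        R1 (v 3) (v 2) (idx u a + idx u a + 1)) ∨
      (¬ Z0 (v 1) (v 0) (idx u a) ∧ Z1 (v 1) (v 0) (idx u a) ∧
        R1 (v 3) (v 2) (idx u a + idx u a + 1 + 1)))
    (P' := fun u v => ∀ a, R' (v 3) (v 2) u → L' u (v 3) → (∃ y, p (p a y) oM = v 2) →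
      ((∃ h, v 1 = q h (md p q oM (v 0) (ix p q u a))) ∧
        ¬ (∃ h, v 1 = p (q h (md p q oM (v 0) (ix p q u a))) oM) ∧
        R' (v 3) (v 2) (nx p q oM u a false)) ∨
      (¬ (∃ h, v 1 = q h (md p q oM (v 0) (ix p q u a))) ∧
        (∃ h, v 1 = p (q h (md p q oM (v 0) (ix p q u a))) oM) ∧
        R' (v 3) (v 2) (nx p q oM u a true))) b1
  have b3 := TrE.exs (P := fun w₂ v => ∀ u a, R1 (v 2) (v 1) u → Lt u (v 2) → a < v 1 →
      (Z0 (v 0) w₂ (idx u a) ∧ ¬ Z1 (v 0) w₂ (idx u a) ∧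
        R1 (v 2) (v 1) (idx u a + idx u a + 1)) ∨
      (¬ Z0 (v 0) w₂ (idx u a) ∧ Z1 (v 0) w₂ (idx u a) ∧
        R1 (v 2) (v 1) (idx u a + idx u a + 1 + 1)))
    (P' := fun w₂ v => ∀ u a, R' (v 2) (v 1) u → L' u (v 2) → (∃ y, p (p a y) oM = v 1) →
      ((∃ h, v 0 = q h (md p q oM w₂ (ix p q u a))) ∧
        ¬ (∃ h, v 0 = p (q h (md p q oM w₂ (ix p q u a))) oM) ∧
        R' (v 2) (v 1) (nx p q oM u a false)) ∨
      (¬ (∃ h, v 0 = q h (md p q oM w₂ (ix p q u a))) ∧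
        (∃ h, v 0 = p (q h (md p q oM w₂ (ix p q u a))) oM) ∧
        R' (v 2) (v 1) (nx p q oM u a true))) b2
  have b4 := TrE.exs (P := fun w₁ v => ∃ w₂, ∀ u a, R1 (v 1) (v 0) u → Lt u (v 1) → a < v 0 →
      (Z0 w₁ w₂ (idx u a) ∧ ¬ Z1 w₁ w₂ (idx u a) ∧
        R1 (v 1) (v 0) (idx u a + idx u a + 1)) ∨
      (¬ Z0 w₁ w₂ (idx u a) ∧ Z1 w₁ w₂ (idx u a) ∧
        R1 (v 1) (v 0) (idx u a + idx u a + 1 + 1)))
    (P' := fun w₁ v => ∃ w₂, ∀ u a, R' (v 1) (v 0) u → L' u (v 1) → (∃ y, p (p a y) oM = v 0) →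
      ((∃ h, w₁ = q h (md p q oM w₂ (ix p q u a))) ∧
        ¬ (∃ h, w₁ = p (q h (md p q oM w₂ (ix p q u a))) oM) ∧
        R' (v 1) (v 0) (nx p q oM u a false)) ∨
      (¬ (∃ h, w₁ = q h (md p q oM w₂ (ix p q u a))) ∧
        (∃ h, w₁ = p (q h (md p q oM w₂ (ix p q u a))) oM) ∧
        R' (v 1) (v 0) (nx p q oM u a true))) b3
  exact TrE.use hM b4 (fun v => exists_tab (v 1) (v 0)) (fun n => if n = 0 then μ else ν)

end

end Pool.Agent.Lib_helper6.TA
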