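import Pool.Agent.Lib_helper6.TA11

set_option autoImplicit false
open FirstOrder FirstOrder.Language Encodable

namespace Pool.Agent.Lib_helper6.TA

attribute [local instance] stdS

section
variable {M : Type} [A : LR.Structure M] {p q : M → M → M}

theorem M_facts (hA : IsGr A p q) (hM : LR.ElementarilyEquivalent M ℕ) [Nonempty M]
    (hE : IsEmpty (LR.Equiv M ℕ)) :
    ∃ (zM oM μ w₁ w₂ : M) (I : List Bool → M → Prop) (J : List Bool → M → M → Prop)
      (TB : ℕ → M → Prop),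
      I [] zM ∧ (∃ y, p (p zM y) oM = μ) ∧
      (∀ c u a, I c u → (∃ y, p (p a y) oM = μ) → ∃ ε : Bool,
        ((∃ h, w₁ = q h (md p q oM w₂ (ix p q u a))) ↔ ε = false) ∧
        ((∃ h, w₁ = p (q h (md p q oM w₂ (ix p q u a))) oM) ↔ ε = true) ∧
        I (ε :: c) (nx p q oM u a ε) ∧ J (ε :: c) (nx p q oM u a ε) a ∧
        ∀ s b, J s u b → J s (nx p q oM u a ε) b) ∧
      (∀ c u, I c u → ∀ m, ¬ Bad c m) ∧
      (∀ c u s a, I c u → J s u a → ∀ k b s', (b :: s') <:+ c → s'.length = 2 * pos s k + 1 →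
        (TB k a ↔ b = true)) ∧
      (∀ S : Set ℕ, (∅ : Set ℕ).Definable LR {v : Fin 1 → ℕ | v 0 ∈ S} →
        ∃ a, (∃ y, p (p a y) oM = μ) ∧ ∀ k, TB k a ↔ k ∈ S) := by
  obtain ⟨zM, oM, t0, t1⟩ := exists_zero_one hA hM
  have tge := TrE.ge hA t0 t1
  obtain ⟨ν, hν⟩ := exists_nonstd hA hM t0 t1 hE
  obtain ⟨R', hR⟩ := ar_R1.star3 (R := R1) M
  obtain ⟨L', hL⟩ := ar_Lt.star2 (R := Lt) M
  obtain ⟨U', hU⟩ := ar_U.star2 (R := U) M
  choose RC' hRC using fun c => (ar_RC c).star1 (R := RC c) M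
  choose E' hE' using fun s => (ar_Ent s).star2 (R := Ent s) M
  choose TB hTB using fun k => (ar_tbk k).star1 (R := fun x => tb x k = true) M
  have tlt := tr_lt hA t1
  -- the parameter μ
  obtain ⟨μ, hμ0, hμU⟩ : ∃ μ, (∃ y, p (p zM y) oM = μ) ∧ U' ν μ := by
    have h1 : TrE (fun v => 0 < v 0 ∧ U (v 1) (v 0))
        (fun v : ℕ → M => (∃ y, p (p zM y) oM = v 0) ∧ U' (v 1) (v 0)) :=
      (TrE.rel2 (R := fun x y => x < y) (R' := fun x y => ∃ z, p (p x z) oM = y) tlt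
        (Tm.const t0) (Tm.var 0)).and (TrE.rel2 (R := U) (R' := U') hU (Tm.var 1) (Tm.var 0))
    have h2 := TrE.exs (P := fun μ v => 0 < μ ∧ U (v 0) μ)
      (P' := fun μ v => (∃ y, p (p zM y) oM = μ) ∧ U' (v 0) μ) h1
    exact TrE.use hM h2 (fun v => exists_U (v 0)) (fun _ => ν)
  obtain ⟨w₁, w₂, hW⟩ := M_tab hA hM t1 hR hL ν μ
  refine ⟨zM, oM, μ, w₁, w₂, fun c u => R' ν μ u ∧ RC' c u, E', TB, ⟨?_, ?_⟩, hμ0, ?_, ?_, ?_, ?_⟩
  · -- R' ν μ zM
    have h1 : TrE (fun v => R1 (v 0) (v 1) 0) (fun v : ℕ → M => R' (v 0) (v 1) zM) :=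
      TrE.rel3 (R := R1) (R' := R') hR (Tm.var 0) (Tm.var 1) (Tm.const t0)
    exact TrE.use hM h1 (fun v => R1_nil (v 0) (v 1)) (fun n => if n = 0 then ν else μ)
  · have h1 : TrE (fun _ => RC [] 0) (fun _ : ℕ → M => RC' [] zM) :=
      TrE.rel1 (R := RC []) (R' := RC' []) (hRC []) (Tm.const t0)
    exact TrE.use hM h1 (fun v => RC_nil) (fun _ => ν)
  · -- the step
    rintro c u a ⟨hu1, hu2⟩ ha
    -- the length is small
    have hLu : L' u ν := by
      have h1 : TrE (fun v => RC c (v 0) ∧ c.length + 1 ≤ v 1 → Lt (v 0) (v 1))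
          (fun v : ℕ → M => RC' c (v 0) ∧ (∀ n < c.length + 1, v 1 ≠ nm p zM oM n) →
            L' (v 0) (v 1)) := ((hRC c).and (tge (c.length + 1) 1)).imp hL
      exact TrE.use hM h1 (fun v h => Lt_of_RC h.1 h.2) (fun n => if n = 0 then u else ν)
        ⟨hu2, fun n _ => hν n⟩
    have hix : Tm (fun v => idx (v 1) (v 0)) (fun v : ℕ → M => ix p q (v 1) (v 0)) :=
      Tm.ix hA (Tm.var 1) (Tm.var 0)
    have hnx : ∀ ε : Bool, Tm (fun v => idx (v 1) (v 0) + idx (v 1) (v 0) + bn ε + 1)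
        (fun v : ℕ → M => nx p q oM (v 1) (v 0) ε) := by
      intro ε
      cases ε with
      | false => exact (hix.add hA hix).add hA (Tm.const t1)
      | true => exact ((hix.add hA hix).add hA (Tm.const t1)).add hA (Tm.const t1)
    have hRC2 : ∀ ε, RC' (ε :: c) (nx p q oM u a ε) := by
      intro ε
      have h1 : TrE (fun v => RC c (v 1) → RC (ε :: c) (idx (v 1) (v 0) + idx (v 1) (v 0) +
          bn ε + 1)) (fun v : ℕ → M => RC' c (v 1) → RC' (ε :: c) (nx p q oM (v 1) (v 0) ε)) :=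
        ((hRC c).sub1 (R := RC c) (R' := RC' c) 1).imp
          (TrE.rel1 (R := RC (ε :: c)) (R' := RC' (ε :: c)) (hRC (ε :: c)) (hnx ε))
      exact TrE.use hM h1 (fun v h => RC_cons h (v 0) ε) (fun n => if n = 0 then a else u) hu2
    have hE2 : ∀ ε, E' (ε :: c) (nx p q oM u a ε) a := by
      intro ε
      have h1 : TrE (fun v => RC c (v 1) → Ent (ε :: c) (idx (v 1) (v 0) + idx (v 1) (v 0) +
          bn ε + 1) (v 0))
          (fun v : ℕ → M => RC' c (v 1) → E' (ε :: c) (nx p q oM (v 1) (v 0) ε) (v 0)) :=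
        ((hRC c).sub1 (R := RC c) (R' := RC' c) 1).imp
          (TrE.rel2 (R := Ent (ε :: c)) (R' := E' (ε :: c)) (hE' (ε :: c)) (hnx ε) (Tm.var 0))
      exact TrE.use hM h1 (fun v h => Ent_new h (v 0) ε) (fun n => if n = 0 then a else u) hu2
    have hE3 : ∀ ε s b, E' s u b → E' s (nx p q oM u a ε) b := by
      intro ε s b hb
      have h1 : TrE (fun v => Ent s (v 1) (v 2) → Ent s (idx (v 1) (v 0) + idx (v 1) (v 0) +
          bn ε + 1) (v 2))
          (fun v : ℕ → M => E' s (v 1) (v 2) → E' s (nx p q oM (v 1) (v 0) ε) (v 2)) :=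
        ((hE' s).sub2 (R := Ent s) (R' := E' s) 1 2).imp
          (TrE.rel2 (R := Ent s) (R' := E' s) (hE' s) (hnx ε) (Tm.var 2))
      exact TrE.use hM h1 (fun v h => Ent_old h (v 0) ε)
        (fun n => if n = 0 then a else if n = 1 then u else b) hb
    rcases hW u a hu1 hLu ha with ⟨h1, h2, h3⟩ | ⟨h1, h2, h3⟩
    · exact ⟨false, by simp [h1], by simp [h2], ⟨h3, hRC2 false⟩, hE2 false, hE3 false⟩
    · exact ⟨true, by simp [h1], by simp [h2], ⟨h3, hRC2 true⟩, hE2 true, hE3 true⟩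
  · -- no contradiction
    rintro c u ⟨hu1, hu2⟩ m hb
    have h1 : TrE (fun v => ¬ (R1 (v 0) (v 1) (v 2) ∧ RC c (v 2) ∧ m ≤ v 0))
        (fun v : ℕ → M => ¬ (R' (v 0) (v 1) (v 2) ∧ RC' c (v 2) ∧
          (∀ n < m, v 0 ≠ nm p zM oM n))) :=
      (hR.and (((hRC c).sub1 (R := RC c) (R' := RC' c) 2).and (tge m 0))).not
    exact TrE.use hM h1 (fun v => s5 hb (v 0) (v 1) (v 2))
      (fun n => if n = 0 then ν else if n = 1 then μ else u) ⟨hu1, hu2, fun n _ => hν n⟩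
  · -- columns
    rintro c u s a ⟨hu1, hu2⟩ hJ k b s' hs hl
    have h0 : TrE (fun v => R1 (v 0) (v 1) (v 2) ∧ RC c (v 2) ∧ Ent s (v 2) (v 3) ∧
          pos s k + 1 ≤ v 0)
        (fun v : ℕ → M => R' (v 0) (v 1) (v 2) ∧ RC' c (v 2) ∧ E' s (v 2) (v 3) ∧
          (∀ n < pos s k + 1, v 0 ≠ nm p zM oM n)) :=
      hR.and (((hRC c).sub1 (R := RC c) (R' := RC' c) 2).and
        (((hE' s).sub2 (R := Ent s) (R' := E' s) 2 3).and (tge (pos s k + 1) 0)))
    have htb := (hTB k).sub1 (R := fun x => tb x k = true) (R' := TB k) 3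
    cases b with
    | true =>
      have h2 := TrE.use hM (h0.imp htb) (fun v => s6t hs hl (v 0) (v 1) (v 2) (v 3))
        (fun n => if n = 0 then ν else if n = 1 then μ else if n = 2 then u else a)
        ⟨hu1, hu2, hJ, fun n _ => hν n⟩
      exact ⟨fun _ => rfl, fun _ => h2⟩
    | false =>
      have h2 := TrE.use hM (h0.imp htb.not) (fun v => s6f hs hl (v 0) (v 1) (v 2) (v 3))
        (fun n => if n = 0 then ν else if n = 1 then μ else if n = 2 then u else a)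
        ⟨hu1, hu2, hJ, fun n _ => hν n⟩
      exact ⟨fun h => absurd h h2, fun h => absurd h (by simp)⟩
  · -- names
    intro S hS
    obtain ⟨G, hG⟩ := (ar_AgS (ar_of_definable hS)).star2 (R := AgS S) M
    have h1 : TrE (fun v => v 0 < v 1 ∧ AgS S (v 2) (v 0))
        (fun v : ℕ → M => (∃ y, p (p (v 0) y) oM = v 1) ∧ G (v 2) (v 0)) :=
      tlt.and (hG.sub2 (R := AgS S) (R' := G) 2 0)
    have h2 := TrE.exs (P := fun a v => a < v 0 ∧ AgS S (v 1) a)
      (P' := fun a v => (∃ y, p (p a y) oM = v 0) ∧ G (v 1) a) h1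
    have h3 := TrE.imp (hU.sub2 (R := U) (R' := U') 1 0) h2
    obtain ⟨a, ha, hGa⟩ := TrE.use hM h3 (fun v h => exists_AgS S h)
      (fun n => if n = 0 then μ else ν) hμU
    refine ⟨a, ha, fun k => ?_⟩
    have h4 : TrE (fun v => AgS S (v 0) (v 1) ∧ k + 1 ≤ v 0)
        (fun v : ℕ → M => G (v 0) (v 1) ∧ (∀ n < k + 1, v 0 ≠ nm p zM oM n)) :=
      hG.and (tge (k + 1) 0)
    have htb := (hTB k).sub1 (R := fun x => tb x k = true) (R' := TB k) 1
    by_cases hk : k ∈ S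
    · have h5 := TrE.use hM (h4.imp htb) (fun v h => (h.1 k h.2).2 hk)
        (fun n => if n = 0 then ν else a) ⟨hGa, fun n _ => hν n⟩
      exact ⟨fun _ => hk, fun _ => h5⟩
    · have h5 := TrE.use hM (h4.imp htb.not) (fun v h hh => hk ((h.1 k h.2).1 hh))
        (fun n => if n = 0 then ν else a) ⟨hGa, fun n _ => hν n⟩
      exact ⟨fun h => absurd h h5, fun h => absurd h hk⟩

end

end Pool.Agent.Lib_helper6.TA
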