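import Mathlib

/-! Use principle for oracle computations (`Nat.RecursiveIn {PFun.lift C}`). -/

namespace Helper29Use

open Encodable

/-- `φ` is a monotone partial recursive functional that computes `f` from the finite prefixes of `C`. -/
def Good (C : ℕ → ℕ) (f : ℕ →. ℕ) (φ : List ℕ → ℕ →. ℕ) : Prop :=
  Partrec₂ φ ∧ (∀ s t x y, s <+: t → y ∈ φ s x → y ∈ φ t x) ∧
    ∀ x y, y ∈ f x ↔ ∃ m, y ∈ φ ((List.range m).map C) x

theorem prefix_map (C : ℕ → ℕ) {m n : ℕ} (h : m ≤ n) :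
    (List.range m).map C <+: (List.range n).map C := by
  obtain ⟨k, rfl⟩ := Nat.exists_eq_add_of_le h
  rw [List.range_add, List.map_append]
  exact List.prefix_append _ _

theorem good_of_partrec {C : ℕ → ℕ} {f : ℕ →. ℕ} (hf : Nat.Partrec f) :
    Good C f (fun _ x => f x) := by
  refine ⟨?_, fun _ _ _ _ _ h => h, fun x y => ⟨fun h => ⟨0, h⟩, fun ⟨_, h⟩ => h⟩⟩
  exact (Partrec.nat_iff.2 hf).comp Computable.snd

theorem good_oracle (C : ℕ → ℕ) :
    Good C (PFun.lift C) (fun s x => (s[x]? : Option ℕ)) := by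
  refine ⟨?_, ?_, ?_⟩
  · exact Computable.ofOption (Computable.list_getElem?)
  · rintro s t x y ⟨u, rfl⟩ h
    simp only [Part.mem_ofOption, Option.mem_def] at h ⊢
    have hx : x < s.length := by
      by_contra hx
      rw [List.getElem?_eq_none (by omega)] at h
      cases h
    rw [List.getElem?_append_left hx]
    exact h
  · intro x y
    simp only [Part.mem_ofOption, Option.mem_def, PFun.lift, Part.mem_some_iff]
    constructor
    · rintro rfl
      exact ⟨x + 1, by simp⟩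
    · rintro ⟨m, hm⟩
      rw [List.getElem?_map] at hm
      rcases Nat.lt_or_ge x m with h | h
      · rw [List.getElem?_range h] at hm
        simpa using hm.symm
      · rw [List.getElem?_eq_none (by simpa using h)] at hm
        simp at hm

theorem good_pair {C : ℕ → ℕ} {f h : ℕ →. ℕ} {φ ψ : List ℕ → ℕ →. ℕ} (hf : Good C f φ)
    (hh : Good C h ψ) :
    Good C (fun n => (Nat.pair <$> f n <*> h n))
      (fun s n => (φ s n).bind fun a => (ψ s n).map fun b => Nat.pair a b) := by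
  obtain ⟨f1, f2, f3⟩ := hf
  obtain ⟨h1, h2, h3⟩ := hh
  refine ⟨?_, ?_, ?_⟩
  · refine Partrec.bind f1 ?_
    refine Partrec.map (h1.comp (Computable.fst.comp Computable.fst)
      (Computable.snd.comp Computable.fst)) ?_
    exact (Primrec₂.natPair.to_comp).comp (Computable.snd.comp Computable.fst) Computable.snd
  · intro s t x y hst hy
    simp only [Part.mem_bind_iff, Part.mem_map_iff] at hy ⊢
    obtain ⟨a, ha, b, hb, rfl⟩ := hy
    exact ⟨a, f2 _ _ _ _ hst ha, b, h2 _ _ _ _ hst hb, rfl⟩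
  · intro x y
    have e1 : y ∈ (Nat.pair <$> f x <*> h x) ↔ ∃ a ∈ f x, ∃ b ∈ h x, Nat.pair a b = y := by
      simp [Seq.seq]
    rw [e1]
    simp only [Part.mem_bind_iff, Part.mem_map_iff]
    constructor
    · rintro ⟨a, ha, b, hb, rfl⟩
      obtain ⟨m, hm⟩ := (f3 _ _).1 ha
      obtain ⟨n, hn⟩ := (h3 _ _).1 hb
      exact ⟨max m n, a, f2 _ _ _ _ (prefix_map C (le_max_left _ _)) hm, b,
        h2 _ _ _ _ (prefix_map C (le_max_right _ _)) hn, rfl⟩
    · rintro ⟨m, a, ha, b, hb, rfl⟩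
      exact ⟨a, (f3 _ _).2 ⟨m, ha⟩, b, (h3 _ _).2 ⟨m, hb⟩, rfl⟩

theorem good_comp {C : ℕ → ℕ} {f h : ℕ →. ℕ} {φ ψ : List ℕ → ℕ →. ℕ} (hf : Good C f φ)
    (hh : Good C h ψ) :
    Good C (fun n => h n >>= f) (fun s n => (ψ s n).bind fun a => φ s a) := by
  obtain ⟨f1, f2, f3⟩ := hf
  obtain ⟨h1, h2, h3⟩ := hh
  refine ⟨?_, ?_, ?_⟩
  · refine Partrec.bind h1 ?_
    exact f1.comp (Computable.fst.comp Computable.fst) Computable.snd
  · intro s t x y hst hy
    simp only [Part.mem_bind_iff] at hy ⊢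
    obtain ⟨a, ha, hb⟩ := hy
    exact ⟨a, h2 _ _ _ _ hst ha, f2 _ _ _ _ hst hb⟩
  · intro x y
    have e1 : y ∈ (h x >>= f) ↔ ∃ a ∈ h x, y ∈ f a := Part.mem_bind_iff
    refine e1.trans ?_
    simp only [Part.mem_bind_iff]
    constructor
    · rintro ⟨a, ha, hb⟩
      obtain ⟨m, hm⟩ := (h3 _ _).1 ha
      obtain ⟨n, hn⟩ := (f3 _ _).1 hb
      exact ⟨max m n, a, h2 _ _ _ _ (prefix_map C (le_max_left _ _)) hm,
        f2 _ _ _ _ (prefix_map C (le_max_right _ _)) hn⟩
    · rintro ⟨m, a, ha, hb⟩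
      exact ⟨a, (h3 _ _).2 ⟨m, ha⟩, (f3 _ _).2 ⟨m, hb⟩⟩

theorem good_prec {C : ℕ → ℕ} {f h : ℕ →. ℕ} {φ ψ : List ℕ → ℕ →. ℕ} (hf : Good C f φ)
    (hh : Good C h ψ) :
    Good C (fun p =>
        let (a, n) := Nat.unpair p
        n.rec (f a) fun y IH => do
          let i ← IH
          h (Nat.pair a (Nat.pair y i)))
      (fun s p => p.unpair.2.rec (φ s p.unpair.1) fun y IH =>
        IH.bind fun i => ψ s (Nat.pair p.unpair.1 (Nat.pair y i))) := by
  obtain ⟨f1, f2, f3⟩ := hf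
  obtain ⟨h1, h2, h3⟩ := hh
  refine ⟨?_, ?_, ?_⟩
  · have hu : Computable (fun p : List ℕ × ℕ => p.2.unpair) :=
      (Primrec.unpair.comp Primrec.snd).to_comp
    have := Partrec.nat_rec (f := fun p : List ℕ × ℕ => p.2.unpair.2)
      (g := fun p : List ℕ × ℕ => φ p.1 p.2.unpair.1)
      (h := fun (p : List ℕ × ℕ) (q : ℕ × ℕ) =>
        ψ p.1 (Nat.pair p.2.unpair.1 (Nat.pair q.1 q.2)))
      (Computable.snd.comp hu) (f1.comp Computable.fst (Computable.fst.comp hu))
      (by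
        refine h1.comp (Computable.fst.comp Computable.fst) ?_
        refine (Primrec₂.natPair.to_comp).comp
          (Computable.fst.comp (hu.comp Computable.fst)) ?_
        exact (Primrec₂.natPair.to_comp).comp
          (Computable.fst.comp Computable.snd) (Computable.snd.comp Computable.snd))
    exact this
  · intro s t x y hst
    dsimp only
    generalize x.unpair.2 = n
    generalize x.unpair.1 = a
    induction n generalizing y with
    | zero => exact fun hy => f2 _ _ _ _ hst hy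
    | succ n ih =>
      intro hy
      simp only [Part.mem_bind_iff] at hy ⊢
      obtain ⟨b, hb, hc⟩ := hy
      exact ⟨b, ih _ hb, h2 _ _ _ _ hst hc⟩
  · have mono : ∀ (a n y : ℕ) (s t : List ℕ), s <+: t →
        y ∈ (n.rec (φ s a) fun y IH =>
          IH.bind fun i => ψ s (Nat.pair a (Nat.pair y i)) : Part ℕ) →
        y ∈ (n.rec (φ t a) fun y IH =>
          IH.bind fun i => ψ t (Nat.pair a (Nat.pair y i)) : Part ℕ) := by
      intro a n
      induction n with
      | zero => exact fun y s t hst hy => f2 _ _ _ _ hst hy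
      | succ n ih =>
        intro y s t hst hy
        simp only [Part.mem_bind_iff] at hy ⊢
        obtain ⟨b, hb, hc⟩ := hy
        exact ⟨b, ih _ _ _ hst hb, h2 _ _ _ _ hst hc⟩
    intro x y
    dsimp only
    generalize x.unpair.2 = n
    generalize x.unpair.1 = a
    induction n generalizing y with
    | zero => exact f3 _ _
    | succ n ih =>
      simp only [Part.bind_eq_bind, Part.mem_bind_iff]
      constructor
      · rintro ⟨b, hb, hc⟩
        obtain ⟨m, hm⟩ := (ih _).1 hb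
        obtain ⟨k, hk⟩ := (h3 _ _).1 hc
        exact ⟨max m k, b, mono _ _ _ _ _ (prefix_map C (le_max_left _ _)) hm,
          h2 _ _ _ _ (prefix_map C (le_max_right _ _)) hk⟩
      · rintro ⟨m, b, hb, hc⟩
        exact ⟨b, (ih _).2 ⟨m, hb⟩, (h3 _ _).2 ⟨m, hc⟩⟩

theorem good_rfind {C : ℕ → ℕ} {f : ℕ →. ℕ} {φ : List ℕ → ℕ →. ℕ} (hf : Good C f φ) :
    Good C (fun a => Nat.rfind fun n => (fun m => m = 0) <$> f (Nat.pair a n))
      (fun s a => Nat.rfind fun n => (φ s (Nat.pair a n)).map fun m => decide (m = 0)) := by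
  obtain ⟨f1, f2, f3⟩ := hf
  refine ⟨?_, ?_, ?_⟩
  · refine Partrec.rfind (α := List ℕ × ℕ)
      (p := fun q n => (φ q.1 (Nat.pair q.2 n)).map fun m => decide (m = 0)) ?_
    refine Partrec.map (f1.comp (Computable.fst.comp Computable.fst)
      ((Primrec₂.natPair.to_comp).comp (Computable.snd.comp Computable.fst) Computable.snd)) ?_
    have hd : Primrec (fun m : ℕ => decide (m = 0)) :=
      Primrec.eq.decide.comp Primrec.id (Primrec.const 0)
    exact (hd.to_comp).comp Computable.snd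
  · intro s t x y hst hy
    replace hy := Nat.mem_rfind.1 hy
    refine Nat.mem_rfind.2 ?_
    simp only [Part.mem_map_iff] at hy ⊢
    obtain ⟨⟨b, hb, hb'⟩, hm⟩ := hy
    refine ⟨⟨b, f2 _ _ _ _ hst hb, hb'⟩, fun {m} hmy => ?_⟩
    obtain ⟨c, hc, hc'⟩ := hm hmy
    exact ⟨c, f2 _ _ _ _ hst hc, hc'⟩
  · intro x y
    have e1 : y ∈ (Nat.rfind fun n => (fun m => decide (m = 0)) <$> f (Nat.pair x n)) ↔
      (∃ b ∈ f (Nat.pair x y), decide (b = 0) = true) ∧
        ∀ {m : ℕ}, m < y → ∃ b ∈ f (Nat.pair x m), decide (b = 0) = false := by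
      refine Nat.mem_rfind.trans ?_
      simp only [Part.map_eq_map, Part.mem_map_iff]
    refine e1.trans ?_
    have e2 : ∀ k, y ∈ (Nat.rfind fun n => (φ ((List.range k).map C) (Nat.pair x n)).map
        fun m => decide (m = 0)) ↔
      (∃ b ∈ φ ((List.range k).map C) (Nat.pair x y), decide (b = 0) = true) ∧
        ∀ {m : ℕ}, m < y → ∃ b ∈ φ ((List.range k).map C) (Nat.pair x m),
          decide (b = 0) = false := by
      intro k
      refine Nat.mem_rfind.trans ?_
      simp only [Part.mem_map_iff]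
    simp only [e2]
    constructor
    · rintro ⟨⟨b, hb, hb'⟩, hm⟩
      obtain ⟨m0, hm0⟩ := (f3 _ _).1 hb
      have : ∀ m, m < y → ∃ k, ∃ c ∈ φ ((List.range k).map C) (Nat.pair x m),
          decide (c = 0) = false := by
        intro m hmy
        obtain ⟨c, hc, hc'⟩ := hm hmy
        obtain ⟨k, hk⟩ := (f3 _ _).1 hc
        exact ⟨k, c, hk, hc'⟩
      choose! K hK using this
      have hle : ∀ m, m < y → K m ≤ (Finset.range y).sup K := fun m hm =>
        Finset.le_sup (f := K) (Finset.mem_range.2 hm)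
      refine ⟨max m0 ((Finset.range y).sup K),
        ⟨b, f2 _ _ _ _ (prefix_map C (le_max_left _ _)) hm0, hb'⟩, fun {m} hmy => ?_⟩
      obtain ⟨c, hc, hc'⟩ := hK m hmy
      exact ⟨c, f2 _ _ _ _ (prefix_map C ((hle m hmy).trans (le_max_right _ _))) hc, hc'⟩
    · rintro ⟨m0, ⟨b, hb, hb'⟩, hm⟩
      refine ⟨⟨b, (f3 _ _).2 ⟨m0, hb⟩, hb'⟩, fun {m} hmy => ?_⟩
      obtain ⟨c, hc, hc'⟩ := hm hmy
      exact ⟨c, (f3 _ _).2 ⟨m0, hc⟩, hc'⟩

/-- **Use principle.** -/
theorem use_principle {C : ℕ → ℕ} {f : ℕ →. ℕ} (hf : Nat.RecursiveIn {PFun.lift C} f) :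
    ∃ φ : List ℕ → ℕ →. ℕ, Partrec₂ φ ∧
      (∀ s t x y, s <+: t → y ∈ φ s x → y ∈ φ t x) ∧
      ∀ x y, y ∈ f x ↔ ∃ m, y ∈ φ ((List.range m).map C) x := by
  suffices h : ∃ φ, Good C f φ from h
  induction hf with
  | zero => exact ⟨_, good_of_partrec .zero⟩
  | succ => exact ⟨_, good_of_partrec .succ⟩
  | left => exact ⟨_, good_of_partrec .left⟩
  | right => exact ⟨_, good_of_partrec .right⟩
  | oracle g hg =>
    rw [Set.mem_singleton_iff] at hg
    subst hg
    exact ⟨_, good_oracle C⟩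
  | pair _ _ ih1 ih2 =>
    obtain ⟨φ, hφ⟩ := ih1
    obtain ⟨ψ, hψ⟩ := ih2
    exact ⟨_, good_pair hφ hψ⟩
  | comp _ _ ih1 ih2 =>
    obtain ⟨φ, hφ⟩ := ih1
    obtain ⟨ψ, hψ⟩ := ih2
    exact ⟨_, good_comp hφ hψ⟩
  | prec _ _ ih1 ih2 =>
    obtain ⟨φ, hφ⟩ := ih1
    obtain ⟨ψ, hψ⟩ := ih2
    exact ⟨_, good_prec hφ hψ⟩
  | rfind _ ih =>
    obtain ⟨φ, hφ⟩ := ih
    exact ⟨_, good_rfind hφ⟩

/-- Use principle, with a partial recursive code acting on `pair (encode prefix) x`. -/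
theorem use_code {C : ℕ → ℕ} {f : ℕ →. ℕ} (hf : Nat.RecursiveIn {PFun.lift C} f) :
    ∃ c : Nat.Partrec.Code,
      (∀ (s t : List ℕ) x y, s <+: t → y ∈ c.eval (Nat.pair (encode s) x) →
        y ∈ c.eval (Nat.pair (encode t) x)) ∧
      ∀ x y, y ∈ f x ↔ ∃ m, y ∈ c.eval (Nat.pair (encode ((List.range m).map C)) x) := by
  obtain ⟨φ, h1, h2, h3⟩ := use_principle hf
  have hp : Nat.Partrec (fun n => Part.bind (decode (α := List ℕ × ℕ) n : Option (List ℕ × ℕ))
      fun (a : List ℕ × ℕ) => (φ a.1 a.2).map encode) := h1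
  obtain ⟨c, hc⟩ := Nat.Partrec.Code.exists_code.1 hp
  have key : ∀ (s : List ℕ) x y, y ∈ c.eval (Nat.pair (encode s) x) ↔ y ∈ φ s x := by
    intro s x y
    rw [hc]
    have : decode (α := List ℕ × ℕ) (Nat.pair (encode s) x) = some (s, x) := by
      simp
    simp only [this]
    simp
  refine ⟨c, fun s t x y hst hy => (key _ _ _).2 (h2 _ _ _ _ hst ((key _ _ _).1 hy)), ?_⟩
  intro x y
  rw [h3]
  simp only [key]

/-- Uniform version over all indices: if a total 0-1 (or any) function `E` is recursive in `C`,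
there is a code whose monotone functional computes it. -/
theorem use_code_total {C E : ℕ → ℕ} (hf : Nat.RecursiveIn {PFun.lift C} (PFun.lift E)) :
    ∃ c : Nat.Partrec.Code,
      (∀ (s t : List ℕ) x y, s <+: t → y ∈ c.eval (Nat.pair (encode s) x) →
        y ∈ c.eval (Nat.pair (encode t) x)) ∧
      ∀ x y, E x = y ↔ ∃ m, y ∈ c.eval (Nat.pair (encode ((List.range m).map C)) x) := by
  obtain ⟨c, h1, h2⟩ := use_code hf
  refine ⟨c, h1, fun x y => ?_⟩
  rw [← h2]
  simp [PFun.lift, eq_comm]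

/-- The same for `TuringReducible`. -/
theorem use_turing {C E : ℕ → ℕ} (hf : TuringReducible (PFun.lift E) (PFun.lift C)) :
    ∃ c : Nat.Partrec.Code,
      (∀ (s t : List ℕ) x y, s <+: t → y ∈ c.eval (Nat.pair (encode s) x) →
        y ∈ c.eval (Nat.pair (encode t) x)) ∧
      ∀ x y, E x = y ↔ ∃ m, y ∈ c.eval (Nat.pair (encode ((List.range m).map C)) x) :=
  use_code_total (RecursiveIn.iff_nat.1 hf)

end Helper29Use
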