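import Pool.Agent.Lib_helper6.TA12
import Pool.Agent.Lib_helper6.Use29

set_option autoImplicit false
open FirstOrder FirstOrder.Language Encodable

namespace Pool.Agent.Lib_helper6.TA

attribute [local instance] stdS

/-! ### the path -/

theorem exists_path {M : Type} (I : List Bool → M → Prop) (z : M) (nxt : M → M → Bool → M)
    (a : ℕ → M) (G : List Bool → M → M → Bool → Prop) (h0 : I [] z)
    (hstep : ∀ c u t, I c u → ∃ ε, G c u (a t) ε ∧ I (ε :: c) (nxt u (a t) ε)) :
    ∃ (u : ℕ → M) (ε : ℕ → Bool) (c : ℕ → List Bool), u 0 = z ∧ c 0 = [] ∧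
      (∀ t, I (c t) (u t)) ∧ (∀ t, c (t + 1) = ε t :: c t) ∧
      (∀ t, u (t + 1) = nxt (u t) (a t) (ε t)) ∧ ∀ t, G (c t) (u t) (a t) (ε t) := by
  classical
  choose f hf using hstep
  let S := {s : List Bool × M // I s.1 s.2}
  let st : ℕ → S := fun n => Nat.rec (⟨([], z), h0⟩ : S)
    (fun t s => ⟨(f s.1.1 s.1.2 t s.2 :: s.1.1, nxt s.1.2 (a t) (f s.1.1 s.1.2 t s.2)),
      (hf s.1.1 s.1.2 t s.2).2⟩) n
  refine ⟨fun t => (st t).1.2, fun t => f (st t).1.1 (st t).1.2 t (st t).2, fun t => (st t).1.1,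
    rfl, rfl, fun t => (st t).2, fun t => rfl, fun t => rfl, fun t => ?_⟩
  exact (hf (st t).1.1 (st t).1.2 t (st t).2).1

section
variable {ε : ℕ → Bool} {c : ℕ → List Bool}

theorem path_len (h0 : c 0 = []) (hc : ∀ t, c (t + 1) = ε t :: c t) : ∀ t, (c t).length = t := by
  intro t
  induction t with
  | zero => rw [h0]; rfl
  | succ t ih => rw [hc]; simp [ih]

theorem path_suffix (hc : ∀ t, c (t + 1) = ε t :: c t) {s t : ℕ} (h : s ≤ t) :
    c s <:+ c t := by
  induction t, h using Nat.le_induction with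
  | base => exact List.suffix_rfl
  | succ t _ ih => rw [hc]; exact ih.trans (List.suffix_cons _ _)

/-- the even part is not computable from the odd part -/
theorem path_not (h0 : c 0 = []) (hc : ∀ t, c (t + 1) = ε t :: c t)
    (hb : ∀ t m, ¬ Bad (c t) m) :
    ¬ TuringReducible (PFun.lift (fun n => bn (ε (2 * n))))
      (PFun.lift (fun n => bn (ε (2 * n + 1)))) := by
  classical
  intro hT
  obtain ⟨κ, _, hκ⟩ := Helper29Use.use_turing hT
  set k := encode κ with hk
  have hval : ∀ m, val k ((List.range m).map (fun n => ε (2 * n + 1))) =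
      κ.eval (Nat.pair (encode ((List.range m).map (fun n => bn (ε (2 * n + 1))))) k) := by
    intro m
    unfold val
    rw [hk, Denumerable.ofNat_encode, List.map_map]
    rfl
  have hex : ∃ m, ∃ y, y ∈ val k ((List.range m).map (fun n => ε (2 * n + 1))) := by
    obtain ⟨m, hm⟩ := (hκ k (bn (ε (2 * k)))).1 rfl
    exact ⟨m, _, by rw [hval]; exact hm⟩
  set m := Nat.find hex with hm
  obtain ⟨y, hy⟩ := Nat.find_spec hex
  have hy' : bn (ε (2 * k)) = y := (hκ k y).2 ⟨m, by rw [← hval]; exact hy⟩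
  have hlen := path_len h0 hc
  refine hb (2 * k + 2 * m + 1) m ⟨k, fun n => ε (2 * n + 1), ε (2 * k), c (2 * k), ?_, ?_,
    hlen _, ?_, ?_⟩
  · intro n hn
    refine ⟨c (2 * n + 1), ?_, hlen _⟩
    rw [← hc]
    exact path_suffix hc (by omega)
  · rw [← hc]
    exact path_suffix hc (by omega)
  · rw [hy']; exact hy
  · intro m' hm' y' hy'
    exact Nat.find_min hex hm' ⟨y', hy'⟩

end

/-- precomposition with a computable function -/
theorem red_comp {f : ℕ → ℕ} {g : ℕ → ℕ} (hg : Computable g) :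
    TuringReducible (PFun.lift (fun n => f (g n))) (PFun.lift f) := by
  refine RecursiveIn.iff_nat.2 ?_
  have h1 : Nat.RecursiveIn {PFun.lift f} (fun n => (g n : Part ℕ)) :=
    Nat.Partrec.recursiveIn (Partrec.nat_iff.1 hg.partrec)
  have h2 : Nat.RecursiveIn {PFun.lift f} (PFun.lift f) := .oracle _ (by simp)
  refine (Nat.RecursiveIn.comp h2 h1).of_eq (fun n => ?_)
  exact Part.bind_some _ _

end Pool.Agent.Lib_helper6.TA
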