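import Pool.Agent.Lib_helper6.TA1

set_option autoImplicit false
open FirstOrder FirstOrder.Language

namespace Pool.Agent.Lib_helper6.TA

/-- the standard structure on `ℕ` -/
@[instance_reducible] def stdS : LR.Structure ℕ where
  funMap := fun f => Empty.elim f
  RelMap := fun {n} r xs => ∃ i j k : Fin n, i.val = 0 ∧ j.val = 1 ∧ k.val = 2 ∧
    ((Fin.val r = 0 ∧ xs i + xs j = xs k) ∨ (Fin.val r = 1 ∧ xs i * xs j = xs k))

attribute [local instance] stdS

theorem isGr_std : IsGr stdS (fun x y => x + y) (fun x y => x * y) := fun _ _ _ => Iff.rfl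

/-- `P` (over `ℕ`) and `P'` (over `M`) are defined by the same formula -/
def TrE {M : Type} [LR.Structure M] (P : (ℕ → ℕ) → Prop) (P' : (ℕ → M) → Prop) : Prop :=
  ∃ φ : LR.Formula ℕ, (∀ v : ℕ → ℕ, φ.Realize v ↔ P v) ∧ (∀ v : ℕ → M, φ.Realize v ↔ P' v)

section
variable {M : Type} [A : LR.Structure M] {P Q : (ℕ → ℕ) → Prop} {P' Q' : (ℕ → M) → Prop}

theorem TrE.congr (h : TrE P P') (h1 : ∀ v, P v ↔ Q v) (h2 : ∀ v, P' v ↔ Q' v) : TrE Q Q' := by
  obtain ⟨φ, ha, hb⟩ := h
  exact ⟨φ, fun v => (ha v).trans (h1 v), fun v => (hb v).trans (h2 v)⟩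

theorem TrE.not (h : TrE P P') : TrE (fun v => ¬ P v) (fun v => ¬ P' v) := by
  obtain ⟨φ, ha, hb⟩ := h
  exact ⟨φ.not, fun v => by rw [Formula.realize_not, ha], fun v => by rw [Formula.realize_not, hb]⟩

theorem TrE.and (h : TrE P P') (g : TrE Q Q') :
    TrE (fun v => P v ∧ Q v) (fun v => P' v ∧ Q' v) := by
  obtain ⟨φ, ha, hb⟩ := h
  obtain ⟨ψ, ga, gb⟩ := g
  exact ⟨φ ⊓ ψ, fun v => by rw [Formula.realize_inf, ha, ga],
    fun v => by rw [Formula.realize_inf, hb, gb]⟩

theorem TrE.or (h : TrE P P') (g : TrE Q Q') :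
    TrE (fun v => P v ∨ Q v) (fun v => P' v ∨ Q' v) := by
  obtain ⟨φ, ha, hb⟩ := h
  obtain ⟨ψ, ga, gb⟩ := g
  exact ⟨φ ⊔ ψ, fun v => by rw [Formula.realize_sup, ha, ga],
    fun v => by rw [Formula.realize_sup, hb, gb]⟩

theorem TrE.imp (h : TrE P P') (g : TrE Q Q') :
    TrE (fun v => P v → Q v) (fun v => P' v → Q' v) := by
  obtain ⟨φ, ha, hb⟩ := h
  obtain ⟨ψ, ga, gb⟩ := g
  exact ⟨φ.imp ψ, fun v => by rw [Formula.realize_imp, ha, ga],
    fun v => by rw [Formula.realize_imp, hb, gb]⟩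

theorem TrE.iff (h : TrE P P') (g : TrE Q Q') :
    TrE (fun v => P v ↔ Q v) (fun v => P' v ↔ Q' v) := by
  obtain ⟨φ, ha, hb⟩ := h
  obtain ⟨ψ, ga, gb⟩ := g
  exact ⟨φ.iff ψ, fun v => by rw [Formula.realize_iff, ha, ga],
    fun v => by rw [Formula.realize_iff, hb, gb]⟩

theorem TrE.ex (i : ℕ) (h : TrE P P') :
    TrE (fun v => ∃ x, P (Function.update v i x)) (fun v => ∃ x, P' (Function.update v i x)) := by
  obtain ⟨φ, ha, hb⟩ := h
  refine ⟨fEx i φ, fun v => ?_, fun v => ?_⟩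
  · rw [realize_fEx]; exact exists_congr fun x => ha _
  · rw [realize_fEx]; exact exists_congr fun x => hb _

theorem TrE.all (i : ℕ) (h : TrE P P') :
    TrE (fun v => ∀ x, P (Function.update v i x)) (fun v => ∀ x, P' (Function.update v i x)) := by
  refine ((h.not.ex i).not).congr ?_ ?_ <;> intro v <;> push Not <;> rfl

theorem TrE.subst (f : ℕ → ℕ) (h : TrE P P') :
    TrE (fun v => P (fun n => v (f n))) (fun v => P' (fun n => v (f n))) := by
  obtain ⟨φ, ha, hb⟩ := h
  refine ⟨φ.relabel f, fun v => ?_, fun v => ?_⟩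
  · rw [Formula.realize_relabel]; exact ha _
  · rw [Formula.realize_relabel]; exact hb _

theorem TrE.eq (i j : ℕ) : TrE (fun v => v i = v j) (fun v : ℕ → M => v i = v j) :=
  ⟨fEq i j, fun v => realize_fEq i j v, fun v => realize_fEq i j v⟩

theorem TrE.add {p q : M → M → M} (h : IsGr A p q) (i j k : ℕ) :
    TrE (fun v => v i + v j = v k) (fun v : ℕ → M => p (v i) (v j) = v k) :=
  ⟨fAdd i j k, fun v => realize_fAdd isGr_std i j k v, fun v => realize_fAdd h i j k v⟩

theorem TrE.mul {p q : M → M → M} (h : IsGr A p q) (i j k : ℕ) :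
    TrE (fun v => v i * v j = v k) (fun v : ℕ → M => q (v i) (v j) = v k) :=
  ⟨fMul i j k, fun v => realize_fMul isGr_std i j k v, fun v => realize_fMul h i j k v⟩

theorem TrE.use [Nonempty M] (hM : LR.ElementarilyEquivalent M ℕ) (h : TrE P P')
    (hP : ∀ v, P v) : ∀ v, P' v := by
  obtain ⟨φ, ha, hb⟩ := h
  intro v
  rw [← hb]
  exact transfer hM φ (fun v => (ha v).2 (hP v)) v

end

/-- arithmetical predicates on environments -/
def Ar (P : (ℕ → ℕ) → Prop) : Prop := TrE (M := ℕ) P P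

theorem Ar.formula {P : (ℕ → ℕ) → Prop} (h : Ar P) :
    ∃ φ : LR.Formula ℕ, ∀ v : ℕ → ℕ, φ.Realize v ↔ P v := by
  obtain ⟨φ, ha, _⟩ := h
  exact ⟨φ, ha⟩

/-- star versions: an arithmetical relation has a version in `M` -/
theorem Ar.star1 {R : ℕ → Prop} (h : Ar (fun v => R (v 0))) (M : Type) [LR.Structure M] :
    ∃ R' : M → Prop, TrE (fun v => R (v 0)) (fun v : ℕ → M => R' (v 0)) := by
  obtain ⟨φ, hφ⟩ := h.formula
  refine ⟨fun x => φ.Realize (fun _ => x), φ.relabel (fun _ => 0), fun v => ?_, fun v => ?_⟩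
  · rw [Formula.realize_relabel, hφ]; rfl
  · rw [Formula.realize_relabel]; rfl

theorem Ar.star2 {R : ℕ → ℕ → Prop} (h : Ar (fun v => R (v 0) (v 1))) (M : Type) [LR.Structure M] :
    ∃ R' : M → M → Prop, TrE (fun v => R (v 0) (v 1)) (fun v : ℕ → M => R' (v 0) (v 1)) := by
  obtain ⟨φ, hφ⟩ := h.formula
  refine ⟨fun x y => φ.Realize (fun n => if n = 0 then x else y),
    φ.relabel (fun n => if n = 0 then 0 else 1), fun v => ?_, fun v => ?_⟩
  · rw [Formula.realize_relabel, hφ]; rfl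
  · rw [Formula.realize_relabel]
    show φ.Realize _ ↔ φ.Realize _
    have : (v ∘ fun n => if n = 0 then 0 else 1) = (fun n => if n = 0 then v 0 else v 1) := by
      funext n; by_cases hn : n = 0 <;> simp [hn]
    rw [this]

theorem Ar.star3 {R : ℕ → ℕ → ℕ → Prop} (h : Ar (fun v => R (v 0) (v 1) (v 2)))
    (M : Type) [LR.Structure M] :
    ∃ R' : M → M → M → Prop,
      TrE (fun v => R (v 0) (v 1) (v 2)) (fun v : ℕ → M => R' (v 0) (v 1) (v 2)) := by
  obtain ⟨φ, hφ⟩ := h.formula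
  refine ⟨fun x y z => φ.Realize (fun n => if n = 0 then x else if n = 1 then y else z),
    φ.relabel (fun n => if n = 0 then 0 else if n = 1 then 1 else 2), fun v => ?_, fun v => ?_⟩
  · rw [Formula.realize_relabel, hφ]; rfl
  · rw [Formula.realize_relabel]
    show φ.Realize _ ↔ φ.Realize _
    have : (v ∘ fun n => if n = 0 then 0 else if n = 1 then 1 else 2)
        = (fun n => if n = 0 then v 0 else if n = 1 then v 1 else v 2) := by
      funext n; by_cases hn : n = 0 <;> by_cases hn1 : n = 1 <;> simp [hn, hn1]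
    rw [this]

theorem Ar.star4 {R : ℕ → ℕ → ℕ → ℕ → Prop} (h : Ar (fun v => R (v 0) (v 1) (v 2) (v 3)))
    (M : Type) [LR.Structure M] :
    ∃ R' : M → M → M → M → Prop,
      TrE (fun v => R (v 0) (v 1) (v 2) (v 3)) (fun v : ℕ → M => R' (v 0) (v 1) (v 2) (v 3)) := by
  obtain ⟨φ, hφ⟩ := h.formula
  refine ⟨fun x y z w => φ.Realize
      (fun n => if n = 0 then x else if n = 1 then y else if n = 2 then z else w),
    φ.relabel (fun n => if n = 0 then 0 else if n = 1 then 1 else if n = 2 then 2 else 3),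
    fun v => ?_, fun v => ?_⟩
  · rw [Formula.realize_relabel, hφ]; rfl
  · rw [Formula.realize_relabel]
    show φ.Realize _ ↔ φ.Realize _
    have : (v ∘ fun n => if n = 0 then 0 else if n = 1 then 1 else if n = 2 then 2 else 3)
        = (fun n => if n = 0 then v 0 else if n = 1 then v 1 else if n = 2 then v 2 else v 3) := by
      funext n
      by_cases hn : n = 0 <;> by_cases hn1 : n = 1 <;> by_cases hn2 : n = 2 <;> simp [hn, hn1, hn2]
    rw [this]

end Pool.Agent.Lib_helper6.TA
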