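import Pool.Agent.Lib_helper6.TA2

set_option autoImplicit false
open FirstOrder FirstOrder.Language

namespace Pool.Agent.Lib_helper6.TA

attribute [local instance] stdS

section
variable {M : Type} [A : LR.Structure M]

theorem TrE.sub1 {R : ℕ → Prop} {R' : M → Prop}
    (h : TrE (fun v => R (v 0)) (fun v => R' (v 0))) (i : ℕ) :
    TrE (fun v => R (v i)) (fun v => R' (v i)) := h.subst (fun _ => i)

theorem TrE.sub2 {R : ℕ → ℕ → Prop} {R' : M → M → Prop}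
    (h : TrE (fun v => R (v 0) (v 1)) (fun v => R' (v 0) (v 1))) (i j : ℕ) :
    TrE (fun v => R (v i) (v j)) (fun v => R' (v i) (v j)) :=
  h.subst (fun n => if n = 0 then i else j)

theorem TrE.sub3 {R : ℕ → ℕ → ℕ → Prop} {R' : M → M → M → Prop}
    (h : TrE (fun v => R (v 0) (v 1) (v 2)) (fun v => R' (v 0) (v 1) (v 2))) (i j k : ℕ) :
    TrE (fun v => R (v i) (v j) (v k)) (fun v => R' (v i) (v j) (v k)) :=
  h.subst (fun n => if n = 0 then i else if n = 1 then j else k)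

theorem TrE.sub4 {R : ℕ → ℕ → ℕ → ℕ → Prop} {R' : M → M → M → M → Prop}
    (h : TrE (fun v => R (v 0) (v 1) (v 2) (v 3)) (fun v => R' (v 0) (v 1) (v 2) (v 3)))
    (i j k l : ℕ) :
    TrE (fun v => R (v i) (v j) (v k) (v l)) (fun v => R' (v i) (v j) (v k) (v l)) :=
  h.subst (fun n => if n = 0 then i else if n = 1 then j else if n = 2 then k else l)

end

theorem Ar.congr {P Q : (ℕ → ℕ) → Prop} (h : Ar P) (h1 : ∀ v, P v ↔ Q v) : Ar Q :=
  TrE.congr h h1 h1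

theorem Ar.not {P : (ℕ → ℕ) → Prop} (h : Ar P) : Ar (fun v => ¬ P v) := TrE.not h
theorem Ar.and {P Q : (ℕ → ℕ) → Prop} (h : Ar P) (g : Ar Q) : Ar (fun v => P v ∧ Q v) :=
  TrE.and h g
theorem Ar.or {P Q : (ℕ → ℕ) → Prop} (h : Ar P) (g : Ar Q) : Ar (fun v => P v ∨ Q v) :=
  TrE.or h g
theorem Ar.imp {P Q : (ℕ → ℕ) → Prop} (h : Ar P) (g : Ar Q) : Ar (fun v => P v → Q v) :=
  TrE.imp h g
theorem Ar.ex {P : (ℕ → ℕ) → Prop} (i : ℕ) (h : Ar P) :
    Ar (fun v => ∃ x, P (Function.update v i x)) := TrE.ex i h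
theorem Ar.all {P : (ℕ → ℕ) → Prop} (i : ℕ) (h : Ar P) :
    Ar (fun v => ∀ x, P (Function.update v i x)) := TrE.all i h
theorem Ar.subst {P : (ℕ → ℕ) → Prop} (f : ℕ → ℕ) (h : Ar P) :
    Ar (fun v => P (fun n => v (f n))) := TrE.subst f h
theorem Ar.sub1 {R : ℕ → Prop} (h : Ar (fun v => R (v 0))) (i : ℕ) :
    Ar (fun v => R (v i)) := TrE.sub1 h i
theorem Ar.sub2 {R : ℕ → ℕ → Prop} (h : Ar (fun v => R (v 0) (v 1))) (i j : ℕ) :
    Ar (fun v => R (v i) (v j)) := TrE.sub2 h i j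
theorem Ar.sub3 {R : ℕ → ℕ → ℕ → Prop} (h : Ar (fun v => R (v 0) (v 1) (v 2))) (i j k : ℕ) :
    Ar (fun v => R (v i) (v j) (v k)) := TrE.sub3 h i j k
theorem Ar.sub4 {R : ℕ → ℕ → ℕ → ℕ → Prop} (h : Ar (fun v => R (v 0) (v 1) (v 2) (v 3)))
    (i j k l : ℕ) : Ar (fun v => R (v i) (v j) (v k) (v l)) := TrE.sub4 h i j k l

theorem Ar.eq (i j : ℕ) : Ar (fun v => v i = v j) := TrE.eq (M := ℕ) i j
theorem Ar.add (i j k : ℕ) : Ar (fun v => v i + v j = v k) := TrE.add (M := ℕ) isGr_std i j k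
theorem Ar.mul (i j k : ℕ) : Ar (fun v => v i * v j = v k) := TrE.mul (M := ℕ) isGr_std i j k

theorem Ar.zero (i : ℕ) : Ar (fun v => v i = 0) :=
  (Ar.add i i i).congr (fun v => by omega)

theorem Ar.one (i : ℕ) : Ar (fun v => v i = 1) :=
  ((Ar.mul i i i).and (Ar.zero i).not).congr (fun v => by
    constructor
    · rintro ⟨h, h0⟩
      exact Nat.eq_of_mul_eq_mul_left (Nat.pos_of_ne_zero h0) (by omega)
    · intro h; simp [h])

theorem Ar.succ0 : Ar (fun v => v 1 = v 0 + 1) :=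
  (((Ar.one 2).and (Ar.add 0 2 1)).ex 2).congr (fun v => by
    simp
    exact eq_comm)

theorem Ar.succ (i j : ℕ) : Ar (fun v => v j = v i + 1) :=
  Ar.sub2 (R := fun x y => y = x + 1) Ar.succ0 i j

theorem Ar.const0 (n : ℕ) : Ar (fun v => v 0 = n) := by
  induction n with
  | zero => exact Ar.zero 0
  | succ n ih =>
    refine (((Ar.sub1 (R := fun x => x = n) ih 1).and (Ar.succ 1 0)).ex 1).congr (fun v => ?_)
    simp

theorem Ar.const (i n : ℕ) : Ar (fun v => v i = n) := Ar.sub1 (R := fun x => x = n) (Ar.const0 n) i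

theorem Ar.le0 : Ar (fun v => v 0 ≤ v 1) :=
  ((Ar.add 0 2 1).ex 2).congr (fun v => by
    simp
    constructor
    · rintro ⟨x, hx⟩; omega
    · intro h; exact ⟨v 1 - v 0, by omega⟩)

theorem Ar.le (i j : ℕ) : Ar (fun v => v i ≤ v j) := Ar.sub2 (R := fun x y => x ≤ y) Ar.le0 i j

theorem Ar.lt (i j : ℕ) : Ar (fun v => v i < v j) :=
  (Ar.le j i).not.congr (fun v => by omega)

theorem Ar.pair0 : Ar (fun v => v 2 = Nat.pair (v 0) (v 1)) := by
  have h1 : Ar (fun v => v 1 * v 1 + v 0 = v 2) :=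
    (((Ar.mul 1 1 3).and (Ar.add 3 0 2)).ex 3).congr (fun v => by simp)
  have h2 : Ar (fun v => v 0 * v 0 + v 0 + v 1 = v 2) :=
    ((((Ar.mul 0 0 3).and ((Ar.add 3 0 4).and (Ar.add 4 1 2))).ex 4).ex 3).congr (fun v => by simp)
  refine (((Ar.lt 0 1).and h1).or ((Ar.lt 0 1).not.and h2)).congr (fun v => ?_)
  unfold Nat.pair
  by_cases h : v 0 < v 1
  · simp only [h, true_and, not_true_eq_false, false_and, or_false, if_true]
    exact eq_comm
  · simp only [h, false_and, not_false_eq_true, true_and, false_or, if_false]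
    exact eq_comm

theorem Ar.pair (i j k : ℕ) : Ar (fun v => v k = Nat.pair (v i) (v j)) :=
  Ar.sub3 (R := fun x y z => z = Nat.pair x y) Ar.pair0 i j k

theorem Ar.mod0 : Ar (fun v => v 2 = v 0 % v 1) := by
  have h1 : Ar (fun v => v 1 = 0 ∧ v 2 = v 0) := (Ar.zero 1).and (Ar.eq 2 0)
  have h2 : Ar (fun v => ∃ q, v 1 * q + v 2 = v 0) :=
    ((((Ar.mul 1 3 4).and (Ar.add 4 2 0)).ex 4).ex 3).congr (fun v => by simp)
  refine (h1.or ((Ar.lt 2 1).and h2)).congr (fun v => ?_)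
  constructor
  · rintro (⟨h, h'⟩ | ⟨h, q, hq⟩)
    · rw [h, h']; simp
    · rw [← hq]
      rw [Nat.mul_add_mod, Nat.mod_eq_of_lt h]
  · intro h
    rcases Nat.eq_zero_or_pos (v 1) with h0 | h0
    · left; rw [h0] at h ⊢; simpa using h
    · right
      refine ⟨h ▸ Nat.mod_lt _ h0, v 0 / v 1, ?_⟩
      rw [h]; exact Nat.div_add_mod _ _

theorem Ar.mod (i j k : ℕ) : Ar (fun v => v k = v i % v j) :=
  Ar.sub3 (R := fun x y z => z = x % y) Ar.mod0 i j k

theorem Ar.beta0 : Ar (fun v => v 2 = Nat.beta (v 0) (v 1)) := by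
  -- v 3, v 4 are the components of v 0, v 5 = v 1 + 1, v 6 = v 5 * v 4, v 7 = v 6 + 1
  refine (((((((Ar.pair 3 4 0).and ((Ar.succ 1 5).and ((Ar.mul 5 4 6).and
    ((Ar.succ 6 7).and (Ar.mod 3 7 2))))).ex 7).ex 6).ex 5).ex 4).ex 3).congr (fun v => ?_)
  simp only [Function.update_apply]
  norm_num
  unfold Nat.beta
  constructor
  · rintro ⟨a, b, h1, h2⟩
    rw [h1]
    simp only [Nat.unpair_pair]
    exact h2
  · intro h
    exact ⟨(v 0).unpair.1, (v 0).unpair.2, by simp, h⟩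

theorem Ar.beta (i j k : ℕ) : Ar (fun v => v k = Nat.beta (v i) (v j)) :=
  Ar.sub3 (R := fun x y z => z = Nat.beta x y) Ar.beta0 i j k

end Pool.Agent.Lib_helper6.TA
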