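import Pool.Agent.Lib_helper6.TA3

set_option autoImplicit false
open FirstOrder FirstOrder.Language

namespace Pool.Agent.Lib_helper6.TA

attribute [local instance] stdS

/-- every finite sequence is represented by the beta function -/
theorem exists_beta (f : ℕ → ℕ) (n : ℕ) : ∃ w, ∀ i ≤ n, Nat.beta w i = f i := by
  refine ⟨Nat.unbeta ((List.range (n + 1)).map f), fun i hi => ?_⟩
  have h := Nat.beta_unbeta_coe ((List.range (n + 1)).map f)
    ⟨i, by simp; omega⟩
  simpa using h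

theorem Ar.graph_pair {f g : ℕ → Part ℕ} (hf : Ar (fun v => v 1 ∈ f (v 0)))
    (hg : Ar (fun v => v 1 ∈ g (v 0))) :
    Ar (fun v => v 1 ∈ (Nat.pair <$> f (v 0) <*> g (v 0))) := by
  have hf' := Ar.sub2 (R := fun x y => y ∈ f x) hf 0 2
  have hg' := Ar.sub2 (R := fun x y => y ∈ g x) hg 0 3
  refine (((hf'.and (hg'.and (Ar.pair 2 3 1))).ex 3).ex 2).congr (fun v => ?_)
  simp [Function.update_apply, Seq.seq]
  constructor
  · rintro ⟨x, hx, y, hy, h⟩
    exact ⟨x, hx, y, hy, h.symm⟩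
  · rintro ⟨x, hx, y, hy, h⟩
    exact ⟨x, hx, y, hy, h.symm⟩

theorem Ar.graph_comp {f g : ℕ → Part ℕ} (hf : Ar (fun v => v 1 ∈ f (v 0)))
    (hg : Ar (fun v => v 1 ∈ g (v 0))) :
    Ar (fun v => v 1 ∈ (g (v 0) >>= f)) := by
  have hf' := Ar.sub2 (R := fun x y => y ∈ f x) hf 2 1
  have hg' := Ar.sub2 (R := fun x y => y ∈ g x) hg 0 2
  refine ((hg'.and hf').ex 2).congr (fun v => ?_)
  simp [Part.bind_eq_bind]

theorem Ar.graph_rfind {f : ℕ → Part ℕ} (hf : Ar (fun v => v 1 ∈ f (v 0))) :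
    Ar (fun v => v 1 ∈ Nat.rfind fun n => (fun m => decide (m = 0)) <$> f (Nat.pair (v 0) n)) := by
  -- 0 ∈ f (pair (v 0) (v 1))
  have h1 : Ar (fun v => 0 ∈ f (Nat.pair (v 0) (v 1))) := by
    refine ((((Ar.pair 0 1 2).and ((Ar.zero 3).and
      (Ar.sub2 (R := fun x y => y ∈ f x) hf 2 3))).ex 3).ex 2).congr (fun v => ?_)
    simp [Function.update_apply]
  have h2 : Ar (fun v => ∃ k, k ≠ 0 ∧ k ∈ f (Nat.pair (v 0) (v 2))) := by
    refine ((((Ar.pair 0 2 4).and ((Ar.zero 3).not.and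
      (Ar.sub2 (R := fun x y => y ∈ f x) hf 4 3))).ex 4).ex 3).congr (fun v => ?_)
    simp [Function.update_apply]
  have h3 : Ar (fun v => ∀ m, m < v 1 → ∃ k, k ≠ 0 ∧ k ∈ f (Nat.pair (v 0) m)) := by
    refine (((Ar.lt 2 1).imp h2).all 2).congr (fun v => ?_)
    simp [Function.update_apply]
  refine (h1.and h3).congr (fun v => ?_)
  refine Iff.trans ?_ (Nat.mem_rfind
    (p := fun n => (fun m => decide (m = 0)) <$> f (Nat.pair (v 0) n))).symm
  constructor
  · rintro ⟨ha, hb⟩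
    refine ⟨by simpa using ha, fun {m} hm => ?_⟩
    obtain ⟨k, hk, hk'⟩ := hb m hm
    simp only [Part.map_eq_map, Part.mem_map_iff, decide_eq_false_iff_not]
    exact ⟨k, hk', hk⟩
  · rintro ⟨ha, hb⟩
    refine ⟨by simpa using ha, fun m hm => ?_⟩
    have := hb hm
    simp only [Part.map_eq_map, Part.mem_map_iff, decide_eq_false_iff_not] at this
    obtain ⟨k, hk', hk⟩ := this
    exact ⟨k, hk, hk'⟩

/-- the value of a primitive recursion is witnessed by a sequence -/
theorem mem_rec_iff (b : Part ℕ) (g : ℕ → ℕ → Part ℕ) (n y : ℕ) :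
    y ∈ (Nat.rec b (fun k IH => IH >>= fun i => g k i) n : Part ℕ) ↔
      ∃ w, Nat.beta w 0 ∈ b ∧ (∀ i, i < n → Nat.beta w (i + 1) ∈ g i (Nat.beta w i)) ∧
        y = Nat.beta w n := by
  constructor
  · intro h
    -- build the sequence
    have key : ∀ n y, y ∈ (Nat.rec b (fun k IH => IH >>= fun i => g k i) n : Part ℕ) →
        ∃ s : ℕ → ℕ, s 0 ∈ b ∧ (∀ i, i < n → s (i + 1) ∈ g i (s i)) ∧ y = s n := by
      intro n
      induction n with
      | zero => intro y hy; exact ⟨fun _ => y, hy, fun i hi => absurd hi (Nat.not_lt_zero i), rfl⟩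
      | succ n ih =>
        intro y hy
        simp only [Part.bind_eq_bind, Part.mem_bind_iff] at hy
        obtain ⟨z, hz, hy⟩ := hy
        obtain ⟨s, hs0, hs, hzs⟩ := ih z hz
        refine ⟨fun i => if i ≤ n then s i else y, by simpa using hs0, fun i hi => ?_, by simp⟩
        rcases Nat.lt_or_ge i n with h | h
        · have h1 : i + 1 ≤ n := h
          have h2 : i ≤ n := Nat.le_of_lt h
          simp only [h1, h2, if_true]
          exact hs i h
        · have h1 : i = n := by omega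
          subst h1
          simp only [Nat.not_succ_le_self, if_false, le_refl, if_true]
          rw [← hzs]; exact hy
    obtain ⟨s, hs0, hs, hy⟩ := key n y h
    obtain ⟨w, hw⟩ := exists_beta s n
    refine ⟨w, by rw [hw 0 (Nat.zero_le _)]; exact hs0, fun i hi => ?_, by rw [hw n le_rfl]; exact hy⟩
    rw [hw (i + 1) hi, hw i (Nat.le_of_lt hi)]
    exact hs i hi
  · rintro ⟨w, h0, hs, rfl⟩
    have : ∀ k, k ≤ n → Nat.beta w k ∈ (Nat.rec b (fun k IH => IH >>= fun i => g k i) k : Part ℕ) := by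
      intro k
      induction k with
      | zero => intro _; exact h0
      | succ k ih =>
        intro hk
        simp only [Part.bind_eq_bind, Part.mem_bind_iff]
        exact ⟨_, ih (Nat.le_of_succ_le hk), hs k hk⟩
    exact this n le_rfl

theorem Ar.graph_prec {f g : ℕ → Part ℕ} (hf : Ar (fun v => v 1 ∈ f (v 0)))
    (hg : Ar (fun v => v 1 ∈ g (v 0))) :
    Ar (fun v => ∃ w, Nat.beta w 0 ∈ f (v 0).unpair.1 ∧
      (∀ i, i < (v 0).unpair.2 → Nat.beta w (i + 1) ∈
        g (Nat.pair (v 0).unpair.1 (Nat.pair i (Nat.beta w i)))) ∧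
      v 1 = Nat.beta w (v 0).unpair.2) := by
  -- variables: 0 input, 1 output, 2 = a, 3 = n, 4 = w
  have h0 : Ar (fun v => Nat.beta (v 4) 0 ∈ f (v 2)) := by
    refine ((((Ar.zero 5).and ((Ar.beta 4 5 6).and
      (Ar.sub2 (R := fun x y => y ∈ f x) hf 2 6))).ex 6).ex 5).congr (fun v => ?_)
    simp [Function.update_apply]
  have h1 : Ar (fun v => Nat.beta (v 4) (v 5 + 1) ∈
      g (Nat.pair (v 2) (Nat.pair (v 5) (Nat.beta (v 4) (v 5))))) := by
    refine ((((((Ar.succ 5 6).and ((Ar.beta 4 6 7).and ((Ar.beta 4 5 8).and ((Ar.pair 5 8 9).and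
      ((Ar.pair 2 9 10).and
      (Ar.sub2 (R := fun x y => y ∈ g x) hg 10 7)))))).ex 10).ex 9).ex 8).ex 7).ex 6 |>.congr
        (fun v => ?_)
    simp [Function.update_apply]
  have h2 : Ar (fun v => ∀ i, i < v 3 → Nat.beta (v 4) (i + 1) ∈
      g (Nat.pair (v 2) (Nat.pair i (Nat.beta (v 4) i)))) := by
    refine (((Ar.lt 5 3).imp h1).all 5).congr (fun v => ?_)
    simp [Function.update_apply]
  refine (((((Ar.pair 2 3 0).and (h0.and (h2.and (Ar.beta 4 3 1)))).ex 4).ex 3).ex 2).congr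
    (fun v => ?_)
  simp [Function.update_apply]
  constructor
  · rintro ⟨a, n, h, w, hw⟩
    rw [h]; simp only [Nat.unpair_pair]
    exact ⟨w, hw⟩
  · rintro ⟨w, hw⟩
    exact ⟨_, _, by simp, w, hw⟩

theorem Ar.graph {f : ℕ →. ℕ} (hf : Nat.Partrec f) : Ar (fun v => v 1 ∈ f (v 0)) := by
  induction hf with
  | zero =>
    refine (Ar.zero 1).congr (fun v => ?_)
    show v 1 = 0 ↔ v 1 ∈ Part.some 0
    simp
  | succ =>
    refine (Ar.succ 0 1).congr (fun v => ?_)
    simp
  | left =>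
    refine ((Ar.pair 1 2 0).ex 2).congr (fun v => ?_)
    simp [Function.update_apply]
    constructor
    · rintro ⟨x, hx⟩; rw [hx]; simp
    · intro h; exact ⟨(v 0).unpair.2, by rw [h]; simp⟩
  | right =>
    refine ((Ar.pair 2 1 0).ex 2).congr (fun v => ?_)
    simp [Function.update_apply]
    constructor
    · rintro ⟨x, hx⟩; rw [hx]; simp
    · intro h; exact ⟨(v 0).unpair.1, by rw [h]; simp⟩
  | pair _ _ ihf ihg => exact Ar.graph_pair ihf ihg
  | comp _ _ ihf ihg => exact Ar.graph_comp ihf ihg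
  | @prec f g _ _ ihf ihg =>
    refine (Ar.graph_prec ihf ihg).congr (fun v => ?_)
    exact (mem_rec_iff (f (v 0).unpair.1)
      (fun k i => g (Nat.pair (v 0).unpair.1 (Nat.pair k i))) (v 0).unpair.2 (v 1)).symm
  | rfind _ ih => exact Ar.graph_rfind ih

end Pool.Agent.Lib_helper6.TA
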