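import Pool.Agent.Lib_helper6.TA4

set_option autoImplicit false
open FirstOrder FirstOrder.Language Encodable

namespace Pool.Agent.Lib_helper6.TA

attribute [local instance] stdS

/-- arithmetical predicates on a `Primcodable` type -/
def ArP {α : Type} [Primcodable α] (P : α → Prop) : Prop :=
  Ar (fun v => ∃ a, a ∈ (decode (v 0) : Option α) ∧ P a)

section
variable {α β γ : Type} [Primcodable α] [Primcodable β] [Primcodable γ]

theorem ArP.of_eq {P Q : α → Prop} (h : ArP P) (e : ∀ a, P a ↔ Q a) : ArP Q :=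
  Ar.congr h (fun v => exists_congr fun a => and_congr Iff.rfl (e a))

theorem ar_graph_partrec {f : α → Part β} (hf : Partrec f) :
    Ar (fun v => ∃ a, a ∈ (decode (v 0) : Option α) ∧ ∃ b, b ∈ f a ∧ v 1 = encode b) := by
  have h := Ar.graph (show Nat.Partrec _ from hf)
  refine h.congr (fun v => ?_)
  rw [Part.mem_bind_iff]
  simp only [Part.mem_map_iff, Part.mem_ofOption]
  constructor
  · rintro ⟨a, ha, b, hb, h⟩; exact ⟨a, ha, b, hb, h.symm⟩
  · rintro ⟨a, ha, b, hb, h⟩; exact ⟨a, ha, b, hb, h.symm⟩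

theorem ar_encode_decode : Ar (fun v => v 1 = encode (decode (v 0) : Option β)) := by
  have h : Nat.Partrec (fun n => Part.some (encode (decode n : Option β))) :=
    Nat.Partrec.of_primrec (Primcodable.prim β)
  refine (Ar.graph h).congr (fun v => ?_)
  simp

theorem ArP.graph {f : α → Part β} (hf : Partrec f) : ArP (fun p : α × β => p.2 ∈ f p.1) := by
  have h1 := Ar.sub2 (R := fun x y => ∃ a, a ∈ (decode x : Option α) ∧ ∃ b, b ∈ f a ∧ y = encode b)
    (ar_graph_partrec hf) 2 4
  have h2 := Ar.sub2 (R := fun x y => y = encode (decode x : Option β)) ar_encode_decode 3 5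
  refine ((((((Ar.pair 2 3 0).and (h1.and ((Ar.succ 4 5).and h2))).ex 5).ex 4).ex 3).ex 2).congr
    (fun v => ?_)
  simp only [Function.update_apply]
  norm_num
  constructor
  · rintro ⟨x, y, hxy, z, ⟨a, ha, b, hb, hz⟩, h⟩
    refine ⟨a, b, ?_, hb⟩
    rw [hxy]
    have h3 : encode (some b) = encode (decode y : Option β) := by
      rw [← h, hz]; rfl
    have h4 := encode_injective h3
    simp only [Nat.unpair_pair]
    simp [ha, ← h4]
  · rintro ⟨a, b, hab, hb⟩
    simp only [Option.bind_eq_some_iff, Option.map_eq_some_iff] at hab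
    obtain ⟨a', ha', b', hb', h⟩ := hab
    obtain ⟨rfl, rfl⟩ := Prod.mk.inj h
    refine ⟨(v 0).unpair.1, (v 0).unpair.2, by simp, encode b', ⟨a', ha', b', hb, rfl⟩, ?_⟩
    rw [hb']; rfl

theorem ArP.comp {P : β → Prop} (h : ArP P) {f : α → β} (hf : Computable f) :
    ArP (fun a => P (f a)) := by
  have h1 := Ar.sub2 (R := fun x y => ∃ a, a ∈ (decode x : Option α) ∧ ∃ b, b ∈ Part.some (f a) ∧
    y = encode b) (ar_graph_partrec hf) 0 1
  have h2 := Ar.sub1 (R := fun x => ∃ b, b ∈ (decode x : Option β) ∧ P b) h 1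
  refine ((h1.and h2).ex 1).congr (fun v => ?_)
  simp only [Function.update_apply]
  norm_num
  constructor
  · rintro ⟨x, ⟨a, ha, hx⟩, b, hb, hP⟩
    rw [hx, encodek] at hb
    refine ⟨a, ha, ?_⟩
    rw [Option.some.injEq] at hb
    rw [hb]; exact hP
  · rintro ⟨a, ha, hP⟩
    exact ⟨_, ⟨a, ha, rfl⟩, f a, encodek _, hP⟩

theorem ArP.and {P Q : α → Prop} (h : ArP P) (g : ArP Q) : ArP (fun a => P a ∧ Q a) := by
  refine (Ar.and h g).congr (fun v => ?_)
  constructor
  · rintro ⟨⟨a, ha, hP⟩, b, hb, hQ⟩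
    have : a = b := by
      have := ha.symm.trans hb
      exact Option.some.inj this
    subst this
    exact ⟨a, ha, hP, hQ⟩
  · rintro ⟨a, ha, hP, hQ⟩
    exact ⟨⟨a, ha, hP⟩, a, ha, hQ⟩

theorem ArP.or {P Q : α → Prop} (h : ArP P) (g : ArP Q) : ArP (fun a => P a ∨ Q a) := by
  refine (Ar.or h g).congr (fun v => ?_)
  constructor
  · rintro (⟨a, ha, hP⟩ | ⟨a, ha, hP⟩)
    · exact ⟨a, ha, Or.inl hP⟩
    · exact ⟨a, ha, Or.inr hP⟩
  · rintro ⟨a, ha, hP | hQ⟩
    · exact Or.inl ⟨a, ha, hP⟩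
    · exact Or.inr ⟨a, ha, hQ⟩

theorem ArP.true' : ArP (fun _ : α => True) := by
  have h2 := ar_encode_decode (β := α)
  refine ((h2.and (Ar.zero 1).not).ex 1).congr (fun v => ?_)
  simp only [Function.update_apply]
  norm_num
  cases h : (decode (v 0) : Option α) with
  | none => simp
  | some a => simp

theorem ArP.not {P : α → Prop} (h : ArP P) : ArP (fun a => ¬ P a) := by
  refine (Ar.and (ArP.true' (α := α)) (Ar.not h)).congr (fun v => ?_)
  constructor
  · rintro ⟨⟨a, ha, _⟩, h2⟩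
    exact ⟨a, ha, fun hP => h2 ⟨a, ha, hP⟩⟩
  · rintro ⟨a, ha, hP⟩
    refine ⟨⟨a, ha, trivial⟩, ?_⟩
    rintro ⟨b, hb, hP'⟩
    have : a = b := by
      have := ha.symm.trans hb
      exact Option.some.inj this
    subst this
    exact hP hP'

theorem ArP.imp {P Q : α → Prop} (h : ArP P) (g : ArP Q) : ArP (fun a => P a → Q a) :=
  (h.not.or g).of_eq (fun a => by tauto)

theorem ArP.iff {P Q : α → Prop} (h : ArP P) (g : ArP Q) : ArP (fun a => P a ↔ Q a) :=
  ((h.imp g).and (g.imp h)).of_eq (fun a => by tauto)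

theorem ArP.ex {P : α → β → Prop} (h : ArP (fun p : α × β => P p.1 p.2)) :
    ArP (fun a => ∃ b, P a b) := by
  have h1 := Ar.sub1 (R := fun x => ∃ p, p ∈ (decode x : Option (α × β)) ∧ P p.1 p.2) h 2
  refine ((((Ar.pair 0 1 2).and h1).ex 2).ex 1).congr (fun v => ?_)
  simp only [Function.update_apply]
  norm_num
  constructor
  · rintro ⟨x, a, b, hab, hP⟩
    simp only [Option.bind_eq_some_iff, Option.map_eq_some_iff] at hab
    obtain ⟨a', ha', b', hb', h⟩ := hab
    obtain ⟨rfl, rfl⟩ := Prod.mk.inj h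
    exact ⟨a', ha', b', hP⟩
  · rintro ⟨a, ha, b, hP⟩
    exact ⟨encode b, a, b, by simp [ha], hP⟩

theorem ArP.all {P : α → β → Prop} (h : ArP (fun p : α × β => P p.1 p.2)) :
    ArP (fun a => ∀ b, P a b) := by
  refine ((ArP.ex (P := fun a b => ¬ P a b) h.not).not).of_eq (fun a => ?_)
  push Not; rfl

/-- decidable predicates given by computable Boolean functions -/
theorem ArP.of_computable {f : α → Bool} (hf : Computable f) : ArP (fun a => f a = true) := by
  have h := (ArP.graph (f := fun a => Part.some (f a)) hf).comp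
    (f := fun a => (a, true)) (Computable.pair Computable.id (Computable.const true))
  refine h.of_eq (fun a => ?_)
  simp

theorem ArP.eq_comp [DecidableEq β] {f g : α → β} (hf : Computable f) (hg : Computable g) :
    ArP (fun a => f a = g a) := by
  have h := (ArP.graph (f := fun a => Part.some (f a)) hf).comp
    (f := fun a => (a, g a)) (Computable.pair Computable.id hg)
  refine h.of_eq (fun a => ?_)
  simp
  exact eq_comm

theorem ArP.lt_comp {f g : α → ℕ} (hf : Computable f) (hg : Computable g) :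
    ArP (fun a => f a < g a) := by
  have h : Computable (fun p : ℕ × ℕ => decide (p.1 < p.2)) :=
    (Primrec.nat_lt.decide).to_comp
  have h2 := (ArP.of_computable h).comp (f := fun a => (f a, g a)) (Computable.pair hf hg)
  exact h2.of_eq (fun a => by simp)

theorem ArP.le_comp {f g : α → ℕ} (hf : Computable f) (hg : Computable g) :
    ArP (fun a => f a ≤ g a) :=
  (ArP.lt_comp hg hf).not.of_eq (fun a => by simp)

end

theorem ArP.to1 {P : ℕ → Prop} (h : ArP P) : Ar (fun v => P (v 0)) := by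
  refine Ar.congr h (fun v => ?_)
  simp

theorem ArP.to2 {P : ℕ × ℕ → Prop} (h : ArP P) : Ar (fun v => P (v 0, v 1)) := by
  have h1 := Ar.sub1 (R := fun x => ∃ p, p ∈ (decode x : Option (ℕ × ℕ)) ∧ P p) h 2
  refine (((Ar.pair 0 1 2).and h1).ex 2).congr (fun v => ?_)
  simp only [Function.update_apply]
  norm_num

theorem ArP.to3 {P : ℕ × ℕ × ℕ → Prop} (h : ArP P) : Ar (fun v => P (v 0, v 1, v 2)) := by
  have h1 := Ar.sub1 (R := fun x => ∃ p, p ∈ (decode x : Option (ℕ × ℕ × ℕ)) ∧ P p) h 4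
  refine (((((Ar.pair 1 2 3).and ((Ar.pair 0 3 4).and h1)).ex 4).ex 3)).congr (fun v => ?_)
  simp only [Function.update_apply]
  norm_num

theorem ArP.to4 {P : ℕ × ℕ × ℕ × ℕ → Prop} (h : ArP P) :
    Ar (fun v => P (v 0, v 1, v 2, v 3)) := by
  have h1 := Ar.sub1 (R := fun x => ∃ p, p ∈ (decode x : Option (ℕ × ℕ × ℕ × ℕ)) ∧ P p) h 6
  refine ((((((Ar.pair 2 3 4).and ((Ar.pair 1 4 5).and ((Ar.pair 0 5 6).and h1))).ex 6).ex 5).ex 4)).congr
    (fun v => ?_)
  simp only [Function.update_apply]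
  norm_num

end Pool.Agent.Lib_helper6.TA
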