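import Pool.Agent.Lib_helper6.TA4

set_option autoImplicit false
open Encodable

namespace Pool.Agent.Lib_helper6.TA

/-- the `k`-th bit of the finite set coded by `a` -/
def tb (a k : ℕ) : Bool := decide (Nat.beta a k = 1)

theorem exists_tb (g : ℕ → Bool) (n : ℕ) : ∃ w, ∀ i ≤ n, tb w i = g i := by
  obtain ⟨w, hw⟩ := exists_beta (fun i => if g i = true then 1 else 0) n
  refine ⟨w, fun i hi => ?_⟩
  unfold tb
  rw [hw i hi]
  cases g i <;> simp

/-- the first `m` bits of `ρ` -/
def pfx (ρ m : ℕ) : List Bool := (List.range m).map (tb ρ)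

/-- position `k` of the column `s` -/
def pos (s : List Bool) (k : ℕ) : ℕ := Nat.pair (encode s) k

def posS (n : ℕ) : List Bool := (decode n.unpair.1 : Option (List Bool)).getD []

theorem posS_pos (s : List Bool) (k : ℕ) : posS (pos s k) = s := by
  unfold posS pos
  rw [Nat.unpair_pair, encodek]
  rfl

theorem pos_snd (s : List Bool) (k : ℕ) : (pos s k).unpair.2 = k := by
  unfold pos
  rw [Nat.unpair_pair]

def bn (ε : Bool) : ℕ := if ε = true then 1 else 0

theorem bn_inj {ε ε' : Bool} (h : bn ε = bn ε') : ε = ε' := by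
  cases ε <;> cases ε' <;> simp_all [bn]

/-- the value of the `k`-th functional at `k`, using the oracle prefix `σ` -/
def val (k : ℕ) (σ : List Bool) : Part ℕ :=
  Nat.Partrec.Code.eval (Denumerable.ofNat Nat.Partrec.Code k) (Nat.pair (encode (σ.map bn)) k)

/-- the first value found along `ρ` is found at `m`, and it is `ε` -/
def FV (ρ k m : ℕ) (ε : Bool) : Prop :=
  bn ε ∈ val k (pfx ρ m) ∧ ∀ m', m' < m → ∀ y, y ∉ val k (pfx ρ m')

theorem FV_unique {ρ k m m' : ℕ} {ε ε' : Bool} (h : FV ρ k m ε) (h' : FV ρ k m' ε') : ε = ε' := by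
  rcases lt_trichotomy m m' with hm | hm | hm
  · exact absurd h.1 (h'.2 m hm _)
  · subst hm
    exact bn_inj (Part.mem_unique h.1 h'.1)
  · exact absurd h'.1 (h.2 m' hm _)

/-- histories, latest entry first -/
abbrev Hist := List (ℕ × Bool)

def Con (ν : ℕ) (l : Hist) (a : ℕ) (ε : Bool) (ρ : ℕ) : Prop :=
  (∀ k, l.length = 2 * k → ∀ m, m ≤ ν → ¬ FV ρ k m ε) ∧
  (∀ k, l.length = 2 * k + 1 → k < ν → tb ρ k = ε) ∧
  (∀ k, pos (ε :: l.map Prod.snd) k < ν → tb ρ (pos (ε :: l.map Prod.snd) k) = tb a k)

def Good (ν : ℕ) (l : Hist) (ρ : ℕ) : Prop :=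
  ∀ (l' : Hist) (a : ℕ) (ε : Bool), ((a, ε) :: l') <:+ l → Con ν l' a ε ρ

def Fr (ν : ℕ) (l : Hist) : Prop :=
  ∀ τ, ∃ ρ, (∀ (s : List Bool) (k : ℕ), l.map Prod.snd <:+ s → s ≠ l.map Prod.snd →
    pos s k < ν → tb ρ (pos s k) = tb τ (pos s k)) ∧ Good ν l ρ

theorem Fr_nil (ν : ℕ) : Fr ν [] := by
  intro τ
  refine ⟨τ, fun _ _ _ _ _ => rfl, fun l' a ε h => ?_⟩
  exact absurd h (by simp)

open Classical in
theorem Fr_cover (ν : ℕ) (l : Hist) (h : Fr ν l) (a : ℕ) : ∃ ε : Bool, Fr ν ((a, ε) :: l) := by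
  by_contra hc
  push Not at hc
  have hτ : ∀ ε : Bool, ∃ τ, ∀ ρ, (∀ (s : List Bool) (k : ℕ), (ε :: l.map Prod.snd) <:+ s →
      s ≠ ε :: l.map Prod.snd → pos s k < ν → tb ρ (pos s k) = tb τ (pos s k)) →
      ¬ Good ν ((a, ε) :: l) ρ := by
    intro ε
    have := hc ε
    unfold Fr at this
    push Not at this
    exact this
  choose τ hτ using hτ
  set c := l.map Prod.snd with hcdef
  obtain ⟨T, hT⟩ := exists_tb (fun n =>
    if posS n = false :: c ∨ posS n = true :: c then tb a n.unpair.2
    else if (true :: c) <:+ posS n then tb (τ true) n else tb (τ false) n) ν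
  obtain ⟨ρ, hρ, hG⟩ := h T
  -- the new constraint for a suitable ε
  have h3 : ∀ ε : Bool, ∀ k, pos (ε :: c) k < ν → tb ρ (pos (ε :: c) k) = tb a k := by
    intro ε k hk
    rw [hρ (ε :: c) k (List.suffix_cons _ _) (fun hh => by
      have := congrArg List.length hh; simp [hcdef] at this) hk, hT _ hk.le, posS_pos, pos_snd]
    cases ε <;> simp
  have h4 : ∃ ε : Bool, Con ν l a ε ρ := by
    rcases Nat.even_or_odd' l.length with ⟨k, hk | hk⟩
    · by_cases hF : ∃ m, m ≤ ν ∧ FV ρ k m false
      · obtain ⟨m, hm, hF⟩ := hF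
        refine ⟨true, fun k' hk' m' hm' hF' => ?_, fun k' hk' => by omega, h3 true⟩
        have : k' = k := by omega
        subst this
        have := FV_unique hF hF'
        simp at this
      · push Not at hF
        refine ⟨false, fun k' hk' m' hm' => ?_, fun k' hk' => by omega, h3 false⟩
        have : k' = k := by omega
        subst this
        exact hF m' hm'
    · refine ⟨tb ρ k, fun k' hk' => by omega, fun k' hk' _ => ?_, h3 _⟩
      have : k' = k := by omega
      subst this
      rfl
  obtain ⟨ε, hε⟩ := h4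
  apply hτ ε ρ
  · intro s k hs hs' hk
    have hcs : c <:+ s := (List.suffix_cons ε c).trans hs
    have hlen : (ε :: c).length < s.length := by
      rcases hs.length_le.lt_or_eq with h1 | h1
      · exact h1
      · exact absurd (hs.eq_of_length h1).symm hs'
    have hne : s ≠ c := by
      rintro rfl
      simp at hlen
    rw [hρ s k hcs hne hk, hT _ hk.le, posS_pos]
    have hn1 : ¬ (s = false :: c ∨ s = true :: c) := by
      rintro (rfl | rfl) <;> simp at hlen
    rw [if_neg hn1]
    cases ε with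
    | true => rw [if_pos hs]
    | false =>
      rw [if_neg]
      intro ht
      have h5 : (true :: c) <:+ (false :: c) ∨ (false :: c) <:+ (true :: c) :=
        List.suffix_or_suffix_of_suffix ht hs
      rcases h5 with h5 | h5
      · have := h5.eq_of_length (by simp); simp at this
      · have := h5.eq_of_length (by simp); simp at this
  · intro l' a' ε' hs
    rcases List.suffix_cons_iff.1 hs with h6 | h6
    · simp only [List.cons.injEq, Prod.mk.injEq] at h6
      obtain ⟨⟨rfl, rfl⟩, rfl⟩ := h6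
      exact hε
    · exact hG l' a' ε' h6

/-- the number coding a history -/
def cd : Hist → ℕ
  | [] => 0
  | (a, ε) :: l => 2 * ((cd l + a) * (cd l + a) + cd l) + bn ε + 1

theorem idx_inj {u a u' a' : ℕ} (h : (u + a) * (u + a) + u = (u' + a') * (u' + a') + u') :
    u = u' ∧ a = a' := by
  have h1 : u + a = u' + a' := by
    rcases lt_trichotomy (u + a) (u' + a') with h2 | h2 | h2
    · nlinarith
    · exact h2
    · nlinarith
  constructor
  · rw [h1] at h; omega
  · rw [h1] at h; omega

theorem cd_inj : ∀ {l l' : Hist}, cd l = cd l' → l = l' := by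
  intro l
  induction l with
  | nil =>
    intro l' h
    cases l' with
    | nil => rfl
    | cons x l' => obtain ⟨a, ε⟩ := x; simp [cd] at h
  | cons x l ih =>
    intro l' h
    obtain ⟨a, ε⟩ := x
    cases l' with
    | nil => simp [cd] at h
    | cons x' l' =>
      obtain ⟨a', ε'⟩ := x'
      simp only [cd] at h
      have hb : bn ε = bn ε' := by
        have h1 : bn ε ≤ 1 := by unfold bn; split <;> omega
        have h2 : bn ε' ≤ 1 := by unfold bn; split <;> omega
        omega
      have h1 : (cd l + a) * (cd l + a) + cd l = (cd l' + a') * (cd l' + a') + cd l' := by omega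
      obtain ⟨h2, h3⟩ := idx_inj h1
      rw [bn_inj hb, h3, ih h2]

end Pool.Agent.Lib_helper6.TA
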