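import Pool.Agent.Lib_helper6.TA6

set_option autoImplicit false
open Encodable

namespace Pool.Agent.Lib_helper6.TA

theorem suffix_map {α β : Type} {f : α → β} {s : List β} {l : List α} (h : s <:+ l.map f) :
    ∃ l', l' <:+ l ∧ s = l'.map f := by
  obtain ⟨x, hx⟩ := h
  obtain ⟨l1, l2, rfl, h1, h2⟩ := List.map_eq_append_iff.1 hx.symm
  exact ⟨l2, ⟨l1, rfl⟩, h2.symm⟩

theorem suffix_cons_map {ε : Bool} {s : List Bool} {l : Hist} (h : (ε :: s) <:+ l.map Prod.snd) :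
    ∃ (a : ℕ) (l' : Hist), ((a, ε) :: l') <:+ l ∧ s = l'.map Prod.snd := by
  obtain ⟨l', hl', he⟩ := suffix_map h
  cases l' with
  | nil => simp at he
  | cons x l' =>
    obtain ⟨a, ε'⟩ := x
    simp only [List.map_cons, List.cons.injEq] at he
    obtain ⟨rfl, rfl⟩ := he
    exact ⟨a, l', hl', rfl⟩

theorem Fr.good {ν : ℕ} {l : Hist} (h : Fr ν l) : ∃ ρ, Good ν l ρ := by
  obtain ⟨ρ, _, hρ⟩ := h 0
  exact ⟨ρ, hρ⟩

theorem Good.bit {ν : ℕ} {l : Hist} {ρ : ℕ} (h : Good ν l ρ) {n : ℕ} {b : Bool} {s : List Bool}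
    (hs : (b :: s) <:+ l.map Prod.snd) (hl : s.length = 2 * n + 1) (hn : n < ν) :
    tb ρ n = b := by
  obtain ⟨a, l', hl', he⟩ := suffix_cons_map hs
  have := (h l' a b hl').2.1 n (by rw [← hl, he]; simp) hn
  exact this

/-- decided bits determine the prefix -/
theorem Good.pfx_eq {ν : ℕ} {l : Hist} {ρ : ℕ} (h : Good ν l ρ) {m : ℕ} (hm : m ≤ ν)
    (g : ℕ → Bool)
    (hg : ∀ n, n < m → ∃ s : List Bool, (g n :: s) <:+ l.map Prod.snd ∧ s.length = 2 * n + 1) :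
    ∀ m', m' ≤ m → pfx ρ m' = (List.range m').map g := by
  intro m' hm'
  unfold pfx
  apply List.map_congr_left
  intro n hn
  have hn' : n < m := lt_of_lt_of_le (List.mem_range.1 hn) hm'
  obtain ⟨s, hs, hl⟩ := hg n hn'
  exact h.bit hs hl (lt_of_lt_of_le hn' hm)

/-- sentence (S5) -/
theorem no_bad {ν : ℕ} {l : Hist} (h : Fr ν l) {m k : ℕ} (hm : m ≤ ν) (g : ℕ → Bool)
    (hg : ∀ n, n < m → ∃ s : List Bool, (g n :: s) <:+ l.map Prod.snd ∧ s.length = 2 * n + 1)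
    {ε : Bool} {s : List Bool} (hs : (ε :: s) <:+ l.map Prod.snd) (hl : s.length = 2 * k)
    (hv : bn ε ∈ val k ((List.range m).map g))
    (hv' : ∀ m', m' < m → ∀ y, y ∉ val k ((List.range m').map g)) : False := by
  obtain ⟨ρ, hρ⟩ := h.good
  obtain ⟨a, l', hl', he⟩ := suffix_cons_map hs
  have hp := hρ.pfx_eq hm g hg
  refine (hρ l' a ε hl').1 k (by rw [← hl, he]; simp) m hm ⟨?_, ?_⟩
  · rw [hp m le_rfl]; exact hv
  · intro m' hm' y
    rw [hp m' hm'.le]; exact hv' m' hm' y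

/-- sentence (S6) -/
theorem col_eq {ν : ℕ} {l : Hist} (h : Fr ν l) {a : ℕ} {ε : Bool} {l' : Hist}
    (hl' : ((a, ε) :: l') <:+ l) {k : ℕ} (hk : pos (ε :: l'.map Prod.snd) k < ν)
    {b : Bool} {s : List Bool} (hs : (b :: s) <:+ l.map Prod.snd)
    (hl : s.length = 2 * pos (ε :: l'.map Prod.snd) k + 1) : tb a k = b := by
  obtain ⟨ρ, hρ⟩ := h.good
  rw [← (hρ l' a ε hl').2.2 k hk]
  exact hρ.bit hs hl hk

/-- relation `R1` -/
def R1 (ν μ u : ℕ) : Prop := ∃ l : Hist, cd l = u ∧ (∀ x ∈ l, x.1 < μ) ∧ Fr ν l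

def Lt (u ν : ℕ) : Prop := ∃ l : Hist, cd l = u ∧ l.length < ν

def idx (u a : ℕ) : ℕ := (u + a) * (u + a) + u

def Z0 (w₁ w₂ x : ℕ) : Prop := ∃ h, w₁ = h * ((x + 1) * w₂ + 1)
def Z1 (w₁ w₂ x : ℕ) : Prop := ∃ h, w₁ = h * ((x + 1) * w₂ + 1) + 1

def Tab (ν μ w₁ w₂ : ℕ) : Prop := ∀ u a, R1 ν μ u → Lt u ν → a < μ →
  (Z0 w₁ w₂ (idx u a) ∧ ¬ Z1 w₁ w₂ (idx u a) ∧ R1 ν μ (idx u a + idx u a + 1)) ∨
  (¬ Z0 w₁ w₂ (idx u a) ∧ Z1 w₁ w₂ (idx u a) ∧ R1 ν μ (idx u a + idx u a + 1 + 1))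

theorem cd_bound (μ n : ℕ) : ∃ B, ∀ l : Hist, l.length ≤ n → (∀ x ∈ l, x.1 < μ) → cd l ≤ B := by
  induction n with
  | zero =>
    refine ⟨0, fun l hl _ => ?_⟩
    have : l = [] := List.eq_nil_of_length_eq_zero (Nat.le_zero.1 hl)
    subst this
    exact le_rfl
  | succ n ih =>
    obtain ⟨B, hB⟩ := ih
    refine ⟨2 * ((B + μ) * (B + μ) + B) + 1 + 1, fun l hl hx => ?_⟩
    cases l with
    | nil => simp [cd]
    | cons x l =>
      obtain ⟨a, ε⟩ := x
      have h1 : cd l ≤ B := hB l (by simpa using hl) (fun y hy => hx y (by simp [hy]))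
      have h2 : a < μ := hx (a, ε) (by simp)
      have h3 : bn ε ≤ 1 := by unfold bn; split <;> omega
      simp only [cd]
      have h4 : (cd l + a) * (cd l + a) ≤ (B + μ) * (B + μ) :=
        Nat.mul_le_mul (by omega) (by omega)
      omega

theorem cd_cons (a : ℕ) (ε : Bool) (l : Hist) :
    cd ((a, ε) :: l) = idx (cd l) a + idx (cd l) a + bn ε + 1 := by
  simp only [cd, idx]; ring

open Classical in
theorem exists_tab (ν μ : ℕ) : ∃ w₁ w₂, Tab ν μ w₁ w₂ := by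
  obtain ⟨B, hB⟩ := cd_bound μ ν
  set N := idx B μ with hN
  have hidx : ∀ u a, u ≤ B → a < μ → idx u a ≤ N := by
    intro u a hu ha
    rw [hN]; unfold idx
    exact Nat.add_le_add (Nat.mul_le_mul (by omega) (by omega)) hu
  obtain ⟨w, hw⟩ := exists_beta (fun x => if x = N + 1 then 1 else
    if ∃ (l : Hist) (a : ℕ), x = idx (cd l) a ∧ Fr ν ((a, false) :: l) then 0 else 1) (N + 1)
  have hw2 : 0 < w.unpair.2 := by
    by_contra hc
    have h0 : w.unpair.2 = 0 := by omega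
    have := hw (N + 1) le_rfl
    simp only [if_true] at this
    unfold Nat.beta at this
    rw [h0] at this
    simp at this
    omega
  refine ⟨w.unpair.1, w.unpair.2, fun u a hu hL ha => ?_⟩
  obtain ⟨l, hlu, hlμ, hF⟩ := hu
  obtain ⟨l2, hl2u, hl2⟩ := hL
  have hll : l = l2 := cd_inj (hlu.trans hl2u.symm)
  subst hll
  have hlu' : u ≤ B := by rw [← hlu]; exact hB l (by omega) hlμ
  set x := idx u a with hx
  have hxN : x ≤ N := hidx u a hlu' ha
  have hm : 1 < (x + 1) * w.unpair.2 + 1 := by nlinarith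
  have hZ0 : Z0 w.unpair.1 w.unpair.2 x ↔ Nat.beta w x = 0 := by
    unfold Z0 Nat.beta
    constructor
    · rintro ⟨h, hh⟩; rw [hh]; simp
    · intro h
      obtain ⟨c, hc⟩ := Nat.dvd_of_mod_eq_zero h
      exact ⟨c, by rw [hc, mul_comm]⟩
  have hZ1 : Z1 w.unpair.1 w.unpair.2 x ↔ Nat.beta w x = 1 := by
    unfold Z1 Nat.beta
    constructor
    · rintro ⟨h, hh⟩
      rw [hh, mul_comm, Nat.mul_add_mod]
      exact Nat.mod_eq_of_lt hm
    · intro h
      refine ⟨w.unpair.1 / ((x + 1) * w.unpair.2 + 1), ?_⟩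
      have := Nat.div_add_mod w.unpair.1 ((x + 1) * w.unpair.2 + 1)
      rw [h] at this
      rw [mul_comm]; omega
  rw [hZ0, hZ1, hw x (by omega), if_neg (by omega)]
  by_cases hc : ∃ (l : Hist) (a : ℕ), x = idx (cd l) a ∧ Fr ν ((a, false) :: l)
  · rw [if_pos hc]
    left
    obtain ⟨l', a', hx', hF'⟩ := hc
    obtain ⟨h1, h2⟩ := idx_inj (show (u + a) * (u + a) + u = (cd l' + a') * (cd l' + a') + cd l' from
      (hx.symm.trans hx'))
    have h3 : l = l' := cd_inj (hlu.trans h1)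
    subst h3
    subst h2
    refine ⟨rfl, by simp, (a, false) :: l, ?_, ?_, hF'⟩
    · rw [cd_cons, hlu, ← hx]; simp [bn]
    · intro y hy
      rcases List.mem_cons.1 hy with h | h
      · rw [h]; exact ha
      · exact hlμ y h
  · rw [if_neg hc]
    right
    obtain ⟨ε, hε⟩ := Fr_cover ν l hF a
    have hε' : ε = true := by
      cases ε with
      | true => rfl
      | false => exact absurd ⟨l, a, by rw [hlu], hε⟩ hc
    subst hε'
    refine ⟨by simp, rfl, (a, true) :: l, ?_, ?_, hε⟩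
    · rw [cd_cons, hlu, ← hx]; simp [bn]
    · intro y hy
      rcases List.mem_cons.1 hy with h | h
      · rw [h]; exact ha
      · exact hlμ y h

theorem R1_nil (ν μ : ℕ) : R1 ν μ 0 := ⟨[], rfl, by simp, Fr_nil ν⟩

/-- the choices of the history coded by `u` are `c` -/
def RC (c : List Bool) (u : ℕ) : Prop := ∃ l : Hist, cd l = u ∧ l.map Prod.snd = c

/-- the history coded by `u` has an entry with choices `s` up to that entry, and second component `a` -/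
def Ent (s : List Bool) (u a : ℕ) : Prop :=
  ∃ (l l' : Hist) (ε : Bool), cd l = u ∧ ((a, ε) :: l') <:+ l ∧ ε :: l'.map Prod.snd = s

theorem RC_nil : RC [] 0 := ⟨[], rfl, rfl⟩

theorem RC_cons {c : List Bool} {u : ℕ} (h : RC c u) (a : ℕ) (ε : Bool) :
    RC (ε :: c) (idx u a + idx u a + bn ε + 1) := by
  obtain ⟨l, rfl, rfl⟩ := h
  exact ⟨(a, ε) :: l, cd_cons a ε l, rfl⟩

theorem Ent_new {c : List Bool} {u : ℕ} (h : RC c u) (a : ℕ) (ε : Bool) :
    Ent (ε :: c) (idx u a + idx u a + bn ε + 1) a := by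
  obtain ⟨l, rfl, rfl⟩ := h
  exact ⟨(a, ε) :: l, l, ε, cd_cons a ε l, List.suffix_rfl, rfl⟩

theorem Ent_old {s : List Bool} {u a : ℕ} (h : Ent s u a) (a' : ℕ) (ε' : Bool) :
    Ent s (idx u a' + idx u a' + bn ε' + 1) a := by
  obtain ⟨l, l', ε, rfl, h1, h2⟩ := h
  exact ⟨(a', ε') :: l, l', ε, cd_cons a' ε' l, h1.trans (List.suffix_cons _ _), h2⟩

theorem Lt_of_RC {c : List Bool} {u ν : ℕ} (h : RC c u) (hν : c.length < ν) : Lt u ν := by
  obtain ⟨l, rfl, rfl⟩ := h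
  exact ⟨l, rfl, by simpa using hν⟩

end Pool.Agent.Lib_helper6.TA
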