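import Pool.Agent.Lib_helper6.TA5
import Pool.Agent.Lib_helper6.TA6b

set_option autoImplicit false
open FirstOrder FirstOrder.Language Encodable

namespace Pool.Agent.Lib_helper6.TA

attribute [local instance] stdS

theorem prim_beta : Primrec₂ Nat.beta := by
  unfold Nat.beta
  refine Primrec.nat_mod.comp₂ ?_ ?_
  · exact (Primrec.fst.comp (Primrec.unpair.comp Primrec.fst)).to₂
  · exact (Primrec.succ.comp (Primrec.nat_mul.comp (Primrec.succ.comp Primrec.snd)
      (Primrec.snd.comp (Primrec.unpair.comp Primrec.fst)))).to₂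

theorem prim_tb : Primrec (fun p : ℕ × ℕ => tb p.1 p.2) := by
  unfold tb
  exact (Primrec.eq.comp (prim_beta.comp Primrec.fst Primrec.snd) (Primrec.const 1)).decide

theorem prim_pfx : Primrec (fun p : ℕ × ℕ => pfx p.1 p.2) := by
  unfold pfx
  refine Primrec.list_map (Primrec.list_range.comp Primrec.snd) ?_
  exact (prim_tb.comp (Primrec.pair (Primrec.fst.comp Primrec.fst) Primrec.snd)).to₂

theorem prim_pos : Primrec (fun p : List Bool × ℕ => pos p.1 p.2) := by
  unfold pos
  exact Primrec₂.natPair.comp (Primrec.encode.comp Primrec.fst) Primrec.snd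

theorem prim_bn : Primrec bn := Primrec.dom_bool bn

theorem cd_foldr (l : Hist) :
    cd l = l.foldr (fun x r => 2 * ((r + x.1) * (r + x.1) + r) + bn x.2 + 1) 0 := by
  induction l with
  | nil => rfl
  | cons x l ih => obtain ⟨a, ε⟩ := x; simp only [cd, List.foldr_cons, ← ih]

theorem prim_cd : Primrec cd := by
  have h : Primrec (fun l : Hist =>
      l.foldr (fun x r => 2 * ((r + x.1) * (r + x.1) + r) + bn x.2 + 1) 0) := by
    refine Primrec.list_foldr (f := fun l : Hist => l) (g := fun _ : Hist => (0 : ℕ))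
      (h := fun (_ : Hist) (p : (ℕ × Bool) × ℕ) =>
        2 * ((p.2 + p.1.1) * (p.2 + p.1.1) + p.2) + bn p.1.2 + 1)
      Primrec.id (Primrec.const 0) ?_
    -- α = Hist, element (ℕ × Bool) × ℕ
    have hr : Primrec (fun p : Hist × ((ℕ × Bool) × ℕ) => p.2.2) :=
      Primrec.snd.comp Primrec.snd
    have ha : Primrec (fun p : Hist × ((ℕ × Bool) × ℕ) => p.2.1.1) :=
      Primrec.fst.comp (Primrec.fst.comp Primrec.snd)
    have hb : Primrec (fun p : Hist × ((ℕ × Bool) × ℕ) => bn p.2.1.2) :=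
      prim_bn.comp (Primrec.snd.comp (Primrec.fst.comp Primrec.snd))
    have hs : Primrec (fun p : Hist × ((ℕ × Bool) × ℕ) => p.2.2 + p.2.1.1) :=
      Primrec.nat_add.comp hr ha
    have h1 := Primrec.nat_add.comp (Primrec.nat_mul.comp hs hs) hr
    have h2 := Primrec.nat_add.comp (Primrec.nat_mul.comp (Primrec.const 2) h1) hb
    exact (Primrec.succ.comp h2).to₂
  exact h.of_eq (fun l => (cd_foldr l).symm)

theorem prim_snds : Primrec (fun l : Hist => l.map Prod.snd) :=
  Primrec.list_map Primrec.id (Primrec.snd.comp Primrec.snd).to₂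

theorem part_val : Partrec (fun p : ℕ × List Bool => val p.1 p.2) := by
  unfold val
  refine Nat.Partrec.Code.eval_part.comp ?_ ?_
  · exact (Computable.ofNat Nat.Partrec.Code).comp Computable.fst
  · exact (Primrec₂.natPair.comp (Primrec.encode.comp
      (Primrec.list_map Primrec.snd (prim_bn.comp Primrec.snd).to₂)) Primrec.fst).to_comp

theorem arP_suffix {α : Type} [Primcodable α] [DecidableEq α] :
    ArP (fun p : List α × List α => p.1 <:+ p.2) := by
  have h : ArP (fun p : (List α × List α) × List α => p.2 ++ p.1.1 = p.1.2) :=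
    ArP.eq_comp (Primrec.list_append.comp Primrec.snd (Primrec.fst.comp Primrec.fst)).to_comp
      (Primrec.snd.comp Primrec.fst).to_comp
  exact ArP.ex (P := fun (p : List α × List α) x => x ++ p.1 = p.2) h

theorem arP_FV : ArP (fun p : (ℕ × ℕ) × (ℕ × Bool) => FV p.1.1 p.1.2 p.2.1 p.2.2) := by
  have h1 : ArP (fun p : (ℕ × ℕ) × (ℕ × Bool) => bn p.2.2 ∈ val p.1.2 (pfx p.1.1 p.2.1)) := by
    have hc : Computable (fun p : (ℕ × ℕ) × (ℕ × Bool) =>
        (((p.1.2, pfx p.1.1 p.2.1), bn p.2.2) : (ℕ × List Bool) × ℕ)) := by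
      refine Primrec.to_comp (Primrec.pair (Primrec.pair (Primrec.snd.comp Primrec.fst)
        (prim_pfx.comp (Primrec.pair (Primrec.fst.comp Primrec.fst)
          (Primrec.fst.comp Primrec.snd)))) (prim_bn.comp (Primrec.snd.comp Primrec.snd)))
    exact (ArP.graph (f := fun p : ℕ × List Bool => val p.1 p.2) part_val).comp hc
  have h2 : ArP (fun p : (((ℕ × ℕ) × (ℕ × Bool)) × ℕ) × ℕ =>
      p.1.2 < p.1.1.2.1 → ¬ p.2 ∈ val p.1.1.1.2 (pfx p.1.1.1.1 p.1.2)) := by
    have hc : Computable (fun p : (((ℕ × ℕ) × (ℕ × Bool)) × ℕ) × ℕ =>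
        (((p.1.1.1.2, pfx p.1.1.1.1 p.1.2), p.2) : (ℕ × List Bool) × ℕ)) := by
      refine Primrec.to_comp (Primrec.pair (Primrec.pair
        (Primrec.snd.comp (Primrec.fst.comp (Primrec.fst.comp Primrec.fst)))
        (prim_pfx.comp (Primrec.pair (Primrec.fst.comp (Primrec.fst.comp
          (Primrec.fst.comp Primrec.fst))) (Primrec.snd.comp Primrec.fst)))) Primrec.snd)
    refine ArP.imp (ArP.lt_comp (Primrec.snd.comp Primrec.fst).to_comp
      (Primrec.fst.comp (Primrec.snd.comp (Primrec.fst.comp Primrec.fst))).to_comp) ?_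
    exact ((ArP.graph (f := fun p : ℕ × List Bool => val p.1 p.2) part_val).comp hc).not
  have h3 : ArP (fun p : (ℕ × ℕ) × (ℕ × Bool) =>
      ∀ m' : ℕ, ∀ y : ℕ, m' < p.2.1 → ¬ y ∈ val p.1.2 (pfx p.1.1 m')) :=
    ArP.all (P := fun (p : (ℕ × ℕ) × (ℕ × Bool)) (m' : ℕ) =>
      ∀ y : ℕ, m' < p.2.1 → ¬ y ∈ val p.1.2 (pfx p.1.1 m'))
      (ArP.all (P := fun (p : ((ℕ × ℕ) × (ℕ × Bool)) × ℕ) (y : ℕ) =>
        p.2 < p.1.2.1 → ¬ y ∈ val p.1.1.2 (pfx p.1.1.1 p.2)) h2)
  refine (h1.and h3).of_eq (fun p => ?_)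
  unfold FV
  refine and_congr Iff.rfl ?_
  constructor
  · intro h m' hm' y; exact h m' y hm'
  · intro h m' y hm'; exact h m' hm' y

end Pool.Agent.Lib_helper6.TA
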