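import Pool.Agent.Lib_helper6.TA7

set_option autoImplicit false
open FirstOrder FirstOrder.Language Encodable

namespace Pool.Agent.Lib_helper6.TA

attribute [local instance] stdS

/-- context `(((ν, l), (a, ε)), ρ)` -/
abbrev Γ := ((ℕ × Hist) × (ℕ × Bool)) × ℕ

theorem pν : Primrec (fun q : Γ => q.1.1.1) :=
  Primrec.fst.comp (Primrec.fst.comp Primrec.fst)
theorem pl : Primrec (fun q : Γ => q.1.1.2) :=
  Primrec.snd.comp (Primrec.fst.comp Primrec.fst)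
theorem pa : Primrec (fun q : Γ => q.1.2.1) :=
  Primrec.fst.comp (Primrec.snd.comp Primrec.fst)
theorem pε : Primrec (fun q : Γ => q.1.2.2) :=
  Primrec.snd.comp (Primrec.snd.comp Primrec.fst)
theorem pρ : Primrec (fun q : Γ => q.2) := Primrec.snd

theorem plen : Primrec (fun q : Γ => q.1.1.2.length) := Primrec.list_length.comp pl
/-- the column name -/
theorem pcol : Primrec (fun q : Γ => q.1.2.2 :: q.1.1.2.map Prod.snd) :=
  Primrec.list_cons.comp pε (prim_snds.comp pl)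

theorem arP_c1 : ArP (fun q : Γ => ∀ k, q.1.1.2.length = 2 * k → ∀ m, m ≤ q.1.1.1 →
    ¬ FV q.2 k m q.1.2.2) := by
  refine ArP.all (P := fun (q : Γ) (k : ℕ) => q.1.1.2.length = 2 * k → ∀ m, m ≤ q.1.1.1 →
    ¬ FV q.2 k m q.1.2.2) ?_
  refine ArP.imp (ArP.eq_comp (plen.comp Primrec.fst).to_comp
    (Primrec.nat_mul.comp (Primrec.const 2) Primrec.snd).to_comp) ?_
  refine ArP.all (P := fun (q : Γ × ℕ) (m : ℕ) => m ≤ q.1.1.1.1 →
    ¬ FV q.1.2 q.2 m q.1.1.2.2) ?_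
  refine ArP.imp (ArP.le_comp Primrec.snd.to_comp
    (pν.comp (Primrec.fst.comp Primrec.fst)).to_comp) ?_
  refine ArP.not ?_
  have hc : Computable (fun q : (Γ × ℕ) × ℕ =>
      (((q.1.1.2, q.1.2), (q.2, q.1.1.1.2.2)) : (ℕ × ℕ) × (ℕ × Bool))) := by
    refine Primrec.to_comp (Primrec.pair (Primrec.pair (pρ.comp (Primrec.fst.comp Primrec.fst))
      (Primrec.snd.comp Primrec.fst)) (Primrec.pair Primrec.snd
        (pε.comp (Primrec.fst.comp Primrec.fst))))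
  exact arP_FV.comp hc

theorem arP_c2 : ArP (fun q : Γ => ∀ k, q.1.1.2.length = 2 * k + 1 → k < q.1.1.1 →
    tb q.2 k = q.1.2.2) := by
  refine ArP.all (P := fun (q : Γ) (k : ℕ) => q.1.1.2.length = 2 * k + 1 → k < q.1.1.1 →
    tb q.2 k = q.1.2.2) ?_
  refine ArP.imp (ArP.eq_comp (plen.comp Primrec.fst).to_comp
    (Primrec.succ.comp (Primrec.nat_mul.comp (Primrec.const 2) Primrec.snd)).to_comp) ?_
  refine ArP.imp (ArP.lt_comp Primrec.snd.to_comp (pν.comp Primrec.fst).to_comp) ?_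
  exact ArP.eq_comp (prim_tb.comp (Primrec.pair (pρ.comp Primrec.fst) Primrec.snd)).to_comp
    (pε.comp Primrec.fst).to_comp

theorem arP_c3 : ArP (fun q : Γ => ∀ k, pos (q.1.2.2 :: q.1.1.2.map Prod.snd) k < q.1.1.1 →
    tb q.2 (pos (q.1.2.2 :: q.1.1.2.map Prod.snd) k) = tb q.1.2.1 k) := by
  refine ArP.all (P := fun (q : Γ) (k : ℕ) => pos (q.1.2.2 :: q.1.1.2.map Prod.snd) k < q.1.1.1 →
    tb q.2 (pos (q.1.2.2 :: q.1.1.2.map Prod.snd) k) = tb q.1.2.1 k) ?_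
  have hp : Primrec (fun p : Γ × ℕ => pos (p.1.1.2.2 :: p.1.1.1.2.map Prod.snd) p.2) :=
    prim_pos.comp (Primrec.pair (pcol.comp Primrec.fst) Primrec.snd)
  refine ArP.imp (ArP.lt_comp hp.to_comp (pν.comp Primrec.fst).to_comp) ?_
  exact ArP.eq_comp (prim_tb.comp (Primrec.pair (pρ.comp Primrec.fst) hp)).to_comp
    (prim_tb.comp (Primrec.pair (pa.comp Primrec.fst) Primrec.snd)).to_comp

theorem arP_Con : ArP (fun q : Γ => Con q.1.1.1 q.1.1.2 q.1.2.1 q.1.2.2 q.2) :=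
  (arP_c1.and (arP_c2.and arP_c3)).of_eq (fun _ => Iff.rfl)

theorem arP_Good : ArP (fun q : (ℕ × Hist) × ℕ => Good q.1.1 q.1.2 q.2) := by
  have h : ArP (fun p : ((((ℕ × Hist) × ℕ) × Hist) × ℕ) × Bool =>
      ((p.1.2, p.2) :: p.1.1.2) <:+ p.1.1.1.1.2 →
        Con p.1.1.1.1.1 p.1.1.2 p.1.2 p.2 p.1.1.1.2) := by
    have hν : Primrec (fun p : ((((ℕ × Hist) × ℕ) × Hist) × ℕ) × Bool => p.1.1.1.1.1) :=
      Primrec.fst.comp (Primrec.fst.comp (Primrec.fst.comp (Primrec.fst.comp Primrec.fst)))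
    have hl : Primrec (fun p : ((((ℕ × Hist) × ℕ) × Hist) × ℕ) × Bool => p.1.1.1.1.2) :=
      Primrec.snd.comp (Primrec.fst.comp (Primrec.fst.comp (Primrec.fst.comp Primrec.fst)))
    have hρ : Primrec (fun p : ((((ℕ × Hist) × ℕ) × Hist) × ℕ) × Bool => p.1.1.1.2) :=
      Primrec.snd.comp (Primrec.fst.comp (Primrec.fst.comp Primrec.fst))
    have hl' : Primrec (fun p : ((((ℕ × Hist) × ℕ) × Hist) × ℕ) × Bool => p.1.1.2) :=
      Primrec.snd.comp (Primrec.fst.comp Primrec.fst)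
    have ha : Primrec (fun p : ((((ℕ × Hist) × ℕ) × Hist) × ℕ) × Bool => p.1.2) :=
      Primrec.snd.comp Primrec.fst
    have he : Primrec (fun p : ((((ℕ × Hist) × ℕ) × Hist) × ℕ) × Bool => p.2) := Primrec.snd
    refine ArP.imp ?_ ?_
    · exact (arP_suffix (α := ℕ × Bool)).comp
        (Primrec.pair (Primrec.list_cons.comp (Primrec.pair ha he) hl') hl).to_comp
    · exact arP_Con.comp (Primrec.pair (Primrec.pair (Primrec.pair hν hl') (Primrec.pair ha he))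
        hρ).to_comp
  refine ArP.all (P := fun (q : (ℕ × Hist) × ℕ) (l' : Hist) => ∀ (a : ℕ) (ε : Bool),
    ((a, ε) :: l') <:+ q.1.2 → Con q.1.1 l' a ε q.2) ?_
  refine ArP.all (P := fun (q : ((ℕ × Hist) × ℕ) × Hist) (a : ℕ) => ∀ (ε : Bool),
    ((a, ε) :: q.2) <:+ q.1.1.2 → Con q.1.1.1 q.2 a ε q.1.2) ?_
  exact ArP.all (P := fun (q : (((ℕ × Hist) × ℕ) × Hist) × ℕ) (ε : Bool) =>
    ((q.2, ε) :: q.1.2) <:+ q.1.1.1.2 → Con q.1.1.1.1 q.1.2 q.2 ε q.1.1.2) h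

theorem arP_agree : ArP (fun q : ((ℕ × Hist) × ℕ) × ℕ => ∀ (s : List Bool) (k : ℕ),
    q.1.1.2.map Prod.snd <:+ s → s ≠ q.1.1.2.map Prod.snd →
    pos s k < q.1.1.1 → tb q.2 (pos s k) = tb q.1.2 (pos s k)) := by
  refine ArP.all (P := fun (q : ((ℕ × Hist) × ℕ) × ℕ) (s : List Bool) => ∀ (k : ℕ),
    q.1.1.2.map Prod.snd <:+ s → s ≠ q.1.1.2.map Prod.snd →
    pos s k < q.1.1.1 → tb q.2 (pos s k) = tb q.1.2 (pos s k)) ?_
  refine ArP.all (P := fun (q : (((ℕ × Hist) × ℕ) × ℕ) × List Bool) (k : ℕ) =>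
    q.1.1.1.2.map Prod.snd <:+ q.2 → q.2 ≠ q.1.1.1.2.map Prod.snd →
    pos q.2 k < q.1.1.1.1 → tb q.1.2 (pos q.2 k) = tb q.1.1.2 (pos q.2 k)) ?_
  have hc : Primrec (fun p : ((((ℕ × Hist) × ℕ) × ℕ) × List Bool) × ℕ =>
      p.1.1.1.1.2.map Prod.snd) :=
    prim_snds.comp (Primrec.snd.comp (Primrec.fst.comp (Primrec.fst.comp
      (Primrec.fst.comp Primrec.fst))))
  have hν : Primrec (fun p : ((((ℕ × Hist) × ℕ) × ℕ) × List Bool) × ℕ => p.1.1.1.1.1) :=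
    Primrec.fst.comp (Primrec.fst.comp (Primrec.fst.comp (Primrec.fst.comp Primrec.fst)))
  have hτ : Primrec (fun p : ((((ℕ × Hist) × ℕ) × ℕ) × List Bool) × ℕ => p.1.1.1.2) :=
    Primrec.snd.comp (Primrec.fst.comp (Primrec.fst.comp Primrec.fst))
  have hρ : Primrec (fun p : ((((ℕ × Hist) × ℕ) × ℕ) × List Bool) × ℕ => p.1.1.2) :=
    Primrec.snd.comp (Primrec.fst.comp Primrec.fst)
  have hs : Primrec (fun p : ((((ℕ × Hist) × ℕ) × ℕ) × List Bool) × ℕ => p.1.2) :=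
    Primrec.snd.comp Primrec.fst
  have hp : Primrec (fun p : ((((ℕ × Hist) × ℕ) × ℕ) × List Bool) × ℕ => pos p.1.2 p.2) :=
    prim_pos.comp (Primrec.pair hs Primrec.snd)
  refine ArP.imp ((arP_suffix (α := Bool)).comp (Primrec.pair hc hs).to_comp) ?_
  refine ArP.imp (ArP.not (ArP.eq_comp hs.to_comp hc.to_comp)) ?_
  refine ArP.imp (ArP.lt_comp hp.to_comp hν.to_comp) ?_
  exact ArP.eq_comp (prim_tb.comp (Primrec.pair hρ hp)).to_comp
    (prim_tb.comp (Primrec.pair hτ hp)).to_comp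

theorem arP_Fr : ArP (fun q : ℕ × Hist => Fr q.1 q.2) := by
  refine ArP.all (P := fun (q : ℕ × Hist) (τ : ℕ) => ∃ ρ, (∀ (s : List Bool) (k : ℕ),
    q.2.map Prod.snd <:+ s → s ≠ q.2.map Prod.snd →
    pos s k < q.1 → tb ρ (pos s k) = tb τ (pos s k)) ∧ Good q.1 q.2 ρ) ?_
  refine ArP.ex (P := fun (q : (ℕ × Hist) × ℕ) (ρ : ℕ) => (∀ (s : List Bool) (k : ℕ),
    q.1.2.map Prod.snd <:+ s → s ≠ q.1.2.map Prod.snd →
    pos s k < q.1.1 → tb ρ (pos s k) = tb q.2 (pos s k)) ∧ Good q.1.1 q.1.2 ρ) ?_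
  refine ArP.and arP_agree ?_
  exact arP_Good.comp (Primrec.pair (Primrec.fst.comp Primrec.fst) Primrec.snd).to_comp

theorem ar_R1 : Ar (fun v => R1 (v 0) (v 1) (v 2)) := by
  have h : ArP (fun p : ℕ × ℕ × ℕ => ∃ l : Hist, cd l = p.2.2 ∧
      (∀ x : ℕ × Bool, [x] <:+ l ∨ (∃ l', (x :: l') <:+ l) → x.1 < p.2.1) ∧ Fr p.1 l) := by
    refine ArP.ex (P := fun (p : ℕ × ℕ × ℕ) (l : Hist) => cd l = p.2.2 ∧
      (∀ x : ℕ × Bool, [x] <:+ l ∨ (∃ l', (x :: l') <:+ l) → x.1 < p.2.1) ∧ Fr p.1 l) ?_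
    refine ArP.and (ArP.eq_comp (prim_cd.comp Primrec.snd).to_comp
      (Primrec.snd.comp (Primrec.snd.comp Primrec.fst)).to_comp) ?_
    refine ArP.and ?_ (arP_Fr.comp (Primrec.pair (Primrec.fst.comp Primrec.fst)
      Primrec.snd).to_comp)
    refine ArP.all (P := fun (p : (ℕ × ℕ × ℕ) × Hist) (x : ℕ × Bool) =>
      [x] <:+ p.2 ∨ (∃ l', (x :: l') <:+ p.2) → x.1 < p.1.2.1) ?_
    refine ArP.imp (ArP.or ?_ ?_) ?_
    · exact (arP_suffix (α := ℕ × Bool)).comp (Primrec.pair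
        (Primrec.list_cons.comp Primrec.snd (Primrec.const []))
        (Primrec.snd.comp Primrec.fst)).to_comp
    · refine ArP.ex (P := fun (p : ((ℕ × ℕ × ℕ) × Hist) × (ℕ × Bool)) (l' : Hist) =>
        (p.2 :: l') <:+ p.1.2) ?_
      exact (arP_suffix (α := ℕ × Bool)).comp (Primrec.pair
        (Primrec.list_cons.comp (Primrec.snd.comp Primrec.fst) Primrec.snd)
        (Primrec.snd.comp (Primrec.fst.comp Primrec.fst))).to_comp
    · exact ArP.lt_comp (Primrec.fst.comp Primrec.snd).to_comp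
        (Primrec.fst.comp (Primrec.snd.comp (Primrec.fst.comp Primrec.fst))).to_comp
  refine h.to3.congr (fun v => ?_)
  unfold R1
  refine exists_congr fun l => and_congr Iff.rfl (and_congr ?_ Iff.rfl)
  constructor
  · intro h x hx
    obtain ⟨l1, l2, rfl⟩ := List.append_of_mem hx
    exact h x (Or.inr ⟨l2, ⟨l1, rfl⟩⟩)
  · rintro h x (hx | ⟨l', hx⟩)
    · exact h x (hx.subset (by simp))
    · exact h x (hx.subset (by simp))

theorem ar_Lt : Ar (fun v => Lt (v 0) (v 1)) := by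
  have h : ArP (fun p : ℕ × ℕ => ∃ l : Hist, cd l = p.1 ∧ l.length < p.2) := by
    refine ArP.ex (P := fun (p : ℕ × ℕ) (l : Hist) => cd l = p.1 ∧ l.length < p.2) ?_
    exact ArP.and (ArP.eq_comp (prim_cd.comp Primrec.snd).to_comp
      (Primrec.fst.comp Primrec.fst).to_comp)
      (ArP.lt_comp (Primrec.list_length.comp Primrec.snd).to_comp
        (Primrec.snd.comp Primrec.fst).to_comp)
  exact h.to2

theorem ar_RC (c : List Bool) : Ar (fun v => RC c (v 0)) := by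
  have h : ArP (fun p : ℕ => ∃ l : Hist, cd l = p ∧ l.map Prod.snd = c) := by
    refine ArP.ex (P := fun (p : ℕ) (l : Hist) => cd l = p ∧ l.map Prod.snd = c) ?_
    exact ArP.and (ArP.eq_comp (prim_cd.comp Primrec.snd).to_comp Primrec.fst.to_comp)
      (ArP.eq_comp (prim_snds.comp Primrec.snd).to_comp (Computable.const c))
  exact h.to1

theorem ar_Ent (s : List Bool) : Ar (fun v => Ent s (v 0) (v 1)) := by
  have h : ArP (fun p : ℕ × ℕ => ∃ (l l' : Hist) (ε : Bool), cd l = p.1 ∧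
      ((p.2, ε) :: l') <:+ l ∧ ε :: l'.map Prod.snd = s) := by
    refine ArP.ex (P := fun (p : ℕ × ℕ) (l : Hist) => ∃ (l' : Hist) (ε : Bool), cd l = p.1 ∧
      ((p.2, ε) :: l') <:+ l ∧ ε :: l'.map Prod.snd = s) ?_
    refine ArP.ex (P := fun (p : (ℕ × ℕ) × Hist) (l' : Hist) => ∃ (ε : Bool), cd p.2 = p.1.1 ∧
      ((p.1.2, ε) :: l') <:+ p.2 ∧ ε :: l'.map Prod.snd = s) ?_
    refine ArP.ex (P := fun (p : ((ℕ × ℕ) × Hist) × Hist) (ε : Bool) => cd p.1.2 = p.1.1.1 ∧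
      ((p.1.1.2, ε) :: p.2) <:+ p.1.2 ∧ ε :: p.2.map Prod.snd = s) ?_
    have h1 : Primrec (fun p : (((ℕ × ℕ) × Hist) × Hist) × Bool => p.1.1.2) :=
      Primrec.snd.comp (Primrec.fst.comp Primrec.fst)
    have h2 : Primrec (fun p : (((ℕ × ℕ) × Hist) × Hist) × Bool => p.1.1.1.1) :=
      Primrec.fst.comp (Primrec.fst.comp (Primrec.fst.comp Primrec.fst))
    have h3 : Primrec (fun p : (((ℕ × ℕ) × Hist) × Hist) × Bool => p.1.1.1.2) :=
      Primrec.snd.comp (Primrec.fst.comp (Primrec.fst.comp Primrec.fst))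
    have h4 : Primrec (fun p : (((ℕ × ℕ) × Hist) × Hist) × Bool => p.1.2) :=
      Primrec.snd.comp Primrec.fst
    refine ArP.and (ArP.eq_comp (prim_cd.comp h1).to_comp h2.to_comp) (ArP.and ?_ ?_)
    · exact (arP_suffix (α := ℕ × Bool)).comp (Primrec.pair
        (Primrec.list_cons.comp (Primrec.pair h3 Primrec.snd) h4) h1).to_comp
    · exact ArP.eq_comp (Primrec.list_cons.comp Primrec.snd (prim_snds.comp h4)).to_comp
        (Computable.const s)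
  exact h.to2

theorem ar_tb : Ar (fun v => tb (v 0) (v 1) = true) :=
  (ArP.of_computable (f := fun p : ℕ × ℕ => tb p.1 p.2) prim_tb.to_comp).to2

theorem ar_tbk (k : ℕ) : Ar (fun v => tb (v 0) k = true) :=
  (ArP.of_computable (f := fun p : ℕ => tb p k)
    (prim_tb.comp (Primrec.pair Primrec.id (Primrec.const k))).to_comp).to1

end Pool.Agent.Lib_helper6.TA
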