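import Pool.Agent.Lib_helper6.TA7b

set_option autoImplicit false
open FirstOrder FirstOrder.Language Encodable

namespace Pool.Agent.Lib_helper6.TA

attribute [local instance] stdS

/-! ### numerals, the successor cut -/

section
variable {M : Type} [A : LR.Structure M] {p q : M → M → M}

theorem exists_zero_one (hA : IsGr A p q) (hM : LR.ElementarilyEquivalent M ℕ) [Nonempty M] :
    ∃ zM oM : M, (∀ i, TrE (fun v => v i = 0) (fun v : ℕ → M => v i = zM)) ∧
      (∀ i, TrE (fun v => v i = 1) (fun v : ℕ → M => v i = oM)) := by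
  have ex0 : ∃ x : M, p x x = x := by
    have h := (TrE.add hA 0 0 0).ex 0
    have := TrE.use hM h (fun v => ⟨0, by simp⟩) (fun _ => Classical.arbitrary M)
    simpa using this
  obtain ⟨zM, hz⟩ := ex0
  have un0 : ∀ x y : M, p x x = x → p y y = y → x = y := by
    intro x y hx hy
    have h := ((TrE.add hA 0 0 0).imp ((TrE.add hA 1 1 1).imp (TrE.eq (M := M) 0 1)))
    have := TrE.use hM h (fun v h0 h1 => by omega) (fun n => if n = 0 then x else y)
    simpa [hx, hy] using this
  have t0 : ∀ i, TrE (fun v => v i = 0) (fun v : ℕ → M => v i = zM) := by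
    intro i
    refine (TrE.add hA i i i).congr (fun v => by omega) (fun v => ?_)
    constructor
    · intro h; exact un0 _ _ h hz
    · intro h; rw [h]; exact hz
  have ex1 : ∃ x : M, q x x = x ∧ x ≠ zM := by
    have h := ((TrE.mul hA 0 0 0).and (t0 0).not).ex 0
    have := TrE.use hM h (fun v => ⟨1, by simp⟩) (fun _ => zM)
    simpa using this
  obtain ⟨oM, ho, hoz⟩ := ex1
  have un1 : ∀ x y : M, q x x = x → x ≠ zM → q y y = y → y ≠ zM → x = y := by
    intro x y hx hxz hy hyz
    have h := ((TrE.mul hA 0 0 0).imp ((t0 0).not.imp ((TrE.mul hA 1 1 1).imp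
      ((t0 1).not.imp (TrE.eq (M := M) 0 1)))))
    have h2 : ∀ a : ℕ, a * a = a → a ≠ 0 → a = 1 := fun a h1 h2 =>
      Nat.eq_of_mul_eq_mul_left (Nat.pos_of_ne_zero h2) (by omega)
    have := TrE.use hM h (fun v a b c d => by rw [h2 _ a b, h2 _ c d])
      (fun n => if n = 0 then x else y)
    have := this hx hxz hy hyz
    exact this
  refine ⟨zM, oM, t0, fun i => ?_⟩
  refine ((TrE.mul hA i i i).and (t0 i).not).congr (fun v => ?_) (fun v => ?_)
  · constructor
    · rintro ⟨h1, h2⟩
      exact Nat.eq_of_mul_eq_mul_left (Nat.pos_of_ne_zero h2) (by omega)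
    · intro h; rw [h]; simp
  · constructor
    · rintro ⟨h1, h2⟩; exact un1 _ _ h1 h2 ho hoz
    · intro h; rw [h]; exact ⟨ho, hoz⟩

/-- numerals -/
def nm (p : M → M → M) (zM oM : M) : ℕ → M
  | 0 => zM
  | n + 1 => p (nm p zM oM n) oM

theorem TrE.const {zM oM : M} (hA : IsGr A p q)
    (t0 : ∀ i, TrE (fun v => v i = 0) (fun v : ℕ → M => v i = zM))
    (t1 : ∀ i, TrE (fun v => v i = 1) (fun v : ℕ → M => v i = oM)) (n : ℕ) :
    ∀ i, TrE (fun v => v i = n) (fun v : ℕ → M => v i = nm p zM oM n) := by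
  induction n with
  | zero => exact t0
  | succ n ih =>
    have h0 : TrE (fun v => v 0 = n + 1) (fun v : ℕ → M => v 0 = nm p zM oM (n + 1)) := by
      refine ((((ih 1).and ((t1 2).and (TrE.add hA 1 2 0))).ex 2).ex 1).congr (fun v => ?_)
        (fun v => ?_)
      · simp
        exact eq_comm
      · simp [nm]
        exact eq_comm
    intro i
    exact TrE.sub1 (R := fun x => x = n + 1) (R' := fun x => x = nm p zM oM (n + 1)) h0 i

theorem TrE.ge {zM oM : M} (hA : IsGr A p q)
    (t0 : ∀ i, TrE (fun v => v i = 0) (fun v : ℕ → M => v i = zM))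
    (t1 : ∀ i, TrE (fun v => v i = 1) (fun v : ℕ → M => v i = oM)) (m : ℕ) :
    ∀ i, TrE (fun v => m ≤ v i) (fun v : ℕ → M => ∀ n < m, v i ≠ nm p zM oM n) := by
  induction m with
  | zero =>
    intro i
    refine (TrE.eq (M := M) 0 0).congr (fun v => by simp) (fun v => by simp)
  | succ m ih =>
    intro i
    refine ((ih i).and (TrE.const hA t0 t1 m i).not).congr (fun v => by omega) (fun v => ?_)
    constructor
    · rintro ⟨h1, h2⟩ n hn
      rcases Nat.lt_succ_iff_lt_or_eq.1 hn with h | h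
      · exact h1 n h
      · rw [h]; exact h2
    · intro h
      exact ⟨fun n hn => h n (by omega), h m (by omega)⟩

theorem exists_nonstd {zM oM : M} (hA : IsGr A p q) (hM : LR.ElementarilyEquivalent M ℕ)
    [Nonempty M]
    (t0 : ∀ i, TrE (fun v => v i = 0) (fun v : ℕ → M => v i = zM))
    (t1 : ∀ i, TrE (fun v => v i = 1) (fun v : ℕ → M => v i = oM))
    (hE : IsEmpty (LR.Equiv M ℕ)) : ∃ ν : M, ∀ n, ν ≠ nm p zM oM n := by
  by_contra hc
  push Not at hc
  have tc := TrE.const hA t0 t1
  have hinj : Function.Injective (nm p zM oM) := by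
    intro a b hab
    by_contra hne
    have h := TrE.use hM ((tc a 0).imp (tc b 0).not) (fun v h0 h1 => hne (h0.symm.trans h1))
      (fun _ => nm p zM oM a)
    exact h rfl hab
  have hsurj : Function.Surjective (nm p zM oM) := fun x => by
    obtain ⟨n, hn⟩ := hc x
    exact ⟨n, hn.symm⟩
  have hadd : ∀ a b, p (nm p zM oM a) (nm p zM oM b) = nm p zM oM (a + b) := by
    intro a b
    have h := TrE.use hM ((tc a 0).imp ((tc b 1).imp ((TrE.add hA 0 1 2).imp (tc (a + b) 2))))
      (fun v h0 h1 h2 => by rw [← h2, h0, h1])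
      (fun n => if n = 0 then nm p zM oM a else if n = 1 then nm p zM oM b else
        p (nm p zM oM a) (nm p zM oM b))
    exact h rfl rfl rfl
  have hmul : ∀ a b, q (nm p zM oM a) (nm p zM oM b) = nm p zM oM (a * b) := by
    intro a b
    have h := TrE.use hM ((tc a 0).imp ((tc b 1).imp ((TrE.mul hA 0 1 2).imp (tc (a * b) 2))))
      (fun v h0 h1 h2 => by rw [← h2, h0, h1])
      (fun n => if n = 0 then nm p zM oM a else if n = 1 then nm p zM oM b else
        q (nm p zM oM a) (nm p zM oM b))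
    exact h rfl rfl rfl
  let e : ℕ ≃ M := Equiv.ofBijective _ ⟨hinj, hsurj⟩
  have he : ∀ n, e n = nm p zM oM n := fun n => rfl
  have hp : ∀ x y z : M, p x y = z ↔ e.symm x + e.symm y = e.symm z := by
    intro x y z
    obtain ⟨a, rfl⟩ := e.surjective x
    obtain ⟨b, rfl⟩ := e.surjective y
    obtain ⟨c, rfl⟩ := e.surjective z
    simp only [Equiv.symm_apply_apply]
    rw [he, he, he, hadd]
    exact ⟨fun h => hinj h, fun h => by rw [h]⟩
  have hq : ∀ x y z : M, q x y = z ↔ e.symm x * e.symm y = e.symm z := by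
    intro x y z
    obtain ⟨a, rfl⟩ := e.surjective x
    obtain ⟨b, rfl⟩ := e.surjective y
    obtain ⟨c, rfl⟩ := e.surjective z
    simp only [Equiv.symm_apply_apply]
    rw [he, he, he, hmul]
    exact ⟨fun h => hinj h, fun h => by rw [h]⟩
  refine hE.false (α := LR.Equiv M ℕ) ⟨e.symm, ?_, ?_⟩
  · intro n f; exact Empty.elim f
  · intro n r xs
    refine (isGr_std n r (e.symm ∘ xs)).trans (Iff.trans ?_ (hA n r xs).symm)
    simp only [Function.comp_apply, hp, hq]

end

end Pool.Agent.Lib_helper6.TA
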