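import Pool.Agent.Lib_helper6.TA8

set_option autoImplicit false
open FirstOrder FirstOrder.Language Encodable

namespace Pool.Agent.Lib_helper6.TA

attribute [local instance] stdS

/-! ### a calculus of terms -/

section
variable {M : Type} [A : LR.Structure M] {p q : M → M → M}

theorem TrE.exs {P : ℕ → (ℕ → ℕ) → Prop} {P' : M → (ℕ → M) → Prop}
    (h : TrE (fun v => P (v 0) (fun n => v (n + 1)))
      (fun v : ℕ → M => P' (v 0) (fun n => v (n + 1)))) :
    TrE (fun v => ∃ x, P x v) (fun v => ∃ x, P' x v) := by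
  obtain ⟨φ, ha, hb⟩ := h
  have key : ∀ (N : Type) [LR.Structure N] (v : ℕ → N),
      (Formula.iExs (Fin 1) (φ.relabel
        (fun j => if j = 0 then (Sum.inr 0 : ℕ ⊕ Fin 1) else Sum.inl (j - 1)))).Realize v ↔
      ∃ x, φ.Realize (fun n => if n = 0 then x else v (n - 1)) := by
    intro N _ v
    rw [Formula.realize_iExs]
    constructor
    · rintro ⟨w, hw⟩
      refine ⟨w 0, ?_⟩
      rw [Formula.realize_relabel] at hw
      convert hw using 1
      funext j
      by_cases hj : j = 0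
      · subst hj; simp
      · simp [hj]
    · rintro ⟨x, hx⟩
      refine ⟨fun _ => x, ?_⟩
      rw [Formula.realize_relabel]
      convert hx using 1
      funext j
      by_cases hj : j = 0
      · subst hj; simp
      · simp [hj]
  refine ⟨_, fun v => (key ℕ v).trans (exists_congr fun x => ?_),
    fun v => (key M v).trans (exists_congr fun x => ?_)⟩
  · rw [ha]
    simp
  · rw [hb]
    simp

theorem TrE.alls {P : ℕ → (ℕ → ℕ) → Prop} {P' : M → (ℕ → M) → Prop}
    (h : TrE (fun v => P (v 0) (fun n => v (n + 1)))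
      (fun v : ℕ → M => P' (v 0) (fun n => v (n + 1)))) :
    TrE (fun v => ∀ x, P x v) (fun v => ∀ x, P' x v) := by
  have h1 := (TrE.exs (P := fun x v => ¬ P x v) (P' := fun x v => ¬ P' x v) h.not).not
  refine h1.congr ?_ ?_ <;> intro v <;> push Not <;> rfl

/-- terms -/
def Tm (t : (ℕ → ℕ) → ℕ) (t' : (ℕ → M) → M) : Prop :=
  TrE (fun v => t (fun n => v (n + 1)) = v 0) (fun v : ℕ → M => t' (fun n => v (n + 1)) = v 0)

theorem Tm.var (i : ℕ) : Tm (fun v => v i) (fun v : ℕ → M => v i) := TrE.eq (M := M) (i + 1) 0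

theorem Tm.const {n : ℕ} {x : M} (h : ∀ i, TrE (fun v => v i = n) (fun v : ℕ → M => v i = x)) :
    Tm (fun _ => n) (fun _ : ℕ → M => x) :=
  (h 0).congr (fun _ => eq_comm) (fun _ => eq_comm)

theorem Tm.add (hA : IsGr A p q) {s t : (ℕ → ℕ) → ℕ} {s' t' : (ℕ → M) → M} (hs : Tm s s')
    (ht : Tm t t') : Tm (fun v => s v + t v) (fun v => p (s' v) (t' v)) := by
  have h1 : TrE (fun v => s (fun n => v (n + 3)) = v 1)
      (fun v : ℕ → M => s' (fun n => v (n + 3)) = v 1) :=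
    TrE.subst (fun n => Nat.casesOn n 1 (fun m => m + 3)) hs
  have h2 : TrE (fun v => t (fun n => v (n + 3)) = v 0)
      (fun v : ℕ → M => t' (fun n => v (n + 3)) = v 0) :=
    TrE.subst (fun n => Nat.casesOn n 0 (fun m => m + 3)) ht
  have h3 := h1.and (h2.and (TrE.add hA 1 0 2))
  have h4 := TrE.exs (P := fun x v => s (fun n => v (n + 2)) = v 0 ∧
      t (fun n => v (n + 2)) = x ∧ v 0 + x = v 1)
    (P' := fun x v => s' (fun n => v (n + 2)) = v 0 ∧
      t' (fun n => v (n + 2)) = x ∧ p (v 0) x = v 1) h3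
  have h5 := TrE.exs (P := fun y v => ∃ x, s (fun n => v (n + 1)) = y ∧
      t (fun n => v (n + 1)) = x ∧ y + x = v 0)
    (P' := fun y v => ∃ x, s' (fun n => v (n + 1)) = y ∧
      t' (fun n => v (n + 1)) = x ∧ p y x = v 0) h4
  refine h5.congr (fun v => ?_) (fun v => ?_)
  · constructor
    · rintro ⟨x, y, rfl, rfl, h⟩; exact h
    · intro h; exact ⟨_, _, rfl, rfl, h⟩
  · constructor
    · rintro ⟨x, y, rfl, rfl, h⟩; exact h
    · intro h; exact ⟨_, _, rfl, rfl, h⟩

theorem Tm.mul (hA : IsGr A p q) {s t : (ℕ → ℕ) → ℕ} {s' t' : (ℕ → M) → M} (hs : Tm s s')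
    (ht : Tm t t') : Tm (fun v => s v * t v) (fun v => q (s' v) (t' v)) := by
  have h1 : TrE (fun v => s (fun n => v (n + 3)) = v 1)
      (fun v : ℕ → M => s' (fun n => v (n + 3)) = v 1) :=
    TrE.subst (fun n => Nat.casesOn n 1 (fun m => m + 3)) hs
  have h2 : TrE (fun v => t (fun n => v (n + 3)) = v 0)
      (fun v : ℕ → M => t' (fun n => v (n + 3)) = v 0) :=
    TrE.subst (fun n => Nat.casesOn n 0 (fun m => m + 3)) ht
  have h3 := h1.and (h2.and (TrE.mul hA 1 0 2))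
  have h4 := TrE.exs (P := fun x v => s (fun n => v (n + 2)) = v 0 ∧
      t (fun n => v (n + 2)) = x ∧ v 0 * x = v 1)
    (P' := fun x v => s' (fun n => v (n + 2)) = v 0 ∧
      t' (fun n => v (n + 2)) = x ∧ q (v 0) x = v 1) h3
  have h5 := TrE.exs (P := fun y v => ∃ x, s (fun n => v (n + 1)) = y ∧
      t (fun n => v (n + 1)) = x ∧ y * x = v 0)
    (P' := fun y v => ∃ x, s' (fun n => v (n + 1)) = y ∧
      t' (fun n => v (n + 1)) = x ∧ q y x = v 0) h4
  refine h5.congr (fun v => ?_) (fun v => ?_)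
  · constructor
    · rintro ⟨x, y, rfl, rfl, h⟩; exact h
    · intro h; exact ⟨_, _, rfl, rfl, h⟩
  · constructor
    · rintro ⟨x, y, rfl, rfl, h⟩; exact h
    · intro h; exact ⟨_, _, rfl, rfl, h⟩

theorem Tm.up {t : (ℕ → ℕ) → ℕ} {t' : (ℕ → M) → M} (ht : Tm t t') :
    Tm (fun v => t (fun n => v (n + 1))) (fun v => t' (fun n => v (n + 1))) := by
  have h1 : TrE (fun v => t (fun n => v (n + 2)) = v 0)
      (fun v : ℕ → M => t' (fun n => v (n + 2)) = v 0) :=
    TrE.subst (fun n => Nat.casesOn n 0 (fun m => m + 2)) ht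
  exact h1

/-- substitution of a term -/
theorem Tm.sub {P : ℕ → (ℕ → ℕ) → Prop} {P' : M → (ℕ → M) → Prop} {t : (ℕ → ℕ) → ℕ}
    {t' : (ℕ → M) → M} (ht : Tm t t')
    (h : TrE (fun v => P (v 0) (fun n => v (n + 1)))
      (fun v : ℕ → M => P' (v 0) (fun n => v (n + 1)))) :
    TrE (fun v => P (t v) v) (fun v => P' (t' v) v) := by
  have h1 := TrE.exs (P := fun x v => t v = x ∧ P x v) (P' := fun x v => t' v = x ∧ P' x v)
    (TrE.and ht h)
  refine h1.congr (fun v => ?_) (fun v => ?_)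
  · constructor
    · rintro ⟨x, rfl, h⟩; exact h
    · intro h; exact ⟨_, rfl, h⟩
  · constructor
    · rintro ⟨x, rfl, h⟩; exact h
    · intro h; exact ⟨_, rfl, h⟩

theorem TrE.eqt {s t : (ℕ → ℕ) → ℕ} {s' t' : (ℕ → M) → M} (hs : Tm s s') (ht : Tm t t') :
    TrE (fun v => s v = t v) (fun v => s' v = t' v) :=
  Tm.sub (P := fun x v => s v = x) (P' := fun x v => s' v = x) ht hs

theorem TrE.rel1 {R : ℕ → Prop} {R' : M → Prop}
    (h : TrE (fun v => R (v 0)) (fun v => R' (v 0))) {t : (ℕ → ℕ) → ℕ} {t' : (ℕ → M) → M}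
    (ht : Tm t t') : TrE (fun v => R (t v)) (fun v => R' (t' v)) :=
  Tm.sub (P := fun x _ => R x) (P' := fun x _ => R' x) ht h

theorem TrE.rel2 {R : ℕ → ℕ → Prop} {R' : M → M → Prop}
    (h : TrE (fun v => R (v 0) (v 1)) (fun v => R' (v 0) (v 1)))
    {s t : (ℕ → ℕ) → ℕ} {s' t' : (ℕ → M) → M}
    (hs : Tm s s') (ht : Tm t t') : TrE (fun v => R (s v) (t v)) (fun v => R' (s' v) (t' v)) :=
  Tm.sub (P := fun x v => R x (t v)) (P' := fun x v => R' x (t' v)) hs
    (Tm.sub (P := fun x v => R (v 0) x) (P' := fun x v => R' (v 0) x) ht.up (h.sub2 1 0))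

theorem TrE.rel3 {R : ℕ → ℕ → ℕ → Prop} {R' : M → M → M → Prop}
    (h : TrE (fun v => R (v 0) (v 1) (v 2)) (fun v => R' (v 0) (v 1) (v 2)))
    {r s t : (ℕ → ℕ) → ℕ} {r' s' t' : (ℕ → M) → M} (hr : Tm r r')
    (hs : Tm s s') (ht : Tm t t') :
    TrE (fun v => R (r v) (s v) (t v)) (fun v => R' (r' v) (s' v) (t' v)) :=
  Tm.sub (P := fun x v => R x (s v) (t v)) (P' := fun x v => R' x (s' v) (t' v)) hr
    (Tm.sub (P := fun x v => R (v 0) x (t (fun n => v (n + 1))))
      (P' := fun x v => R' (v 0) x (t' (fun n => v (n + 1)))) hs.up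
      (Tm.sub (P := fun x v => R (v 1) (v 0) x) (P' := fun x v => R' (v 1) (v 0) x) ht.up.up
        (h.sub3 2 1 0)))

end

end Pool.Agent.Lib_helper6.TA
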